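import Pool.Agent.Lib.H93A.Defs

/-!
# H93A, T4Defs: the constants

See `PROOF.md`.
-/

set_option autoImplicit false

open Finset
open scoped Classical

namespace Pool.Agent.Lib.H93A

/-- the inequalities between the constants (`PROOF.md`, 1.0); `ρ = d^T/16` -/
structure ConstHyp (kmax j0 T L : ℕ) (K c1 θ1 ε d e' s κ τ p0 : ℝ) : Prop where
  j0_pos : 1 ≤ j0
  kmax_pos : 1 ≤ kmax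
  T_pos : 1 ≤ T
  L_pos : 1 ≤ L
  K_ge : 1 ≤ K
  c1_pos : 0 < c1
  c1_le : c1 ≤ 1
  ε_pos : 0 < ε
  d_pos : 0 < d
  d_le : d ≤ 1
  e'_pos : 0 < e'
  he' : 512 * K ^ 2 * e' ≤ c1
  hε1 : ε ≤ d ^ T * e'
  hε2 : 8 * (T : ℝ) ^ 2 * ε * (64 * K ^ 2 * κ + 1) ^ T ≤ 1
  τ_nonneg : 0 ≤ τ
  hT : 2048 * K ^ 2 * j0 * τ ≤ c1 * T
  s_pos : 0 < s
  hs : 4097 * K ^ 4 * s ≤ (d ^ T / 16) ^ j0 * c1 / 8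
  hκ : κ = L * s
  hL : τ < L * ((d ^ T / 16) ^ j0 * s * c1 / (8 * j0))
  p0_pos : 0 < p0
  hp1 : p0 * (j0 : ℝ) ^ L * (4 * j0 * L) ≤ 1
  hp2 : 20 * K ^ 2 * (j0 : ℝ) ^ 3 * (κ + 1) ^ 2 * (p0 * (j0 : ℝ) ^ L) ≤ (d ^ T / 16) ^ j0 * s * c1 / 8
  hθ0 : 0 ≤ θ1
  hθ : θ1 * ((j0 : ℝ) ^ 2 * (kmax : ℝ) ^ (2 * j0)) ≤ p0 ^ j0

end Pool.Agent.Lib.H93A
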