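import Pool.Agent.Lib.H93A.ATDefs
import Pool.Agent.Lib.H93A.T4Defs

/-!
# H93A, AT1: the choice of the constants

See `PROOF.md`.
-/

set_option autoImplicit false

open Finset
open scoped Classical

namespace Pool.Agent.Lib.H93A

theorem at1_min (a b : ℝ) (ha : 0 < a) (hb : 0 < b) : ∃ x : ℝ, 0 < x ∧ x ≤ a ∧ x ≤ b :=
  ⟨min a b, lt_min ha hb, min_le_left _ _, min_le_right _ _⟩

theorem at1_nat (a : ℝ) : ∃ n : ℕ, 1 ≤ n ∧ a < n := by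
  obtain ⟨n, hn⟩ := exists_nat_gt a
  refine ⟨n + 1, by omega, ?_⟩
  push_cast
  linarith

/-- The choice of the constants for given `θ2` (`PROOF.md`, 1.0): `η = c1/(16K²)`, `d = η/16`, `T`, `s`, `L`,
`κ = L s`, `e' = c1/(512 K²)`, `ε`, then `kmax`, `m0` from `lemmaR`, `p0`, `θ1`. -/
theorem const_exists (K c1 : ℝ) (j0 : ℕ) (hK : 1 ≤ K) (hc : 0 < c1) (hc1 : c1 ≤ 1) (hj : 1 ≤ j0)
    (τ θ2 : ℝ) (hτ : 0 ≤ τ) (hθ2 : 0 < θ2) :
    ∃ (kmax m0 T L : ℕ) (θ1 ε e' s κ p0 : ℝ), 0 < θ1 ∧ θ1 < θ2 ∧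
      ConstHyp kmax j0 T L K c1 θ1 ε (c1 / (16 * K ^ 2) / 16) e' s κ τ p0 ∧
      LemmaRFor (c1 / (16 * K ^ 2)) ε kmax m0 := by
  have hK0 : 0 < K := by linarith
  have hj' : (1 : ℝ) ≤ j0 := by exact_mod_cast hj
  have hj0 : (0 : ℝ) < j0 := by linarith
  have hK2 : 1 ≤ K ^ 2 := by nlinarith
  obtain ⟨η, hη⟩ : ∃ η, η = c1 / (16 * K ^ 2) := ⟨_, rfl⟩
  have hη0 : 0 < η := by rw [hη]; positivity
  have hη1 : η ≤ 1 := by
    rw [hη, div_le_one (by positivity)]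
    nlinarith
  rw [← hη]
  obtain ⟨d, hd⟩ : ∃ d, d = η / 16 := ⟨_, rfl⟩
  have hd0 : 0 < d := by rw [hd]; positivity
  have hd1 : d ≤ 1 := by rw [hd]; linarith
  rw [← hd]
  obtain ⟨T, hT1, hT⟩ := at1_nat (2048 * K ^ 2 * j0 * τ / c1)
  have hT0 : (0 : ℝ) < T := by exact_mod_cast hT1
  obtain ⟨G, hG⟩ : ∃ G, G = (d ^ T / 16) ^ j0 := ⟨_, rfl⟩
  have hG0 : 0 < G := by rw [hG]; positivity
  obtain ⟨s, hs⟩ : ∃ s, s = G * c1 / 8 / (4097 * K ^ 4) := ⟨_, rfl⟩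
  have hs0 : 0 < s := by rw [hs]; positivity
  obtain ⟨g, hg⟩ : ∃ g, g = G * s * c1 / (8 * j0) := ⟨_, rfl⟩
  have hg0 : 0 < g := by rw [hg]; positivity
  obtain ⟨L, hL1, hL⟩ := at1_nat (τ / g)
  have hL0 : (0 : ℝ) < L := by exact_mod_cast hL1
  obtain ⟨κ, hκ⟩ : ∃ κ, κ = (L : ℝ) * s := ⟨_, rfl⟩
  have hκ0 : 0 < κ := by rw [hκ]; positivity
  obtain ⟨e', he'⟩ : ∃ e', e' = c1 / (512 * K ^ 2) := ⟨_, rfl⟩
  have he0 : 0 < e' := by rw [he']; positivity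
  obtain ⟨ε, hε0, hε1, hε2⟩ := at1_min (d ^ T * e')
    (1 / (8 * (T : ℝ) ^ 2 * (64 * K ^ 2 * κ + 1) ^ T)) (by positivity) (by positivity)
  obtain ⟨kmax, m0, hkm, hR⟩ := lemmaR η ε hη0 hη1 hε0
  have hkm0 : (0 : ℝ) < kmax := by exact_mod_cast hkm
  obtain ⟨q, hq0, hq1, hq2⟩ := at1_min (1 / (4 * (j0 : ℝ) * L))
    (G * s * c1 / 8 / (20 * K ^ 2 * (j0 : ℝ) ^ 3 * (κ + 1) ^ 2)) (by positivity) (by positivity)
  obtain ⟨p0, hp0⟩ : ∃ p0, p0 = q / (j0 : ℝ) ^ L := ⟨_, rfl⟩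
  have hp0' : 0 < p0 := by rw [hp0]; positivity
  have hp0q : p0 * (j0 : ℝ) ^ L = q := by
    rw [hp0]
    field_simp
  obtain ⟨θ1, hθ0, hθ1, hθ3⟩ := at1_min (θ2 / 2)
    (p0 ^ j0 / ((j0 : ℝ) ^ 2 * (kmax : ℝ) ^ (2 * j0))) (by positivity) (by positivity)
  refine ⟨kmax, m0, T, L, θ1, ε, e', s, κ, p0, hθ0, by linarith, ?_, hR⟩
  exact {
    j0_pos := hj
    kmax_pos := hkm
    T_pos := hT1
    L_pos := hL1
    K_ge := hK
    c1_pos := hc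
    c1_le := hc1
    ε_pos := hε0
    d_pos := hd0
    d_le := hd1
    e'_pos := he0
    he' := by
      rw [he']
      apply le_of_eq
      field_simp
    hε1 := hε1
    hε2 := by
      rw [le_div_iff₀ (by positivity)] at hε2
      calc 8 * (T : ℝ) ^ 2 * ε * (64 * K ^ 2 * κ + 1) ^ T =
          ε * (8 * (T : ℝ) ^ 2 * (64 * K ^ 2 * κ + 1) ^ T) := by ring
        _ ≤ 1 := hε2
    τ_nonneg := hτ
    hT := by
      rw [div_lt_iff₀ hc] at hT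
      linarith
    s_pos := hs0
    hs := by
      rw [← hG, hs]
      apply le_of_eq
      field_simp
    hκ := hκ
    hL := by
      rw [← hG, ← hg]
      rw [div_lt_iff₀ hg0] at hL
      exact hL
    p0_pos := hp0'
    hp1 := by
      rw [hp0q]
      rw [le_div_iff₀ (by positivity)] at hq1
      exact hq1
    hp2 := by
      rw [hp0q, ← hG]
      rw [le_div_iff₀ (by positivity)] at hq2
      linarith
    hθ0 := hθ0.le
    hθ := by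
      rw [le_div_iff₀ (by positivity)] at hθ3
      exact hθ3 }

end Pool.Agent.Lib.H93A
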