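import Pool.Agent.Lib.H93A.G2A

/-!
# H93A, G2C: |J(S)| <= D2 |P|

See `PROOF.md`.
-/

set_option autoImplicit false

open Finset
open scoped Classical

namespace Pool.Agent.Lib.H93A

variable {Q R M : Type} [Fintype Q] [Fintype R] [Fintype M]

/-- If `P` contains all `pos x i`, `x ∈ S ⊆ E`, then `|J(S)| ≤ (1 + 4 j0 K²/θ2) |P|`. -/
theorem card_JS_le {n N j0 b : ℕ} {K c θ2 : ℝ} {H : Finset (Q × R)} {A : M → Finset Q}
    {B : M → Finset R} {conf : Q × R → Q × R → Prop} (h : ATHyp n N j0 K c H A B conf)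
    (hθ : 0 < θ2) (E : Finset (Q × R)) (pos : Q × R → Fin b → M)
    (hdom : ∀ x ∈ E, ∀ f ∈ Jset A B x, ∃ i, f = pos x i ∨ Strong N θ2 H A B (pos x i) f)
    (S : Finset (Q × R)) (hS : S ⊆ E) (P : Finset M) (hP : ∀ x ∈ S, ∀ i, pos x i ∈ P) :
    ((JS A B S).card : ℝ) ≤
      (1 + 4 * j0 * K ^ 2 / θ2) * P.card := by
  have hsub : JS A B S ⊆ P.biUnion fun f => insert f (univ.filter fun f' => Strong N θ2 H A B f f') := by
    intro f hf
    simp only [JS, Finset.mem_filter, Finset.mem_univ, true_and] at hf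
    obtain ⟨x, hx, hfx⟩ := hf
    obtain ⟨i, hi⟩ := hdom x (hS hx) f hfx
    rw [Finset.mem_biUnion]
    refine ⟨pos x i, hP x hx i, ?_⟩
    rw [Finset.mem_insert, Finset.mem_filter]
    rcases hi with hi | hi
    · exact Or.inl hi
    · exact Or.inr ⟨Finset.mem_univ _, hi⟩
  have h1 : ((JS A B S).card : ℝ) ≤
      ∑ f ∈ P, ((insert f (univ.filter fun f' => Strong N θ2 H A B f f')).card : ℝ) := by
    have := (Finset.card_le_card hsub).trans Finset.card_biUnion_le
    exact_mod_cast this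
  refine h1.trans ?_
  have h2 : ∀ f ∈ P, ((insert f (univ.filter fun f' => Strong N θ2 H A B f f')).card : ℝ) ≤
      1 + 4 * j0 * K ^ 2 / θ2 := by
    intro f _
    have h3 : ((insert f (univ.filter fun f' => Strong N θ2 H A B f f')).card : ℝ) ≤
        ((univ.filter fun f' => Strong N θ2 H A B f f').card : ℝ) + 1 := by
      exact_mod_cast Finset.card_insert_le _ _
    have h4 := card_strong_le h hθ f
    linarith
  refine (Finset.sum_le_sum h2).trans (le_of_eq ?_)
  rw [Finset.sum_const, nsmul_eq_mul]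
  ring

end Pool.Agent.Lib.H93A
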