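import Pool.Agent.Lib.H93A.P1

/-!
# H93A, ODefs: definitions for the openness lemma (`PROOF.md`, 1.4), and two facts on systems
-/

set_option autoImplicit false

open Finset
open scoped Classical

namespace Pool.Agent.Lib.H93A

variable {Q R M : Type} [Fintype Q] [Fintype R] [Fintype M] {D : Core Q R M} {Ω : Type} [Fintype Ω]

/-- the cell `c` is full at `f` -/
def FullCell (Y : Sys D Ω) (T : ℕ) (p : ℝ) (f : M) (c : ℕ × ℕ) : Prop :=
  p / (4 * (D.k f : ℝ) ^ 2) ≤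
    pr Y.μ (fun ω => (f ∈ Y.P ω ∧ Y.C ω f = c) ∧ T ≤ (D.hist (Y.S ω) f).card)

/-- `N(b)` at `f`, restricted to a set `A'` and intersected over the second coordinates of `Z` -/
noncomputable def comm (D : Core Q R M) (f : M) (A' : Finset Q) (Z : Finset (Q × R)) : Finset Q :=
  A'.filter fun a => ∀ y ∈ Z, (a, y.2) ∈ D.Xf f

/-- the elements of `X_f` in the cell `c` -/
noncomputable def cellSet (D : Core Q R M) (f : M) (c : ℕ × ℕ) : Finset (Q × R) :=
  (D.Xf f).filter fun y => D.cell f y = c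

/-- `φ(a)` -/
noncomputable def phi (Y : Sys D Ω) (T : ℕ) (f : M) (c : ℕ × ℕ) (a : Q) : ℝ :=
  pr Y.μ (fun ω => (f ∈ Y.P ω ∧ Y.C ω f = c) ∧ (D.hist (Y.S ω) f).card < T ∧
    ∀ y ∈ D.hist (Y.S ω) f, (a, y.2) ∈ D.Xf f)

/-- the elements of the history of `f` lie in the cell `C f` -/
theorem hist_sub_cellSet {kmax j0 : ℕ} {K c1 θ1 ε d p κ δ : ℝ}
    (hD : CoreHyp D kmax j0 K c1 θ1 ε d) {Y : Sys D Ω} (hY : SysHyp Y p κ δ)
    (ω : Ω) (f : M) (c : ℕ × ℕ) (hc : Y.C ω f = c) : D.hist (Y.S ω) f ⊆ cellSet D f c := by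
  intro y hy
  simp only [Core.hist, mem_filter] at hy
  obtain ⟨hyS, i, hi⟩ := hy
  have h1 := hY.s1' ω y hyS i
  have hX := hY.S_sub ω hyS
  simp only [cellSet, Core.Xf, mem_filter]
  refine ⟨⟨hD.X_sub hX, i, hi⟩, ?_⟩
  rw [← hc, ← hi, h1.2]

end Pool.Agent.Lib.H93A
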