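import Pool.Agent.Lib.H93A.G2B
import Pool.Agent.Lib.H93A.G2C
import Pool.Agent.Lib.H93A.ODefs

/-!
# H93A, G2D: the core data

See `PROOF.md`.
-/

set_option autoImplicit false

open Finset
open scoped Classical

namespace Pool.Agent.Lib.H93A

variable {Q R M : Type} [Fintype Q] [Fintype R] [Fintype M]

/-- The core data. `m = ⌈K √N⌉`; apply Lemma R (in the form of the hypothesis `hR`, which is the
conclusion of `lemmaR` for `η`, `ε`, `kmax`, `m0`) to `F = X_f` for every `f`, with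
`A = (X_f).image fst`, `B = (X_f).image snd`; `X` = the elements of `E` whose cells are all good. -/
theorem exists_core {n N j0 kmax m0 : ℕ} {K c θ1 θ2 η ε : ℝ} {H : Finset (Q × R)} {A : M → Finset Q}
    {B : M → Finset R} {conf : Q × R → Q × R → Prop} (h : ATHyp n N j0 K c H A B conf)
    (hj : 1 ≤ j0) (hc : 0 < c) (hc1 : c ≤ 1) (hJ : ∀ x ∈ H, (Jset A B x).Nonempty)
    (hgap : 2 * (gapSet N θ1 θ2 H A B).card ≤ H.card) (hθ1 : 0 < θ1) (hθ2 : 0 < θ2)
    (hη : 0 < η) (hη2 : 16 * K ^ 2 * η ≤ c / (2 * j0)) (hε : 0 < ε)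
    (hN : (m0 : ℝ) ≤ K * Real.sqrt N)
    (hR : ∀ m ≥ m0, ∀ (Q R : Type) (A : Finset Q) (B : Finset R)
      (F : Finset (Q × R)), A.card ≤ m → B.card ≤ m → F ⊆ A ×ˢ B →
      ∃ (k : ℕ) (iA : Q → ℕ) (iB : R → ℕ) (Good : ℕ → ℕ → Prop),
        1 ≤ k ∧ k ≤ kmax ∧ (∀ a, iA a < k) ∧ (∀ b, iB b < k) ∧
        (∀ u, ((A.filter fun a => iA a = u).card : ℝ) ≤ 4 * m / k) ∧
        (∀ v, ((B.filter fun b => iB b = v).card : ℝ) ≤ 4 * m / k) ∧
        ((F.filter fun x => ¬ Good (iA x.1) (iB x.2)).card : ℝ) ≤ η * (m : ℝ) ^ 2 ∧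
        ∀ u v, Good u v → ∀ A' ⊆ A.filter fun a => iA a = u, ∀ B' ⊆ B.filter fun b => iB b = v,
          ε * (4 * m / k) ≤ A'.card → ε * (4 * m / k) ≤ B'.card →
          η / 16 * A'.card * B'.card ≤ ((F ∩ A' ×ˢ B').card : ℝ)) :
    ∃ D : Core Q R M, CoreHyp D kmax j0 K (c / (2 * j0)) θ1 ε (η / 16) ∧ D.N = N ∧ D.n = n ∧ D.X ⊆ H ∧
      D.conf = conf ∧
      ∀ (S : Finset (Q × R)) (P : Finset M), S ⊆ D.X → (∀ x ∈ S, ∀ i, D.pos x i ∈ P) →
        ((JS A B S).card : ℝ) ≤
          (1 + 4 * j0 * K ^ 2 / θ2) * P.card := by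
  have hK := h.hK
  have hK0 : (0 : ℝ) < K := by linarith
  have hNpos : (1 : ℝ) ≤ N := by exact_mod_cast h.N_pos
  have hsq1 : (1 : ℝ) ≤ Real.sqrt N := Real.one_le_sqrt.mpr hNpos
  have hsqN : Real.sqrt N ^ 2 = N := Real.sq_sqrt (by linarith)
  obtain ⟨b, E, pos, hb1, hbj, hEH, hEcard, hinj, hposJ, hweak, hdom⟩ := exists_pos h hj hc hJ hgap
  obtain ⟨m, hm⟩ : ∃ m : ℕ, m = ⌈K * Real.sqrt N⌉₊ := ⟨_, rfl⟩
  have hmge : K * Real.sqrt N ≤ (m : ℝ) := by rw [hm]; exact Nat.le_ceil _
  have hKs : (1 : ℝ) ≤ K * Real.sqrt N := by nlinarith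
  have hmle : (m : ℝ) ≤ 2 * (K * Real.sqrt N) := by
    have h1 : (m : ℝ) < K * Real.sqrt N + 1 := by
      rw [hm]; exact Nat.ceil_lt_add_one (by linarith)
    linarith
  have hm1R : (1 : ℝ) ≤ m := by linarith
  have hm1 : 1 ≤ m := by exact_mod_cast hm1R
  have hmm0 : m ≥ m0 := by
    have h1 : (m0 : ℝ) ≤ m := hN.trans hmge
    exact_mod_cast h1
  have hmsq : (m : ℝ) ^ 2 ≤ 4 * K ^ 2 * N := by
    calc (m : ℝ) ^ 2 ≤ (2 * (K * Real.sqrt N)) ^ 2 := by
          apply pow_le_pow_left₀ (by linarith) hmle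
      _ = 4 * K ^ 2 * Real.sqrt N ^ 2 := by ring
      _ = 4 * K ^ 2 * N := by rw [hsqN]
  -- the sets `X_f`
  obtain ⟨Xf, hXf⟩ : ∃ Xf : M → Finset (Q × R),
      ∀ f, Xf f = E.filter fun x => ∃ i, pos x i = f := ⟨_, fun f => rfl⟩
  have hXfEf : ∀ f, Xf f ⊆ Ef H A B f := by
    intro f x hx
    rw [hXf, Finset.mem_filter] at hx
    obtain ⟨hxE, i, hi⟩ := hx
    have hJx := hposJ x hxE i
    rw [hi] at hJx
    simp only [Jset, Finset.mem_filter, Finset.mem_univ, true_and] at hJx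
    simp only [Ef, Finset.mem_filter]
    exact ⟨hEH hxE, hJx⟩
  have hXA : ∀ f, ((Xf f).image Prod.fst).card ≤ m := by
    intro f
    have h1 : (Xf f).image Prod.fst ⊆ A f := by
      intro a ha
      rw [Finset.mem_image] at ha
      obtain ⟨x, hx, rfl⟩ := ha
      have := hXfEf f hx
      simp only [Ef, Finset.mem_filter] at this
      exact this.2.1
    have h2 : (((Xf f).image Prod.fst).card : ℝ) ≤ m := by
      have h3 : (((Xf f).image Prod.fst).card : ℝ) ≤ (A f).card := by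
        exact_mod_cast Finset.card_le_card h1
      exact (h3.trans (h.cardA f)).trans hmge
    exact_mod_cast h2
  have hXB : ∀ f, ((Xf f).image Prod.snd).card ≤ m := by
    intro f
    have h1 : (Xf f).image Prod.snd ⊆ B f := by
      intro a ha
      rw [Finset.mem_image] at ha
      obtain ⟨x, hx, rfl⟩ := ha
      have := hXfEf f hx
      simp only [Ef, Finset.mem_filter] at this
      exact this.2.2
    have h2 : (((Xf f).image Prod.snd).card : ℝ) ≤ m := by
      have h3 : (((Xf f).image Prod.snd).card : ℝ) ≤ (B f).card := by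
        exact_mod_cast Finset.card_le_card h1
      exact (h3.trans (h.cardB f)).trans hmge
    exact_mod_cast h2
  have hXprod : ∀ f, Xf f ⊆ (Xf f).image Prod.fst ×ˢ (Xf f).image Prod.snd := by
    intro f x hx
    rw [Finset.mem_product]
    exact ⟨Finset.mem_image_of_mem _ hx, Finset.mem_image_of_mem _ hx⟩
  have hall : ∀ f : M, ∃ (k : ℕ) (iA : Q → ℕ) (iB : R → ℕ) (Good : ℕ → ℕ → Prop),
        1 ≤ k ∧ k ≤ kmax ∧ (∀ a, iA a < k) ∧ (∀ b, iB b < k) ∧
        (∀ u, ((((Xf f).image Prod.fst).filter fun a => iA a = u).card : ℝ) ≤ 4 * m / k) ∧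
        (∀ v, ((((Xf f).image Prod.snd).filter fun b => iB b = v).card : ℝ) ≤ 4 * m / k) ∧
        (((Xf f).filter fun x => ¬ Good (iA x.1) (iB x.2)).card : ℝ) ≤ η * (m : ℝ) ^ 2 ∧
        ∀ u v, Good u v → ∀ A' ⊆ ((Xf f).image Prod.fst).filter fun a => iA a = u,
          ∀ B' ⊆ ((Xf f).image Prod.snd).filter fun b => iB b = v,
          ε * (4 * m / k) ≤ A'.card → ε * (4 * m / k) ≤ B'.card →
          η / 16 * A'.card * B'.card ≤ (((Xf f) ∩ A' ×ˢ B').card : ℝ) :=
    fun f => hR m hmm0 Q R _ _ (Xf f) (hXA f) (hXB f) (hXprod f)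
  choose k iA iB Good hk1 hkmax hiA hiB hclA hclB hbad hgood using hall
  obtain ⟨X, hXdef⟩ : ∃ X : Finset (Q × R), X = E.filter fun x =>
      ∀ i, Good (pos x i) (iA (pos x i) x.1) (iB (pos x i) x.2) := ⟨_, rfl⟩
  have hXE : X ⊆ E := by rw [hXdef]; exact Finset.filter_subset _ _
  have hXcard : (3 / 4) * (c / (2 * j0)) * ((n : ℝ) * N) ≤ X.card := by
    have hsub : E \ X ⊆ univ.biUnion fun f : M =>
        (Xf f).filter fun x => ¬ Good f (iA f x.1) (iB f x.2) := by
      intro x hx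
      rw [Finset.mem_sdiff] at hx
      obtain ⟨hxE, hxX⟩ := hx
      rw [hXdef, Finset.mem_filter] at hxX
      have : ∃ i, ¬ Good (pos x i) (iA (pos x i) x.1) (iB (pos x i) x.2) := by
        by_contra hcon
        push Not at hcon
        exact hxX ⟨hxE, hcon⟩
      obtain ⟨i, hi⟩ := this
      rw [Finset.mem_biUnion]
      refine ⟨pos x i, Finset.mem_univ _, ?_⟩
      rw [Finset.mem_filter]
      refine ⟨?_, hi⟩
      rw [hXf, Finset.mem_filter]
      exact ⟨hxE, i, rfl⟩
    have h1 : ((E \ X).card : ℝ) ≤ ∑ f : M, η * (m : ℝ) ^ 2 := by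
      have h2 := (Finset.card_le_card hsub).trans Finset.card_biUnion_le
      have h3 : ((E \ X).card : ℝ) ≤ ∑ f : M,
          (((Xf f).filter fun x => ¬ Good f (iA f x.1) (iB f x.2)).card : ℝ) := by
        exact_mod_cast h2
      exact h3.trans (Finset.sum_le_sum fun f _ => hbad f)
    rw [Finset.sum_const, nsmul_eq_mul, Finset.card_univ] at h1
    have h2 : ((Fintype.card M : ℕ) : ℝ) ≤ n := by exact_mod_cast h.cardM
    have h3 : ((E \ X).card : ℝ) + X.card = E.card := by
      exact_mod_cast Finset.card_sdiff_add_card_eq_card hXE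
    have h4 : ((Fintype.card M : ℕ) : ℝ) * (η * (m : ℝ) ^ 2) ≤ n * (η * (4 * K ^ 2 * N)) := by
      apply mul_le_mul h2 _ (by positivity) (by positivity)
      exact mul_le_mul_of_nonneg_left hmsq hη.le
    have h5 : (n : ℝ) * (η * (4 * K ^ 2 * N)) ≤ (1 / 4) * (c / (2 * j0)) * ((n : ℝ) * N) := by
      have h6 : (0 : ℝ) ≤ (n : ℝ) * N := by positivity
      have h7 : 4 * K ^ 2 * η ≤ (1 / 4) * (c / (2 * j0)) := by linarith
      calc (n : ℝ) * (η * (4 * K ^ 2 * N)) = (4 * K ^ 2 * η) * ((n : ℝ) * N) := by ring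
        _ ≤ (1 / 4) * (c / (2 * j0)) * ((n : ℝ) * N) := mul_le_mul_of_nonneg_right h7 h6
    linarith
  let D : Core Q R M := {
    n := n, N := N, m := m, b := b, E := E, pos := pos, k := k, iA := iA, iB := iB, X := X,
    conf := conf }
  have hDXf : ∀ f, D.Xf f = Xf f := by
    intro f
    rw [hXf]
    ext x
    unfold Core.Xf
    rw [Finset.mem_filter, Finset.mem_filter]
    rfl
  have hDclA : ∀ f u, D.clA f u = ((Xf f).image Prod.fst).filter fun a => iA f a = u := by
    intro f u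
    unfold Core.clA
    rw [hDXf]
  have hDclB : ∀ f u, D.clB f u = ((Xf f).image Prod.snd).filter fun a => iB f a = u := by
    intro f u
    unfold Core.clB
    rw [hDXf]
  refine ⟨D, ?_, rfl, rfl, hXE.trans hEH, rfl, ?_⟩
  · refine {
      b_pos := hb1
      b_le := hbj
      hK := hK
      N_pos := h.N_pos
      n_pos := h.n_pos
      cardM := h.cardM
      cardE := ?_
      pos_inj := hinj
      k_pos := hk1
      k_le := hkmax
      m_pos := hm1
      m_sq := hmsq
      X_sub := hXE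
      cardX := hXcard
      cardXf := ?_
      iA_lt := fun f x _ => hiA f x.1
      iB_lt := fun f x _ => hiB f x.2
      clA_le := ?_
      clB_le := ?_
      good := ?_
      weak := ?_
      conf_symm := h.symm
      conf_card := ?_
      conf_not := ?_ }
    · have h1 : (E.card : ℝ) ≤ H.card := by exact_mod_cast Finset.card_le_card hEH
      exact h1.trans h.cardH
    · intro f
      rw [hDXf]
      have h1 := Finset.card_le_card (hXprod f)
      rw [Finset.card_product] at h1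
      have h2 : (Xf f).card ≤ m * m := h1.trans (Nat.mul_le_mul (hXA f) (hXB f))
      have h3 : ((Xf f).card : ℝ) ≤ (m : ℝ) * m := by exact_mod_cast h2
      show ((Xf f).card : ℝ) ≤ (m : ℝ) ^ 2
      rw [pow_two]
      exact h3
    · intro f u
      rw [hDclA]
      exact hclA f u
    · intro f u
      rw [hDclB]
      exact hclB f u
    · intro x hx i
      have hx' : x ∈ X := hx
      rw [hXdef, Finset.mem_filter] at hx'
      have hg := hx'.2 i
      unfold Core.Good
      intro A' hA' B' hB' h1 h2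
      rw [hDclA] at hA'
      rw [hDclB] at hB'
      rw [hDXf]
      exact hgood (pos x i) _ _ hg A' hA' B' hB' h1 h2
    · intro x hx i j hij
      rw [hDXf, hDXf]
      have h1 := hweak x hx i j hij
      have h2 : ((Xf (pos x i) ∩ Xf (pos x j)).card : ℝ) ≤
          ((Ef H A B (pos x i) ∩ Ef H A B (pos x j)).card : ℝ) := by
        exact_mod_cast Finset.card_le_card
          (Finset.inter_subset_inter (hXfEf (pos x i)) (hXfEf (pos x j)))
      exact (h2.trans h1.le)
    · intro x hx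
      have h1 := h.conf_card x (hEH (hXE hx))
      have h2 : ((X.filter fun y => conf x y).card : ℝ) ≤
          ((H.filter fun y => conf x y).card : ℝ) := by
        exact_mod_cast Finset.card_le_card
          (Finset.filter_subset_filter _ (hXE.trans hEH))
      exact h2.trans h1
    · intro x hx y hy h1 h2 h3
      exact h.conf_not x (hEH (hXE hx)) y (hEH (hXE hy)) h1 h2 (hEH h3)
  · intro S P hS hP
    exact card_JS_le h hθ2 E pos hdom S (hS.trans hXE) P hP

end Pool.Agent.Lib.H93A
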