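import Pool.Agent.Lib.H93A.T4C

/-!
# H93A, T4: conclusion of the core part (proved from the other chunks)

See `PROOF.md`.
-/

set_option autoImplicit false

open Finset
open scoped Classical

namespace Pool.Agent.Lib.H93A

variable {Q R M : Type} [Fintype Q] [Fintype R] [Fintype M] {D : Core Q R M}

/-- Conclusion of the core part: a set `S ⊆ X` without conflicts and a set `P` of blocks containing all
blocks of `S` with `|S| > τ |P|`. -/
theorem core_conclusion {kmax j0 T L : ℕ} {K c1 θ1 ε d e' s κ τ p0 : ℝ}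
    (hc : ConstHyp kmax j0 T L K c1 θ1 ε d e' s κ τ p0)
    (hD : CoreHyp D kmax j0 K c1 θ1 ε d)
    (hN1 : s * (kmax : ℝ) ^ (2 * j0) ≤ D.N * p0 ^ j0)
    (hN2 : 256 * K * κ * kmax ≤ d ^ T * Real.sqrt D.N) :
    ∃ (S : Finset (Q × R)) (P : Finset M), S ⊆ D.X ∧ S.Nonempty ∧
      (∀ x ∈ S, ∀ y ∈ S, x ≠ y → ¬ D.conf x y) ∧ (∀ x ∈ S, ∀ i, D.pos x i ∈ P) ∧
      τ * (P.card : ℝ) < S.card := by
  obtain ⟨Ω, _, Y, p, κ', δ, hY, hS⟩ := iteration hc hD hN1 hN2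
  have h1 := ex_cardP_le hD hY
  have h2 : ex Y.μ (fun ω => τ * ((Y.P ω).card : ℝ)) < ex Y.μ (fun ω => ((Y.S ω).card : ℝ)) := by
    rw [ex_const_mul]
    calc τ * ex Y.μ (fun ω => ((Y.P ω).card : ℝ)) ≤ τ * (p * D.n) :=
          mul_le_mul_of_nonneg_left h1 hc.τ_nonneg
      _ = τ * p * D.n := by ring
      _ < _ := hS
  obtain ⟨ω, hω⟩ := exists_lt_of_ex_lt hY.prob _ _ h2
  refine ⟨Y.S ω, Y.P ω, hY.S_sub ω, ?_, hY.s1 ω, fun x hx i => (hY.s1' ω x hx i).1, hω⟩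
  rw [← card_pos]
  have h3 : (0 : ℝ) < ((Y.S ω).card : ℝ) :=
    lt_of_le_of_lt (mul_nonneg hc.τ_nonneg (Nat.cast_nonneg _)) hω
  exact_mod_cast h3

end Pool.Agent.Lib.H93A
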