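import Pool.Agent.Lib.H93A.AT1
import Pool.Agent.Lib.H93A.T4
import Pool.Agent.Lib.H93A.G2D

/-!
# H93A, AT2: one scale

See `PROOF.md`.
-/

set_option autoImplicit false

open Finset
open scoped Classical

namespace Pool.Agent.Lib.H93A

/-- The case of one scale: for given `θ2` there is `θ1 < θ2` and `N0` such that AT holds for all data with
few elements with a pair of blockers in the gap `[θ1, θ2)`. -/
theorem AT_scale (K c Λ : ℝ) (j0 : ℕ) (hK : 1 ≤ K) (hc : 0 < c) (hc1 : c ≤ 1) (hj : 1 ≤ j0)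
    (hΛ : 0 ≤ Λ) (θ2 : ℝ) (hθ2 : 0 < θ2) :
    ∃ θ1 : ℝ, 0 < θ1 ∧ θ1 < θ2 ∧ ∃ N0 : ℕ, ∀ N ≥ N0, ∀ (n : ℕ) (Q R M : Type) [Fintype Q] [Fintype R]
      [Fintype M] (H : Finset (Q × R)) (A : M → Finset Q) (B : M → Finset R)
      (conf : Q × R → Q × R → Prop), ATHyp n N j0 K c H A B conf →
      (∀ x ∈ H, (Jset A B x).Nonempty) → 2 * (gapSet N θ1 θ2 H A B).card ≤ H.card →
      ∃ S ⊆ H, S.Nonempty ∧ (∀ x ∈ S, ∀ y ∈ S, x ≠ y → ¬ conf x y) ∧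
        Λ * ((JS A B S).card : ℝ) < S.card := by
  have hK0 : 0 < K := by linarith
  have hj' : (1 : ℝ) ≤ j0 := by exact_mod_cast hj
  have hj0 : (0 : ℝ) < j0 := by linarith
  obtain ⟨W, hW⟩ : ∃ W, W = 1 + 4 * (j0 : ℝ) * K ^ 2 / θ2 := ⟨_, rfl⟩
  have hW0 : 0 ≤ W := by rw [hW]; positivity
  obtain ⟨c1, hc1'⟩ : ∃ c1, c1 = c / (2 * (j0 : ℝ)) := ⟨_, rfl⟩
  have hc10 : 0 < c1 := by rw [hc1']; positivity
  have hc11 : c1 ≤ 1 := by
    rw [hc1', div_le_one (by positivity)]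
    linarith
  obtain ⟨kmax, m0, T, L, θ1, ε, e', s, κ, p0, hθ0, hθ1, hC, hR⟩ :=
    const_exists K c1 j0 hK hc10 hc11 hj (Λ * W) θ2 (mul_nonneg hΛ hW0) hθ2
  refine ⟨θ1, hθ0, hθ1, ?_⟩
  obtain ⟨d, hd⟩ : ∃ d, d = c1 / (16 * K ^ 2) / 16 := ⟨_, rfl⟩
  rw [← hd] at hC
  have hd0 := hC.d_pos
  have hp0 := hC.p0_pos
  have hs0 := hC.s_pos
  have hkm : (1 : ℝ) ≤ kmax := by exact_mod_cast hC.kmax_pos
  have hκ0 : 0 ≤ κ := by
    rw [hC.hκ]
    positivity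
  obtain ⟨X, hX⟩ : ∃ X, X = (m0 : ℝ) + 256 * K * κ * kmax / d ^ T := ⟨_, rfl⟩
  have hX0 : 0 ≤ 256 * K * κ * kmax / d ^ T := by positivity
  have hX1 : 0 ≤ X := by rw [hX]; positivity
  obtain ⟨N0, hN01, hN0⟩ := at1_nat (X ^ 2 + s * (kmax : ℝ) ^ (2 * j0) / p0 ^ j0)
  refine ⟨N0, ?_⟩
  intro N hN n Q R M _ _ _ H A B conf h hJ hgap
  have hNr : (N0 : ℝ) ≤ N := by exact_mod_cast hN
  have hq : 0 ≤ s * (kmax : ℝ) ^ (2 * j0) / p0 ^ j0 := by positivity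
  have hsq : X ≤ Real.sqrt N := by
    refine Real.le_sqrt_of_sq_le ?_
    linarith
  have hη0 : 0 < c1 / (16 * K ^ 2) := by positivity
  obtain ⟨D, hD, hDN, hDn, hDX, hDc, hDJ⟩ := exists_core (kmax := kmax) (m0 := m0) (θ1 := θ1)
    (θ2 := θ2) (η := c1 / (16 * K ^ 2)) (ε := ε) h hj hc hc1 hJ hgap hθ0 hθ2 hη0
    (by
      rw [← hc1']
      apply le_of_eq
      field_simp) hC.ε_pos
    (by
      have h1 : Real.sqrt N * 1 ≤ Real.sqrt N * K :=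
        mul_le_mul_of_nonneg_left hK (Real.sqrt_nonneg _)
      have h2 : (m0 : ℝ) ≤ X := by rw [hX]; linarith
      linarith) hR
  rw [← hc1', ← hd] at hD
  obtain ⟨S, P, hSX, hSne, hSc, hSP, hlt⟩ := core_conclusion hC hD
    (by
      rw [hDN]
      have h3 : s * (kmax : ℝ) ^ (2 * j0) / p0 ^ j0 ≤ N := by
        have : 0 ≤ X ^ 2 := sq_nonneg X
        linarith
      rw [div_le_iff₀ (by positivity)] at h3
      exact h3)
    (by
      rw [hDN]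
      have h4 : 256 * K * κ * kmax / d ^ T ≤ Real.sqrt N := by
        have : (0 : ℝ) ≤ m0 := Nat.cast_nonneg _
        rw [hX] at hsq
        linarith
      rw [div_le_iff₀ (by positivity)] at h4
      linarith)
  refine ⟨S, hSX.trans hDX, hSne, ?_, ?_⟩
  · rw [hDc] at hSc
    exact hSc
  · have h5 := hDJ S P hSX hSP
    rw [← hW] at h5
    calc Λ * ((JS A B S).card : ℝ) ≤ Λ * (W * P.card) := mul_le_mul_of_nonneg_left h5 hΛ
      _ = Λ * W * P.card := by ring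
      _ < S.card := hlt

end Pool.Agent.Lib.H93A
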