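import Mathlib

/-!
# H93A, G1A: gap of scales

See `PROOF.md`.
-/

set_option autoImplicit false

open Finset
open scoped Classical

namespace Pool.Agent.Lib.H93A

/-- Gap of scales. Each `x` has at most `j0²` pairs, each pair is in at most one of the ranges
`[θ (i+1), θ i)` (`θ` is antitone), so one of the `2 j0²` ranges is hit by at most half of the `x`. -/
theorem gap {X M : Type} (H : Finset X) (J : X → Finset M) (j0 : ℕ) (hj : 1 ≤ j0)
    (hJ : ∀ x ∈ H, (J x).card ≤ j0) (δ : M → M → ℝ) (θ : ℕ → ℝ) (hθ : Antitone θ) :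
    ∃ i < 2 * j0 ^ 2, 2 * (H.filter fun x => ∃ f ∈ J x, ∃ f' ∈ J x, f ≠ f' ∧
      θ (i + 1) ≤ δ f f' ∧ δ f f' < θ i).card ≤ H.card := by
  by_contra hcon
  push Not at hcon
  have hT : 0 < 2 * j0 ^ 2 := by positivity
  have h1 : ∑ i ∈ range (2 * j0 ^ 2), H.card < ∑ i ∈ range (2 * j0 ^ 2),
      2 * (H.filter fun x => ∃ f ∈ J x, ∃ f' ∈ J x, f ≠ f' ∧
        θ (i + 1) ≤ δ f f' ∧ δ f f' < θ i).card := by
    apply sum_lt_sum_of_nonempty
    · exact ⟨0, mem_range.2 hT⟩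
    · intro i hi
      exact hcon i (mem_range.1 hi)
  have h2 : ∑ i ∈ range (2 * j0 ^ 2), (H.filter fun x => ∃ f ∈ J x, ∃ f' ∈ J x, f ≠ f' ∧
        θ (i + 1) ≤ δ f f' ∧ δ f f' < θ i).card = ∑ x ∈ H, ((range (2 * j0 ^ 2)).filter fun i =>
        ∃ f ∈ J x, ∃ f' ∈ J x, f ≠ f' ∧ θ (i + 1) ≤ δ f f' ∧ δ f f' < θ i).card := by
    simp_rw [card_filter]
    exact sum_comm
  have h3 : ∀ x ∈ H, ((range (2 * j0 ^ 2)).filter fun i =>
        ∃ f ∈ J x, ∃ f' ∈ J x, f ≠ f' ∧ θ (i + 1) ≤ δ f f' ∧ δ f f' < θ i).card ≤ j0 ^ 2 := by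
    intro x hx
    have h4 : ((range (2 * j0 ^ 2)).filter fun i =>
        ∃ f ∈ J x, ∃ f' ∈ J x, f ≠ f' ∧ θ (i + 1) ≤ δ f f' ∧ δ f f' < θ i) ⊆
        (J x ×ˢ J x).biUnion fun p => (range (2 * j0 ^ 2)).filter fun i =>
          θ (i + 1) ≤ δ p.1 p.2 ∧ δ p.1 p.2 < θ i := by
      intro i hi
      obtain ⟨hi1, f, hf, f', hf', _, h5⟩ := mem_filter.1 hi
      rw [mem_biUnion]
      exact ⟨(f, f'), mem_product.2 ⟨hf, hf'⟩, mem_filter.2 ⟨hi1, h5⟩⟩
    have h5 := (card_le_card h4).trans (card_biUnion_le_card_mul _ _ 1 (by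
      intro p _
      rw [card_le_one]
      have key : ∀ i j : ℕ, i < j → θ (i + 1) ≤ δ p.1 p.2 → ¬ δ p.1 p.2 < θ j := by
        intro i j hij h6 h7
        have := hθ (show i + 1 ≤ j from hij)
        linarith
      intro i hi j hj
      rw [mem_filter] at hi hj
      rcases lt_trichotomy i j with h | h | h
      · exact absurd hj.2.2 (key i j h hi.2.1)
      · exact h
      · exact absurd hi.2.2 (key j i h hj.2.1)))
    rw [card_product, mul_one] at h5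
    refine h5.trans ?_
    rw [sq]
    exact Nat.mul_le_mul (hJ x hx) (hJ x hx)
  rw [← mul_sum, h2, sum_const, card_range, smul_eq_mul] at h1
  have h4 := sum_le_sum h3
  rw [sum_const, smul_eq_mul] at h4
  nlinarith

end Pool.Agent.Lib.H93A
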