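import Pool.Agent.Lib.H93A.AT2
import Pool.Agent.Lib.H93A.G1A

/-!
# H93A, AT3: the abstract theorem

See `PROOF.md`.
-/

set_option autoImplicit false

open Finset
open scoped Classical

namespace Pool.Agent.Lib.H93A

/-- AT. Thresholds `θ 0 = 1`, `θ (i+1)` = the `θ1` of `AT_scale` for `θ2 = θ i`; `gap` gives the scale `i`;
`N0` = the maximum of the finitely many `N0`. If some `J(x)` is empty, `S = {x}`. -/
theorem abstract_theorem (K c Λ : ℝ) (j0 : ℕ) (hK : 1 ≤ K) (hc : 0 < c) (hc1 : c ≤ 1) (hj : 1 ≤ j0)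
    (hΛ : 0 ≤ Λ) :
    ∃ N0 : ℕ, ∀ N ≥ N0, ∀ (n : ℕ) (Q R M : Type) [Fintype Q] [Fintype R]
      [Fintype M] (H : Finset (Q × R)) (A : M → Finset Q) (B : M → Finset R)
      (conf : Q × R → Q × R → Prop), ATHyp n N j0 K c H A B conf →
      ∃ S ⊆ H, S.Nonempty ∧ (∀ x ∈ S, ∀ y ∈ S, x ≠ y → ¬ conf x y) ∧
        Λ * ((JS A B S).card : ℝ) < S.card := by
  have key := AT_scale K c Λ j0 hK hc hc1 hj hΛ
  choose θ1 h1 h2 N0 h3 using key
  let t : ℕ → {θ : ℝ // 0 < θ} := fun n =>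
    Nat.rec ⟨1, one_pos⟩ (fun _ r => ⟨θ1 r.1 r.2, h1 r.1 r.2⟩) n
  have ht : ∀ n, (t (n + 1)).1 = θ1 (t n).1 (t n).2 := fun n => rfl
  have hanti : Antitone fun n => (t n).1 := by
    refine antitone_nat_of_succ_le fun n => ?_
    change (t (n + 1)).1 ≤ (t n).1
    rw [ht]
    exact (h2 _ _).le
  refine ⟨(Finset.range (2 * j0 ^ 2)).sup fun i => N0 (t i).1 (t i).2, ?_⟩
  intro N hN n Q R M _ _ _ H A B conf hAT
  by_cases hne : ∀ x ∈ H, (Jset A B x).Nonempty
  · obtain ⟨i, hi, hi2⟩ := gap H (fun x => Jset A B x) j0 hj hAT.cardJ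
      (fun f f' => ((Ef H A B f ∩ Ef H A B f').card : ℝ) / N) (fun n => (t n).1) hanti
    have hNi : N0 (t i).1 (t i).2 ≤ N :=
      le_trans (Finset.le_sup (f := fun i => N0 (t i).1 (t i).2) (Finset.mem_range.2 hi)) hN
    refine h3 (t i).1 (t i).2 N hNi n Q R M H A B conf hAT hne ?_
    have e : gapSet N (θ1 (t i).1 (t i).2) (t i).1 H A B = H.filter fun x => ∃ f ∈ Jset A B x,
        ∃ f' ∈ Jset A B x, f ≠ f' ∧
        (fun n => (t n).1) (i + 1) ≤ (fun f f' => ((Ef H A B f ∩ Ef H A B f').card : ℝ) / N) f f' ∧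
        (fun f f' => ((Ef H A B f ∩ Ef H A B f').card : ℝ) / N) f f' < (fun n => (t n).1) i := rfl
    rw [e]
    exact hi2
  · push Not at hne
    obtain ⟨x, hx, hx2⟩ := hne
    refine ⟨{x}, Finset.singleton_subset_iff.2 hx, Finset.singleton_nonempty x, ?_, ?_⟩
    · intro a ha b hb hab
      rw [Finset.mem_singleton] at ha hb
      exact absurd (ha.trans hb.symm) hab
    · have e : JS A B {x} = ∅ := by
        rw [Finset.eq_empty_iff_forall_notMem]
        intro f hf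
        simp only [JS, Finset.mem_filter, Finset.mem_singleton] at hf
        obtain ⟨_, y, rfl, hy⟩ := hf
        rw [hx2] at hy
        exact absurd hy (Finset.notMem_empty _)
      rw [e, Finset.card_empty, Finset.card_singleton]
      norm_num

end Pool.Agent.Lib.H93A
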