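import Pool.Agent.Lib.H93A.R0

/-!
# H93A, ATDefs: conclusion of Lemma R

See `PROOF.md`.
-/

set_option autoImplicit false

open Finset
open scoped Classical

namespace Pool.Agent.Lib.H93A

/-- The conclusion of Lemma R for given constants. -/
def LemmaRFor (η ε : ℝ) (kmax m0 : ℕ) : Prop :=
  ∀ m ≥ m0, ∀ (Q R : Type) (A : Finset Q) (B : Finset R)
      (F : Finset (Q × R)), A.card ≤ m → B.card ≤ m → F ⊆ A ×ˢ B →
      ∃ (k : ℕ) (iA : Q → ℕ) (iB : R → ℕ) (Good : ℕ → ℕ → Prop),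
        1 ≤ k ∧ k ≤ kmax ∧ (∀ a, iA a < k) ∧ (∀ b, iB b < k) ∧
        (∀ u, ((A.filter fun a => iA a = u).card : ℝ) ≤ 4 * m / k) ∧
        (∀ v, ((B.filter fun b => iB b = v).card : ℝ) ≤ 4 * m / k) ∧
        ((F.filter fun x => ¬ Good (iA x.1) (iB x.2)).card : ℝ) ≤ η * (m : ℝ) ^ 2 ∧
        ∀ u v, Good u v → ∀ A' ⊆ A.filter fun a => iA a = u, ∀ B' ⊆ B.filter fun b => iB b = v,
          ε * (4 * m / k) ≤ A'.card → ε * (4 * m / k) ≤ B'.card →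
          η / 16 * A'.card * B'.card ≤ ((F ∩ A' ×ˢ B').card : ℝ)

end Pool.Agent.Lib.H93A
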