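import Pool.Agent.Lib.H93A.CDefs

/-!
# H93A, C1A: codegrees

See `PROOF.md`.
-/

set_option autoImplicit false

open Finset
open scoped Classical

namespace Pool.Agent.Lib.H93A

variable {V : Type} [Fintype V] {G : SimpleGraph V} {k : ℕ}

/-- `∑_{u,w} codeg(u,w) = ∑_y deg(y)²` -/
theorem sum_codeg (G : SimpleGraph V) :
    ∑ u, ∑ w, codeg G u w = ∑ y, (univ.filter fun u => G.Adj u y).card ^ 2 := by
  have h1 : ∀ u w, codeg G u w =
      ∑ y, (if G.Adj u y then 1 else 0) * (if G.Adj w y then 1 else 0) := by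
    intro u w
    unfold codeg
    rw [card_filter]
    refine sum_congr rfl fun y _ => ?_
    by_cases a : G.Adj u y <;> by_cases b : G.Adj w y <;> simp [a, b]
  have h2 : ∀ u, ∑ w, codeg G u w =
      ∑ y, (if G.Adj u y then 1 else 0) * (univ.filter fun w => G.Adj w y).card := by
    intro u
    simp_rw [h1]
    rw [sum_comm]
    refine sum_congr rfl fun y _ => ?_
    rw [card_filter, mul_sum]
  simp_rw [h2]
  rw [sum_comm]
  refine sum_congr rfl fun y _ => ?_
  rw [← sum_mul, ← card_filter, sq]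

/-- The vertices with at least two neighbours in `W` are in the union of the common neighbourhoods of the
pairs of `W`: at most `|W|² t` of them, if all pairs of `W` have codegree `≤ t`. -/
theorem card_two_le (G : SimpleGraph V) (W : Finset V) (t : ℝ) (ht : 0 ≤ t)
    (hW : ∀ u ∈ W, ∀ v ∈ W, u ≠ v → (codeg G u v : ℝ) ≤ t) :
    ((univ.filter fun v => Two G v W).card : ℝ) ≤ (W.card : ℝ) ^ 2 * t := by
  have h1 : (univ.filter fun v => Two G v W) ⊆
      W.offDiag.biUnion fun p => univ.filter fun y => G.Adj p.1 y ∧ G.Adj p.2 y := by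
    intro v hv
    rw [mem_filter] at hv
    obtain ⟨a, ha, b, hb, hab⟩ := one_lt_card.1 (show 1 < _ from hv.2)
    rw [mem_filter] at ha hb
    rw [mem_biUnion]
    refine ⟨(a, b), mem_offDiag.2 ⟨ha.1, hb.1, hab⟩, ?_⟩
    rw [mem_filter]
    exact ⟨mem_univ _, ha.2.symm, hb.2.symm⟩
  have h2 : ((univ.filter fun v => Two G v W).card : ℝ) ≤
      ∑ p ∈ W.offDiag, (codeg G p.1 p.2 : ℝ) := by
    have h3 := (card_le_card h1).trans card_biUnion_le
    have h4 : ((univ.filter fun v => Two G v W).card : ℝ) ≤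
      ((∑ p ∈ W.offDiag, (univ.filter fun y => G.Adj p.1 y ∧ G.Adj p.2 y).card : ℕ) : ℝ) := by
      exact_mod_cast h3
    refine h4.trans (le_of_eq ?_)
    push_cast
    rfl
  have h3 : ∑ p ∈ W.offDiag, (codeg G p.1 p.2 : ℝ) ≤ ∑ _p ∈ W.offDiag, t := by
    refine sum_le_sum fun p hp => ?_
    obtain ⟨ha, hb, hab⟩ := mem_offDiag.1 hp
    exact hW _ ha _ hb hab
  rw [sum_const, nsmul_eq_mul] at h3
  refine h2.trans (h3.trans (mul_le_mul_of_nonneg_right ?_ ht))
  have h4 : W.offDiag.card ≤ W.card ^ 2 := by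
    rw [offDiag_card, sq]
    exact Nat.sub_le _ _
  exact_mod_cast h4

end Pool.Agent.Lib.H93A
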