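import Pool.Agent.Lib.H93A.C1A

/-!
# H93A, C1B: A_c, B_c

See `PROOF.md`.
-/

set_option autoImplicit false

open Finset
open scoped Classical

namespace Pool.Agent.Lib.H93A

variable {V : Type} [Fintype V] {G : SimpleGraph V} {k : ℕ}

theorem c1b_two {q : ℕ} {t : ℝ} {φ : V → Option (Fin k)} (hφ : IsState G q t φ) (ht : 0 ≤ t)
    (c' : Fin k) : ((univ.filter fun v => Two G v (cls φ c')).card : ℝ) ≤ (q : ℝ) ^ 2 * t := by
  refine (card_two_le G (cls φ c') t ht ?_).trans ?_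
  · intro u hu v hv huv
    unfold cls at hu hv
    rw [mem_filter] at hu hv
    exact hφ.codeg_le u v c' huv hu.2 hv.2
  · refine mul_le_mul_of_nonneg_right ?_ ht
    have h1 : ((cls φ c').card : ℝ) ≤ q := by exact_mod_cast hφ.small c'
    exact pow_le_pow_left₀ (Nat.cast_nonneg _) h1 2

/-- `|A_c'| ≤ q² t` -/
theorem card_Aset_le {q : ℕ} {t : ℝ} {φ : V → Option (Fin k)} (hφ : IsState G q t φ) (ht : 0 ≤ t)
    (c' : Fin k) : ((Aset G φ c').card : ℝ) ≤ (q : ℝ) ^ 2 * t := by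
  refine le_trans ?_ (c1b_two hφ ht c')
  have h1 : Aset G φ c' ⊆ univ.filter fun v => Two G v (cls φ c') := by
    intro v hv
    unfold Aset at hv
    rw [mem_filter] at hv ⊢
    exact ⟨hv.1, hv.2.2⟩
  exact_mod_cast card_le_card h1

/-- `|B_c'| ≤ q² t` (each vertex has one colour) -/
theorem card_Bset_le {q : ℕ} {t : ℝ} {φ : V → Option (Fin k)} (hφ : IsState G q t φ) (ht : 0 ≤ t)
    (c' : Fin k) : ((Bset G φ c').card : ℝ) ≤ (q : ℝ) ^ 2 * t := by
  refine le_trans ?_ (c1b_two hφ ht c')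
  have h1 : (Bset G φ c').image some ⊆ (univ.filter fun v => Two G v (cls φ c')).image φ := by
    intro o ho
    obtain ⟨c, hc, rfl⟩ := mem_image.1 ho
    unfold Bset at hc
    obtain ⟨w, hw, h2⟩ := (mem_filter.1 hc).2
    exact mem_image.2 ⟨w, mem_filter.2 ⟨mem_univ _, h2⟩, hw⟩
  have h2 := (card_le_card h1).trans card_image_le
  rw [card_image_of_injective _ (Option.some_injective _)] at h2
  exact_mod_cast h2

end Pool.Agent.Lib.H93A
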