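import Pool.Agent.Lib.H93A.CDefs

/-!
# H93A, C1C: conflict: symmetry, (H3)

See `PROOF.md`.
-/

set_option autoImplicit false

open Finset
open scoped Classical

namespace Pool.Agent.Lib.H93A

variable {V : Type} [Fintype V] {G : SimpleGraph V} {k : ℕ}

/-- symmetry of `Conf` -/
theorem Conf_symm {φ : V → Option (Fin k)} (x x' : V × Fin k) (h : Conf G φ x x') :
    Conf G φ x' x := by
  obtain ⟨h1, h2⟩ := h
  refine ⟨h1.symm, ?_⟩
  rcases h2 with h2 | h2 | h2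
  · exact Or.inl h2.symm
  · exact Or.inr (Or.inl h2.symm)
  · exact Or.inr (Or.inr ⟨h2.2.1, h2.1, h2.2.2.2, h2.2.2.1⟩)

/-- (H3) -/
theorem Conf_not {q j0 : ℕ} {t : ℝ} {φ : V → Option (Fin k)} (x y : V × Fin k)
    (h1 : x.1 ≠ y.1) (h2 : x.2 ≠ y.2) (h : (x.1, y.2) ∈ Hset G q j0 t φ) : ¬ Conf G φ x y := by
  rintro ⟨_, h3 | h3 | h3⟩
  · exact h1 h3
  · exact h2 h3
  · obtain ⟨⟨z, hz, hxz, _⟩, _⟩ := h3
    unfold Hset at h
    exact (mem_filter.1 h).2.2.2.1 z hz hxz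

end Pool.Agent.Lib.H93A
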