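import Pool.Agent.Lib.H93A.C1A

/-!
# H93A, C1D: (H2)

See `PROOF.md`.
-/

set_option autoImplicit false

open Finset
open scoped Classical

namespace Pool.Agent.Lib.H93A

variable {V : Type} [Fintype V] {G : SimpleGraph V} {k : ℕ}

/-- (H2): `v = v'` or `c = c'`: at most `k + |V|`; `Y`: `c'` is the colour of a common neighbour `y` of `v` and
of some `w` of colour `c`: at most `q t` choices of `y`; `v'` has two neighbours in `insert v (cls c)`: at most
`(q+1)² t` choices (`card_two_le`; the codegrees are `≤ t` by `IsState` and by `x ∈ Hset`). -/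
theorem Conf_card {q j0 : ℕ} {t : ℝ} {φ : V → Option (Fin k)} (hφ : IsState G q t φ) (ht : 0 ≤ t)
    (x : V × Fin k) (hx : x ∈ Hset G q j0 t φ) :
    (((Hset G q j0 t φ).filter fun y => Conf G φ x y).card : ℝ) ≤
      k + Fintype.card V + ((q : ℝ) + 1) ^ 3 * t ^ 2 := by
  obtain ⟨v, c⟩ := x
  unfold Hset at hx
  obtain ⟨_, hx1, hx2, hx3, hx4, hx5⟩ := mem_filter.1 hx
  dsimp only at hx1 hx2 hx3 hx4 hx5
  set W : Finset V := insert v (cls φ c) with hW
  set V' : Finset V := univ.filter fun v' => Two G v' W with hV'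
  set Z : Finset V := (cls φ c).biUnion fun w => univ.filter fun y => G.Adj v y ∧ G.Adj w y with hZ
  set C' : Finset (Fin k) := univ.filter fun c' => ∃ z ∈ Z, φ z = some c' with hC'
  have hsub : ((Hset G q j0 t φ).filter fun y => Conf G φ (v, c) y) ⊆
      (({v} : Finset V) ×ˢ (univ : Finset (Fin k)) ∪ (univ : Finset V) ×ˢ ({c} : Finset (Fin k))) ∪
        V' ×ˢ C' := by
    rintro ⟨v', c'⟩ hy
    obtain ⟨_, _, h1⟩ := mem_filter.1 hy
    rw [mem_union, mem_union, mem_product, mem_product, mem_product]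
    dsimp only at h1 ⊢
    rcases h1 with h1 | h1 | h1
    · left; left
      exact ⟨mem_singleton.2 h1.symm, mem_univ _⟩
    · left; right
      exact ⟨mem_univ _, mem_singleton.2 h1.symm⟩
    · right
      obtain ⟨⟨y, hy1, hy2, w, hw1, hw2⟩, _, _, h4⟩ := h1
      refine ⟨mem_filter.2 ⟨mem_univ _, h4⟩, mem_filter.2 ⟨mem_univ _, y, ?_, hy1⟩⟩
      rw [hZ, mem_biUnion]
      refine ⟨w, ?_, mem_filter.2 ⟨mem_univ _, hy2, hw2.symm⟩⟩
      unfold cls
      exact mem_filter.2 ⟨mem_univ _, hw1⟩
  have hcls : ((cls φ c).card : ℝ) ≤ q := by exact_mod_cast hφ.small c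
  have hZc : (Z.card : ℝ) ≤ q * t := by
    have h1 : (Z.card : ℝ) ≤ ∑ w ∈ cls φ c, (codeg G v w : ℝ) := by
      have h2 := card_biUnion_le (s := cls φ c)
        (t := fun w => univ.filter fun y => G.Adj v y ∧ G.Adj w y)
      have h3 : (Z.card : ℝ) ≤
          ((∑ w ∈ cls φ c, (univ.filter fun y => G.Adj v y ∧ G.Adj w y).card : ℕ) : ℝ) := by
        exact_mod_cast h2
      refine h3.trans (le_of_eq ?_)
      push_cast
      rfl
    have h2 : ∑ w ∈ cls φ c, (codeg G v w : ℝ) ≤ ∑ _w ∈ cls φ c, t := by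
      refine sum_le_sum fun w hw => ?_
      unfold cls at hw
      exact hx4 w (mem_filter.1 hw).2
    rw [sum_const, nsmul_eq_mul] at h2
    exact h1.trans (h2.trans (mul_le_mul_of_nonneg_right hcls ht))
  have hC'c : (C'.card : ℝ) ≤ q * t := by
    refine le_trans ?_ hZc
    have h1 : C'.image some ⊆ Z.image φ := by
      intro o ho
      obtain ⟨c', hc', rfl⟩ := mem_image.1 ho
      obtain ⟨z, hz, hz2⟩ := (mem_filter.1 hc').2
      exact mem_image.2 ⟨z, hz, hz2⟩
    have h2 := (card_le_card h1).trans card_image_le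
    rw [card_image_of_injective _ (Option.some_injective _)] at h2
    exact_mod_cast h2
  have hWc : (W.card : ℝ) ≤ q + 1 := by
    have h1 : (W.card : ℝ) ≤ (cls φ c).card + 1 := by exact_mod_cast card_insert_le _ _
    linarith
  have hV'c : (V'.card : ℝ) ≤ ((q : ℝ) + 1) ^ 2 * t := by
    refine (card_two_le G W t ht ?_).trans ?_
    · intro a ha b hb hab
      rw [hW, mem_insert] at ha hb
      rcases ha with ha | ha <;> rcases hb with hb | hb
      · exact absurd (ha.trans hb.symm) hab
      · rw [ha]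
        unfold cls at hb
        exact hx4 b (mem_filter.1 hb).2
      · rw [hb]
        unfold cls at ha
        have h1 := hx4 a (mem_filter.1 ha).2
        have h2 : codeg G a v = codeg G v a := by
          unfold codeg
          congr 1
          ext y
          simp only [mem_filter, mem_univ, true_and]
          exact and_comm
        rw [h2]
        exact h1
      · unfold cls at ha hb
        exact hφ.codeg_le a b c hab (mem_filter.1 ha).2 (mem_filter.1 hb).2
    · exact mul_le_mul_of_nonneg_right (pow_le_pow_left₀ (Nat.cast_nonneg _) hWc 2) ht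
  have h1 : (((Hset G q j0 t φ).filter fun y => Conf G φ (v, c) y).card : ℝ) ≤
      k + Fintype.card V + V'.card * C'.card := by
    have h2 := (card_le_card hsub).trans ((card_union_le _ _).trans
      (Nat.add_le_add_right (card_union_le _ _) _))
    rw [card_product, card_product, card_product, card_singleton, card_singleton, card_univ,
      card_univ, Fintype.card_fin, one_mul, mul_one] at h2
    exact_mod_cast h2
  refine h1.trans ?_
  have hq : (0 : ℝ) ≤ q := Nat.cast_nonneg _
  have h2 : (V'.card : ℝ) * C'.card ≤ (((q : ℝ) + 1) ^ 2 * t) * (q * t) :=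
    mul_le_mul hV'c hC'c (Nat.cast_nonneg _) (by positivity)
  have h3 : (((q : ℝ) + 1) ^ 2 * t) * (q * t) ≤ ((q : ℝ) + 1) ^ 3 * t ^ 2 := by
    have h4 : 0 ≤ ((q : ℝ) + 1) ^ 2 * t ^ 2 := by positivity
    have h5 : ((q : ℝ) + 1) ^ 3 * t ^ 2 = (((q : ℝ) + 1) ^ 2 * t) * (q * t) +
      ((q : ℝ) + 1) ^ 2 * t ^ 2 := by ring
    linarith
  linarith

end Pool.Agent.Lib.H93A
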