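import Pool.Agent.Lib.H93A.C1B

/-!
# H93A, C1E: lower bound for |H|

See `PROOF.md`.
-/

set_option autoImplicit false

open Finset
open scoped Classical

namespace Pool.Agent.Lib.H93A

variable {V : Type} [Fintype V] {G : SimpleGraph V} {k : ℕ}

/-- Lower bound for `|H|`: from the pairs (uncoloured vertex, colour) we remove the full classes
(at most `|V|/q` colours), the pairs with an edge, the pairs of large codegree, and the pairs with more
than `j0` blockers. `t > 0`. -/
theorem card_Hset_ge {q j0 : ℕ} {t Δ : ℝ} {φ : V → Option (Fin k)} (hφ : IsState G q t φ)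
    (ht : 0 < t) (hq : 1 ≤ q) (hj : 1 ≤ j0)
    (hΔ : ∀ v, ((univ.filter fun w => G.Adj v w).card : ℝ) ≤ Δ) :
    ((unc φ).card : ℝ) * (k - (Fintype.card V : ℝ) / q) - Fintype.card V * Δ -
        Fintype.card V * Δ ^ 2 / t - k * ((q : ℝ) ^ 2 * t) ^ 2 / j0 ≤
      (Hset G q j0 t φ).card := by
  set P : Finset (V × Fin k) := (unc φ) ×ˢ (univ : Finset (Fin k)) with hP
  set D1 : Finset (Fin k) := univ.filter fun c => q ≤ (cls φ c).card with hD1
  set B1 : Finset (V × Fin k) := (unc φ) ×ˢ D1 with hB1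
  set B2 : Finset (V × Fin k) := univ.filter fun x => ∃ w, φ w = some x.2 ∧ G.Adj x.1 w with hB2
  set B3 : Finset (V × Fin k) :=
    univ.filter fun x => ∃ w, φ w = some x.2 ∧ t < (codeg G x.1 w : ℝ) with hB3
  set B4 : Finset (V × Fin k) :=
    univ.filter fun x => j0 < (Jset (Aset G φ) (Bset G φ) x).card with hB4
  have hcov : P ⊆ Hset G q j0 t φ ∪ (B1 ∪ (B2 ∪ (B3 ∪ B4))) := by
    intro x hx
    rw [hP, mem_product] at hx
    by_cases h1 : x ∈ B1
    · simp [h1]
    by_cases h2 : x ∈ B2
    · simp [h2]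
    by_cases h3 : x ∈ B3
    · simp [h3]
    by_cases h4 : x ∈ B4
    · simp [h4]
    apply mem_union_left
    unfold Hset
    rw [mem_filter]
    refine ⟨mem_univ _, ?_, ?_, ?_, ?_, ?_⟩
    · have := hx.1
      unfold unc at this
      exact (mem_filter.1 this).2
    · by_contra hc
      apply h1
      rw [hB1, mem_product]
      exact ⟨hx.1, mem_filter.2 ⟨mem_univ _, not_lt.1 hc⟩⟩
    · intro w hw ha
      exact h2 (mem_filter.2 ⟨mem_univ _, w, hw, ha⟩)
    · intro w hw
      by_contra hc
      exact h3 (mem_filter.2 ⟨mem_univ _, w, hw, not_le.1 hc⟩)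
    · by_contra hc
      exact h4 (mem_filter.2 ⟨mem_univ _, not_le.1 hc⟩)
  have hcard : (P.card : ℝ) ≤ (Hset G q j0 t φ).card + (B1.card + (B2.card + (B3.card + B4.card))) := by
    have h1 := (card_le_card hcov).trans ((card_union_le _ _).trans
      (Nat.add_le_add_left ((card_union_le _ _).trans (Nat.add_le_add_left ((card_union_le _ _).trans
        (Nat.add_le_add_left (card_union_le _ _) _)) _)) _))
    exact_mod_cast h1
  have hPc : (P.card : ℝ) = (unc φ).card * k := by
    rw [hP, card_product, card_univ, Fintype.card_fin]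
    push_cast
    rfl
  have hq' : (0 : ℝ) < q := by
    have : 0 < q := hq
    exact_mod_cast this
  have hj' : (0 : ℝ) < j0 := by
    have : 0 < j0 := hj
    exact_mod_cast this
  -- full classes
  have h1 : (B1.card : ℝ) ≤ (unc φ).card * ((Fintype.card V : ℝ) / q) := by
    rw [hB1, card_product]
    push_cast
    refine mul_le_mul_of_nonneg_left ?_ (Nat.cast_nonneg _)
    rw [le_div_iff₀ hq']
    have h2 : D1.card * q ≤ ∑ c ∈ D1, (cls φ c).card := by
      rw [← smul_eq_mul]
      exact card_nsmul_le_sum D1 _ q (fun c hc => (mem_filter.1 hc).2)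
    have h3 : ∑ c ∈ D1, (cls φ c).card = (D1.biUnion fun c => cls φ c).card := by
      rw [card_biUnion]
      intro c _ c' _ hcc
      rw [Function.onFun, disjoint_left]
      intro v hv hv'
      unfold cls at hv hv'
      have := (mem_filter.1 hv).2.symm.trans (mem_filter.1 hv').2
      exact hcc (Option.some_injective _ this)
    have h4 : D1.card * q ≤ Fintype.card V := by
      rw [h3] at h2
      exact h2.trans (card_le_univ _)
    exact_mod_cast h4
  -- edges
  have h2 : (B2.card : ℝ) ≤ Fintype.card V * Δ := by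
    have hs : B2.image (fun x => (x.1, some x.2)) ⊆
        (univ : Finset V).biUnion fun v => (univ.filter fun w => G.Adj v w).image fun w => (v, φ w) := by
      intro z hz
      obtain ⟨x, hx, rfl⟩ := mem_image.1 hz
      obtain ⟨w, hw, ha⟩ := (mem_filter.1 hx).2
      rw [mem_biUnion]
      exact ⟨x.1, mem_univ _, mem_image.2 ⟨w, mem_filter.2 ⟨mem_univ _, ha⟩, by rw [hw]⟩⟩
    have hi : (B2.image (fun x => (x.1, some x.2))).card = B2.card := by
      apply card_image_of_injective
      rintro ⟨a, b⟩ ⟨a', b'⟩ h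
      simpa using h
    have h3 := (card_le_card hs).trans card_biUnion_le
    rw [hi] at h3
    have h4 : (B2.card : ℝ) ≤ ∑ v : V, ((univ.filter fun w => G.Adj v w).card : ℝ) := by
      have h5 := h3.trans (sum_le_sum fun v _ => card_image_le)
      exact_mod_cast h5
    refine h4.trans ((sum_le_sum fun v _ => hΔ v).trans ?_)
    rw [sum_const, card_univ, nsmul_eq_mul]
  -- codegrees
  have h3 : (B3.card : ℝ) ≤ Fintype.card V * Δ ^ 2 / t := by
    set C3 : Finset (V × V) := univ.filter fun p => t < (codeg G p.1 p.2 : ℝ) with hC3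
    have hs : B3.image (fun x => (x.1, some x.2)) ⊆ C3.image fun p => (p.1, φ p.2) := by
      intro z hz
      obtain ⟨x, hx, rfl⟩ := mem_image.1 hz
      obtain ⟨w, hw, ha⟩ := (mem_filter.1 hx).2
      exact mem_image.2 ⟨(x.1, w), mem_filter.2 ⟨mem_univ _, ha⟩, by rw [hw]⟩
    have hi : (B3.image (fun x => (x.1, some x.2))).card = B3.card := by
      apply card_image_of_injective
      rintro ⟨a, b⟩ ⟨a', b'⟩ h
      simpa using h
    have h5 := (card_le_card hs).trans card_image_le
    rw [hi] at h5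
    have h6 : (B3.card : ℝ) ≤ C3.card := by exact_mod_cast h5
    refine h6.trans ?_
    rw [le_div_iff₀ ht]
    have h7 : (C3.card : ℝ) * t ≤ ∑ p ∈ C3, (codeg G p.1 p.2 : ℝ) := by
      rw [← nsmul_eq_mul]
      exact card_nsmul_le_sum C3 _ t (fun p hp => (mem_filter.1 hp).2.le)
    have h8 : ∑ p ∈ C3, (codeg G p.1 p.2 : ℝ) ≤ ∑ p : V × V, (codeg G p.1 p.2 : ℝ) :=
      sum_le_sum_of_subset_of_nonneg (subset_univ _) fun _ _ _ => Nat.cast_nonneg _
    have h9 : ∑ p : V × V, (codeg G p.1 p.2 : ℝ) =
        ∑ y, ((univ.filter fun u => G.Adj u y).card : ℝ) ^ 2 := by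
      rw [Fintype.sum_prod_type]
      exact_mod_cast sum_codeg G
    have h10 : ∑ y, ((univ.filter fun u => G.Adj u y).card : ℝ) ^ 2 ≤ ∑ _y : V, Δ ^ 2 := by
      refine sum_le_sum fun y _ => ?_
      refine pow_le_pow_left₀ (Nat.cast_nonneg _) ?_ 2
      have h11 : (univ.filter fun u => G.Adj u y) = univ.filter fun u => G.Adj y u := by
        ext u
        simp only [mem_filter, mem_univ, true_and]
        exact G.adj_comm u y
      rw [h11]
      exact hΔ y
    rw [sum_const, card_univ, nsmul_eq_mul] at h10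
    linarith
  -- blockers
  have h4 : (B4.card : ℝ) ≤ k * ((q : ℝ) ^ 2 * t) ^ 2 / j0 := by
    rw [le_div_iff₀ hj']
    have h5 : (B4.card : ℝ) * j0 ≤ ∑ x ∈ B4, ((Jset (Aset G φ) (Bset G φ) x).card : ℝ) := by
      rw [← nsmul_eq_mul]
      refine card_nsmul_le_sum B4 _ (j0 : ℝ) (fun x hx => ?_)
      have := (mem_filter.1 hx).2
      exact_mod_cast this.le
    have h6 : ∑ x ∈ B4, ((Jset (Aset G φ) (Bset G φ) x).card : ℝ) ≤
        ∑ x : V × Fin k, ((Jset (Aset G φ) (Bset G φ) x).card : ℝ) :=
      sum_le_sum_of_subset_of_nonneg (subset_univ _) fun _ _ _ => Nat.cast_nonneg _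
    have h7 : ∑ x : V × Fin k, ((Jset (Aset G φ) (Bset G φ) x).card : ℝ) =
        ∑ f : Fin k, ((Aset G φ f).card : ℝ) * (Bset G φ f).card := by
      have h8 : ∀ x : V × Fin k, ((Jset (Aset G φ) (Bset G φ) x).card : ℝ) =
          ∑ f : Fin k, (if x ∈ Aset G φ f ×ˢ Bset G φ f then (1 : ℝ) else 0) := by
        intro x
        unfold Jset
        rw [card_filter]
        push_cast
        refine sum_congr rfl fun f _ => ?_
        simp only [mem_product]
      simp_rw [h8]
      rw [sum_comm]
      refine sum_congr rfl fun f _ => ?_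
      rw [sum_ite_mem, univ_inter, sum_const, nsmul_eq_mul, mul_one, card_product]
      push_cast
      rfl
    have h8 : ∑ f : Fin k, ((Aset G φ f).card : ℝ) * (Bset G φ f).card ≤
        ∑ _f : Fin k, ((q : ℝ) ^ 2 * t) ^ 2 := by
      refine sum_le_sum fun f _ => ?_
      rw [sq ((q : ℝ) ^ 2 * t)]
      exact mul_le_mul (card_Aset_le hφ ht.le f) (card_Bset_le hφ ht.le f) (Nat.cast_nonneg _)
        (by positivity)
    rw [sum_const, card_univ, Fintype.card_fin, nsmul_eq_mul] at h8
    linarith
  have h5 : ((unc φ).card : ℝ) * (k - (Fintype.card V : ℝ) / q) =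
      (unc φ).card * k - (unc φ).card * ((Fintype.card V : ℝ) / q) := by ring
  linarith

end Pool.Agent.Lib.H93A
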