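import Pool.Agent.Lib.H93A.CDefs

/-!
# H93A, C2A: values of the new colouring

See `PROOF.md`.
-/

set_option autoImplicit false

open Finset
open scoped Classical

namespace Pool.Agent.Lib.H93A

variable {V : Type} [Fintype V] {G : SimpleGraph V} {k : ℕ}

/-- `newCol` on the new vertices -/
theorem newCol_of_mem {φ : V → Option (Fin k)} {S : Finset (V × Fin k)}
    (hS : ∀ x ∈ S, ∀ y ∈ S, x ≠ y → ¬ Conf G φ x y) (v : V) (c : Fin k) (h : (v, c) ∈ S) :
    newCol G φ S v = some c := by
  have h1 : ∃ c, (v, c) ∈ S := ⟨c, h⟩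
  unfold newCol
  rw [dif_pos h1]
  congr 1
  by_contra hne
  have h2 := h1.choose_spec
  refine hS _ h2 _ h ?_ ⟨?_, Or.inl rfl⟩
  · intro he
    exact hne (congrArg Prod.snd he)
  · intro he
    exact hne (congrArg Prod.snd he)

/-- A vertex of new colour `c` is either the (unique) `v` with `(v,c) ∈ S` or has old colour `c`, and `c` is
not a blocker of an element of `S`. -/
theorem newCol_eq_some {φ : V → Option (Fin k)} {S : Finset (V × Fin k)} (v : V) (c : Fin k)
    (h : newCol G φ S v = some c) :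
    (v, c) ∈ S ∨ (φ v = some c ∧ ∀ x ∈ S, c ∉ Jset (Aset G φ) (Bset G φ) x) := by
  unfold newCol at h
  by_cases h1 : ∃ c, (v, c) ∈ S
  · rw [dif_pos h1] at h
    left
    have h2 := h1.choose_spec
    rwa [Option.some_injective _ h] at h2
  · rw [dif_neg h1] at h
    by_cases h2 : ∃ c, φ v = some c ∧ ∃ x ∈ S, c ∈ Jset (Aset G φ) (Bset G φ) x
    · rw [if_pos h2] at h
      exact absurd h (by simp)
    · rw [if_neg h2] at h
      right
      refine ⟨h, fun x hx hc => h2 ⟨c, h, x, hx, hc⟩⟩

end Pool.Agent.Lib.H93A
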