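import Pool.Agent.Lib.H93A.C2A

/-!
# H93A, C2B: (V4) for the new colouring

See `PROOF.md`.
-/

set_option autoImplicit false

open Finset
open scoped Classical

namespace Pool.Agent.Lib.H93A

variable {V : Type} [Fintype V] {G : SimpleGraph V} {k : ℕ}

theorem c2b_memJ {Q R M : Type} [Fintype Q] [Fintype R] [Fintype M] (A : M → Finset Q)
    (B : M → Finset R) (x : Q × R) (f : M) : f ∈ Jset A B x ↔ x.1 ∈ A f ∧ x.2 ∈ B f := by
  unfold Jset
  rw [mem_filter]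
  exact and_iff_right (mem_univ _)

/-- the data of a new vertex -/
theorem c2b_H {q j0 : ℕ} {t : ℝ} {φ : V → Option (Fin k)} {x : V × Fin k}
    (hx : x ∈ Hset G q j0 t φ) : φ x.1 = none ∧ (cls φ x.2).card < q ∧
    (∀ w, φ w = some x.2 → ¬ G.Adj x.1 w) ∧ (∀ w, φ w = some x.2 → (codeg G x.1 w : ℝ) ≤ t) := by
  unfold Hset at hx
  obtain ⟨_, h1, h2, h3, h4, _⟩ := mem_filter.1 hx
  exact ⟨h1, h2, h3, h4⟩

/-- at most one new vertex of a given colour -/
theorem c2b_uniq {φ : V → Option (Fin k)} {S : Finset (V × Fin k)}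
    (hS : ∀ x ∈ S, ∀ y ∈ S, x ≠ y → ¬ Conf G φ x y) {u v : V} {c : Fin k} (hu : (u, c) ∈ S)
    (hv : (v, c) ∈ S) : u = v := by
  by_contra hne
  have h1 : (u, c) ≠ (v, c) := fun h => hne (congrArg Prod.fst h)
  exact hS _ hu _ hv h1 ⟨h1, Or.inr (Or.inl rfl)⟩

/-- the new classes are independent -/
theorem c2b_indep {q j0 : ℕ} {t : ℝ} {φ : V → Option (Fin k)} (hφ : IsState G q t φ)
    {S : Finset (V × Fin k)} (hSH : S ⊆ Hset G q j0 t φ)
    (hS : ∀ x ∈ S, ∀ y ∈ S, x ≠ y → ¬ Conf G φ x y) (u v : V) (c : Fin k)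
    (hu : newCol G φ S u = some c) (hv : newCol G φ S v = some c) : ¬ G.Adj u v := by
  intro ha
  rcases newCol_eq_some u c hu with h1 | ⟨h1, _⟩ <;> rcases newCol_eq_some v c hv with h2 | ⟨h2, _⟩
  · exact G.ne_of_adj ha (c2b_uniq hS h1 h2)
  · exact (c2b_H (hSH h1)).2.2.1 v h2 ha
  · exact (c2b_H (hSH h2)).2.2.1 u h1 ha.symm
  · exact hφ.indep u v c h1 h2 ha

theorem c2b_nb {Z : Finset V} (h2 : ∀ z ∈ Z, 1 < (Z.filter fun w => G.Adj z w).card) (z : V)
    (hz : z ∈ Z) (u : V) : ∃ y ∈ Z, G.Adj z y ∧ y ≠ u := by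
  obtain ⟨a, ha, b, hb, hab⟩ := one_lt_card.1 (h2 z hz)
  rw [mem_filter] at ha hb
  by_cases h : a = u
  · exact ⟨b, hb.1, hb.2, fun h' => hab (h.trans h'.symm)⟩
  · exact ⟨a, ha.1, ha.2, h⟩

theorem c2b_cross {q j0 : ℕ} {t : ℝ} {φ : V → Option (Fin k)} (hφ : IsState G q t φ)
    {S : Finset (V × Fin k)} (hSH : S ⊆ Hset G q j0 t φ)
    (hS : ∀ x ∈ S, ∀ y ∈ S, x ≠ y → ¬ Conf G φ x y) {c c' : Fin k} {Z : Finset V}
    (hZ : ∀ z ∈ Z, newCol G φ S z = some c ∨ newCol G φ S z = some c') {z y : V} (_hz : z ∈ Z)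
    (hy : y ∈ Z) (hzc : newCol G φ S z = some c) (ha : G.Adj z y) : newCol G φ S y = some c' := by
  rcases hZ y hy with h | h
  · exact absurd ha (c2b_indep hφ hSH hS z y c hzc h)
  · exact h

/-- exactly one new vertex: impossible -/
theorem c2b_one {q j0 : ℕ} {t : ℝ} {φ : V → Option (Fin k)} (hφ : IsState G q t φ)
    {S : Finset (V × Fin k)} (hSH : S ⊆ Hset G q j0 t φ)
    (hS : ∀ x ∈ S, ∀ y ∈ S, x ≠ y → ¬ Conf G φ x y) {c c' : Fin k}
    {Z : Finset V} (hZ : ∀ z ∈ Z, newCol G φ S z = some c ∨ newCol G φ S z = some c')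
    (h2 : ∀ z ∈ Z, 1 < (Z.filter fun w => G.Adj z w).card) {v : V} (hv : v ∈ Z)
    (hvS : (v, c) ∈ S) (hno : ∀ v' ∈ Z, (v', c') ∉ S) : False := by
  have hZ' : ∀ z ∈ Z, newCol G φ S z = some c' ∨ newCol G φ S z = some c :=
    fun z hz => (hZ z hz).symm
  have hold : ∀ y ∈ Z, newCol G φ S y = some c' → φ y = some c' ∧
      ∀ x ∈ S, c' ∉ Jset (Aset G φ) (Bset G φ) x := by
    intro y hy hyc
    rcases newCol_eq_some y c' hyc with h | h
    · exact absurd h (hno y hy)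
    · exact h
  have hvc : newCol G φ S v = some c := newCol_of_mem hS v c hvS
  have htwo : ∀ z ∈ Z, newCol G φ S z = some c → Two G z (cls φ c') := by
    intro z hz hzc
    unfold Two
    refine le_trans (h2 z hz) (card_le_card ?_)
    intro w hw
    rw [mem_filter] at hw ⊢
    refine ⟨?_, hw.2⟩
    unfold cls
    exact mem_filter.2 ⟨mem_univ _, (hold w hw.1 (c2b_cross hφ hSH hS hZ hz hw.1 hzc hw.2)).1⟩
  obtain ⟨y, hy, hvy, _⟩ := c2b_nb h2 v hv v
  have hyc := c2b_cross hφ hSH hS hZ hv hy hvc hvy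
  obtain ⟨w, hw, hyw, hwv⟩ := c2b_nb h2 y hy v
  have hwc := c2b_cross hφ hSH hS hZ' hy hw hyc hyw
  have hwo : φ w = some c := by
    rcases newCol_eq_some w c hwc with h | h
    · exact absurd (c2b_uniq hS h hvS) hwv
    · exact h.1
  refine (hold y hy hyc).2 _ hvS ?_
  rw [c2b_memJ]
  refine ⟨?_, ?_⟩
  · unfold Aset
    exact mem_filter.2 ⟨mem_univ _, (c2b_H (hSH hvS)).1, htwo v hv hvc⟩
  · unfold Bset
    exact mem_filter.2 ⟨mem_univ _, w, hwo, htwo w hw hwc⟩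

theorem c2b_half {q j0 : ℕ} {t : ℝ} {φ : V → Option (Fin k)} (hφ : IsState G q t φ)
    {S : Finset (V × Fin k)} (hSH : S ⊆ Hset G q j0 t φ)
    (hS : ∀ x ∈ S, ∀ y ∈ S, x ≠ y → ¬ Conf G φ x y) {c c' : Fin k}
    {Z : Finset V} (hZ : ∀ z ∈ Z, newCol G φ S z = some c ∨ newCol G φ S z = some c')
    (h2 : ∀ z ∈ Z, 1 < (Z.filter fun w => G.Adj z w).card) {v v' : V} (hv : v ∈ Z)
    (hvS : (v, c) ∈ S) (hvS' : (v', c') ∈ S) :
    (∃ y, φ y = some c' ∧ G.Adj v y ∧ ∃ w, φ w = some c ∧ G.Adj y w) ∧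
      Two G v (insert v' (cls φ c')) := by
  have hZ' : ∀ z ∈ Z, newCol G φ S z = some c' ∨ newCol G φ S z = some c :=
    fun z hz => (hZ z hz).symm
  have hvc : newCol G φ S v = some c := newCol_of_mem hS v c hvS
  have hold : ∀ y, newCol G φ S y = some c' → y ≠ v' → φ y = some c' := by
    intro y hyc hne
    rcases newCol_eq_some y c' hyc with h | h
    · exact absurd (c2b_uniq hS h hvS') hne
    · exact h.1
  have hold' : ∀ y, newCol G φ S y = some c → y ≠ v → φ y = some c := by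
    intro y hyc hne
    rcases newCol_eq_some y c hyc with h | h
    · exact absurd (c2b_uniq hS h hvS) hne
    · exact h.1
  refine ⟨?_, ?_⟩
  · obtain ⟨y, hy, hvy, hyv'⟩ := c2b_nb h2 v hv v'
    have hyc := c2b_cross hφ hSH hS hZ hv hy hvc hvy
    obtain ⟨w, hw, hyw, hwv⟩ := c2b_nb h2 y hy v
    have hwc := c2b_cross hφ hSH hS hZ' hy hw hyc hyw
    exact ⟨y, hold y hyc hyv', hvy, w, hold' w hwc hwv, hyw⟩
  · unfold Two
    refine le_trans (h2 v hv) (card_le_card ?_)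
    intro w hw
    rw [mem_filter] at hw ⊢
    refine ⟨?_, hw.2⟩
    rw [mem_insert]
    by_cases h : w = v'
    · exact Or.inl h
    · right
      unfold cls
      exact mem_filter.2 ⟨mem_univ _, hold w (c2b_cross hφ hSH hS hZ hv hw.1 hvc hw.2) h⟩

/-- (V4) for the new colouring. -/
theorem newCol_forest {q j0 : ℕ} {t : ℝ} {φ : V → Option (Fin k)} (hφ : IsState G q t φ)
    {S : Finset (V × Fin k)} (hSH : S ⊆ Hset G q j0 t φ)
    (hS : ∀ x ∈ S, ∀ y ∈ S, x ≠ y → ¬ Conf G φ x y) (c c' : Fin k) (hcc : c ≠ c') :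
    CoreFree G {v | newCol G φ S v = some c ∨ newCol G φ S v = some c'} := by
  intro Z hZn hZ
  by_contra hcon
  push Not at hcon
  have h2 : ∀ z ∈ Z, 1 < (Z.filter fun w => G.Adj z w).card := hcon
  have hZ1 : ∀ z ∈ Z, newCol G φ S z = some c ∨ newCol G φ S z = some c' := hZ
  have hZ2 : ∀ z ∈ Z, newCol G φ S z = some c' ∨ newCol G φ S z = some c :=
    fun z hz => (hZ1 z hz).symm
  by_cases hA : ∃ v ∈ Z, (v, c) ∈ S
  · obtain ⟨v, hv, hvS⟩ := hA
    by_cases hB : ∃ v' ∈ Z, (v', c') ∈ S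
    · obtain ⟨v', hv', hvS'⟩ := hB
      obtain ⟨p1, p2⟩ := c2b_half hφ hSH hS hZ1 h2 hv hvS hvS'
      obtain ⟨p3, p4⟩ := c2b_half hφ hSH hS hZ2 h2 hv' hvS' hvS
      have hne : (v, c) ≠ (v', c') := fun h => hcc (congrArg Prod.snd h)
      exact hS _ hvS _ hvS' hne ⟨hne, Or.inr (Or.inr ⟨p1, p3, p2, p4⟩)⟩
    · push Not at hB
      exact c2b_one hφ hSH hS hZ1 h2 hv hvS hB
  · push Not at hA
    by_cases hB : ∃ v' ∈ Z, (v', c') ∈ S
    · obtain ⟨v', hv', hvS'⟩ := hB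
      exact c2b_one hφ hSH hS hZ2 h2 hv' hvS' hA
    · push Not at hB
      obtain ⟨z, hz, hz1⟩ := hφ.forest c c' hcc Z hZn (fun z hz => by
        rcases hZ1 z hz with h | h
        · rcases newCol_eq_some z c h with h' | h'
          · exact absurd h' (hA z hz)
          · exact Or.inl h'.1
        · rcases newCol_eq_some z c' h with h' | h'
          · exact absurd h' (hB z hz)
          · exact Or.inr h'.1)
      have := h2 z hz
      omega

end Pool.Agent.Lib.H93A
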