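import Pool.Agent.Lib.H93A.C2B

/-!
# H93A, C2C: the new colouring is a state

See `PROOF.md`.
-/

set_option autoImplicit false

open Finset
open scoped Classical

namespace Pool.Agent.Lib.H93A

variable {V : Type} [Fintype V] {G : SimpleGraph V} {k : ℕ}

/-- The new colouring is a state. -/
theorem newCol_state {q j0 : ℕ} {t : ℝ} {φ : V → Option (Fin k)} (hφ : IsState G q t φ)
    {S : Finset (V × Fin k)} (hSH : S ⊆ Hset G q j0 t φ)
    (hS : ∀ x ∈ S, ∀ y ∈ S, x ≠ y → ¬ Conf G φ x y) : IsState G q t (newCol G φ S) := by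
  refine ⟨c2b_indep hφ hSH hS, ?_, ?_, newCol_forest hφ hSH hS⟩
  · intro c
    by_cases h : ∃ v, (v, c) ∈ S
    · obtain ⟨v, hv⟩ := h
      have h1 : cls (newCol G φ S) c ⊆ insert v (cls φ c) := by
        intro u hu
        unfold cls at hu ⊢
        rw [mem_insert]
        rcases newCol_eq_some u c (mem_filter.1 hu).2 with h' | h'
        · exact Or.inl (c2b_uniq hS h' hv)
        · exact Or.inr (mem_filter.2 ⟨mem_univ _, h'.1⟩)
      have h2 := (card_le_card h1).trans (card_insert_le _ _)
      have h3 := (c2b_H (hSH hv)).2.1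
      dsimp only at h3
      omega
    · push Not at h
      have h1 : cls (newCol G φ S) c ⊆ cls φ c := by
        intro u hu
        unfold cls at hu ⊢
        rcases newCol_eq_some u c (mem_filter.1 hu).2 with h' | h'
        · exact absurd h' (h u)
        · exact mem_filter.2 ⟨mem_univ _, h'.1⟩
      exact (card_le_card h1).trans (hφ.small c)
  · intro u v c huv hu hv
    have hsym : codeg G u v = codeg G v u := by
      unfold codeg
      congr 1
      ext y
      simp only [mem_filter, mem_univ, true_and]
      exact and_comm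
    rcases newCol_eq_some u c hu with h1 | ⟨h1, _⟩ <;>
      rcases newCol_eq_some v c hv with h2 | ⟨h2, _⟩
    · exact absurd (c2b_uniq hS h1 h2) huv
    · exact (c2b_H (hSH h1)).2.2.2 v h2
    · rw [hsym]
      exact (c2b_H (hSH h2)).2.2.2 u h1
    · exact hφ.codeg_le u v c huv h1 h2

end Pool.Agent.Lib.H93A
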