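import Pool.Agent.Lib.H93A.C2A

/-!
# H93A, C2D: fewer uncoloured vertices

See `PROOF.md`.
-/

set_option autoImplicit false

open Finset
open scoped Classical

namespace Pool.Agent.Lib.H93A

variable {V : Type} [Fintype V] {G : SimpleGraph V} {k : ℕ}

theorem c2d_memJS {Q R M : Type} [Fintype Q] [Fintype R] [Fintype M] (A : M → Finset Q)
    (B : M → Finset R) (S : Finset (Q × R)) (f : M) : f ∈ JS A B S ↔ ∃ x ∈ S, f ∈ Jset A B x := by
  unfold JS
  rw [mem_filter]
  exact and_iff_right (mem_univ _)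

/-- The number of uncoloured vertices drops if `|S| > q |J(S)|`. -/
theorem newCol_unc_lt {q j0 : ℕ} {t : ℝ} {φ : V → Option (Fin k)} (hφ : IsState G q t φ)
    {S : Finset (V × Fin k)} (hSH : S ⊆ Hset G q j0 t φ)
    (hS : ∀ x ∈ S, ∀ y ∈ S, x ≠ y → ¬ Conf G φ x y)
    (hcard : q * (JS (Aset G φ) (Bset G φ) S).card < S.card) :
    (unc (newCol G φ S)).card < (unc φ).card := by
  have hinj : (S.image Prod.fst).card = S.card := by
    apply card_image_of_injOn
    intro x hx y hy hxy
    by_contra hne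
    exact hS x hx y hy hne ⟨hne, Or.inl hxy⟩
  have hsub : S.image Prod.fst ⊆ unc φ := by
    intro v hv
    obtain ⟨x, hx, rfl⟩ := mem_image.1 hv
    have h1 := hSH hx
    unfold Hset at h1
    unfold unc
    exact mem_filter.2 ⟨mem_univ _, (mem_filter.1 h1).2.1⟩
  have hcov : unc (newCol G φ S) ⊆ (unc φ \ S.image Prod.fst) ∪
      (JS (Aset G φ) (Bset G φ) S).biUnion fun c => cls φ c := by
    intro v hv
    have hv' : newCol G φ S v = none := by
      unfold unc at hv
      exact (mem_filter.1 hv).2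
    have hvS : ¬ ∃ c, (v, c) ∈ S := by
      rintro ⟨c, hc⟩
      rw [newCol_of_mem hS v c hc] at hv'
      exact absurd hv' (by simp)
    unfold newCol at hv'
    rw [dif_neg hvS] at hv'
    rw [mem_union]
    by_cases h2 : ∃ c, φ v = some c ∧ ∃ x ∈ S, c ∈ Jset (Aset G φ) (Bset G φ) x
    · right
      obtain ⟨c, hc, x, hx, hcx⟩ := h2
      rw [mem_biUnion]
      refine ⟨c, ?_, ?_⟩
      · exact (c2d_memJS _ _ _ _).2 ⟨x, hx, hcx⟩
      · unfold cls
        exact mem_filter.2 ⟨mem_univ _, hc⟩
    · left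
      rw [if_neg h2] at hv'
      rw [mem_sdiff]
      refine ⟨?_, ?_⟩
      · unfold unc
        exact mem_filter.2 ⟨mem_univ _, hv'⟩
      · intro h
        obtain ⟨x, hx, rfl⟩ := mem_image.1 h
        exact hvS ⟨x.2, hx⟩
  have h1 := (card_le_card hcov).trans (card_union_le _ _)
  have h2 : ((JS (Aset G φ) (Bset G φ) S).biUnion fun c => cls φ c).card ≤
      q * (JS (Aset G φ) (Bset G φ) S).card := by
    refine card_biUnion_le.trans ?_
    rw [mul_comm]
    exact sum_le_card_nsmul _ _ q (fun c _ => hφ.small c)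
  have h3 : (unc φ \ S.image Prod.fst).card = (unc φ).card - S.card := by
    rw [card_sdiff_of_subset hsub, hinj]
  have h4 : S.card ≤ (unc φ).card := by
    rw [← hinj]
    exact card_le_card hsub
  omega

end Pool.Agent.Lib.H93A
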