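import Pool.Agent.Lib.H93A.CDefs

/-!
# H93A, C3A: core-free implies forest

See `PROOF.md`.
-/

set_option autoImplicit false

open Finset
open scoped Classical

namespace Pool.Agent.Lib.H93A

variable {V : Type} [Fintype V] {G : SimpleGraph V} {k : ℕ}

/-- A core-free set induces a forest: the support of a cycle is a finite set in which every vertex has at
least two neighbours. -/
theorem CoreFree.isAcyclic {W : Set V} (h : CoreFree G W) : (G.induce W).IsAcyclic := by
  intro v p hp
  set Z : Finset V := p.support.toFinset.image Subtype.val with hZ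
  have hZn : Z.Nonempty := ⟨v, mem_image.2 ⟨v, List.mem_toFinset.2 p.start_mem_support, rfl⟩⟩
  obtain ⟨z, hz, hz1⟩ := h Z hZn (fun z hz => by
    obtain ⟨w, _, rfl⟩ := mem_image.1 hz
    exact w.2)
  obtain ⟨w, hw, rfl⟩ := mem_image.1 hz
  have hw' : w ∈ p.support := List.mem_toFinset.1 hw
  have h2 := hp.ncard_neighborSet_toSubgraph_eq_two hw'
  rw [Set.ncard_eq_two] at h2
  obtain ⟨a, b, hab, h3⟩ := h2
  have key : ∀ x, x ∈ p.toSubgraph.neighborSet w → (x : V) ∈ Z.filter fun u => G.Adj w u := by
    intro x hx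
    have h4 : p.toSubgraph.Adj w x := hx
    rw [mem_filter]
    refine ⟨mem_image.2 ⟨x, List.mem_toFinset.2 ?_, rfl⟩, ?_⟩
    · exact p.mem_verts_toSubgraph.1 (p.toSubgraph.edge_vert h4.symm)
    · exact h4.adj_sub
  have ha := key a (by rw [h3]; simp)
  have hb := key b (by rw [h3]; simp)
  have hab' : (a : V) ≠ b := fun h => hab (Subtype.ext h)
  have : 1 < (Z.filter fun u => G.Adj w u).card := one_lt_card.2 ⟨a, ha, b, hb, hab'⟩
  omega

end Pool.Agent.Lib.H93A
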