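import Pool.Agent.Lib.H93A.C3A

/-!
# H93A, C3B: from a state to an acyclic colouring

See `PROOF.md`.
-/

set_option autoImplicit false

open Finset
open scoped Classical

namespace Pool.Agent.Lib.H93A

variable {V : Type} [Fintype V] {G : SimpleGraph V} {k : ℕ}

theorem c3b_single {α : Type*} (C : V → α) (hprop : ∀ u v : V, G.Adj u v → C u ≠ C v) (a b : α)
    (hb : ∀ u v, C u = b → C v = b → u = v) : CoreFree G {v | C v = a ∨ C v = b} := by
  intro Z hZn hZ
  have hZ' : ∀ z ∈ Z, C z = a ∨ C z = b := hZ
  by_cases h : ∃ z ∈ Z, C z ≠ b
  · obtain ⟨z, hz, hzb⟩ := h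
    have hza : C z = a := (hZ' z hz).resolve_right hzb
    refine ⟨z, hz, ?_⟩
    rw [card_le_one]
    intro x hx y hy
    rw [mem_filter] at hx hy
    have h1 : ∀ w ∈ Z, G.Adj z w → C w = b := by
      intro w hw ha
      exact (hZ' w hw).resolve_left (fun h => hprop z w ha (hza.trans h.symm))
    exact hb x y (h1 x hx.1 hx.2) (h1 y hy.1 hy.2)
  · push Not at h
    obtain ⟨z, hz⟩ := hZn
    refine ⟨z, hz, ?_⟩
    rw [card_le_one]
    intro x hx
    rw [mem_filter] at hx
    exact absurd ((h z hz).trans (h x hx.1).symm) (hprop z x hx.2)

/-- Give every uncoloured vertex its own new colour. (If one of the two classes is a single vertex `u`, a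
vertex of the other class has at most one neighbour in `Z`; `C v = a ∨ C v = a` is an independent set.) -/
theorem acyclicChromatic_le_of_state {q : ℕ} {t : ℝ} {φ : V → Option (Fin k)}
    (hφ : IsState G q t φ) : acyclicChromatic G ≤ k + (unc φ).card := by
  have hun : ∀ v, φ v = none → v ∈ unc φ := by
    intro v hv
    unfold unc
    exact mem_filter.2 ⟨mem_univ _, hv⟩
  let C : V → Fin k ⊕ {v // v ∈ unc φ} := fun v =>
    if h : φ v = none then Sum.inr ⟨v, hun v h⟩ else Sum.inl ((φ v).get (Option.isSome_iff_ne_none.2 h))
  have hinr : ∀ v u, C v = Sum.inr u → v = u.1 := by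
    intro v u h
    dsimp only [C] at h
    by_cases h1 : φ v = none
    · rw [dif_pos h1] at h
      rw [← Sum.inr_injective h]
    · rw [dif_neg h1] at h
      exact absurd h (by simp)
  have hinl : ∀ v c, C v = Sum.inl c → φ v = some c := by
    intro v c h
    dsimp only [C] at h
    by_cases h1 : φ v = none
    · rw [dif_pos h1] at h
      exact absurd h (by simp)
    · rw [dif_neg h1] at h
      rw [← Sum.inl_injective h]
      simp
  have hprop : ∀ u v : V, G.Adj u v → C u ≠ C v := by
    intro u v ha he
    rcases hc : C v with c | w
    · exact hφ.indep u v c (hinl u c (he.trans hc)) (hinl v c hc) ha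
    · exact G.ne_of_adj ha ((hinr u w (he.trans hc)).trans (hinr v w hc).symm)
  have hcore : ∀ a b, CoreFree G {v | C v = a ∨ C v = b} := by
    intro a b
    rcases hb : b with c' | w
    · rcases ha : a with c | w
      · by_cases hcc : c = c'
        · -- one class
          intro Z hZn hZ
          obtain ⟨z, hz⟩ := hZn
          refine ⟨z, hz, ?_⟩
          have h1 : (Z.filter fun w => G.Adj z w) = ∅ := by
            rw [filter_eq_empty_iff]
            intro x hx hzx
            have e1 : C z = Sum.inl c := by
              rcases hZ z hz with h | h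
              · exact h
              · rw [hcc]; exact h
            have e2 : C x = Sum.inl c := by
              rcases hZ x hx with h | h
              · exact h
              · rw [hcc]; exact h
            exact hprop z x hzx (e1.trans e2.symm)
          rw [h1]
          simp
        · intro Z hZn hZ
          refine hφ.forest c c' hcc Z hZn (fun z hz => ?_)
          rcases hZ z hz with h | h
          · exact Or.inl (hinl z c h)
          · exact Or.inr (hinl z c' h)
      · have h1 := c3b_single C hprop (Sum.inl c') (Sum.inr w)
          (fun u v hu hv => (hinr u w hu).trans (hinr v w hv).symm)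
        have h2 : {v | C v = Sum.inr w ∨ C v = Sum.inl c'} =
            {v | C v = Sum.inl c' ∨ C v = Sum.inr w} := by
          ext v
          exact or_comm
        rw [h2]
        exact h1
    · exact c3b_single C hprop a (Sum.inr w)
        (fun u v hu hv => (hinr u w hu).trans (hinr v w hv).symm)
  have hcardT : Fintype.card (Fin k ⊕ {v // v ∈ unc φ}) = k + (unc φ).card := by
    rw [Fintype.card_sum, Fintype.card_fin, Fintype.card_coe]
  let e := Fintype.equivFinOfCardEq hcardT
  unfold acyclicChromatic
  refine Nat.sInf_le ⟨fun v => e (C v), fun u v ha h => hprop u v ha (e.injective h), ?_⟩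
  intro a b
  have h1 := (hcore (e.symm a) (e.symm b)).isAcyclic
  have h2 : {v : V | e (C v) = a ∨ e (C v) = b} = {v | C v = e.symm a ∨ C v = e.symm b} := by
    ext v
    simp only [Set.mem_setOf_eq, Equiv.eq_symm_apply]
  rw [h2]
  exact h1

end Pool.Agent.Lib.H93A
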