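import Pool.Agent.Lib.H93A.C3B

/-!
# H93A, C3C: minimal state, trivial bound

See `PROOF.md`.
-/

set_option autoImplicit false

open Finset
open scoped Classical

namespace Pool.Agent.Lib.H93A

variable {V : Type} [Fintype V] {G : SimpleGraph V} {k : ℕ}

theorem c3c_none (G : SimpleGraph V) (k q : ℕ) (t : ℝ) :
    IsState G q t (fun _ : V => (none : Option (Fin k))) := by
  refine ⟨?_, ?_, ?_, ?_⟩
  · intro u v c h
    exact absurd h (by simp)
  · intro c
    have : cls (fun _ : V => (none : Option (Fin k))) c = ∅ := by
      unfold cls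
      rw [filter_eq_empty_iff]
      intro v _
      simp
    rw [this]
    simp
  · intro u v c _ h
    exact absurd h (by simp)
  · intro c c' _ Z hZn hZ
    obtain ⟨z, hz⟩ := hZn
    rcases hZ z hz with h | h <;> exact absurd h (by simp)

/-- There is a state with the minimal number of uncoloured vertices (the empty colouring is a state). -/
theorem exists_min_state (G : SimpleGraph V) (k q : ℕ) (t : ℝ) :
    ∃ φ : V → Option (Fin k), IsState G q t φ ∧ ∀ ψ : V → Option (Fin k), IsState G q t ψ →
      (unc φ).card ≤ (unc ψ).card := by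
  have h0 : IsState G q t (fun _ : V => (none : Option (Fin k))) := c3c_none G k q t
  obtain ⟨φ, hφ, hmin⟩ := exists_min_image
    (univ.filter fun φ : V → Option (Fin k) => IsState G q t φ) (fun φ => (unc φ).card)
    ⟨fun _ => none, mem_filter.2 ⟨mem_univ _, h0⟩⟩
  exact ⟨φ, (mem_filter.1 hφ).2, fun ψ hψ => hmin ψ (mem_filter.2 ⟨mem_univ _, hψ⟩)⟩

/-- trivial bound -/
theorem acyclicChromatic_le_card (G : SimpleGraph V) : acyclicChromatic G ≤ Fintype.card V := by
  have h := acyclicChromatic_le_of_state (c3c_none G 0 0 0)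
  refine h.trans ?_
  rw [zero_add]
  exact card_le_univ _

end Pool.Agent.Lib.H93A
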