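import Pool.Agent.Lib.H93A.G2Defs

/-!
# H93A, CDefs: definitions for the application (`PROOF.md`, section 2)
-/

set_option autoImplicit false

open Finset
open scoped Classical

namespace Pool.Agent.Lib.H93A

/-- An acyclic colouring: a proper vertex colouring in which the union of any two colour classes
induces a forest. -/
def IsAcyclicColouring {V : Type*} (G : SimpleGraph V) {α : Type*} (C : V → α) : Prop :=
  (∀ u v : V, G.Adj u v → C u ≠ C v) ∧
    ∀ a b : α, (G.induce {v : V | C v = a ∨ C v = b}).IsAcyclic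

/-- The acyclic chromatic number: the least number of colours of an acyclic colouring. -/
noncomputable def acyclicChromatic {V : Type*} (G : SimpleGraph V) : ℕ :=
  sInf {k : ℕ | ∃ C : V → Fin k, IsAcyclicColouring G C}

variable {V : Type} [Fintype V] (G : SimpleGraph V) {k : ℕ}

/-- every nonempty finite subset of `W` has a vertex with at most one neighbour in the subset -/
def CoreFree (W : Set V) : Prop :=
  ∀ Z : Finset V, Z.Nonempty → (∀ z ∈ Z, z ∈ W) → ∃ z ∈ Z, (Z.filter fun w => G.Adj z w).card ≤ 1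

/-- number of common neighbours -/
noncomputable def codeg (u v : V) : ℕ := (univ.filter fun y => G.Adj u y ∧ G.Adj v y).card

/-- colour class -/
noncomputable def cls (φ : V → Option (Fin k)) (c : Fin k) : Finset V :=
  univ.filter fun v => φ v = some c

/-- `v` has at least two neighbours in `W` -/
def Two (v : V) (W : Finset V) : Prop := 2 ≤ (W.filter fun w => G.Adj v w).card

/-- a state -/
structure IsState (q : ℕ) (t : ℝ) (φ : V → Option (Fin k)) : Prop where
  indep : ∀ u v c, φ u = some c → φ v = some c → ¬ G.Adj u v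
  small : ∀ c, (cls φ c).card ≤ q
  codeg_le : ∀ u v c, u ≠ v → φ u = some c → φ v = some c → (codeg G u v : ℝ) ≤ t
  forest : ∀ c c', c ≠ c' → CoreFree G {v | φ v = some c ∨ φ v = some c'}

/-- `A_c'` -/
noncomputable def Aset (φ : V → Option (Fin k)) (c' : Fin k) : Finset V :=
  univ.filter fun v => φ v = none ∧ Two G v (cls φ c')

/-- `B_c'` -/
noncomputable def Bset (φ : V → Option (Fin k)) (c' : Fin k) : Finset (Fin k) :=
  univ.filter fun c => ∃ w, φ w = some c ∧ Two G w (cls φ c')

/-- `H` -/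
noncomputable def Hset (q j0 : ℕ) (t : ℝ) (φ : V → Option (Fin k)) : Finset (V × Fin k) :=
  univ.filter fun x => φ x.1 = none ∧ (cls φ x.2).card < q ∧
    (∀ w, φ w = some x.2 → ¬ G.Adj x.1 w) ∧ (∀ w, φ w = some x.2 → (codeg G x.1 w : ℝ) ≤ t) ∧
    (Jset (Aset G φ) (Bset G φ) x).card ≤ j0

/-- the condition `Y` -/
def Ycond (φ : V → Option (Fin k)) (v : V) (c : Fin k) (v' : V) (c' : Fin k) : Prop :=
  (∃ y, φ y = some c' ∧ G.Adj v y ∧ ∃ w, φ w = some c ∧ G.Adj y w) ∧
  (∃ w, φ w = some c ∧ G.Adj v' w ∧ ∃ y, φ y = some c' ∧ G.Adj w y) ∧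
  Two G v (insert v' (cls φ c')) ∧ Two G v' (insert v (cls φ c))

/-- conflict -/
def Conf (φ : V → Option (Fin k)) (x x' : V × Fin k) : Prop :=
  x ≠ x' ∧ (x.1 = x'.1 ∨ x.2 = x'.2 ∨ Ycond G φ x.1 x.2 x'.1 x'.2)

/-- the uncoloured vertices -/
noncomputable def unc (φ : V → Option (Fin k)) : Finset V := univ.filter fun v => φ v = none

/-- the new colouring -/
noncomputable def newCol (φ : V → Option (Fin k)) (S : Finset (V × Fin k)) (v : V) :
    Option (Fin k) :=
  if h : ∃ c, (v, c) ∈ S then some h.choose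
  else if ∃ c, φ v = some c ∧ ∃ x ∈ S, c ∈ Jset (Aset G φ) (Bset G φ) x then none else φ v

end Pool.Agent.Lib.H93A
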