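import Mathlib

/-!
# H93A: definitions

See `PROOF.md`. Finite probability spaces are finite types with a weight function `μ : Ω → ℝ`.
-/

set_option autoImplicit false

open Finset
open scoped Classical

namespace Pool.Agent.Lib.H93A

/-- probability of an event in a finite weighted space -/
noncomputable def pr {Ω : Type} [Fintype Ω] (μ : Ω → ℝ) (A : Ω → Prop) : ℝ :=
  ∑ ω, if A ω then μ ω else 0

/-- expectation -/
noncomputable def ex {Ω : Type} [Fintype Ω] (μ : Ω → ℝ) (F : Ω → ℝ) : ℝ := ∑ ω, μ ω * F ω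

/-- `μ` is a probability weight -/
structure IsProb {Ω : Type} [Fintype Ω] (μ : Ω → ℝ) : Prop where
  nonneg : ∀ ω, 0 ≤ μ ω
  sum_one : ∑ ω, μ ω = 1

/-- `b` independent copies of `μ` and independent Bernoulli variables with parameters `w x` -/
noncomputable def stepMeasure {Ω X : Type} [Fintype Ω] [Fintype X] (b : ℕ) (μ : Ω → ℝ) (w : X → ℝ) :
    (Fin b → Ω) × (X → Bool) → ℝ :=
  fun z => (∏ j, μ (z.1 j)) * ∏ x, (if z.2 x = true then w x else 1 - w x)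

/-- The data of the core part (`PROOF.md`, sections 1.2 to 1.6): `E` is `H''`, `pos x` enumerates
`V(x)`, `k f` is the number of classes of the partition at `f`, `iA f`, `iB f` the class numbers.
Two sizes: `N` is the scale (`|A_f|, |B_f| ≤ K √N`), `n` the number of blockers (`|M| ≤ n`, `|E| ≤ n N`);
in `PROOF.md` `n = N`. -/
structure Core (Q R M : Type) where
  n : ℕ
  N : ℕ
  m : ℕ
  b : ℕ
  E : Finset (Q × R)
  pos : Q × R → Fin b → M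
  k : M → ℕ
  iA : M → Q → ℕ
  iB : M → R → ℕ
  X : Finset (Q × R)
  conf : Q × R → Q × R → Prop

namespace Core

variable {Q R M : Type} (D : Core Q R M)

/-- `f ∈ V(x)` -/
def inV (f : M) (x : Q × R) : Prop := ∃ i, D.pos x i = f

/-- `X_f` -/
noncomputable def Xf (f : M) : Finset (Q × R) := D.E.filter fun x => D.inV f x

/-- the cell of `x` at `f` -/
def cell (f : M) (x : Q × R) : ℕ × ℕ := (D.iA f x.1, D.iB f x.2)

/-- first coordinates in the class `u` at `f` -/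
noncomputable def clA (f : M) (u : ℕ) : Finset Q := ((D.Xf f).image Prod.fst).filter fun a => D.iA f a = u

/-- second coordinates in the class `v` at `f` -/
noncomputable def clB (f : M) (v : ℕ) : Finset R := ((D.Xf f).image Prod.snd).filter fun a => D.iB f a = v

/-- the history of `f` in `S` -/
noncomputable def hist (S : Finset (Q × R)) (f : M) : Finset (Q × R) := S.filter fun y => D.inV f y

/-- the class pair `(u,v)` is good at `f` -/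
def Good (ε d : ℝ) (f : M) (u v : ℕ) : Prop :=
  ∀ A' ⊆ D.clA f u, ∀ B' ⊆ D.clB f v,
    ε * (4 * D.m / D.k f) ≤ A'.card → ε * (4 * D.m / D.k f) ≤ B'.card →
    d * A'.card * B'.card ≤ ((D.Xf f ∩ A' ×ˢ B').card : ℝ)

end Core

/-- the hypotheses on the core data -/
structure CoreHyp {Q R M : Type} [Fintype Q] [Fintype R] [Fintype M] (D : Core Q R M)
    (kmax j0 : ℕ) (K c1 θ1 ε d : ℝ) : Prop where
  b_pos : 1 ≤ D.b
  b_le : D.b ≤ j0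
  hK : 1 ≤ K
  N_pos : 1 ≤ D.N
  n_pos : 1 ≤ D.n
  cardM : Fintype.card M ≤ D.n
  cardE : (D.E.card : ℝ) ≤ (D.n : ℝ) * D.N
  pos_inj : ∀ x ∈ D.E, Function.Injective (D.pos x)
  k_pos : ∀ f, 1 ≤ D.k f
  k_le : ∀ f, D.k f ≤ kmax
  m_pos : 1 ≤ D.m
  m_sq : (D.m : ℝ) ^ 2 ≤ 4 * K ^ 2 * D.N
  X_sub : D.X ⊆ D.E
  cardX : (3 / 4) * c1 * ((D.n : ℝ) * D.N) ≤ D.X.card
  cardXf : ∀ f, ((D.Xf f).card : ℝ) ≤ (D.m : ℝ) ^ 2
  iA_lt : ∀ f, ∀ x ∈ D.Xf f, D.iA f x.1 < D.k f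
  iB_lt : ∀ f, ∀ x ∈ D.Xf f, D.iB f x.2 < D.k f
  clA_le : ∀ f u, ((D.clA f u).card : ℝ) ≤ 4 * D.m / D.k f
  clB_le : ∀ f v, ((D.clB f v).card : ℝ) ≤ 4 * D.m / D.k f
  good : ∀ x ∈ D.X, ∀ i, D.Good ε d (D.pos x i) (D.iA (D.pos x i) x.1) (D.iB (D.pos x i) x.2)
  weak : ∀ x ∈ D.E, ∀ i j, i ≠ j →
    ((D.Xf (D.pos x i) ∩ D.Xf (D.pos x j)).card : ℝ) ≤ θ1 * D.N
  conf_symm : ∀ x y, D.conf x y → D.conf y x
  conf_card : ∀ x ∈ D.X, ((D.X.filter fun y => D.conf x y).card : ℝ) ≤ K * D.N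
  conf_not : ∀ x ∈ D.X, ∀ y ∈ D.X, x.1 ≠ y.1 → x.2 ≠ y.2 → (x.1, y.2) ∈ D.E → ¬ D.conf x y

/-- A system (`PROOF.md`, 1.3). -/
structure Sys {Q R M : Type} (D : Core Q R M) (Ω : Type) [Fintype Ω] where
  μ : Ω → ℝ
  P : Ω → Finset M
  C : Ω → M → ℕ × ℕ
  S : Ω → Finset (Q × R)

/-- The properties of a system with parameters `p, κ, δ`. -/
structure SysHyp {Q R M : Type} {D : Core Q R M} {Ω : Type} [Fintype Ω] (Y : Sys D Ω)
    (p κ δ : ℝ) : Prop where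
  prob : IsProb Y.μ
  p_pos : 0 < p
  κ_nonneg : 0 ≤ κ
  S_sub : ∀ ω, Y.S ω ⊆ D.X
  C_lt : ∀ ω, ∀ f ∈ Y.P ω, (Y.C ω f).1 < D.k f ∧ (Y.C ω f).2 < D.k f
  s1 : ∀ ω, ∀ x ∈ Y.S ω, ∀ y ∈ Y.S ω, x ≠ y → ¬ D.conf x y
  s1' : ∀ ω, ∀ x ∈ Y.S ω, ∀ i, D.pos x i ∈ Y.P ω ∧ Y.C ω (D.pos x i) = D.cell (D.pos x i) x
  s2p : ∀ f, pr Y.μ (fun ω => f ∈ Y.P ω) ≤ p
  s2u : ∀ f c, pr Y.μ (fun ω => f ∈ Y.P ω ∧ Y.C ω f = c) ≤ p / (D.k f : ℝ) ^ 2
  s2l : ∀ f (c : ℕ × ℕ), c.1 < D.k f → c.2 < D.k f →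
    (1 - δ) * (p / (D.k f : ℝ) ^ 2) ≤ pr Y.μ (fun ω => f ∈ Y.P ω ∧ Y.C ω f = c)
  s3 : ∀ f f' c c', f ≠ f' →
    pr Y.μ (fun ω => (f ∈ Y.P ω ∧ Y.C ω f = c) ∧ (f' ∈ Y.P ω ∧ Y.C ω f' = c')) ≤
      (p / (D.k f : ℝ) ^ 2) * (p / (D.k f' : ℝ) ^ 2)
  s4 : ∀ f c, ∀ Z : Finset (Q × R), Z ⊆ D.X → (∀ y ∈ Z, D.inV f y) →
    pr Y.μ (fun ω => (f ∈ Y.P ω ∧ Y.C ω f = c) ∧ Z ⊆ Y.S ω) ≤
      (p / (D.k f : ℝ) ^ 2) * (κ * (D.k f : ℝ) ^ 2 / D.N) ^ Z.card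
  s5 : ∀ x ∈ D.X, ∀ f, ¬ D.inV f x → ∀ c,
    pr Y.μ (fun ω => x ∈ Y.S ω ∧ (f ∈ Y.P ω ∧ Y.C ω f = c)) ≤
      (κ * p / D.N) * (p / (D.k f : ℝ) ^ 2)

/-- `x` is open at `f` for `(P, C, S)` -/
def Open {Q R M : Type} (D : Core Q R M) (T : ℕ) (P : Finset M) (C : M → ℕ × ℕ)
    (S : Finset (Q × R)) (x : Q × R) (f : M) : Prop :=
  (f ∈ P ∧ C f = D.cell f x) ∧ (D.hist S f).card < T ∧
    ∀ y ∈ D.hist S f, (x.1, y.2) ∈ D.Xf f ∧ x.1 ≠ y.1 ∧ x.2 ≠ y.2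

/-! ### the step -/

section Step

variable {Q R M : Type} [Fintype Q] [Fintype R] {D : Core Q R M} {Ω : Type} [Fintype Ω]
  (Y : Sys D Ω) (T : ℕ) (s p : ℝ)

/-- the new probability space -/
abbrev StepΩ (D : Core Q R M) (Ω : Type) : Type := (Fin D.b → Ω) × (Q × R → Bool)

/-- the parameters `w(x)` -/
noncomputable def wt (D : Core Q R M) (s p : ℝ) (x : Q × R) : ℝ :=
  if x ∈ D.X then (s / (D.N * p ^ (D.b - 1))) * ∏ i, (D.k (D.pos x i) : ℝ) ^ 2 else 0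

noncomputable def stepμ : StepΩ D Ω → ℝ := stepMeasure D.b Y.μ (wt D s p)

noncomputable def stepP (z : StepΩ D Ω) : Finset M := univ.biUnion fun j => Y.P (z.1 j)

/-- blocks in two copies -/
def stepO (z : StepΩ D Ω) (f : M) : Prop := ∃ i j, i ≠ j ∧ f ∈ Y.P (z.1 i) ∧ f ∈ Y.P (z.1 j)

noncomputable def stepC (z : StepΩ D Ω) (f : M) : ℕ × ℕ :=
  if h : ∃ j, f ∈ Y.P (z.1 j) then Y.C (z.1 h.choose) f else (0, 0)

/-- the new elements -/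
noncomputable def stepN (z : StepΩ D Ω) : Finset (Q × R) :=
  D.X.filter fun x => z.2 x = true ∧
    ∀ j, Open D T (Y.P (z.1 j)) (Y.C (z.1 j)) (Y.S (z.1 j)) x (D.pos x j)

noncomputable def stepU (z : StepΩ D Ω) : Finset (Q × R) :=
  stepN Y T z ∪ univ.biUnion fun j => Y.S (z.1 j)

def Spoiled (z : StepΩ D Ω) (x : Q × R) : Prop :=
  (∃ f, D.inV f x ∧ stepO Y z f) ∨
  (x ∈ stepN Y T z ∧ ∃ x' ∈ stepN Y T z, x' ≠ x ∧ ∃ f, D.inV f x ∧ D.inV f x') ∨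
  (∃ x' ∈ stepU Y T z, x' ≠ x ∧ D.conf x x')

noncomputable def stepS (z : StepΩ D Ω) : Finset (Q × R) :=
  (stepU Y T z).filter fun x => ¬ Spoiled Y T z x

/-- the new system -/
noncomputable def stepSys : Sys D (StepΩ D Ω) where
  μ := stepμ Y s p
  P := stepP Y
  C := stepC Y
  S := stepS Y T

end Step

end Pool.Agent.Lib.H93A
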