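import Pool.Agent.Lib.H93A.C1B
import Pool.Agent.Lib.H93A.C1C
import Pool.Agent.Lib.H93A.C1D
import Pool.Agent.Lib.H93A.C1E

/-!
# H93A, F1: the hypotheses of AT for a state

See `PROOF.md`.
-/

set_option autoImplicit false

open Finset
open scoped Classical

namespace Pool.Agent.Lib.H93A

theorem f1_core (C ε K0 : ℝ) (hC : 0 < C) (hε : 0 < ε) (hε1 : ε ≤ 1) (q j0 n k : ℕ)
    (hqpos : (0 : ℝ) < q) (hq8 : 8 / ε ≤ q) (hq1 : 1 ≤ q) (hK0 : K0 = 64 * C ^ 2 / ε ^ 2)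
    (hK0p : 0 < K0) (hj0' : 32 * (q : ℝ) ^ 4 * K0 ^ 2 / ε ≤ j0) (hj1 : 1 ≤ j0) (hn1 : 1 ≤ n)
    (hn8 : 8 / ε ≤ n) (hnC : (64 * C / ε ^ 2) ^ 4 ≤ n) (hkle : (k : ℝ) ≤ ε * n / 2)
    (hkge : ε * n / 2 - 1 ≤ k) (V : Type) [Fintype V] (G : SimpleGraph V)
    (hnV : Fintype.card V = n)
    (hdeg : ∀ v, ((univ.filter fun w => G.Adj v w).card : ℝ) ≤ C * (n : ℝ) ^ (3 / 4 : ℝ))
    (φ : V → Option (Fin k)) (hφ : IsState G q (K0 * Real.sqrt n) φ)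
    (hunc : ε / 2 * n ≤ (unc φ).card) :
    ATHyp n n j0 (2 + ((q : ℝ) + 1) ^ 3 * K0 ^ 2 + (q : ℝ) ^ 2 * K0) (ε ^ 2 / 64)
      (Hset G q j0 (K0 * Real.sqrt n) φ) (Aset G φ) (Bset G φ) (Conf G φ) := by
  have hnR : (1 : ℝ) ≤ n := by exact_mod_cast hn1
  have hnp : (0 : ℝ) < n := by linarith
  have hkn : (k : ℝ) ≤ n := by nlinarith
  have ht0 : 0 < K0 * Real.sqrt n := mul_pos hK0p (Real.sqrt_pos.2 hnp)
  have hsq : Real.sqrt n * Real.sqrt n = n := Real.mul_self_sqrt hnp.le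
  have hAB : (q : ℝ) ^ 2 * (K0 * Real.sqrt n) ≤
      (2 + ((q : ℝ) + 1) ^ 3 * K0 ^ 2 + (q : ℝ) ^ 2 * K0) * Real.sqrt n := by
    have h1 : 0 ≤ (2 + ((q : ℝ) + 1) ^ 3 * K0 ^ 2) * Real.sqrt n := by positivity
    linarith
  constructor
  · have h1 : 0 ≤ ((q : ℝ) + 1) ^ 3 * K0 ^ 2 := by positivity
    have h2 : 0 ≤ (q : ℝ) ^ 2 * K0 := by positivity
    linarith
  · exact hn1
  · exact hn1
  · have h1 : (Hset G q j0 (K0 * Real.sqrt n) φ).card ≤ n * k := by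
      refine (card_le_univ _).trans ?_
      rw [Fintype.card_prod, Fintype.card_fin, hnV]
    have h2 : ((Hset G q j0 (K0 * Real.sqrt n) φ).card : ℝ) ≤ n * k := by exact_mod_cast h1
    exact h2.trans (mul_le_mul_of_nonneg_left hkn hnp.le)
  · rw [Fintype.card_fin]
    exact_mod_cast hkn
  · intro f
    exact (card_Aset_le hφ ht0.le f).trans hAB
  · intro f
    exact (card_Bset_le hφ ht0.le f).trans hAB
  · intro x hx
    unfold Hset at hx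
    exact (mem_filter.1 hx).2.2.2.2.2
  · intro x y
    exact Conf_symm x y
  · intro x hx
    refine (Conf_card hφ ht0.le x hx).trans ?_
    have h1 : (K0 * Real.sqrt n) ^ 2 = K0 ^ 2 * n := by
      rw [mul_pow, Real.sq_sqrt hnp.le]
    rw [h1, hnV]
    have h2 : 0 ≤ (q : ℝ) ^ 2 * K0 * n := by positivity
    linarith
  · intro x _ y _ h1 h2 h3
    exact Conf_not x y h1 h2 h3
  · have hge := card_Hset_ge (j0 := j0) hφ ht0 hq1 hj1 hdeg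
    rw [hnV] at hge
    refine le_trans ?_ hge
    -- first term
    have e1 : ε ^ 2 / 8 * (n : ℝ) ^ 2 ≤ ((unc φ).card : ℝ) * (k - (n : ℝ) / q) := by
      have h1 : (n : ℝ) / q ≤ ε * n / 8 := by
        rw [div_le_iff₀ hqpos]
        have h2 : 8 ≤ ε * q := by
          rw [div_le_iff₀ hε] at hq8
          linarith
        nlinarith
      have h2 : 1 ≤ ε * n / 8 := by
        rw [div_le_iff₀ hε] at hn8
        linarith
      have h3 : ε * n / 4 ≤ k - (n : ℝ) / q := by linarith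
      calc ε ^ 2 / 8 * (n : ℝ) ^ 2 = (ε / 2 * n) * (ε * n / 4) := by ring
        _ ≤ ((unc φ).card : ℝ) * (k - (n : ℝ) / q) :=
            mul_le_mul hunc h3 (by positivity) (Nat.cast_nonneg _)
    have hp34 : ((n : ℝ) ^ (3 / 4 : ℝ)) = (n : ℝ) * ((n : ℝ) ^ (1 / 4 : ℝ))⁻¹ := by
      rw [← Real.rpow_neg hnp.le, ← Real.rpow_one_add' hnp.le (by norm_num)]
      norm_num
    have hp14 : 64 * C / ε ^ 2 ≤ (n : ℝ) ^ (1 / 4 : ℝ) := by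
      have h1 : ((64 * C / ε ^ 2) ^ 4) ^ (1 / 4 : ℝ) ≤ (n : ℝ) ^ (1 / 4 : ℝ) :=
        Real.rpow_le_rpow (by positivity) hnC (by norm_num)
      have h2 : ((64 * C / ε ^ 2) ^ 4) ^ (1 / 4 : ℝ) = 64 * C / ε ^ 2 := by
        rw [← Real.rpow_natCast, ← Real.rpow_mul (by positivity)]
        norm_num
      rwa [h2] at h1
    have e2 : (n : ℝ) * (C * (n : ℝ) ^ (3 / 4 : ℝ)) ≤ ε ^ 2 / 64 * (n : ℝ) ^ 2 := by
      rw [hp34]
      have h1 : C * ((n : ℝ) ^ (1 / 4 : ℝ))⁻¹ ≤ ε ^ 2 / 64 := by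
        rw [← div_eq_mul_inv, div_le_iff₀ (by positivity)]
        rw [div_le_iff₀ (by positivity)] at hp14
        linarith
      calc (n : ℝ) * (C * (n * ((n : ℝ) ^ (1 / 4 : ℝ))⁻¹)) =
          (C * ((n : ℝ) ^ (1 / 4 : ℝ))⁻¹) * (n : ℝ) ^ 2 := by ring
        _ ≤ _ := mul_le_mul_of_nonneg_right h1 (by positivity)
    have e3 : (n : ℝ) * (C * (n : ℝ) ^ (3 / 4 : ℝ)) ^ 2 / (K0 * Real.sqrt n) ≤
        ε ^ 2 / 64 * (n : ℝ) ^ 2 := by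
      rw [div_le_iff₀ ht0]
      have h1 : ((n : ℝ) ^ (3 / 4 : ℝ)) ^ 2 = n * Real.sqrt n := by
        rw [← Real.rpow_natCast, ← Real.rpow_mul hnp.le, Real.sqrt_eq_rpow,
          ← Real.rpow_one_add' hnp.le (by norm_num)]
        norm_num
      rw [mul_pow, h1, hK0]
      have h2 : ε ^ 2 / 64 * (n : ℝ) ^ 2 * (64 * C ^ 2 / ε ^ 2 * Real.sqrt n) =
          n * (C ^ 2 * (n * Real.sqrt n)) := by
        field_simp
      rw [h2]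
    have e4 : (k : ℝ) * ((q : ℝ) ^ 2 * (K0 * Real.sqrt n)) ^ 2 / j0 ≤ ε ^ 2 / 64 * (n : ℝ) ^ 2 := by
      have hj0p : (0 : ℝ) < j0 := by
        have : 0 < j0 := hj1
        exact_mod_cast this
      rw [div_le_iff₀ hj0p]
      have h1 : ((q : ℝ) ^ 2 * (K0 * Real.sqrt n)) ^ 2 = (q : ℝ) ^ 4 * K0 ^ 2 * n := by
        rw [mul_pow, mul_pow, Real.sq_sqrt hnp.le]
        ring
      rw [h1]
      have h2 : 32 * (q : ℝ) ^ 4 * K0 ^ 2 ≤ ε * j0 := by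
        rw [div_le_iff₀ hε] at hj0'
        linarith
      calc (k : ℝ) * ((q : ℝ) ^ 4 * K0 ^ 2 * n) ≤ (ε * n / 2) * ((q : ℝ) ^ 4 * K0 ^ 2 * n) :=
            mul_le_mul_of_nonneg_right hkle (by positivity)
        _ = ε / 64 * (n : ℝ) ^ 2 * (32 * (q : ℝ) ^ 4 * K0 ^ 2) := by ring
        _ ≤ ε / 64 * (n : ℝ) ^ 2 * (ε * j0) := mul_le_mul_of_nonneg_left h2 (by positivity)
        _ = _ := by ring
    have e5 : 0 ≤ ε ^ 2 * (n : ℝ) ^ 2 := by positivity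
    have e6 : ε ^ 2 / 64 * ((n : ℝ) * n) = ε ^ 2 / 64 * (n : ℝ) ^ 2 := by ring
    rw [e6]
    linarith


/-- The hypotheses of AT hold for a state with at least `γ n` uncoloured vertices. Constants:
`γ = ε/2`, `k = ⌊ε n/2⌋`, `q = ⌈8/ε⌉`, `t = K0 √n`; `K0`, then `j0`, then `n0` large; `c = ε²/64`,
`K = 2 + (q+1)³ K0²` (and `≥ q² K0`). -/
theorem atHyp_of_state (C ε : ℝ) (hC : 0 < C) (hε : 0 < ε) (hε1 : ε ≤ 1) :
    ∃ (K0 K c : ℝ) (j0 n0 : ℕ), 0 < K0 ∧ 1 ≤ K ∧ 0 < c ∧ c ≤ 1 ∧ 1 ≤ j0 ∧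
      ∀ (V : Type) [Fintype V] (G : SimpleGraph V), n0 ≤ Fintype.card V →
        (∀ v, ((univ.filter fun w => G.Adj v w).card : ℝ) ≤ C * (Fintype.card V : ℝ) ^ (3 / 4 : ℝ)) →
        ∀ φ : V → Option (Fin ⌊ε * Fintype.card V / 2⌋₊),
          IsState G ⌈8 / ε⌉₊ (K0 * Real.sqrt (Fintype.card V)) φ →
          ε / 2 * Fintype.card V ≤ (unc φ).card →
          ATHyp (Fintype.card V) (Fintype.card V) j0 K c (Hset G ⌈8 / ε⌉₊ j0 (K0 * Real.sqrt (Fintype.card V)) φ)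
            (Aset G φ) (Bset G φ) (Conf G φ) := by
  set q : ℕ := ⌈8 / ε⌉₊ with hq
  have hq8 : 8 / ε ≤ q := Nat.le_ceil _
  have hqpos : (0 : ℝ) < q := lt_of_lt_of_le (by positivity) hq8
  have hq1 : 1 ≤ q := by
    have : 0 < q := by exact_mod_cast hqpos
    exact this
  set K0 : ℝ := 64 * C ^ 2 / ε ^ 2 with hK0
  have hK0p : 0 < K0 := by positivity
  set j0 : ℕ := ⌈32 * (q : ℝ) ^ 4 * K0 ^ 2 / ε⌉₊ + 1 with hj0
  have hj0' : 32 * (q : ℝ) ^ 4 * K0 ^ 2 / ε ≤ j0 := by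
    have h1 := Nat.le_ceil (32 * (q : ℝ) ^ 4 * K0 ^ 2 / ε)
    rw [hj0]
    push_cast
    linarith
  have hj1 : 1 ≤ j0 := by omega
  set n0 : ℕ := ⌈8 / ε⌉₊ + ⌈(64 * C / ε ^ 2) ^ 4⌉₊ + 1 with hn0
  refine ⟨K0, 2 + ((q : ℝ) + 1) ^ 3 * K0 ^ 2 + (q : ℝ) ^ 2 * K0, ε ^ 2 / 64, j0, n0, hK0p, ?_,
    by positivity, ?_, hj1, ?_⟩
  · have h1 : 0 ≤ ((q : ℝ) + 1) ^ 3 * K0 ^ 2 := by positivity
    have h2 : 0 ≤ (q : ℝ) ^ 2 * K0 := by positivity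
    linarith
  · nlinarith
  intro V _ G hn hdeg φ hφ hunc
  have hn1 : 1 ≤ Fintype.card V := by omega
  refine f1_core C ε K0 hC hε hε1 q j0 _ _ hqpos hq8 hq1 hK0 hK0p hj0' hj1 hn1 ?_ ?_ ?_ ?_ V G rfl
    hdeg φ hφ hunc
  · have h1 : ⌈8 / ε⌉₊ ≤ Fintype.card V := by omega
    exact (Nat.le_ceil _).trans (by exact_mod_cast h1)
  · have h1 : ⌈(64 * C / ε ^ 2) ^ 4⌉₊ ≤ Fintype.card V := by omega
    exact (Nat.le_ceil _).trans (by exact_mod_cast h1)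
  · exact Nat.floor_le (by positivity)
  · have := Nat.lt_floor_add_one (ε * (Fintype.card V : ℝ) / 2)
    linarith

end Pool.Agent.Lib.H93A
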