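import Pool.Agent.Lib.H93A.AT3
import Pool.Agent.Lib.H93A.F1
import Pool.Agent.Lib.H93A.C2C
import Pool.Agent.Lib.H93A.C2D
import Pool.Agent.Lib.H93A.C3B
import Pool.Agent.Lib.H93A.C3C

/-!
# H93A, F2: the dense case (proved from the other chunks)

See `PROOF.md`.
-/

set_option autoImplicit false

open Finset
open scoped Classical

namespace Pool.Agent.Lib.H93A

/-- The dense case. -/
theorem dense (C ε : ℝ) (hC : 0 < C) (hε : 0 < ε) (hε1 : ε ≤ 1) :
    ∃ n0 : ℕ, ∀ (V : Type) [Fintype V] (G : SimpleGraph V), n0 ≤ Fintype.card V →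
        (∀ v, ((univ.filter fun w => G.Adj v w).card : ℝ) ≤ C * (Fintype.card V : ℝ) ^ (3 / 4 : ℝ)) →
        (acyclicChromatic G : ℝ) ≤ ε * Fintype.card V := by
  obtain ⟨K0, K, c, j0, n1, hK0, hK, hc, hc1, hj, h1⟩ := atHyp_of_state C ε hC hε hε1
  obtain ⟨N0, h2⟩ := abstract_theorem K c (⌈8 / ε⌉₊ : ℝ) j0 hK hc hc1 hj (Nat.cast_nonneg _)
  refine ⟨max n1 N0, ?_⟩
  intro V _ G hn hdeg
  obtain ⟨φ, hφ, hmin⟩ := exists_min_state G ⌊ε * Fintype.card V / 2⌋₊ ⌈8 / ε⌉₊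
    (K0 * Real.sqrt (Fintype.card V))
  have h3 : ((unc φ).card : ℝ) < ε / 2 * Fintype.card V := by
    by_contra hcon
    push Not at hcon
    have h4 := h1 V G (le_trans (le_max_left _ _) hn) hdeg φ hφ hcon
    obtain ⟨S, hSH, hSne, hS, hSc⟩ := h2 _ (le_trans (le_max_right _ _) hn) _ V _ _ _ _ _ _ h4
    have h5 := newCol_state hφ hSH hS
    have h6 : ⌈8 / ε⌉₊ * (JS (Aset G φ) (Bset G φ) S).card
        < S.card := by exact_mod_cast hSc
    have h7 := newCol_unc_lt hφ hSH hS h6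
    exact absurd (hmin _ h5) (not_le.2 h7)
  have h8 := acyclicChromatic_le_of_state hφ
  have h9 : ((⌊ε * Fintype.card V / 2⌋₊ : ℕ) : ℝ) ≤ ε * Fintype.card V / 2 :=
    Nat.floor_le (by positivity)
  have h10 : (acyclicChromatic G : ℝ) ≤ ((⌊ε * Fintype.card V / 2⌋₊ : ℕ) : ℝ) + (unc φ).card := by
    exact_mod_cast h8
  linarith

end Pool.Agent.Lib.H93A
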