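import Pool.Agent.Lib.H93A.F2

/-!
# H93A, F3: the theorem

See `PROOF.md`.
-/

set_option autoImplicit false

open Finset
open scoped Classical

namespace Pool.Agent.Lib.H93A

/-- THE THEOREM: graphs of maximum degree at most `D` with at most `A D^(4/3)` vertices have acyclic
chromatic number at most `ε D^(4/3)`, for `D ≥ D0(A, ε)`. (If `|V| ≤ ε D^(4/3)` trivial; otherwise
`D ≤ ε^(-3/4) |V|^(3/4)` and `dense` with `ε/A`.) -/
theorem main (A ε : ℝ) (hA : 0 < A) (hε : 0 < ε) :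
    ∃ D0 : ℕ, ∀ D : ℕ, D0 ≤ D → ∀ (V : Type) [Finite V] (G : SimpleGraph V),
      (∀ v, (G.neighborSet v).ncard ≤ D) → (Nat.card V : ℝ) ≤ A * (D : ℝ) ^ (4 / 3 : ℝ) →
      (acyclicChromatic G : ℝ) ≤ ε * (D : ℝ) ^ (4 / 3 : ℝ) := by
  obtain ⟨n0, hn0⟩ := dense (ε ^ (-(3 / 4) : ℝ)) (min 1 (ε / A)) (by positivity)
    (lt_min one_pos (by positivity)) (min_le_left _ _)
  refine ⟨⌈(n0 : ℝ) / ε⌉₊ + 1, ?_⟩
  intro D hD V _ G hdeg hcard
  haveI : Fintype V := Fintype.ofFinite V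
  rw [Nat.card_eq_fintype_card] at hcard
  have hD1 : (1 : ℝ) ≤ D := by
    have : 1 ≤ D := by omega
    exact_mod_cast this
  have hD0 : (n0 : ℝ) / ε ≤ D := by
    have h1 : ⌈(n0 : ℝ) / ε⌉₊ ≤ D := by omega
    exact (Nat.le_ceil _).trans (by exact_mod_cast h1)
  have hpow : (D : ℝ) ≤ (D : ℝ) ^ (4 / 3 : ℝ) := by
    have := Real.rpow_le_rpow_of_exponent_le hD1 (show (1 : ℝ) ≤ 4 / 3 by norm_num)
    rwa [Real.rpow_one] at this
  by_cases hsmall : (Fintype.card V : ℝ) ≤ ε * (D : ℝ) ^ (4 / 3 : ℝ)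
  · have h1 := acyclicChromatic_le_card G
    have h2 : (acyclicChromatic G : ℝ) ≤ Fintype.card V := by exact_mod_cast h1
    exact h2.trans hsmall
  · rw [not_le] at hsmall
    have hnV : n0 ≤ Fintype.card V := by
      have h1 : (n0 : ℝ) ≤ ε * D := by
        rw [div_le_iff₀ hε] at hD0
        linarith
      have h2 : (n0 : ℝ) < Fintype.card V := by
        have := mul_le_mul_of_nonneg_left hpow hε.le
        linarith
      exact_mod_cast h2.le
    have hC : (D : ℝ) ≤ ε ^ (-(3 / 4) : ℝ) * (Fintype.card V : ℝ) ^ (3 / 4 : ℝ) := by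
      have h1 : (ε * (D : ℝ) ^ (4 / 3 : ℝ)) ^ (3 / 4 : ℝ) ≤ (Fintype.card V : ℝ) ^ (3 / 4 : ℝ) :=
        Real.rpow_le_rpow (by positivity) hsmall.le (by norm_num)
      rw [Real.mul_rpow hε.le (by positivity), ← Real.rpow_mul (by positivity)] at h1
      norm_num at h1
      have h2 : ε ^ (-(3 / 4) : ℝ) * ε ^ (3 / 4 : ℝ) = 1 := by
        rw [← Real.rpow_add hε]
        norm_num
      calc (D : ℝ) = (ε ^ (-(3 / 4) : ℝ) * ε ^ (3 / 4 : ℝ)) * D := by rw [h2, one_mul]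
        _ = ε ^ (-(3 / 4) : ℝ) * (ε ^ (3 / 4 : ℝ) * D) := by ring
        _ ≤ _ := mul_le_mul_of_nonneg_left h1 (by positivity)
    have h3 := hn0 V G hnV (fun v => by
      have h4 : (G.neighborSet v).ncard = (univ.filter fun w => G.Adj v w).card := by
        rw [← Set.ncard_coe_finset]
        congr 1
        ext w
        simp
      have h5 : ((univ.filter fun w => G.Adj v w).card : ℝ) ≤ D := by
        rw [← h4]
        exact_mod_cast hdeg v
      exact h5.trans hC)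
    refine h3.trans ?_
    calc min 1 (ε / A) * (Fintype.card V : ℝ) ≤ (ε / A) * (A * (D : ℝ) ^ (4 / 3 : ℝ)) :=
          mul_le_mul (min_le_right _ _) hcard (Nat.cast_nonneg _) (by positivity)
      _ = ε * (D : ℝ) ^ (4 / 3 : ℝ) := by field_simp

end Pool.Agent.Lib.H93A
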