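import Mathlib

/-!
# H93A, G1B: maximal independent set, pigeonhole

See `PROOF.md`.
-/

set_option autoImplicit false

open Finset
open scoped Classical

namespace Pool.Agent.Lib.H93A

/-- no related pairs -/
def g1b_ind {M : Type} (strong : M → M → Prop) (V : Finset M) : Prop :=
  ∀ f ∈ V, ∀ f' ∈ V, f ≠ f' → ¬ strong f f'

/-- A maximal subset without related pairs is dominating. -/
theorem exists_max_indep {M : Type} (J : Finset M) (strong : M → M → Prop)
    (hsymm : ∀ f f', strong f f' → strong f' f) :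
    ∃ V ⊆ J, (∀ f ∈ V, ∀ f' ∈ V, f ≠ f' → ¬ strong f f') ∧
      ∀ f ∈ J, f ∈ V ∨ ∃ f' ∈ V, strong f f' := by
  obtain ⟨V, hV, hmax⟩ := exists_max_image
    (J.powerset.filter fun V => g1b_ind strong V) card
    ⟨∅, mem_filter.2 ⟨by simp, fun f hf => absurd hf (notMem_empty _)⟩⟩
  obtain ⟨hVJ, hVi⟩ := mem_filter.1 hV
  refine ⟨V, mem_powerset.1 hVJ, hVi, fun f hf => ?_⟩
  by_contra hcon
  push Not at hcon
  obtain ⟨hfV, hno⟩ := hcon
  have h1 : insert f V ∈ J.powerset.filter fun V => g1b_ind strong V := by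
    rw [mem_filter, mem_powerset]
    refine ⟨insert_subset hf (mem_powerset.1 hVJ), ?_⟩
    intro a ha b hb hab
    rw [mem_insert] at ha hb
    rcases ha with ha | ha <;> rcases hb with hb | hb
    · exact absurd (ha.trans hb.symm) hab
    · rw [ha]
      exact hno b hb
    · rw [hb]
      exact fun h => hno a ha (hsymm _ _ h)
    · exact hVi a ha b hb hab
  have h2 := hmax _ h1
  rw [card_insert_of_notMem hfV] at h2
  omega

/-- Pigeonhole: one value of a function with values in `[1, j0]` is taken on at least a `1/j0` part. -/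
theorem pigeon {X : Type} (H : Finset X) (φ : X → ℕ) (j0 : ℕ) (hj : 1 ≤ j0)
    (hφ : ∀ x ∈ H, 1 ≤ φ x ∧ φ x ≤ j0) :
    ∃ b, 1 ≤ b ∧ b ≤ j0 ∧ H.card ≤ j0 * (H.filter fun x => φ x = b).card := by
  by_contra hcon
  push Not at hcon
  have h1 : H.card = ∑ b ∈ Icc 1 j0, (H.filter fun x => φ x = b).card :=
    card_eq_sum_card_fiberwise (fun x hx => mem_Icc.2 (hφ x hx))
  have h2 : ∑ b ∈ Icc 1 j0, j0 * (H.filter fun x => φ x = b).card < ∑ b ∈ Icc 1 j0, H.card := by
    apply sum_lt_sum_of_nonempty ⟨1, mem_Icc.2 ⟨le_rfl, hj⟩⟩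
    intro b hb
    exact hcon b (mem_Icc.1 hb).1 (mem_Icc.1 hb).2
  rw [← mul_sum, ← h1, sum_const, Nat.card_Icc, smul_eq_mul, Nat.add_sub_cancel] at h2
  exact lt_irrefl _ h2

end Pool.Agent.Lib.H93A
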