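import Pool.Agent.Lib.H93A.G2Defs

/-!
# H93A, G2A: few strong links

See `PROOF.md`.
-/

set_option autoImplicit false

open Finset
open scoped Classical

namespace Pool.Agent.Lib.H93A

variable {Q R M : Type} [Fintype Q] [Fintype R] [Fintype M]

/-- The number of `f'` strongly linked to `f` is at most `4 j0 K²/θ2`:
`∑_f' |E(f) ∩ E(f')| = ∑_{x ∈ E(f)} |J(x)| ≤ j0 |E(f)| ≤ j0 K² N`. -/
theorem card_strong_le {n N j0 : ℕ} {K c θ2 : ℝ} {H : Finset (Q × R)} {A : M → Finset Q}
    {B : M → Finset R} {conf : Q × R → Q × R → Prop} (h : ATHyp n N j0 K c H A B conf)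
    (hθ : 0 < θ2) (f : M) :
    ((univ.filter fun f' => Strong N θ2 H A B f f').card : ℝ) ≤ 4 * j0 * K ^ 2 / θ2 := by
  have hN : (0 : ℝ) < N := by
    have : 0 < N := h.N_pos
    exact_mod_cast this
  rw [le_div_iff₀ hθ]
  set S := univ.filter fun f' => Strong N θ2 H A B f f' with hS
  have h1 : (S.card : ℝ) * (θ2 * N) ≤ ∑ f' ∈ S, ((Ef H A B f ∩ Ef H A B f').card : ℝ) := by
    rw [← nsmul_eq_mul]
    refine card_nsmul_le_sum _ _ _ (fun f' hf' => ?_)
    have h2 := (mem_filter.1 hf').2.2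
    rwa [le_div_iff₀ hN] at h2
  have h2 : ∑ f' ∈ S, ((Ef H A B f ∩ Ef H A B f').card : ℝ) ≤
      ∑ f' : M, ((Ef H A B f ∩ Ef H A B f').card : ℝ) :=
    sum_le_sum_of_subset_of_nonneg (subset_univ _) fun _ _ _ => Nat.cast_nonneg _
  have h3 : ∑ f' : M, ((Ef H A B f ∩ Ef H A B f').card : ℝ) =
      ∑ x ∈ Ef H A B f, ((univ.filter fun f' => x ∈ Ef H A B f').card : ℝ) := by
    have h4 : ∀ f', ((Ef H A B f ∩ Ef H A B f').card : ℝ) =
        ∑ x ∈ Ef H A B f, if x ∈ Ef H A B f' then (1 : ℝ) else 0 := by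
      intro f'
      rw [← filter_mem_eq_inter, card_filter]
      push_cast
      rfl
    simp_rw [h4]
    rw [sum_comm]
    refine sum_congr rfl fun x _ => ?_
    rw [card_filter]
    push_cast
    rfl
  have h4 : ∀ x ∈ Ef H A B f, ((univ.filter fun f' => x ∈ Ef H A B f').card : ℝ) ≤ j0 := by
    intro x hx
    have hxH : x ∈ H := (mem_filter.1 hx).1
    have h5 : (univ.filter fun f' => x ∈ Ef H A B f') ⊆ Jset A B x := by
      intro f' hf'
      exact mem_filter.2 ⟨mem_univ _, (mem_filter.1 (mem_filter.1 hf').2).2⟩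
    have h6 := (card_le_card h5).trans (h.cardJ x hxH)
    exact_mod_cast h6
  have h5 : ((Ef H A B f).card : ℝ) ≤ K ^ 2 * N := by
    have h6 : Ef H A B f ⊆ A f ×ˢ B f := by
      intro x hx
      exact mem_product.2 (mem_filter.1 hx).2
    have h7 : ((Ef H A B f).card : ℝ) ≤ (A f).card * (B f).card := by
      have := card_le_card h6
      rw [card_product] at this
      exact_mod_cast this
    refine h7.trans ?_
    have hK := h.hK
    have h8 : ((A f).card : ℝ) * (B f).card ≤ (K * Real.sqrt N) * (K * Real.sqrt N) :=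
      mul_le_mul (h.cardA f) (h.cardB f) (Nat.cast_nonneg _)
        (mul_nonneg (by linarith) (Real.sqrt_nonneg _))
    have h9 : (K * Real.sqrt N) * (K * Real.sqrt N) = K ^ 2 * (Real.sqrt N * Real.sqrt N) := by
      ring
    rw [h9, Real.mul_self_sqrt hN.le] at h8
    exact h8
  have h6 := sum_le_sum h4
  rw [sum_const, nsmul_eq_mul] at h6
  have h7 : ((Ef H A B f).card : ℝ) * j0 ≤ K ^ 2 * N * j0 :=
    mul_le_mul_of_nonneg_right h5 (Nat.cast_nonneg _)
  have h8 : (S.card : ℝ) * θ2 * N ≤ (K ^ 2 * j0) * N := by linarith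
  have h9 := le_of_mul_le_mul_right h8 hN
  have h10 : 0 ≤ (j0 : ℝ) * K ^ 2 := by positivity
  linarith

end Pool.Agent.Lib.H93A
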