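import Pool.Agent.Lib.H93A.G2Defs
import Pool.Agent.Lib.H93A.G1B

/-!
# H93A, G2B: the sets V(x)

See `PROOF.md`.
-/

set_option autoImplicit false

open Finset
open scoped Classical

namespace Pool.Agent.Lib.H93A

variable {Q R M : Type} [Fintype Q] [Fintype R] [Fintype M]

/-- The sets `V(x)` with their enumeration: for one `b ∈ [1, j0]` and a set `E ⊆ H` (this is `H''`) with
`|E| ≥ c/(2 j0) n N` all `V(x)`, `x ∈ E`, have exactly `b` elements, `pos x : Fin b → M` enumerates `V(x)`.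
(`exists_max_indep` for `Strong`, `pigeon`, `Finset.equivFin`.) -/
theorem exists_pos {n N j0 : ℕ} {K c θ1 θ2 : ℝ} {H : Finset (Q × R)} {A : M → Finset Q}
    {B : M → Finset R} {conf : Q × R → Q × R → Prop} (h : ATHyp n N j0 K c H A B conf)
    (hj : 1 ≤ j0) (hc : 0 < c) (hJ : ∀ x ∈ H, (Jset A B x).Nonempty)
    (hgap : 2 * (gapSet N θ1 θ2 H A B).card ≤ H.card) :
    ∃ (b : ℕ) (E : Finset (Q × R)) (pos : Q × R → Fin b → M), 1 ≤ b ∧ b ≤ j0 ∧ E ⊆ H ∧
      c / (2 * j0) * ((n : ℝ) * N) ≤ E.card ∧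
      (∀ x ∈ E, Function.Injective (pos x)) ∧ (∀ x ∈ E, ∀ i, pos x i ∈ Jset A B x) ∧
      (∀ x ∈ E, ∀ i j, i ≠ j →
        ((Ef H A B (pos x i) ∩ Ef H A B (pos x j)).card : ℝ) < θ1 * N) ∧
      (∀ x ∈ E, ∀ f ∈ Jset A B x, ∃ i, f = pos x i ∨ Strong N θ2 H A B (pos x i) f) := by
  have hN : (0 : ℝ) < N := by
    have : 0 < N := h.N_pos
    exact_mod_cast this
  have hn : (0 : ℝ) < n := by
    have : 0 < n := h.n_pos
    exact_mod_cast this
  have hj' : (0 : ℝ) < j0 := by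
    have : 0 < j0 := hj
    exact_mod_cast this
  have hsymm : ∀ f f', Strong N θ2 H A B f f' → Strong N θ2 H A B f' f := by
    rintro f f' ⟨h1, h2⟩
    refine ⟨h1.symm, ?_⟩
    rw [inter_comm]
    exact h2
  have hHpos : (0 : ℝ) < H.card := lt_of_lt_of_le (by positivity) h.dens
  obtain ⟨x0, hx0⟩ : H.Nonempty := by
    rw [← card_pos]
    exact_mod_cast hHpos
  obtain ⟨f0, _⟩ := hJ x0 hx0
  choose V hV1 hV2 hV3 using fun x => exists_max_indep (Jset A B x) (Strong N θ2 H A B) hsymm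
  set H' := H \ gapSet N θ1 θ2 H A B with hH'
  have hH'c : H.card ≤ 2 * H'.card := by
    have h1 : H.card ≤ (gapSet N θ1 θ2 H A B).card + H'.card := by
      refine (card_le_card (?_ : H ⊆ gapSet N θ1 θ2 H A B ∪ H')).trans (card_union_le _ _)
      intro x hx
      rw [mem_union]
      by_cases h : x ∈ gapSet N θ1 θ2 H A B
      · exact Or.inl h
      · exact Or.inr (mem_sdiff.2 ⟨hx, h⟩)
    omega
  have hrange : ∀ x ∈ H', 1 ≤ (V x).card ∧ (V x).card ≤ j0 := by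
    intro x hx
    have hxH : x ∈ H := (mem_sdiff.1 hx).1
    refine ⟨?_, (card_le_card (hV1 x)).trans (h.cardJ x hxH)⟩
    obtain ⟨f, hf⟩ := hJ x hxH
    rcases hV3 x f hf with h1 | ⟨f', h1, _⟩
    · exact card_pos.2 ⟨f, h1⟩
    · exact card_pos.2 ⟨f', h1⟩
  obtain ⟨b, hb1, hb2, hb3⟩ := pigeon H' (fun x => (V x).card) j0 hj hrange
  set E := H'.filter fun x => (V x).card = b with hE
  have hEV : ∀ x ∈ E, (V x).card = b := fun x hx => (mem_filter.1 hx).2
  have hEH : ∀ x ∈ E, x ∈ H := fun x hx => (mem_sdiff.1 (mem_filter.1 hx).1).1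
  have hEg : ∀ x ∈ E, x ∉ gapSet N θ1 θ2 H A B :=
    fun x hx => (mem_sdiff.1 (mem_filter.1 hx).1).2
  let pos : Q × R → Fin b → M := fun x =>
    if hx : (V x).card = b then fun i => ((V x).equivFinOfCardEq hx).symm i else fun _ => f0
  have hpos : ∀ x (hx : (V x).card = b) i, pos x i = ((V x).equivFinOfCardEq hx).symm i := by
    intro x hx i
    dsimp only [pos]
    rw [dif_pos hx]
  have hposV : ∀ x ∈ E, ∀ i, pos x i ∈ V x := by
    intro x hx i
    rw [hpos x (hEV x hx)]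
    exact (((V x).equivFinOfCardEq (hEV x hx)).symm i).2
  have hinj : ∀ x ∈ E, Function.Injective (pos x) := by
    intro x hx i j hij
    rw [hpos x (hEV x hx), hpos x (hEV x hx)] at hij
    exact ((V x).equivFinOfCardEq (hEV x hx)).symm.injective (Subtype.ext hij)
  have hsurj : ∀ x ∈ E, ∀ f ∈ V x, ∃ i, f = pos x i := by
    intro x hx f hf
    refine ⟨(V x).equivFinOfCardEq (hEV x hx) ⟨f, hf⟩, ?_⟩
    rw [hpos x (hEV x hx), Equiv.symm_apply_apply]
  refine ⟨b, E, pos, hb1, hb2, fun x hx => hEH x hx, ?_, hinj, ?_, ?_, ?_⟩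
  · have h1 : (H.card : ℝ) ≤ 2 * (j0 * E.card) := by
      have : H.card ≤ 2 * (j0 * E.card) := hH'c.trans (Nat.mul_le_mul_left 2 hb3)
      exact_mod_cast this
    have h2 : c * ((n : ℝ) * N) ≤ 2 * (j0 * E.card) := h.dens.trans h1
    rw [div_mul_eq_mul_div, div_le_iff₀ (by positivity)]
    linarith
  · intro x hx i
    exact hV1 x (hposV x hx i)
  · intro x hx i j hij
    have h1 : pos x i ≠ pos x j := fun h => hij (hinj x hx h)
    have h2 := hV2 x _ (hposV x hx i) _ (hposV x hx j) h1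
    have h3 : ((Ef H A B (pos x i) ∩ Ef H A B (pos x j)).card : ℝ) / N < θ2 := by
      by_contra hcon
      exact h2 ⟨h1, not_lt.1 hcon⟩
    have h4 : ((Ef H A B (pos x i) ∩ Ef H A B (pos x j)).card : ℝ) / N < θ1 := by
      by_contra hcon
      exact hEg x hx (mem_filter.2 ⟨hEH x hx, _, hV1 x (hposV x hx i), _,
        hV1 x (hposV x hx j), h1, not_lt.1 hcon, h3⟩)
    rwa [div_lt_iff₀ hN] at h4
  · intro x hx f hf
    rcases hV3 x f hf with h1 | ⟨f', h1, h2⟩
    · obtain ⟨i, hi⟩ := hsurj x hx f h1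
      exact ⟨i, Or.inl hi⟩
    · obtain ⟨i, hi⟩ := hsurj x hx f' h1
      refine ⟨i, Or.inr ?_⟩
      rw [← hi]
      exact hsymm _ _ h2

end Pool.Agent.Lib.H93A
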