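import Mathlib

/-!
# H93A, G2Defs: definitions for AT

See `PROOF.md`.
-/

set_option autoImplicit false

open Finset
open scoped Classical

namespace Pool.Agent.Lib.H93A

variable {Q R M : Type} [Fintype Q] [Fintype R] [Fintype M]

/-- `J(x)` -/
noncomputable def Jset (A : M → Finset Q) (B : M → Finset R) (x : Q × R) : Finset M :=
  univ.filter fun f => x.1 ∈ A f ∧ x.2 ∈ B f

/-- `J(S)` -/
noncomputable def JS (A : M → Finset Q) (B : M → Finset R) (S : Finset (Q × R)) : Finset M :=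
  univ.filter fun f => ∃ x ∈ S, f ∈ Jset A B x

/-- `E(f)` -/
noncomputable def Ef (H : Finset (Q × R)) (A : M → Finset Q) (B : M → Finset R) (f : M) :
    Finset (Q × R) := H.filter fun x => x.1 ∈ A f ∧ x.2 ∈ B f

/-- the hypotheses of AT (two sizes: the scale `N` and the number `n` of blockers; `PROOF.md` has `n = N`) -/
structure ATHyp (n N j0 : ℕ) (K c : ℝ) (H : Finset (Q × R)) (A : M → Finset Q) (B : M → Finset R)
    (conf : Q × R → Q × R → Prop) : Prop where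
  hK : 1 ≤ K
  N_pos : 1 ≤ N
  n_pos : 1 ≤ n
  cardH : (H.card : ℝ) ≤ (n : ℝ) * N
  cardM : Fintype.card M ≤ n
  cardA : ∀ f, ((A f).card : ℝ) ≤ K * Real.sqrt N
  cardB : ∀ f, ((B f).card : ℝ) ≤ K * Real.sqrt N
  cardJ : ∀ x ∈ H, (Jset A B x).card ≤ j0
  symm : ∀ x y, conf x y → conf y x
  conf_card : ∀ x ∈ H, ((H.filter fun y => conf x y).card : ℝ) ≤ K * N
  conf_not : ∀ x ∈ H, ∀ y ∈ H, x.1 ≠ y.1 → x.2 ≠ y.2 → (x.1, y.2) ∈ H → ¬ conf x y
  dens : c * ((n : ℝ) * N) ≤ H.card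

/-- the elements of `H` with a pair of blockers in the gap -/
noncomputable def gapSet (N : ℕ) (θ1 θ2 : ℝ) (H : Finset (Q × R)) (A : M → Finset Q)
    (B : M → Finset R) : Finset (Q × R) :=
  H.filter fun x => ∃ f ∈ Jset A B x, ∃ f' ∈ Jset A B x, f ≠ f' ∧
    θ1 ≤ ((Ef H A B f ∩ Ef H A B f').card : ℝ) / N ∧
    ((Ef H A B f ∩ Ef H A B f').card : ℝ) / N < θ2

/-- strongly linked -/
def Strong (N : ℕ) (θ2 : ℝ) (H : Finset (Q × R)) (A : M → Finset Q) (B : M → Finset R)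
    (f f' : M) : Prop :=
  f ≠ f' ∧ θ2 ≤ ((Ef H A B f ∩ Ef H A B f').card : ℝ) / N

end Pool.Agent.Lib.H93A
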