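import Pool.Agent.Lib.H93A.P1

/-!
# H93A, I0: the initial system

`P` = `p`-random subset of `M`, `C f` uniform in `range (k f) ×ˢ range (k f)`, all independent, `S = ∅`.
-/

set_option autoImplicit false

open Finset
open scoped Classical

namespace Pool.Agent.Lib.H93A

variable {Q R M : Type} [Fintype Q] [Fintype R] [Fintype M]

/-- the space of one coordinate -/
abbrev i0α (D : Core Q R M) (f : M) : Type := Bool × (Fin (D.k f) × Fin (D.k f))

/-- the weight of one coordinate -/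
noncomputable def i0w (D : Core Q R M) (p : ℝ) (f : M) (a : i0α D f) : ℝ :=
  (if a.1 = true then p else 1 - p) / (D.k f : ℝ) ^ 2

noncomputable def i0μ (D : Core Q R M) (p : ℝ) : (∀ f, i0α D f) → ℝ := fun ω => ∏ f, i0w D p f (ω f)

theorem i0_pr (D : Core Q R M) (p : ℝ) (A : ∀ f, i0α D f → Prop) :
    pr (i0μ D p) (fun ω => ∀ f, A f (ω f)) = ∏ f, ∑ a, if A f a then i0w D p f a else 0 := by
  unfold pr i0μ
  rw [Finset.prod_univ_sum, Fintype.piFinset_univ]
  refine sum_congr rfl fun ω _ => ?_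
  by_cases h : ∀ f, A f (ω f)
  · rw [if_pos h]
    exact prod_congr rfl fun f _ => (if_pos (h f)).symm
  · rw [if_neg h]
    push Not at h
    obtain ⟨f, hf⟩ := h
    exact (prod_eq_zero (mem_univ f) (if_neg hf)).symm

theorem i0_w_nonneg (D : Core Q R M) (p : ℝ) (hp0 : 0 < p) (hp1 : p ≤ 1) (f : M) (a : i0α D f) :
    0 ≤ i0w D p f a := by
  unfold i0w
  apply div_nonneg _ (by positivity)
  split_ifs <;> linarith

theorem i0_sumP (D : Core Q R M) (hk : ∀ f, 1 ≤ D.k f) (p : ℝ) (f : M) :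
    ∑ a : i0α D f, (if a.1 = true then i0w D p f a else 0) = p := by
  have hk' : (D.k f : ℝ) ≠ 0 := by
    have := hk f
    have h2 : (1 : ℝ) ≤ D.k f := by exact_mod_cast this
    linarith
  rw [Fintype.sum_prod_type, Fintype.sum_bool]
  simp only [i0w, if_true, Bool.false_eq_true, if_false, sum_const_zero, add_zero, sum_const,
    card_univ, Fintype.card_prod, Fintype.card_fin, nsmul_eq_mul]
  push_cast
  field_simp

theorem i0_sum (D : Core Q R M) (hk : ∀ f, 1 ≤ D.k f) (p : ℝ) (f : M) :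
    ∑ a : i0α D f, i0w D p f a = 1 := by
  have hk' : (D.k f : ℝ) ≠ 0 := by
    have := hk f
    have h2 : (1 : ℝ) ≤ D.k f := by exact_mod_cast this
    linarith
  rw [Fintype.sum_prod_type, Fintype.sum_bool]
  simp only [i0w, if_true, Bool.false_eq_true, if_false, sum_const,
    card_univ, Fintype.card_prod, Fintype.card_fin, nsmul_eq_mul]
  push_cast
  field_simp
  ring

/-- the event of one coordinate -/
def i0ev (D : Core Q R M) (f : M) (c : ℕ × ℕ) (a : i0α D f) : Prop :=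
  a.1 = true ∧ ((a.2.1 : ℕ), (a.2.2 : ℕ)) = c

noncomputable def i0q (D : Core Q R M) (p : ℝ) (f : M) (c : ℕ × ℕ) : ℝ :=
  ∑ a : i0α D f, if i0ev D f c a then i0w D p f a else 0

theorem i0_q_eq (D : Core Q R M) (p : ℝ) (f : M) (c : ℕ × ℕ) :
    i0q D p f c = ((univ.filter fun a => i0ev D f c a).card : ℝ) * (p / (D.k f : ℝ) ^ 2) := by
  unfold i0q
  rw [← sum_filter, ← nsmul_eq_mul, ← sum_const]
  refine sum_congr rfl fun a ha => ?_
  unfold i0w
  rw [if_pos (mem_filter.1 ha).2.1]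

theorem i0_q_nonneg (D : Core Q R M) (p : ℝ) (hp0 : 0 < p) (f : M) (c : ℕ × ℕ) :
    0 ≤ i0q D p f c := by
  rw [i0_q_eq]
  positivity

theorem i0_q_le (D : Core Q R M) (p : ℝ) (hp0 : 0 < p) (f : M) (c : ℕ × ℕ) :
    i0q D p f c ≤ p / (D.k f : ℝ) ^ 2 := by
  rw [i0_q_eq]
  have h1 : (univ.filter fun a => i0ev D f c a).card ≤ 1 := by
    rw [card_le_one]
    intro a ha b hb
    obtain ⟨_, ha1, ha2⟩ := mem_filter.1 ha
    obtain ⟨_, hb1, hb2⟩ := mem_filter.1 hb
    have h3 := ha2.trans hb2.symm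
    rw [Prod.mk.injEq] at h3
    exact Prod.ext (ha1.trans hb1.symm) (Prod.ext (Fin.ext h3.1) (Fin.ext h3.2))
  have h2 : ((univ.filter fun a => i0ev D f c a).card : ℝ) ≤ 1 := by exact_mod_cast h1
  have h3 : 0 ≤ p / (D.k f : ℝ) ^ 2 := by positivity
  nlinarith

theorem i0_q_ge (D : Core Q R M) (p : ℝ) (hp0 : 0 < p) (f : M) (c : ℕ × ℕ) (h1 : c.1 < D.k f)
    (h2 : c.2 < D.k f) : p / (D.k f : ℝ) ^ 2 ≤ i0q D p f c := by
  rw [i0_q_eq]
  have h3 : 0 < (univ.filter fun a => i0ev D f c a).card :=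
    card_pos.2 ⟨(true, ⟨c.1, h1⟩, ⟨c.2, h2⟩), mem_filter.2 ⟨mem_univ _, rfl, rfl⟩⟩
  have h4 : (1 : ℝ) ≤ ((univ.filter fun a => i0ev D f c a).card : ℝ) := by exact_mod_cast h3
  have h5 : 0 ≤ p / (D.k f : ℝ) ^ 2 := by positivity
  nlinarith

/-- events at one coordinate -/
theorem i0_one (D : Core Q R M) (hk : ∀ f, 1 ≤ D.k f) (p : ℝ) (f : M)
    (E : ∀ g, i0α D g → Prop) :
    pr (i0μ D p) (fun ω => E f (ω f)) = ∑ a, if E f a then i0w D p f a else 0 := by
  have h1 := i0_pr D p (fun g a => g = f → E g a)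
  rw [prod_eq_single f] at h1
  · have h2 : (fun ω : ∀ f, i0α D f => ∀ g, g = f → E g (ω g)) = fun ω => E f (ω f) := by
      funext ω
      exact propext ⟨fun h => h f rfl, fun h g hg => by rw [hg]; exact h⟩
    rw [h2] at h1
    rw [h1]
    refine sum_congr rfl fun a _ => ?_
    by_cases h : E f a
    · rw [if_pos h, if_pos (fun _ => h)]
    · rw [if_neg h, if_neg (fun h' => h (h' rfl))]
  · intro g _ hg
    rw [← i0_sum D hk p g]
    exact sum_congr rfl fun a _ => if_pos (fun h => absurd h hg)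
  · intro h
    exact absurd (mem_univ f) h

/-- events at two coordinates -/
theorem i0_two (D : Core Q R M) (hk : ∀ f, 1 ≤ D.k f) (p : ℝ) (f f' : M) (hne : f ≠ f')
    (c c' : ℕ × ℕ) :
    pr (i0μ D p) (fun ω => i0ev D f c (ω f) ∧ i0ev D f' c' (ω f')) = i0q D p f c * i0q D p f' c' := by
  have h1 := i0_pr D p (fun g a => (g = f → i0ev D g c a) ∧ (g = f' → i0ev D g c' a))
  rw [prod_eq_mul f f' hne] at h1
  · have h2 : (fun ω : ∀ f, i0α D f => ∀ g, (g = f → i0ev D g c (ω g)) ∧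
        (g = f' → i0ev D g c' (ω g))) = fun ω => i0ev D f c (ω f) ∧ i0ev D f' c' (ω f') := by
      funext ω
      exact propext ⟨fun h => ⟨(h f).1 rfl, (h f').2 rfl⟩,
        fun h g => ⟨fun hg => by rw [hg]; exact h.1, fun hg => by rw [hg]; exact h.2⟩⟩
    rw [h2] at h1
    rw [h1]
    unfold i0q
    congr 1
    · refine sum_congr rfl fun a _ => ?_
      by_cases h : i0ev D f c a
      · rw [if_pos h, if_pos ⟨fun _ => h, fun h' => absurd h' hne⟩]
      · rw [if_neg h, if_neg (fun h' => h (h'.1 rfl))]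
    · refine sum_congr rfl fun a _ => ?_
      by_cases h : i0ev D f' c' a
      · rw [if_pos h, if_pos ⟨fun h' => absurd h'.symm hne, fun _ => h⟩]
      · rw [if_neg h, if_neg (fun h' => h (h'.2 rfl))]
  · intro g _ hg
    rw [← i0_sum D hk p g]
    exact sum_congr rfl fun a _ => if_pos ⟨fun h => absurd h hg.1, fun h => absurd h hg.2⟩
  · intro h
    exact absurd (mem_univ f) h
  · intro h
    exact absurd (mem_univ f') h

theorem i0_prob (D : Core Q R M) (hk : ∀ f, 1 ≤ D.k f) (p : ℝ) (hp0 : 0 < p) (hp1 : p ≤ 1) :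
    IsProb (i0μ D p) := by
  refine ⟨fun ω => prod_nonneg fun f _ => i0_w_nonneg D p hp0 hp1 f _, ?_⟩
  unfold i0μ
  have h1 : ∏ f, ∑ a : i0α D f, i0w D p f a = ∑ ω : (∀ f, i0α D f), ∏ f, i0w D p f (ω f) := by
    rw [Finset.prod_univ_sum, Fintype.piFinset_univ]
  rw [← h1]
  exact prod_eq_one fun f _ => i0_sum D hk p f

/-- Take `Ω = ∀ f : M, Bool × (Fin (k f) × Fin (k f))` with the product weight
`∏ f, (if (ω f).1 then p else 1 - p) / (k f)^2`, `P ω = {f | (ω f).1}`, `C ω f = (ω f).2` (values in `ℕ`),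
`S ω = ∅`. All probabilities are products (`Finset.prod_univ_sum`). In `s4` with `Z ≠ ∅` and in `s5` the
probability is `0`. -/
theorem init_sys (D : Core Q R M) (hk : ∀ f, 1 ≤ D.k f) (p : ℝ) (hp0 : 0 < p) (hp1 : p ≤ 1) :
    ∃ (Ω : Type) (_ : Fintype Ω) (Y : Sys D Ω), SysHyp Y p 0 0 ∧ ∀ ω, Y.S ω = ∅ := by
  let Y : Sys D (∀ f, i0α D f) :=
    { μ := i0μ D p
      P := fun ω => univ.filter fun f => (ω f).1 = true
      C := fun ω f => (((ω f).2.1 : ℕ), ((ω f).2.2 : ℕ))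
      S := fun _ => ∅ }
  have hμ := i0_prob D hk p hp0 hp1
  have hev : ∀ (ω : ∀ f, i0α D f) f c, (f ∈ Y.P ω ∧ Y.C ω f = c) ↔ i0ev D f c (ω f) := by
    intro ω f c
    show (f ∈ univ.filter (fun f => (ω f).1 = true) ∧ _) ↔ _
    rw [mem_filter]
    exact ⟨fun h => ⟨h.1.2, h.2⟩, fun h => ⟨⟨mem_univ _, h.1⟩, h.2⟩⟩
  have hone : ∀ f c, pr (i0μ D p) (fun ω => f ∈ Y.P ω ∧ Y.C ω f = c) = i0q D p f c := by
    intro f c
    have h1 : (fun ω : ∀ f, i0α D f => f ∈ Y.P ω ∧ Y.C ω f = c) = fun ω => i0ev D f c (ω f) := by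
      funext ω
      exact propext (hev ω f c)
    rw [h1]
    exact i0_one D hk p f (fun g a => i0ev D g c a)
  have hempty : ∀ A : (∀ f, i0α D f) → Prop, (∀ ω, ¬ A ω) → pr (i0μ D p) A = 0 := by
    intro A hA
    unfold pr
    exact sum_eq_zero fun ω _ => if_neg (hA ω)
  refine ⟨∀ f, i0α D f, inferInstance, Y, ?_, fun _ => rfl⟩
  constructor
  · exact hμ
  · exact hp0
  · exact le_rfl
  · intro ω
    exact empty_subset _
  · intro ω f _
    exact ⟨(ω f).2.1.2, (ω f).2.2.2⟩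
  · intro ω x hx
    exact absurd hx (notMem_empty _)
  · intro ω x hx
    exact absurd hx (notMem_empty _)
  · intro f
    have h1 : (fun ω : ∀ f, i0α D f => f ∈ Y.P ω) = fun ω => (ω f).1 = true := by
      funext ω
      show (f ∈ univ.filter (fun f => (ω f).1 = true)) = _
      rw [mem_filter]
      exact propext (and_iff_right (mem_univ _))
    show pr (i0μ D p) (fun ω => f ∈ Y.P ω) ≤ p
    rw [h1, i0_one D hk p f (fun g a => a.1 = true)]
    refine le_of_eq (Eq.trans (sum_congr rfl fun a _ => ?_) (i0_sumP D hk p f))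
    by_cases h : a.1 = true
    · rw [if_pos h, if_pos h]
    · rw [if_neg h, if_neg h]
  · intro f c
    show pr (i0μ D p) (fun ω => f ∈ Y.P ω ∧ Y.C ω f = c) ≤ _
    rw [hone]
    exact i0_q_le D p hp0 f c
  · intro f c h1 h2
    show _ ≤ pr (i0μ D p) (fun ω => f ∈ Y.P ω ∧ Y.C ω f = c)
    rw [hone, sub_zero, one_mul]
    exact i0_q_ge D p hp0 f c h1 h2
  · intro f f' c c' hne
    have h1 : (fun ω : ∀ f, i0α D f => (f ∈ Y.P ω ∧ Y.C ω f = c) ∧ (f' ∈ Y.P ω ∧ Y.C ω f' = c')) =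
        fun ω => i0ev D f c (ω f) ∧ i0ev D f' c' (ω f') := by
      funext ω
      rw [hev, hev]
    show pr (i0μ D p) (fun ω => (f ∈ Y.P ω ∧ Y.C ω f = c) ∧ (f' ∈ Y.P ω ∧ Y.C ω f' = c')) ≤ _
    rw [h1, i0_two D hk p f f' hne c c']
    exact mul_le_mul (i0_q_le D p hp0 f c) (i0_q_le D p hp0 f' c') (i0_q_nonneg D p hp0 f' c')
      (by positivity)
  · intro f c Z _ _
    by_cases hZ : Z = ∅
    · rw [hZ, card_empty, pow_zero, mul_one]
      refine le_trans (pr_mono hμ (B := fun ω => f ∈ Y.P ω ∧ Y.C ω f = c) fun ω h => h.1) ?_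
      rw [hone]
      exact i0_q_le D p hp0 f c
    · have h1 : pr (i0μ D p) (fun ω => (f ∈ Y.P ω ∧ Y.C ω f = c) ∧ Z ⊆ Y.S ω) = 0 := by
        apply hempty
        rintro ω ⟨_, h⟩
        exact hZ (subset_empty.1 h)
      show pr (i0μ D p) (fun ω => (f ∈ Y.P ω ∧ Y.C ω f = c) ∧ Z ⊆ Y.S ω) ≤ _
      rw [h1]
      positivity
  · intro x _ f _ c
    have h1 : pr (i0μ D p) (fun ω => x ∈ Y.S ω ∧ (f ∈ Y.P ω ∧ Y.C ω f = c)) = 0 := by
      apply hempty
      rintro ω ⟨h, _⟩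
      exact absurd h (notMem_empty _)
    show pr (i0μ D p) (fun ω => x ∈ Y.S ω ∧ (f ∈ Y.P ω ∧ Y.C ω f = c)) ≤ _
    rw [h1]
    simp

end Pool.Agent.Lib.H93A
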