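import Pool.Agent.Lib.H93A.ODefs

/-!
# H93A, O1A: E|P|, P(x in S), size of cells

See `PROOF.md`.
-/

set_option autoImplicit false

open Finset
open scoped Classical

namespace Pool.Agent.Lib.H93A

variable {Q R M : Type} [Fintype Q] [Fintype R] [Fintype M] {D : Core Q R M} {Ω : Type} [Fintype Ω]

/-- `E|P| ≤ p n` (from `s2p` and `cardM`) -/
theorem ex_cardP_le {kmax j0 : ℕ} {K c1 θ1 ε d p κ δ : ℝ}
    (hD : CoreHyp D kmax j0 K c1 θ1 ε d) {Y : Sys D Ω} (hY : SysHyp Y p κ δ) :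
    ex Y.μ (fun ω => ((Y.P ω).card : ℝ)) ≤ p * D.n := by
  have hp := hY.p_pos
  rw [ex_card]
  calc ∑ f : M, pr Y.μ (fun ω => f ∈ Y.P ω) ≤ ∑ _f : M, p := Finset.sum_le_sum fun f _ => hY.s2p f
    _ = p * (Fintype.card M : ℝ) := by
        rw [Finset.sum_const, Finset.card_univ, nsmul_eq_mul, mul_comm]
    _ ≤ p * D.n := by
        have : (Fintype.card M : ℝ) ≤ D.n := by exact_mod_cast hD.cardM
        exact mul_le_mul_of_nonneg_left this hp.le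

/-- `P(x ∈ S) ≤ κ p / N` for `x ∈ X`: `s4` with `Z = {x}`, `f = pos x 0`, `c = cell f x` (`s1'`). -/
theorem pr_mem_S_le {kmax j0 : ℕ} {K c1 θ1 ε d p κ δ : ℝ}
    (hD : CoreHyp D kmax j0 K c1 θ1 ε d) {Y : Sys D Ω} (hY : SysHyp Y p κ δ)
    (x : Q × R) (hx : x ∈ D.X) :
    pr Y.μ (fun ω => x ∈ Y.S ω) ≤ κ * p / D.N := by
  have hN : (0 : ℝ) < D.N := by exact_mod_cast hD.N_pos
  obtain ⟨i, -⟩ : ∃ i : Fin D.b, True := ⟨⟨0, hD.b_pos⟩, trivial⟩
  have hk : (0 : ℝ) < (D.k (D.pos x i) : ℝ) := by exact_mod_cast hD.k_pos _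
  have h1 := hY.s4 (D.pos x i) (D.cell (D.pos x i) x) {x} (Finset.singleton_subset_iff.2 hx)
    (by
      intro y hy
      rw [Finset.mem_singleton.1 hy]
      exact ⟨i, rfl⟩)
  refine (pr_mono hY.prob ?_).trans (h1.trans (le_of_eq ?_))
  · intro ω hω
    exact ⟨hY.s1' ω x hω i, Finset.singleton_subset_iff.2 hω⟩
  · rw [Finset.card_singleton, pow_one]
    field_simp

/-- a cell has at most `16 m²/k²` elements -/
theorem cellSet_card_le {kmax j0 : ℕ} {K c1 θ1 ε d : ℝ}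
    (hD : CoreHyp D kmax j0 K c1 θ1 ε d) (f : M) (c : ℕ × ℕ) :
    ((cellSet D f c).card : ℝ) ≤ 16 * (D.m : ℝ) ^ 2 / (D.k f : ℝ) ^ 2 := by
  have hk : (0 : ℝ) < (D.k f : ℝ) := by exact_mod_cast hD.k_pos _
  have h1 : cellSet D f c ⊆ D.clA f c.1 ×ˢ D.clB f c.2 := by
    intro y hy
    obtain ⟨hy1, hy2⟩ := Finset.mem_filter.1 hy
    refine Finset.mem_product.2 ⟨Finset.mem_filter.2 ⟨Finset.mem_image.2 ⟨y, hy1, rfl⟩, ?_⟩,
      Finset.mem_filter.2 ⟨Finset.mem_image.2 ⟨y, hy1, rfl⟩, ?_⟩⟩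
    · rw [← hy2]
      rfl
    · rw [← hy2]
      rfl
  have h2 : ((cellSet D f c).card : ℝ) ≤ ((D.clA f c.1).card : ℝ) * ((D.clB f c.2).card : ℝ) := by
    have := Finset.card_le_card h1
    rw [Finset.card_product] at this
    exact_mod_cast this
  have h3 := hD.clA_le f c.1
  have h4 := hD.clB_le f c.2
  calc ((cellSet D f c).card : ℝ) ≤ ((D.clA f c.1).card : ℝ) * ((D.clB f c.2).card : ℝ) := h2
    _ ≤ (4 * D.m / D.k f) * (4 * D.m / D.k f) := by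
        refine mul_le_mul h3 h4 (Nat.cast_nonneg _) (by positivity)
    _ = 16 * (D.m : ℝ) ^ 2 / (D.k f : ℝ) ^ 2 := by
        field_simp
        ring

end Pool.Agent.Lib.H93A
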