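import Pool.Agent.Lib.H93A.ODefs

/-!
# H93A, O1B: full histories

See `PROOF.md`.
-/

set_option autoImplicit false

open Finset
open scoped Classical

namespace Pool.Agent.Lib.H93A

variable {Q R M : Type} [Fintype Q] [Fintype R] [Fintype M] {D : Core Q R M} {Ω : Type} [Fintype Ω]

/-- `∑_f P(f ∈ P, |h_f| ≥ T) ≤ (b/T) E|S|`: `T · 1(|h_f| ≥ T) ≤ |h_f|`, and `∑_f |h_f| = b |S|`
(each `x ∈ S` is in exactly `b` histories, `pos x` is injective). -/
theorem sum_full_le {kmax j0 : ℕ} {K c1 θ1 ε d p κ δ : ℝ}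
    (hD : CoreHyp D kmax j0 K c1 θ1 ε d) {Y : Sys D Ω} (hY : SysHyp Y p κ δ)
    (T : ℕ) (hT : 1 ≤ T) :
    ∑ f : M, pr Y.μ (fun ω => f ∈ Y.P ω ∧ T ≤ (D.hist (Y.S ω) f).card) ≤
      (D.b / T) * ex Y.μ (fun ω => ((Y.S ω).card : ℝ)) := by
  have hT0 : (0 : ℝ) < T := by exact_mod_cast hT
  have h1 : ∀ f : M, pr Y.μ (fun ω => f ∈ Y.P ω ∧ T ≤ (D.hist (Y.S ω) f).card) ≤
      ex Y.μ (fun ω => ((D.hist (Y.S ω) f).card : ℝ)) / T := by
    intro f
    refine (pr_mono hY.prob (fun ω hω => ?_)).trans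
      (pr_markov hY.prob (fun ω => ((D.hist (Y.S ω) f).card : ℝ)) (fun ω => Nat.cast_nonneg _) T hT0)
    exact_mod_cast hω.2
  refine (Finset.sum_le_sum fun f _ => h1 f).trans ?_
  rw [← Finset.sum_div, ← ex_sum, div_mul_eq_mul_div]
  refine div_le_div_of_nonneg_right ?_ hT0.le
  rw [← ex_const_mul]
  refine ex_mono hY.prob fun ω => ?_
  have h2 : ∑ f : M, (D.hist (Y.S ω) f).card = D.b * (Y.S ω).card := by
    unfold Core.hist
    simp_rw [Finset.card_filter]
    rw [Finset.sum_comm, mul_comm, ← smul_eq_mul, ← Finset.sum_const]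
    refine Finset.sum_congr rfl fun x hx => ?_
    rw [← Finset.card_filter]
    have hinj := hD.pos_inj x (hD.X_sub (hY.S_sub ω hx))
    have h3 : (Finset.univ.filter fun f => D.inV f x) = Finset.univ.image (D.pos x) := by
      ext f
      simp only [Finset.mem_filter, Finset.mem_univ, true_and, Finset.mem_image]
      exact Iff.rfl
    rw [h3, Finset.card_image_of_injective _ hinj, Finset.card_univ, Fintype.card_fin]
  have h4 : (∑ f : M, ((D.hist (Y.S ω) f).card : ℝ)) = (D.b : ℝ) * ((Y.S ω).card : ℝ) := by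
    exact_mod_cast h2
  exact h4.le

end Pool.Agent.Lib.H93A
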