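import Pool.Agent.Lib.H93A.O1A
import Pool.Agent.Lib.H93A.O1B

/-!
# H93A, O1C: full cells

See `PROOF.md`.
-/

set_option autoImplicit false

open Finset
open scoped Classical

namespace Pool.Agent.Lib.H93A

variable {Q R M : Type} [Fintype Q] [Fintype R] [Fintype M] {D : Core Q R M} {Ω : Type} [Fintype Ω]

/-- The number of full cells: `∑_f #{c full}/k_f² ≤ 4 j0 τ n/T` if `E|S| ≤ τ p n`. (The cells range over
`range (k f) ×ˢ range (k f)`; the events `C f = c` are disjoint.) -/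
theorem sum_fullCells_le {kmax j0 : ℕ} {K c1 θ1 ε d p κ δ τ : ℝ}
    (hD : CoreHyp D kmax j0 K c1 θ1 ε d) {Y : Sys D Ω} (hY : SysHyp Y p κ δ)
    (T : ℕ) (hT : 1 ≤ T) (hτ : 0 ≤ τ)
    (hS : ex Y.μ (fun ω => ((Y.S ω).card : ℝ)) ≤ τ * p * D.n) :
    ∑ f : M, (((range (D.k f) ×ˢ range (D.k f)).filter fun c => FullCell Y T p f c).card : ℝ) /
      (D.k f : ℝ) ^ 2 ≤ 4 * j0 * τ * D.n / T := by
  have hp := hY.p_pos
  have hT0 : (0 : ℝ) < T := by exact_mod_cast hT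
  have h1 : ∀ f : M, (((range (D.k f) ×ˢ range (D.k f)).filter fun c => FullCell Y T p f c).card : ℝ) /
      (D.k f : ℝ) ^ 2 ≤
      (4 / p) * pr Y.μ (fun ω => f ∈ Y.P ω ∧ T ≤ (D.hist (Y.S ω) f).card) := by
    intro f
    have hk : (0 : ℝ) < (D.k f : ℝ) := by exact_mod_cast hD.k_pos _
    obtain ⟨F, hF⟩ : ∃ F, F = (range (D.k f) ×ˢ range (D.k f)).filter fun c => FullCell Y T p f c :=
      ⟨_, rfl⟩
    rw [← hF]
    have h2 := pr_sum_disjoint (μ := Y.μ) F (fun c ω => (f ∈ Y.P ω ∧ Y.C ω f = c) ∧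
      T ≤ (D.hist (Y.S ω) f).card) (fun ω c _ c' _ h h' => h.1.2.symm.trans h'.1.2)
    have h3 : pr Y.μ (fun ω => ∃ c ∈ F, (f ∈ Y.P ω ∧ Y.C ω f = c) ∧
        T ≤ (D.hist (Y.S ω) f).card) ≤
        pr Y.μ (fun ω => f ∈ Y.P ω ∧ T ≤ (D.hist (Y.S ω) f).card) := by
      refine pr_mono hY.prob ?_
      rintro ω ⟨c, _, h, h'⟩
      exact ⟨h.1, h'⟩
    have h4 : (F.card : ℝ) * (p / (4 * (D.k f : ℝ) ^ 2)) ≤
        ∑ c ∈ F, pr Y.μ (fun ω => (f ∈ Y.P ω ∧ Y.C ω f = c) ∧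
        T ≤ (D.hist (Y.S ω) f).card) := by
      rw [← nsmul_eq_mul]
      refine Finset.card_nsmul_le_sum _ _ _ (fun c hc => ?_)
      rw [hF] at hc
      exact (Finset.mem_filter.1 hc).2
    have h5 : (F.card : ℝ) / (D.k f : ℝ) ^ 2 =
        (4 / p) * ((F.card : ℝ) * (p / (4 * (D.k f : ℝ) ^ 2))) := by
      field_simp
    rw [h5]
    refine mul_le_mul_of_nonneg_left ?_ (by positivity)
    exact h4.trans (h2.symm.le.trans h3)
  refine (Finset.sum_le_sum fun f _ => h1 f).trans ?_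
  rw [← Finset.mul_sum]
  have h6 := sum_full_le hD hY T hT
  have hb : (D.b : ℝ) ≤ j0 := by exact_mod_cast hD.b_le
  have hn : (0 : ℝ) ≤ (D.n : ℝ) := Nat.cast_nonneg _
  calc (4 / p) * ∑ f : M, pr Y.μ (fun ω => f ∈ Y.P ω ∧ T ≤ (D.hist (Y.S ω) f).card) ≤
      (4 / p) * ((D.b / T) * ex Y.μ (fun ω => ((Y.S ω).card : ℝ))) :=
        mul_le_mul_of_nonneg_left h6 (by positivity)
    _ ≤ (4 / p) * ((j0 / T) * (τ * p * D.n)) := by
        refine mul_le_mul_of_nonneg_left ?_ (by positivity)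
        have h7 : (D.b : ℝ) / T ≤ j0 / T := div_le_div_of_nonneg_right hb hT0.le
        have h8 : 0 ≤ ex Y.μ (fun ω => ((Y.S ω).card : ℝ)) :=
          Finset.sum_nonneg fun ω _ => mul_nonneg (hY.prob.nonneg ω) (Nat.cast_nonneg _)
        exact mul_le_mul h7 hS h8 (by positivity)
    _ = 4 * j0 * τ * D.n / T := by
        field_simp

end Pool.Agent.Lib.H93A
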