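import Pool.Agent.Lib.H93A.O1C

/-!
# H93A, O1D: elements in full cells

See `PROOF.md`.
-/

set_option autoImplicit false

open Finset
open scoped Classical

namespace Pool.Agent.Lib.H93A

variable {Q R M : Type} [Fintype Q] [Fintype R] [Fintype M] {D : Core Q R M} {Ω : Type} [Fintype Ω]

/-- the number of `x ∈ X` in a full cell -/
theorem card_full_le {kmax j0 : ℕ} {K c1 θ1 ε d p κ δ τ : ℝ}
    (hD : CoreHyp D kmax j0 K c1 θ1 ε d) {Y : Sys D Ω} (hY : SysHyp Y p κ δ)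
    (T : ℕ) (hT : 1 ≤ T) (hτ : 0 ≤ τ)
    (hS : ex Y.μ (fun ω => ((Y.S ω).card : ℝ)) ≤ τ * p * D.n)
    (hT2 : 2048 * K ^ 2 * j0 * τ ≤ c1 * T) :
    ((D.X.filter fun x => ∃ i, FullCell Y T p (D.pos x i) (D.cell (D.pos x i) x)).card : ℝ) ≤
      c1 * ((D.n : ℝ) * D.N) / 8 := by
  have hT0 : (0 : ℝ) < T := by exact_mod_cast hT
  have h1 := sum_fullCells_le hD hY T hT hτ hS
  have h2 : (D.X.filter fun x => ∃ i, FullCell Y T p (D.pos x i) (D.cell (D.pos x i) x)) ⊆
      Finset.univ.biUnion fun f : M =>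
        ((range (D.k f) ×ˢ range (D.k f)).filter fun c => FullCell Y T p f c).biUnion
          fun c => cellSet D f c := by
    intro x hx
    obtain ⟨hxX, i, hi⟩ := Finset.mem_filter.1 hx
    have hxf : x ∈ D.Xf (D.pos x i) := Finset.mem_filter.2 ⟨hD.X_sub hxX, i, rfl⟩
    refine Finset.mem_biUnion.2 ⟨D.pos x i, Finset.mem_univ _, Finset.mem_biUnion.2
      ⟨D.cell (D.pos x i) x, Finset.mem_filter.2 ⟨Finset.mem_product.2
        ⟨Finset.mem_range.2 (hD.iA_lt _ x hxf), Finset.mem_range.2 (hD.iB_lt _ x hxf)⟩, hi⟩,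
        Finset.mem_filter.2 ⟨hxf, rfl⟩⟩⟩
  have h3 : ((D.X.filter fun x => ∃ i, FullCell Y T p (D.pos x i) (D.cell (D.pos x i) x)).card : ℝ) ≤
      ∑ f : M, ∑ c ∈ (range (D.k f) ×ˢ range (D.k f)).filter (fun c => FullCell Y T p f c),
        ((cellSet D f c).card : ℝ) := by
    have h4 := (Finset.card_le_card h2).trans (Finset.card_biUnion_le.trans
      (Finset.sum_le_sum fun f _ => Finset.card_biUnion_le))
    exact_mod_cast h4
  refine h3.trans ?_
  have h5 : ∀ f : M, ∑ c ∈ (range (D.k f) ×ˢ range (D.k f)).filter (fun c => FullCell Y T p f c),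
        ((cellSet D f c).card : ℝ) ≤ 16 * (D.m : ℝ) ^ 2 *
        ((((range (D.k f) ×ˢ range (D.k f)).filter fun c => FullCell Y T p f c).card : ℝ) /
      (D.k f : ℝ) ^ 2) := by
    intro f
    refine (Finset.sum_le_card_nsmul _ _ _ (fun c _ => cellSet_card_le hD f c)).trans (le_of_eq ?_)
    rw [nsmul_eq_mul]
    ring
  refine (Finset.sum_le_sum fun f _ => h5 f).trans ?_
  rw [← Finset.mul_sum]
  have hm := hD.m_sq
  have hn : (0 : ℝ) ≤ (D.n : ℝ) := Nat.cast_nonneg _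
  have hN : (0 : ℝ) ≤ (D.N : ℝ) := Nat.cast_nonneg _
  calc 16 * (D.m : ℝ) ^ 2 * ∑ f : M,
        ((((range (D.k f) ×ˢ range (D.k f)).filter fun c => FullCell Y T p f c).card : ℝ) /
      (D.k f : ℝ) ^ 2) ≤ 16 * (D.m : ℝ) ^ 2 * (4 * j0 * τ * D.n / T) :=
        mul_le_mul_of_nonneg_left h1 (by positivity)
    _ ≤ 16 * (4 * K ^ 2 * D.N) * (4 * j0 * τ * D.n / T) := by
        refine mul_le_mul_of_nonneg_right ?_ (by positivity)
        linarith
    _ = (2048 * K ^ 2 * j0 * τ) * ((D.n * D.N) / (8 * T)) := by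
        field_simp
        ring
    _ ≤ (c1 * T) * ((D.n * D.N) / (8 * T)) :=
        mul_le_mul_of_nonneg_right hT2 (by positivity)
    _ = c1 * ((D.n : ℝ) * D.N) / 8 := by
        field_simp

end Pool.Agent.Lib.H93A
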