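import Pool.Agent.Lib.H93A.O2A

/-!
# H93A, O2B: openness lemma: bad sets

See `PROOF.md`.
-/

set_option autoImplicit false

open Finset
open scoped Classical

namespace Pool.Agent.Lib.H93A

variable {Q R M : Type} [Fintype Q] [Fintype R] [Fintype M] {D : Core Q R M} {Ω : Type} [Fintype Ω]

/-- an enumeration of a set with `r` elements -/
theorem o2b_enum {X : Type} [DecidableEq X] {r : ℕ} (Z : Finset X) (h : Z.card = r) :
    ∃ y : Fin r → X, univ.image y = Z := by
  refine ⟨fun i => ((Finset.equivFinOfCardEq h).symm i : X), ?_⟩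
  ext x
  constructor
  · intro hx
    obtain ⟨i, -, rfl⟩ := Finset.mem_image.1 hx
    exact ((Finset.equivFinOfCardEq h).symm i).2
  · intro hx
    refine Finset.mem_image.2 ⟨Finset.equivFinOfCardEq h ⟨x, hx⟩, Finset.mem_univ _, ?_⟩
    simp

/-- The same for sets `Z` of `r` elements of the cell (choose an enumeration of `Z`). -/
theorem card_bad_set_le (D : Core Q R M) {ε d : ℝ} (hε : 0 < ε) (hd : 0 < d) (hd1 : d ≤ 1)
    (f : M) (u v : ℕ) (hg : D.Good ε d f u v) (hk : 1 ≤ D.k f)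
    (hA : ∀ u, ((D.clA f u).card : ℝ) ≤ 4 * D.m / D.k f)
    (hB : ∀ v, ((D.clB f v).card : ℝ) ≤ 4 * D.m / D.k f)
    (A' : Finset Q) (hA' : A' ⊆ D.clA f u) (r : ℕ)
    (hr : ε * (4 * D.m / D.k f) ≤ d ^ r * A'.card) :
    ((((cellSet D f (u, v)).powersetCard r).filter fun Z =>
        ((comm D f A' Z).card : ℝ) < d ^ r * A'.card).card : ℝ) ≤
      r * ε * (4 * D.m / D.k f) ^ (2 * r) := by
  refine le_trans ?_ (card_bad_fun_le D hε hd hd1 f u v hg hk hA hB A' hA' r hr)
  have h1 : (((cellSet D f (u, v)).powersetCard r).filter fun Z =>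
        ((comm D f A' Z).card : ℝ) < d ^ r * A'.card) ⊆
      ((univ : Finset (Fin r → Q × R)).filter fun y => (∀ i, y i ∈ cellSet D f (u, v)) ∧
        ((comm D f A' (univ.image y)).card : ℝ) < d ^ r * A'.card).image fun y => univ.image y := by
    intro Z hZ
    obtain ⟨hZ1, hZ2⟩ := Finset.mem_filter.1 hZ
    obtain ⟨hZ3, hZ4⟩ := Finset.mem_powersetCard.1 hZ1
    obtain ⟨y, hy⟩ := o2b_enum Z hZ4
    refine Finset.mem_image.2 ⟨y, Finset.mem_filter.2 ⟨Finset.mem_univ _, fun i => ?_, ?_⟩, hy⟩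
    · apply hZ3
      rw [← hy]
      exact Finset.mem_image_of_mem y (Finset.mem_univ i)
    · rw [hy]
      exact hZ2
  exact_mod_cast (Finset.card_le_card h1).trans Finset.card_image_le

end Pool.Agent.Lib.H93A
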