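import Pool.Agent.Lib.H93A.O2B

/-!
# H93A, O3A: probability of a bad history

See `PROOF.md`.
-/

set_option autoImplicit false

open Finset
open scoped Classical

namespace Pool.Agent.Lib.H93A

variable {Q R M : Type} [Fintype Q] [Fintype R] [Fintype M] {D : Core Q R M} {Ω : Type} [Fintype Ω]

/-- The probability of a bad history. Sum over `r < T` and over the bad sets `Z` with `r` elements of
`P(f ∈ P, C f = c, h_f = Z) ≤ P(f ∈ P, C f = c, Z ⊆ S)`, then `s4` (only for `Z ⊆ X`; histories lie in `X`)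
and `card_bad_set_le`. With `μ = 4m/k`: `μ² k² = 16 m² ≤ 64 K² N`. -/
theorem pr_bad_hist_le {kmax j0 : ℕ} {K c1 θ1 ε d p κ κ' δ : ℝ}
    (hD : CoreHyp D kmax j0 K c1 θ1 ε d) {Y : Sys D Ω} (hY : SysHyp Y p κ' δ)
    (hκ : κ' ≤ κ) (hε : 0 < ε) (hd : 0 < d) (hd1 : d ≤ 1) (T : ℕ) (hT : 1 ≤ T)
    (hεT : 8 * (T : ℝ) ^ 2 * ε * (64 * K ^ 2 * κ + 1) ^ T ≤ 1)
    (f : M) (u v : ℕ) (hg : D.Good ε d f u v) (A' : Finset Q) (hA' : A' ⊆ D.clA f u)
    (hr : ε * (4 * D.m / D.k f) ≤ d ^ T * A'.card) :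
    pr Y.μ (fun ω => (f ∈ Y.P ω ∧ Y.C ω f = (u, v)) ∧ (D.hist (Y.S ω) f).card < T ∧
        ((comm D f A' (D.hist (Y.S ω) f)).card : ℝ) < d ^ (D.hist (Y.S ω) f).card * A'.card) ≤
      p / (8 * (D.k f : ℝ) ^ 2) := by
  have hk1 : (1 : ℝ) ≤ D.k f := by exact_mod_cast hD.k_pos f
  have hk0 : (0 : ℝ) < D.k f := by linarith
  have hN0 : (0 : ℝ) < D.N := by exact_mod_cast hD.N_pos
  have hp := hY.p_pos
  have hκ0 := hY.κ_nonneg
  have hpk : 0 < p / (D.k f : ℝ) ^ 2 := by positivity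
  obtain ⟨Bad, hBad⟩ : ∃ Bad : ℕ → Finset (Finset (Q × R)), Bad = fun r =>
    ((cellSet D f (u, v)).powersetCard r).filter fun Z =>
        ((comm D f A' Z).card : ℝ) < d ^ r * A'.card := ⟨_, rfl⟩
  have hBad_le : ∀ r < T, ((Bad r).card : ℝ) ≤ r * ε * (4 * D.m / D.k f) ^ (2 * r) := by
    intro r hrT
    rw [hBad]
    refine card_bad_set_le D hε hd hd1 f u v hg (hD.k_pos f) (hD.clA_le f) (hD.clB_le f) A' hA' r ?_
    refine hr.trans (mul_le_mul_of_nonneg_right ?_ (Nat.cast_nonneg _))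
    exact pow_le_pow_of_le_one hd.le hd1 hrT.le
  -- the union bound
  obtain ⟨I, hI⟩ : ∃ I : Finset (Finset (Q × R)), I = ((Finset.range T).biUnion Bad).filter
    fun Z => Z ⊆ D.X := ⟨_, rfl⟩
  have h1 : pr Y.μ (fun ω => (f ∈ Y.P ω ∧ Y.C ω f = (u, v)) ∧ (D.hist (Y.S ω) f).card < T ∧
        ((comm D f A' (D.hist (Y.S ω) f)).card : ℝ) < d ^ (D.hist (Y.S ω) f).card * A'.card) ≤
      ∑ Z ∈ I, pr Y.μ (fun ω => (f ∈ Y.P ω ∧ Y.C ω f = (u, v)) ∧ Z ⊆ Y.S ω) := by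
    refine le_trans (pr_mono hY.prob ?_) (pr_exists_le hY.prob I
      (fun Z ω => (f ∈ Y.P ω ∧ Y.C ω f = (u, v)) ∧ Z ⊆ Y.S ω))
    rintro ω ⟨hc, hcard, hcomm⟩
    refine ⟨D.hist (Y.S ω) f, ?_, hc, Finset.filter_subset _ _⟩
    rw [hI, Finset.mem_filter, Finset.mem_biUnion]
    refine ⟨⟨(D.hist (Y.S ω) f).card, Finset.mem_range.2 hcard, ?_⟩,
      (Finset.filter_subset _ _).trans (hY.S_sub ω)⟩
    rw [hBad, Finset.mem_filter, Finset.mem_powersetCard]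
    exact ⟨⟨hist_sub_cellSet hD hY ω f (u, v) hc.2, rfl⟩, hcomm⟩
  refine h1.trans ?_
  obtain ⟨q, hq⟩ : ∃ q : ℝ, q = κ' * (D.k f : ℝ) ^ 2 / D.N := ⟨_, rfl⟩
  have hq0 : 0 ≤ q := by rw [hq]; positivity
  have h2 : ∀ Z ∈ I, pr Y.μ (fun ω => (f ∈ Y.P ω ∧ Y.C ω f = (u, v)) ∧ Z ⊆ Y.S ω) ≤
      (p / (D.k f : ℝ) ^ 2) * q ^ Z.card := by
    intro Z hZ
    rw [hI, Finset.mem_filter, Finset.mem_biUnion] at hZ
    obtain ⟨⟨r, _, hZr⟩, hZX⟩ := hZ
    rw [hBad, Finset.mem_filter, Finset.mem_powersetCard] at hZr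
    rw [hq]
    refine hY.s4 f (u, v) Z hZX fun y hy => ?_
    have := hZr.1.1 hy
    simp only [cellSet, Core.Xf, Finset.mem_filter] at this
    exact this.1.2
  refine (Finset.sum_le_sum h2).trans ?_
  have h3 : ∑ Z ∈ I, (p / (D.k f : ℝ) ^ 2) * q ^ Z.card ≤
      ∑ r ∈ Finset.range T, ∑ Z ∈ Bad r, (p / (D.k f : ℝ) ^ 2) * q ^ Z.card := by
    have hnn : ∀ Z : Finset (Q × R), 0 ≤ (p / (D.k f : ℝ) ^ 2) * q ^ Z.card := fun Z => by positivity
    have hsub : I ⊆ (Finset.range T).biUnion Bad := by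
      rw [hI]
      exact Finset.filter_subset _ _
    refine (Finset.sum_le_sum_of_subset_of_nonneg hsub fun Z _ _ => hnn Z).trans (le_of_eq ?_)
    refine Finset.sum_biUnion ?_
    intro r _ r' _ hrr
    rw [Function.onFun, Finset.disjoint_left]
    intro Z hZ hZ'
    rw [hBad, Finset.mem_filter, Finset.mem_powersetCard] at hZ hZ'
    exact hrr (hZ.1.2.symm.trans hZ'.1.2)
  refine h3.trans ?_
  have h4 : ∀ r ∈ Finset.range T, ∑ Z ∈ Bad r, (p / (D.k f : ℝ) ^ 2) * q ^ Z.card ≤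
      (p / (D.k f : ℝ) ^ 2) * (T * ε * (64 * K ^ 2 * κ + 1) ^ T) := by
    intro r hrT
    rw [Finset.mem_range] at hrT
    have e : ∀ Z ∈ Bad r, (p / (D.k f : ℝ) ^ 2) * q ^ Z.card = (p / (D.k f : ℝ) ^ 2) * q ^ r := by
      intro Z hZ
      rw [hBad, Finset.mem_filter, Finset.mem_powersetCard] at hZ
      rw [hZ.1.2]
    rw [Finset.sum_congr rfl e, Finset.sum_const, nsmul_eq_mul]
    have g1 := hBad_le r hrT
    have g2 : ((Bad r).card : ℝ) * q ^ r ≤ T * ε * (64 * K ^ 2 * κ + 1) ^ T := by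
      calc ((Bad r).card : ℝ) * q ^ r
          ≤ (r * ε * (4 * D.m / D.k f) ^ (2 * r)) * q ^ r :=
            mul_le_mul_of_nonneg_right g1 (pow_nonneg hq0 r)
        _ = r * ε * (16 * (D.m : ℝ) ^ 2 * κ' / D.N) ^ r := by
            rw [mul_assoc, pow_mul, ← mul_pow, hq]
            congr 2
            field_simp
            ring
        _ ≤ T * ε * (64 * K ^ 2 * κ + 1) ^ T := by
            have a1 : (16 * (D.m : ℝ) ^ 2 * κ' / D.N) ≤ 64 * K ^ 2 * κ + 1 := by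
              have b1 : (16 * (D.m : ℝ) ^ 2 * κ' / D.N) ≤ 64 * K ^ 2 * κ' := by
                rw [div_le_iff₀ hN0]
                have := mul_le_mul_of_nonneg_right hD.m_sq hκ0
                nlinarith
              have b2 : 64 * K ^ 2 * κ' ≤ 64 * K ^ 2 * κ :=
                mul_le_mul_of_nonneg_left hκ (by positivity)
              linarith
            have a0 : 0 ≤ (16 * (D.m : ℝ) ^ 2 * κ' / D.N) := by positivity
            have a2 : (1 : ℝ) ≤ 64 * K ^ 2 * κ + 1 := by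
              have : 0 ≤ κ := hκ0.trans hκ
              have : 0 ≤ 64 * K ^ 2 * κ := by positivity
              linarith
            have a3 : (16 * (D.m : ℝ) ^ 2 * κ' / D.N) ^ r ≤ (64 * K ^ 2 * κ + 1) ^ T :=
              (pow_le_pow_left₀ a0 a1 r).trans (pow_le_pow_right₀ a2 hrT.le)
            have a4 : (r : ℝ) ≤ T := by exact_mod_cast hrT.le
            have a5 : (r : ℝ) * ε ≤ T * ε := mul_le_mul_of_nonneg_right a4 hε.le
            exact mul_le_mul a5 a3 (pow_nonneg a0 r) (by positivity)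
    calc ((Bad r).card : ℝ) * ((p / (D.k f : ℝ) ^ 2) * q ^ r)
        = (p / (D.k f : ℝ) ^ 2) * (((Bad r).card : ℝ) * q ^ r) := by ring
      _ ≤ _ := mul_le_mul_of_nonneg_left g2 hpk.le
  refine (Finset.sum_le_sum h4).trans ?_
  rw [Finset.sum_const, Finset.card_range, nsmul_eq_mul]
  have e1 : (T : ℝ) * ((p / (D.k f : ℝ) ^ 2) * (T * ε * (64 * K ^ 2 * κ + 1) ^ T))
      = (p / (8 * (D.k f : ℝ) ^ 2)) * (8 * (T : ℝ) ^ 2 * ε * (64 * K ^ 2 * κ + 1) ^ T) := by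
    field_simp
  rw [e1]
  have h5 : 0 ≤ p / (8 * (D.k f : ℝ) ^ 2) := by positivity
  calc (p / (8 * (D.k f : ℝ) ^ 2)) * (8 * (T : ℝ) ^ 2 * ε * (64 * K ^ 2 * κ + 1) ^ T)
      ≤ (p / (8 * (D.k f : ℝ) ^ 2)) * 1 := mul_le_mul_of_nonneg_left hεT h5
    _ = _ := mul_one _

end Pool.Agent.Lib.H93A
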