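import Pool.Agent.Lib.H93A.O3A

/-!
# H93A, O3B: openness lemma: lower bound for sum phi

See `PROOF.md`.
-/

set_option autoImplicit false

open Finset
open scoped Classical

namespace Pool.Agent.Lib.H93A

variable {Q R M : Type} [Fintype Q] [Fintype R] [Fintype M] {D : Core Q R M} {Ω : Type} [Fintype Ω]

/-- the sum of the `φ(a)` as an expectation -/
theorem o3b_sum (Y : Sys D Ω) (T : ℕ) (f : M) (c : ℕ × ℕ) (A' : Finset Q) :
    ∑ a ∈ A', phi Y T f c a = ∑ ω, if ((f ∈ Y.P ω ∧ Y.C ω f = c) ∧ (D.hist (Y.S ω) f).card < T) then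
      Y.μ ω * ((comm D f A' (D.hist (Y.S ω) f)).card : ℝ) else 0 := by
  unfold phi pr
  rw [Finset.sum_comm]
  refine Finset.sum_congr rfl fun ω _ => ?_
  by_cases h : (f ∈ Y.P ω ∧ Y.C ω f = c) ∧ (D.hist (Y.S ω) f).card < T
  · rw [if_pos h]
    unfold comm
    rw [Finset.card_filter]
    push_cast
    rw [Finset.mul_sum]
    refine Finset.sum_congr rfl fun a _ => ?_
    by_cases h2 : ∀ y ∈ D.hist (Y.S ω) f, (a, y.2) ∈ D.Xf f
    · rw [if_pos ⟨h.1, h.2, h2⟩, if_pos h2, mul_one]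
    · rw [if_neg (fun h3 => h2 h3.2.2), if_neg h2, mul_zero]
  · rw [if_neg h]
    refine Finset.sum_eq_zero fun a _ => ?_
    rw [if_neg]
    rintro ⟨h1, h2, -⟩
    exact h ⟨h1, h2⟩

/-- lower bound for the sum of the `φ(a)` -/
theorem sum_phi_ge {kmax j0 : ℕ} {K c1 θ1 ε d p κ κ' δ : ℝ}
    (hD : CoreHyp D kmax j0 K c1 θ1 ε d) {Y : Sys D Ω} (hY : SysHyp Y p κ' δ)
    (hκ : κ' ≤ κ) (hδ : δ ≤ 1 / 2) (hε : 0 < ε) (hd : 0 < d) (hd1 : d ≤ 1) (T : ℕ) (hT : 1 ≤ T)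
    (hεT : 8 * (T : ℝ) ^ 2 * ε * (64 * K ^ 2 * κ + 1) ^ T ≤ 1)
    (f : M) (u v : ℕ) (hu : u < D.k f) (hv : v < D.k f) (hg : D.Good ε d f u v)
    (hfull : ¬ FullCell Y T p f (u, v))
    (A' : Finset Q) (hA' : A' ⊆ D.clA f u)
    (hr : ε * (4 * D.m / D.k f) ≤ d ^ T * A'.card) :
    (p / (8 * (D.k f : ℝ) ^ 2)) * d ^ T * A'.card ≤ ∑ a ∈ A', phi Y T f (u, v) a := by
  have hp := hY.p_pos
  have hk1 : (1 : ℝ) ≤ D.k f := by exact_mod_cast hD.k_pos f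
  have hk0 : (0 : ℝ) < D.k f := by linarith
  have hpk : 0 < p / (D.k f : ℝ) ^ 2 := by positivity
  have h1 := hY.s2l f (u, v) hu hv
  have h2 : pr Y.μ (fun ω => (f ∈ Y.P ω ∧ Y.C ω f = (u, v)) ∧ T ≤ (D.hist (Y.S ω) f).card) <
      p / (4 * (D.k f : ℝ) ^ 2) := not_le.1 hfull
  have h3 := pr_bad_hist_le hD hY hκ hε hd hd1 T hT hεT f u v hg A' hA' hr
  set G : Ω → Prop := fun ω => ((f ∈ Y.P ω ∧ Y.C ω f = (u, v)) ∧ (D.hist (Y.S ω) f).card < T) ∧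
    ¬ ((comm D f A' (D.hist (Y.S ω) f)).card : ℝ) < d ^ (D.hist (Y.S ω) f).card * A'.card with hG
  have h4 : p / (8 * (D.k f : ℝ) ^ 2) ≤ pr Y.μ G := by
    have h5 : pr Y.μ (fun ω => f ∈ Y.P ω ∧ Y.C ω f = (u, v)) ≤
        pr Y.μ (fun ω => (f ∈ Y.P ω ∧ Y.C ω f = (u, v)) ∧ T ≤ (D.hist (Y.S ω) f).card) +
        (pr Y.μ (fun ω => (f ∈ Y.P ω ∧ Y.C ω f = (u, v)) ∧ (D.hist (Y.S ω) f).card < T ∧
        ((comm D f A' (D.hist (Y.S ω) f)).card : ℝ) < d ^ (D.hist (Y.S ω) f).card * A'.card) +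
        pr Y.μ G) := by
      refine le_trans ?_ ((pr_or_le hY.prob _ _).trans
        (add_le_add le_rfl (pr_or_le hY.prob _ _)))
      refine pr_mono hY.prob fun ω hω => ?_
      rcases le_or_gt T (D.hist (Y.S ω) f).card with h6 | h6
      · exact Or.inl ⟨hω, h6⟩
      · by_cases h7 : ((comm D f A' (D.hist (Y.S ω) f)).card : ℝ) <
            d ^ (D.hist (Y.S ω) f).card * A'.card
        · exact Or.inr (Or.inl ⟨hω, h6, h7⟩)
        · exact Or.inr (Or.inr ⟨⟨hω, h6⟩, h7⟩)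
    have e1 : p / (4 * (D.k f : ℝ) ^ 2) = (p / (D.k f : ℝ) ^ 2) / 4 := by
      field_simp
    have e2 : p / (8 * (D.k f : ℝ) ^ 2) = (p / (D.k f : ℝ) ^ 2) / 8 := by
      field_simp
    have h6 : (1 / 2) * (p / (D.k f : ℝ) ^ 2) ≤ (1 - δ) * (p / (D.k f : ℝ) ^ 2) :=
      mul_le_mul_of_nonneg_right (by linarith) hpk.le
    rw [e1] at h2
    rw [e2] at h3 ⊢
    linarith
  have hc : (0 : ℝ) ≤ d ^ T * A'.card := by positivity
  rw [o3b_sum]
  calc (p / (8 * (D.k f : ℝ) ^ 2)) * d ^ T * A'.card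
      = (p / (8 * (D.k f : ℝ) ^ 2)) * (d ^ T * A'.card) := by ring
    _ ≤ pr Y.μ G * (d ^ T * A'.card) := mul_le_mul_of_nonneg_right h4 hc
    _ ≤ _ := by
        unfold pr
        rw [Finset.sum_mul]
        refine Finset.sum_le_sum fun ω _ => ?_
        by_cases h6 : G ω
        · rw [if_pos h6, if_pos h6.1]
          refine mul_le_mul_of_nonneg_left ?_ (hY.prob.nonneg ω)
          refine le_trans ?_ (not_lt.1 h6.2)
          refine mul_le_mul_of_nonneg_right ?_ (Nat.cast_nonneg _)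
          exact pow_le_pow_of_le_one hd.le hd1 h6.1.2.le
        · rw [if_neg h6, zero_mul]
          split_ifs
          · exact mul_nonneg (hY.prob.nonneg ω) (Nat.cast_nonneg _)
          · exact le_rfl

end Pool.Agent.Lib.H93A
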