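import Pool.Agent.Lib.H93A.O3B

/-!
# H93A, O3C: openness lemma: few small phi

See `PROOF.md`.
-/

set_option autoImplicit false

open Finset
open scoped Classical

namespace Pool.Agent.Lib.H93A

variable {Q R M : Type} [Fintype Q] [Fintype R] [Fintype M] {D : Core Q R M} {Ω : Type} [Fintype Ω]

/-- Fewer than `e' μ` elements `a` of the class have `φ(a) < d^T p/(8k²)`. -/
theorem card_small_phi_le {kmax j0 : ℕ} {K c1 θ1 ε d p κ κ' δ e' : ℝ}
    (hD : CoreHyp D kmax j0 K c1 θ1 ε d) {Y : Sys D Ω} (hY : SysHyp Y p κ' δ)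
    (hκ : κ' ≤ κ) (hδ : δ ≤ 1 / 2) (hε : 0 < ε) (hd : 0 < d) (hd1 : d ≤ 1) (T : ℕ) (hT : 1 ≤ T)
    (he : ε ≤ d ^ T * e') (he0 : 0 < e')
    (hεT : 8 * (T : ℝ) ^ 2 * ε * (64 * K ^ 2 * κ + 1) ^ T ≤ 1)
    (f : M) (u v : ℕ) (hu : u < D.k f) (hv : v < D.k f) (hg : D.Good ε d f u v)
    (hfull : ¬ FullCell Y T p f (u, v)) :
    (((D.clA f u).filter fun a => phi Y T f (u, v) a < d ^ T * (p / (8 * (D.k f : ℝ) ^ 2))).card : ℝ)
      ≤ e' * (4 * D.m / D.k f) := by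
  by_contra hcon
  have hcon' := not_le.1 hcon
  set A' := (D.clA f u).filter fun a => phi Y T f (u, v) a < d ^ T * (p / (8 * (D.k f : ℝ) ^ 2))
    with hA'
  have hm : (0 : ℝ) ≤ 4 * D.m / D.k f := by positivity
  have hdT : (0 : ℝ) < d ^ T := pow_pos hd T
  have hr : ε * (4 * D.m / D.k f) ≤ d ^ T * A'.card := by
    calc ε * (4 * D.m / D.k f) ≤ (d ^ T * e') * (4 * D.m / D.k f) :=
          mul_le_mul_of_nonneg_right he hm
      _ = d ^ T * (e' * (4 * D.m / D.k f)) := by ring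
      _ ≤ _ := mul_le_mul_of_nonneg_left hcon'.le hdT.le
  have h1 := sum_phi_ge hD hY hκ hδ hε hd hd1 T hT hεT f u v hu hv hg hfull A'
    (Finset.filter_subset _ _) hr
  have hne : A'.Nonempty := by
    rw [← Finset.card_pos]
    have h2 : (0 : ℝ) < A'.card := lt_of_le_of_lt (mul_nonneg he0.le hm) hcon'
    exact_mod_cast h2
  have h2 : ∑ a ∈ A', phi Y T f (u, v) a < ∑ _a ∈ A', d ^ T * (p / (8 * (D.k f : ℝ) ^ 2)) :=
    Finset.sum_lt_sum_of_nonempty hne fun a ha => (Finset.mem_filter.1 ha).2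
  rw [Finset.sum_const, nsmul_eq_mul] at h2
  have h3 : (p / (8 * (D.k f : ℝ) ^ 2)) * d ^ T * A'.card =
      A'.card * (d ^ T * (p / (8 * (D.k f : ℝ) ^ 2))) := by ring
  rw [h3] at h1
  exact absurd (lt_of_le_of_lt h1 h2) (lt_irrefl _)

end Pool.Agent.Lib.H93A
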