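import Pool.Agent.Lib.H93A.O4A

/-!
# H93A, O4B: openness lemma: one x

See `PROOF.md`.
-/

set_option autoImplicit false

open Finset
open scoped Classical

namespace Pool.Agent.Lib.H93A

variable {Q R M : Type} [Fintype Q] [Fintype R] [Fintype M] {D : Core Q R M} {Ω : Type} [Fintype Ω]

/-- if `φ(a_x)` is not small then `x` is open with probability at least `ρ p/k²`, `ρ = d^T/16` -/
theorem pr_open_ge {kmax j0 : ℕ} {K c1 θ1 ε d p κ κ' δ : ℝ}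
    (hD : CoreHyp D kmax j0 K c1 θ1 ε d) {Y : Sys D Ω} (hY : SysHyp Y p κ' δ)
    (hκ : κ' ≤ κ) (hκ0 : 0 ≤ κ) (hd : 0 < d) (T : ℕ)
    (hN : 256 * K * κ * kmax ≤ d ^ T * Real.sqrt D.N)
    (x : Q × R) (hx : x ∈ D.X) (i : Fin D.b)
    (hphi : d ^ T * (p / (8 * (D.k (D.pos x i) : ℝ) ^ 2)) ≤
      phi Y T (D.pos x i) (D.cell (D.pos x i) x) x.1) :
    (d ^ T / 16) * (p / (D.k (D.pos x i) : ℝ) ^ 2) ≤
      pr Y.μ (fun ω => Open D T (Y.P ω) (Y.C ω) (Y.S ω) x (D.pos x i)) := by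
  have hp := hY.p_pos
  have hκ' := hY.κ_nonneg
  have hK := hD.hK
  have ht := pr_touch_le hD hY x hx i
  set f := D.pos x i with hf
  have hk1 : (1 : ℝ) ≤ D.k f := by exact_mod_cast hD.k_pos f
  have hk0 : (0 : ℝ) < D.k f := by linarith
  have hN0 : (0 : ℝ) < D.N := by exact_mod_cast hD.N_pos
  have hpk : 0 < p / (D.k f : ℝ) ^ 2 := by positivity
  have h1 : phi Y T f (D.cell f x) x.1 ≤
      pr Y.μ (fun ω => Open D T (Y.P ω) (Y.C ω) (Y.S ω) x f) +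
      pr Y.μ (fun ω => (f ∈ Y.P ω ∧ Y.C ω f = D.cell f x) ∧
        ∃ y ∈ D.hist (Y.S ω) f, y.1 = x.1 ∨ y.2 = x.2) := by
    refine le_trans ?_ (pr_or_le hY.prob _ _)
    unfold phi
    refine pr_mono hY.prob fun ω hω => ?_
    obtain ⟨h2, h3, h4⟩ := hω
    by_cases h5 : ∃ y ∈ D.hist (Y.S ω) f, y.1 = x.1 ∨ y.2 = x.2
    · exact Or.inr ⟨h2, h5⟩
    · refine Or.inl ⟨h2, h3, fun y hy => ⟨h4 y hy, ?_, ?_⟩⟩
      · intro h6
        exact h5 ⟨y, hy, Or.inl h6.symm⟩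
      · intro h6
        exact h5 ⟨y, hy, Or.inr h6.symm⟩
  have hm : (D.m : ℝ) ≤ 2 * K * Real.sqrt D.N := by
    refine (sq_le_sq₀ (Nat.cast_nonneg _) (by positivity)).1 ?_
    calc (D.m : ℝ) ^ 2 ≤ 4 * K ^ 2 * D.N := hD.m_sq
      _ = (2 * K * Real.sqrt D.N) ^ 2 := by
          rw [mul_pow, mul_pow, Real.sq_sqrt hN0.le]
          ring
  have hsq : 0 < Real.sqrt D.N := Real.sqrt_pos.2 hN0
  have hsq2 : Real.sqrt D.N * Real.sqrt D.N = D.N := Real.mul_self_sqrt hN0.le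
  have hkk : (D.k f : ℝ) ≤ kmax := by exact_mod_cast hD.k_le f
  have h2 : 2 * (4 * D.m / D.k f) * (κ' * (D.k f : ℝ) ^ 2 / D.N) ≤ d ^ T / 16 := by
    have h3 : 2 * (4 * D.m / D.k f) * (κ' * (D.k f : ℝ) ^ 2 / D.N) =
        8 * D.m * κ' * D.k f / D.N := by
      field_simp
      ring
    rw [h3, div_le_iff₀ hN0]
    calc 8 * D.m * κ' * D.k f ≤ 8 * (2 * K * Real.sqrt D.N) * κ * kmax := by gcongr
      _ = (256 * K * κ * kmax) * (Real.sqrt D.N / 16) := by ring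
      _ ≤ (d ^ T * Real.sqrt D.N) * (Real.sqrt D.N / 16) :=
          mul_le_mul_of_nonneg_right hN (by positivity)
      _ = d ^ T / 16 * (Real.sqrt D.N * Real.sqrt D.N) := by ring
      _ = d ^ T / 16 * D.N := by rw [hsq2]
  have h3 : 2 * (4 * D.m / D.k f) * (p / (D.k f : ℝ) ^ 2) * (κ' * (D.k f : ℝ) ^ 2 / D.N) ≤
      (d ^ T / 16) * (p / (D.k f : ℝ) ^ 2) := by
    calc _ = (2 * (4 * D.m / D.k f) * (κ' * (D.k f : ℝ) ^ 2 / D.N)) * (p / (D.k f : ℝ) ^ 2) := by ring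
      _ ≤ _ := mul_le_mul_of_nonneg_right h2 hpk.le
  have h4 : d ^ T * (p / (8 * (D.k f : ℝ) ^ 2)) = 2 * ((d ^ T / 16) * (p / (D.k f : ℝ) ^ 2)) := by
    field_simp
    ring
  rw [h4] at hphi
  linarith

end Pool.Agent.Lib.H93A
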