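import Pool.Agent.Lib.H93A.O3C
import Pool.Agent.Lib.H93A.O1A

/-!
# H93A, O4C: openness lemma: count of exceptional x

See `PROOF.md`.
-/

set_option autoImplicit false

open Finset
open scoped Classical

namespace Pool.Agent.Lib.H93A

variable {Q R M : Type} [Fintype Q] [Fintype R] [Fintype M] {D : Core Q R M} {Ω : Type} [Fintype Ω]

/-- the number of `x ∈ X` such that for some `i` the cell is not full and `φ(a_x)` is small -/
theorem card_small_le {kmax j0 : ℕ} {K c1 θ1 ε d p κ κ' δ e' : ℝ}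
    (hD : CoreHyp D kmax j0 K c1 θ1 ε d) {Y : Sys D Ω} (hY : SysHyp Y p κ' δ)
    (hκ : κ' ≤ κ) (hδ : δ ≤ 1 / 2) (hε : 0 < ε) (hd : 0 < d) (hd1 : d ≤ 1) (T : ℕ) (hT : 1 ≤ T)
    (he : ε ≤ d ^ T * e') (he0 : 0 < e') (he1 : 512 * K ^ 2 * e' ≤ c1)
    (hεT : 8 * (T : ℝ) ^ 2 * ε * (64 * K ^ 2 * κ + 1) ^ T ≤ 1) :
    ((D.X.filter fun x => ∃ i, ¬ FullCell Y T p (D.pos x i) (D.cell (D.pos x i) x) ∧
        phi Y T (D.pos x i) (D.cell (D.pos x i) x) x.1 <
          d ^ T * (p / (8 * (D.k (D.pos x i) : ℝ) ^ 2))).card : ℝ) ≤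
      c1 * ((D.n : ℝ) * D.N) / 8 := by
  have hN0 : (0 : ℝ) < D.N := by exact_mod_cast hD.N_pos
  have hK := hD.hK
  set sm : M → ℕ × ℕ → Finset Q := fun f c => (D.clA f c.1).filter fun a =>
    phi Y T f c a < d ^ T * (p / (8 * (D.k f : ℝ) ^ 2)) with hsm
  set cs : M → Finset (ℕ × ℕ) := fun f => (range (D.k f) ×ˢ range (D.k f)).filter fun c =>
    D.Good ε d f c.1 c.2 ∧ ¬ FullCell Y T p f c with hcs
  have h1 : (D.X.filter fun x => ∃ i, ¬ FullCell Y T p (D.pos x i) (D.cell (D.pos x i) x) ∧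
        phi Y T (D.pos x i) (D.cell (D.pos x i) x) x.1 <
          d ^ T * (p / (8 * (D.k (D.pos x i) : ℝ) ^ 2))) ⊆
      (univ : Finset M).biUnion fun f => (cs f).biUnion fun c => sm f c ×ˢ D.clB f c.2 := by
    intro x hx
    obtain ⟨hxX, i, h2, h3⟩ := Finset.mem_filter.1 hx
    have hxf : x ∈ D.Xf (D.pos x i) := Finset.mem_filter.2 ⟨hD.X_sub hxX, ⟨i, rfl⟩⟩
    refine Finset.mem_biUnion.2 ⟨D.pos x i, Finset.mem_univ _, Finset.mem_biUnion.2
      ⟨D.cell (D.pos x i) x, ?_, ?_⟩⟩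
    · refine Finset.mem_filter.2 ⟨Finset.mem_product.2 ⟨Finset.mem_range.2 (hD.iA_lt _ x hxf),
        Finset.mem_range.2 (hD.iB_lt _ x hxf)⟩, hD.good x hxX i, h2⟩
    · refine Finset.mem_product.2 ⟨Finset.mem_filter.2 ⟨Finset.mem_filter.2
        ⟨Finset.mem_image.2 ⟨x, hxf, rfl⟩, rfl⟩, h3⟩, Finset.mem_filter.2
        ⟨Finset.mem_image.2 ⟨x, hxf, rfl⟩, rfl⟩⟩
  have h2 := (Finset.card_le_card h1).trans (Finset.card_biUnion_le.trans
    (Finset.sum_le_sum fun f _ => Finset.card_biUnion_le))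
  have h3 : ((D.X.filter fun x => ∃ i, ¬ FullCell Y T p (D.pos x i) (D.cell (D.pos x i) x) ∧
        phi Y T (D.pos x i) (D.cell (D.pos x i) x) x.1 <
          d ^ T * (p / (8 * (D.k (D.pos x i) : ℝ) ^ 2))).card : ℝ) ≤
      ∑ f : M, ∑ c ∈ cs f, ((sm f c).card : ℝ) * ((D.clB f c.2).card : ℝ) := by
    have h4 : ((∑ f : M, ∑ c ∈ cs f, (sm f c ×ˢ D.clB f c.2).card : ℕ) : ℝ) =
        ∑ f : M, ∑ c ∈ cs f, ((sm f c).card : ℝ) * ((D.clB f c.2).card : ℝ) := by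
      push_cast
      refine Finset.sum_congr rfl fun f _ => Finset.sum_congr rfl fun c _ => ?_
      rw [Finset.card_product, Nat.cast_mul]
    rw [← h4]
    exact_mod_cast h2
  refine h3.trans ?_
  have h5 : ∀ f : M, ∑ c ∈ cs f, ((sm f c).card : ℝ) * ((D.clB f c.2).card : ℝ) ≤
      16 * e' * (D.m : ℝ) ^ 2 := by
    intro f
    have hk0 : (0 : ℝ) < D.k f := by exact_mod_cast hD.k_pos f
    have hμ : (0 : ℝ) ≤ 4 * D.m / D.k f := by positivity
    have h6 : ∀ c ∈ cs f, ((sm f c).card : ℝ) * ((D.clB f c.2).card : ℝ) ≤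
        (e' * (4 * D.m / D.k f)) * (4 * D.m / D.k f) := by
      intro c hc
      obtain ⟨hc1, hc2, hc3⟩ := Finset.mem_filter.1 hc
      obtain ⟨hc4, hc5⟩ := Finset.mem_product.1 hc1
      refine mul_le_mul ?_ (hD.clB_le f c.2) (Nat.cast_nonneg _) (mul_nonneg he0.le hμ)
      exact card_small_phi_le hD hY hκ hδ hε hd hd1 T hT he he0 hεT f c.1 c.2
        (Finset.mem_range.1 hc4) (Finset.mem_range.1 hc5) hc2 hc3
    refine (Finset.sum_le_sum h6).trans ?_
    rw [Finset.sum_const, nsmul_eq_mul]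
    have h7 : ((cs f).card : ℝ) ≤ (D.k f : ℝ) ^ 2 := by
      have h8 : (cs f).card ≤ D.k f * D.k f := by
        refine (Finset.card_filter_le _ _).trans ?_
        rw [Finset.card_product, Finset.card_range]
      calc ((cs f).card : ℝ) ≤ ((D.k f * D.k f : ℕ) : ℝ) := by exact_mod_cast h8
        _ = _ := by
            push_cast
            ring
    calc ((cs f).card : ℝ) * ((e' * (4 * D.m / D.k f)) * (4 * D.m / D.k f))
        ≤ (D.k f : ℝ) ^ 2 * ((e' * (4 * D.m / D.k f)) * (4 * D.m / D.k f)) :=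
          mul_le_mul_of_nonneg_right h7 (mul_nonneg (mul_nonneg he0.le hμ) hμ)
      _ = _ := by
          field_simp
          ring
  refine (Finset.sum_le_sum fun f _ => h5 f).trans ?_
  rw [Finset.sum_const, nsmul_eq_mul, Finset.card_univ]
  have hM : (Fintype.card M : ℝ) ≤ D.n := by exact_mod_cast hD.cardM
  have h6 : 16 * e' * (D.m : ℝ) ^ 2 ≤ c1 * D.N / 8 := by
    calc 16 * e' * (D.m : ℝ) ^ 2 ≤ 16 * e' * (4 * K ^ 2 * D.N) :=
          mul_le_mul_of_nonneg_left hD.m_sq (by positivity)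
      _ = (512 * K ^ 2 * e') * (D.N / 8) := by ring
      _ ≤ c1 * (D.N / 8) := mul_le_mul_of_nonneg_right he1 (by positivity)
      _ = _ := by ring
  calc (Fintype.card M : ℝ) * (16 * e' * (D.m : ℝ) ^ 2)
      ≤ D.n * (c1 * D.N / 8) := mul_le_mul hM h6 (by positivity) (Nat.cast_nonneg _)
    _ = _ := by ring

end Pool.Agent.Lib.H93A
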