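import Pool.Agent.Lib.H93A.O1D
import Pool.Agent.Lib.H93A.O4B
import Pool.Agent.Lib.H93A.O4C

/-!
# H93A, O4: the openness lemma (proved from the other chunks)

See `PROOF.md`.
-/

set_option autoImplicit false

open Finset
open scoped Classical

namespace Pool.Agent.Lib.H93A

variable {Q R M : Type} [Fintype Q] [Fintype R] [Fintype M] {D : Core Q R M} {Ω : Type} [Fintype Ω]

/-- THE OPENNESS LEMMA. `X*` = the elements of `X` in neither of the sets of `card_full_le`,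
`card_small_le`; `pr_open_ge`. -/
theorem openness {kmax j0 : ℕ} {K c1 θ1 ε d p κ κ' δ e' τ : ℝ}
    (hD : CoreHyp D kmax j0 K c1 θ1 ε d) {Y : Sys D Ω} (hY : SysHyp Y p κ' δ)
    (hκ : κ' ≤ κ) (hκ0 : 0 ≤ κ) (hδ : δ ≤ 1 / 2) (hε : 0 < ε) (hd : 0 < d) (hd1 : d ≤ 1)
    (T : ℕ) (hT : 1 ≤ T) (hτ : 0 ≤ τ)
    (hS : ex Y.μ (fun ω => ((Y.S ω).card : ℝ)) ≤ τ * p * D.n)
    (hT2 : 2048 * K ^ 2 * j0 * τ ≤ c1 * T)
    (he : ε ≤ d ^ T * e') (he0 : 0 < e') (he1 : 512 * K ^ 2 * e' ≤ c1)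
    (hεT : 8 * (T : ℝ) ^ 2 * ε * (64 * K ^ 2 * κ + 1) ^ T ≤ 1)
    (hN : 256 * K * κ * kmax ≤ d ^ T * Real.sqrt D.N) :
    ∃ X' ⊆ D.X, c1 / 2 * ((D.n : ℝ) * D.N) ≤ X'.card ∧ ∀ x ∈ X', ∀ i,
      (d ^ T / 16) * (p / (D.k (D.pos x i) : ℝ) ^ 2) ≤
        pr Y.μ (fun ω => Open D T (Y.P ω) (Y.C ω) (Y.S ω) x (D.pos x i)) := by
  have h1 := card_full_le hD hY T hT hτ hS hT2
  have h2 := card_small_le hD hY hκ hδ hε hd hd1 T hT he he0 he1 hεT
  have h3 := hD.cardX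
  refine ⟨D.X.filter fun x => ¬ ((∃ i, FullCell Y T p (D.pos x i) (D.cell (D.pos x i) x)) ∨
    (∃ i, ¬ FullCell Y T p (D.pos x i) (D.cell (D.pos x i) x) ∧
        phi Y T (D.pos x i) (D.cell (D.pos x i) x) x.1 <
          d ^ T * (p / (8 * (D.k (D.pos x i) : ℝ) ^ 2)))), filter_subset _ _, ?_, ?_⟩
  · have h4 : D.X.card = (D.X.filter fun x => ((∃ i, FullCell Y T p (D.pos x i) (D.cell (D.pos x i) x)) ∨
      (∃ i, ¬ FullCell Y T p (D.pos x i) (D.cell (D.pos x i) x) ∧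
        phi Y T (D.pos x i) (D.cell (D.pos x i) x) x.1 <
          d ^ T * (p / (8 * (D.k (D.pos x i) : ℝ) ^ 2))))).card +
        (D.X.filter fun x => ¬ ((∃ i, FullCell Y T p (D.pos x i) (D.cell (D.pos x i) x)) ∨
      (∃ i, ¬ FullCell Y T p (D.pos x i) (D.cell (D.pos x i) x) ∧
        phi Y T (D.pos x i) (D.cell (D.pos x i) x) x.1 <
          d ^ T * (p / (8 * (D.k (D.pos x i) : ℝ) ^ 2))))).card :=
      (card_filter_add_card_filter_not _).symm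
    have h5 := card_union_le
      (D.X.filter fun x => ∃ i, FullCell Y T p (D.pos x i) (D.cell (D.pos x i) x))
      (D.X.filter fun x => ∃ i, ¬ FullCell Y T p (D.pos x i) (D.cell (D.pos x i) x) ∧
        phi Y T (D.pos x i) (D.cell (D.pos x i) x) x.1 <
          d ^ T * (p / (8 * (D.k (D.pos x i) : ℝ) ^ 2)))
    rw [← filter_or] at h5
    have h4' := congrArg (Nat.cast : ℕ → ℝ) h4
    push_cast at h4'
    have h5' := (Nat.cast_le (α := ℝ)).2 h5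
    push_cast at h5'
    linarith
  · intro x hx i
    rw [mem_filter] at hx
    have hx1 := hx.1
    have hx2 := hx.2
    push Not at hx2
    exact pr_open_ge hD hY hκ hκ0 hd T hN x hx1 i (hx2.2 i (hx2.1 i))

end Pool.Agent.Lib.H93A
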