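import Pool.Agent.Lib.H93A.ODefs

/-!
# H93A, O4A: openness lemma: touching histories

See `PROOF.md`.
-/

set_option autoImplicit false

open Finset
open scoped Classical

namespace Pool.Agent.Lib.H93A

variable {Q R M : Type} [Fintype Q] [Fintype R] [Fintype M] {D : Core Q R M} {Ω : Type} [Fintype Ω]

/-- `P(f ∈ P, C f = cell, some y in the history with a_y = a or b_y = b) ≤ 2 μ (p/k²)(κ k²/N)`,
`μ = 4m/k`: union bound over the `y` in the cell with `a_y = a` (at most `|clB| ≤ μ`) or `b_y = b`, `s4`. -/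
theorem pr_touch_le {kmax j0 : ℕ} {K c1 θ1 ε d p κ δ : ℝ}
    (hD : CoreHyp D kmax j0 K c1 θ1 ε d) {Y : Sys D Ω} (hY : SysHyp Y p κ δ)
    (x : Q × R) (hx : x ∈ D.X) (i : Fin D.b) :
    pr Y.μ (fun ω => (D.pos x i ∈ Y.P ω ∧ Y.C ω (D.pos x i) = D.cell (D.pos x i) x) ∧
        ∃ y ∈ D.hist (Y.S ω) (D.pos x i), y.1 = x.1 ∨ y.2 = x.2) ≤
      2 * (4 * D.m / D.k (D.pos x i)) * (p / (D.k (D.pos x i) : ℝ) ^ 2) *
        (κ * (D.k (D.pos x i) : ℝ) ^ 2 / D.N) := by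
  have hp := hY.p_pos
  have hκ := hY.κ_nonneg
  set f := D.pos x i with hf
  set c := D.cell f x with hc
  set W := D.X.filter fun y => D.inV f y ∧ D.cell f y = c ∧ (y.1 = x.1 ∨ y.2 = x.2) with hW
  have hWc : (W.card : ℝ) ≤ 2 * (4 * D.m / D.k f) := by
    have h1 : W ⊆ ((D.clB f c.2).image fun b => (x.1, b)) ∪ ((D.clA f c.1).image fun a => (a, x.2)) := by
      intro y hy
      obtain ⟨hy1, hy2, hy3, hy4⟩ := Finset.mem_filter.1 hy
      have hyX : y ∈ D.Xf f := Finset.mem_filter.2 ⟨hD.X_sub hy1, hy2⟩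
      rcases hy4 with h | h
      · refine Finset.mem_union_left _ (Finset.mem_image.2 ⟨y.2, Finset.mem_filter.2
          ⟨Finset.mem_image.2 ⟨y, hyX, rfl⟩, ?_⟩, ?_⟩)
        · rw [← hy3]
          rfl
        · rw [← h]
      · refine Finset.mem_union_right _ (Finset.mem_image.2 ⟨y.1, Finset.mem_filter.2
          ⟨Finset.mem_image.2 ⟨y, hyX, rfl⟩, ?_⟩, ?_⟩)
        · rw [← hy3]
          rfl
        · rw [← h]
    have h2 := (Finset.card_le_card h1).trans ((Finset.card_union_le _ _).trans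
      (add_le_add Finset.card_image_le Finset.card_image_le))
    have h3 : (W.card : ℝ) ≤ (D.clB f c.2).card + (D.clA f c.1).card := by exact_mod_cast h2
    have h4 := hD.clA_le f c.1
    have h5 := hD.clB_le f c.2
    linarith
  have h1 : pr Y.μ (fun ω => (f ∈ Y.P ω ∧ Y.C ω f = c) ∧
        ∃ y ∈ D.hist (Y.S ω) f, y.1 = x.1 ∨ y.2 = x.2) ≤
      pr Y.μ (fun ω => ∃ y ∈ W, (f ∈ Y.P ω ∧ Y.C ω f = c) ∧ ({y} : Finset (Q × R)) ⊆ Y.S ω) := by
    refine pr_mono hY.prob fun ω hω => ?_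
    obtain ⟨h2, y, hy, hy2⟩ := hω
    have hyc := hist_sub_cellSet hD hY ω f c h2.2 hy
    obtain ⟨hyS, hyV⟩ := Finset.mem_filter.1 hy
    refine ⟨y, Finset.mem_filter.2 ⟨hY.S_sub ω hyS, hyV, (Finset.mem_filter.1 hyc).2, hy2⟩, h2, ?_⟩
    rw [Finset.singleton_subset_iff]
    exact hyS
  refine h1.trans ((pr_exists_le hY.prob _ _).trans ?_)
  have h2 : ∀ y ∈ W, pr Y.μ (fun ω => (f ∈ Y.P ω ∧ Y.C ω f = c) ∧
      ({y} : Finset (Q × R)) ⊆ Y.S ω) ≤ (p / (D.k f : ℝ) ^ 2) * (κ * (D.k f : ℝ) ^ 2 / D.N) := by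
    intro y hy
    obtain ⟨hy1, hy2, hy3, hy4⟩ := Finset.mem_filter.1 hy
    have h3 := hY.s4 f c {y} (Finset.singleton_subset_iff.2 hy1) (fun z hz => by
      rw [Finset.mem_singleton.1 hz]
      exact hy2)
    rw [Finset.card_singleton, pow_one] at h3
    exact h3
  refine (Finset.sum_le_sum h2).trans ?_
  rw [Finset.sum_const, nsmul_eq_mul, mul_assoc (2 * (4 * (D.m : ℝ) / D.k f))]
  exact mul_le_mul_of_nonneg_right hWc (by positivity)

end Pool.Agent.Lib.H93A
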