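import Pool.Agent.Lib.H93A.Defs

/-!
# H93A, P1: elementary facts on finite probability spaces

All are one or two lines: unfold `pr`/`ex`, `Finset.sum_le_sum`, `Finset.sum_comm`,
`Finset.sum_ite`, ...
-/

set_option autoImplicit false

open Finset
open scoped Classical

namespace Pool.Agent.Lib.H93A

variable {Ω : Type} [Fintype Ω] {μ : Ω → ℝ}

theorem pr_nonneg (h : IsProb μ) (A : Ω → Prop) : 0 ≤ pr μ A := by
  refine Finset.sum_nonneg fun ω _ => ?_
  split_ifs
  · exact h.nonneg ω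
  · exact le_rfl

theorem pr_le_one (h : IsProb μ) (A : Ω → Prop) : pr μ A ≤ 1 := by
  rw [← h.sum_one]
  refine Finset.sum_le_sum fun ω _ => ?_
  split_ifs
  · exact le_rfl
  · exact h.nonneg ω

theorem pr_mono (h : IsProb μ) {A B : Ω → Prop} (hAB : ∀ ω, A ω → B ω) : pr μ A ≤ pr μ B := by
  refine Finset.sum_le_sum fun ω _ => ?_
  by_cases h1 : A ω
  · rw [if_pos h1, if_pos (hAB ω h1)]
  · rw [if_neg h1]
    split_ifs
    · exact h.nonneg ω
    · exact le_rfl

theorem pr_true (h : IsProb μ) : pr μ (fun _ => True) = 1 := by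
  rw [← h.sum_one]
  exact Finset.sum_congr rfl fun ω _ => if_pos trivial

theorem pr_false : pr μ (fun _ => False) = 0 := by
  exact Finset.sum_eq_zero fun ω _ => if_neg not_false

theorem pr_or_le (h : IsProb μ) (A B : Ω → Prop) :
    pr μ (fun ω => A ω ∨ B ω) ≤ pr μ A + pr μ B := by
  unfold pr
  rw [← Finset.sum_add_distrib]
  refine Finset.sum_le_sum fun ω _ => ?_
  have := h.nonneg ω
  by_cases h1 : A ω
  · by_cases h2 : B ω
    · rw [if_pos (Or.inl h1), if_pos h1, if_pos h2]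
      linarith
    · rw [if_pos (Or.inl h1), if_pos h1, if_neg h2]
      linarith
  · by_cases h2 : B ω
    · rw [if_pos (Or.inr h2), if_neg h1, if_pos h2]
      linarith
    · rw [if_neg (fun h3 => h3.elim h1 h2), if_neg h1, if_neg h2]
      linarith

/-- `P(A and not B) ≥ P(A) - P(A and B)`; in fact equality. -/
theorem pr_and_not (A B : Ω → Prop) :
    pr μ (fun ω => A ω ∧ ¬ B ω) = pr μ A - pr μ (fun ω => A ω ∧ B ω) := by
  unfold pr
  rw [← Finset.sum_sub_distrib]
  refine Finset.sum_congr rfl fun ω _ => ?_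
  by_cases h1 : A ω
  · by_cases h2 : B ω
    · rw [if_neg (fun h3 => h3.2 h2), if_pos h1, if_pos ⟨h1, h2⟩]
      ring
    · rw [if_pos ⟨h1, h2⟩, if_pos h1, if_neg (fun h3 => h2 h3.2)]
      ring
  · rw [if_neg (fun h3 => h1 h3.1), if_neg h1, if_neg (fun h3 => h1 h3.1)]
    ring

/-- union bound -/
theorem pr_exists_le (h : IsProb μ) {ι : Type} (s : Finset ι) (A : ι → Ω → Prop) :
    pr μ (fun ω => ∃ i ∈ s, A i ω) ≤ ∑ i ∈ s, pr μ (A i) := by
  unfold pr
  rw [Finset.sum_comm]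
  refine Finset.sum_le_sum fun ω _ => ?_
  have h0 := h.nonneg ω
  by_cases h1 : ∃ i ∈ s, A i ω
  · rw [if_pos h1]
    obtain ⟨i, hi, hA⟩ := h1
    have h2 := Finset.single_le_sum (f := fun i => if A i ω then μ ω else 0) (s := s)
      (fun j _ => by
        show 0 ≤ (if A j ω then μ ω else 0)
        split_ifs
        · exact h0
        · exact le_rfl) hi
    rw [if_pos hA] at h2
    exact h2
  · rw [if_neg h1]
    refine Finset.sum_nonneg fun i _ => ?_
    split_ifs
    · exact h0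
    · exact le_rfl

/-- disjoint union -/
theorem pr_sum_disjoint {ι : Type} (s : Finset ι) (A : ι → Ω → Prop)
    (hd : ∀ ω, ∀ i ∈ s, ∀ j ∈ s, A i ω → A j ω → i = j) :
    pr μ (fun ω => ∃ i ∈ s, A i ω) = ∑ i ∈ s, pr μ (A i) := by
  unfold pr
  rw [Finset.sum_comm]
  refine Finset.sum_congr rfl fun ω _ => ?_
  by_cases h1 : ∃ i ∈ s, A i ω
  · rw [if_pos h1]
    obtain ⟨i, hi, hA⟩ := h1
    rw [Finset.sum_eq_single_of_mem i hi, if_pos hA]
    intro j hj hji
    exact if_neg fun h2 => hji (hd ω j hj i hi h2 hA)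
  · rw [if_neg h1]
    refine (Finset.sum_eq_zero fun i hi => ?_).symm
    exact if_neg fun h2 => h1 ⟨i, hi, h2⟩

/-- expectation of a cardinality -/
theorem ex_card {α : Type} [Fintype α] (F : Ω → Finset α) :
    ex μ (fun ω => ((F ω).card : ℝ)) = ∑ x, pr μ (fun ω => x ∈ F ω) := by
  unfold ex pr
  rw [Finset.sum_comm]
  refine Finset.sum_congr rfl fun ω _ => ?_
  have h1 : μ ω * ((F ω).card : ℝ) = ∑ x, if x ∈ F ω then μ ω else 0 := by
    rw [← Finset.sum_filter, Finset.sum_const, nsmul_eq_mul, mul_comm, Finset.filter_univ_mem]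
  refine h1.trans (Finset.sum_congr rfl fun x _ => ?_)
  by_cases hx : x ∈ F ω
  · rw [if_pos hx]
    exact (if_pos hx).symm
  · rw [if_neg hx]
    exact (if_neg hx).symm

theorem ex_card_filter {α : Type} (U : Finset α) (A : α → Ω → Prop) :
    ex μ (fun ω => ((U.filter fun x => A x ω).card : ℝ)) = ∑ x ∈ U, pr μ (A x) := by
  unfold ex pr
  rw [Finset.sum_comm]
  refine Finset.sum_congr rfl fun ω _ => ?_
  rw [← Finset.sum_filter, Finset.sum_const, nsmul_eq_mul, mul_comm]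

theorem ex_mono (h : IsProb μ) {F G : Ω → ℝ} (hFG : ∀ ω, F ω ≤ G ω) : ex μ F ≤ ex μ G := by
  refine Finset.sum_le_sum fun ω _ => ?_
  exact mul_le_mul_of_nonneg_left (hFG ω) (h.nonneg ω)

theorem ex_add (F G : Ω → ℝ) : ex μ (fun ω => F ω + G ω) = ex μ F + ex μ G := by
  unfold ex
  rw [← Finset.sum_add_distrib]
  exact Finset.sum_congr rfl fun ω _ => mul_add _ _ _

theorem ex_const_mul (c : ℝ) (F : Ω → ℝ) : ex μ (fun ω => c * F ω) = c * ex μ F := by
  unfold ex
  rw [Finset.mul_sum]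
  exact Finset.sum_congr rfl fun ω _ => by ring

theorem ex_sum {ι : Type} (s : Finset ι) (F : ι → Ω → ℝ) :
    ex μ (fun ω => ∑ i ∈ s, F i ω) = ∑ i ∈ s, ex μ (F i) := by
  unfold ex
  rw [Finset.sum_comm]
  exact Finset.sum_congr rfl fun ω _ => Finset.mul_sum _ _ _

/-- Markov -/
theorem pr_markov (h : IsProb μ) (F : Ω → ℝ) (hF : ∀ ω, 0 ≤ F ω) (t : ℝ) (ht : 0 < t) :
    pr μ (fun ω => t ≤ F ω) ≤ ex μ F / t := by
  rw [le_div_iff₀ ht]
  unfold pr ex
  rw [Finset.sum_mul]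
  refine Finset.sum_le_sum fun ω _ => ?_
  have h0 := h.nonneg ω
  by_cases h1 : t ≤ F ω
  · rw [if_pos h1]
    exact mul_le_mul_of_nonneg_left h1 h0
  · rw [if_neg h1, zero_mul]
    exact mul_nonneg h0 (hF ω)

/-- if `E F > E G` then `F ω > G ω` for some `ω` -/
theorem exists_lt_of_ex_lt (h : IsProb μ) (F G : Ω → ℝ) (hFG : ex μ G < ex μ F) :
    ∃ ω, G ω < F ω := by
  by_contra hcon
  push Not at hcon
  exact absurd (ex_mono h hcon) (not_le.mpr hFG)

end Pool.Agent.Lib.H93A
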