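import Pool.Agent.Lib.H93A.P1

/-!
# H93A, P2A: the product measure: probabilities

See `PROOF.md`.
-/

set_option autoImplicit false

open Finset
open scoped Classical

namespace Pool.Agent.Lib.H93A

variable {Ω X : Type} [Fintype Ω] [Fintype X] [DecidableEq X] {μ : Ω → ℝ} {w : X → ℝ}

theorem p2a_sum (b : ℕ) (F : Fin b → Ω → ℝ) (G : X → Bool → ℝ) :
    ∑ z : (Fin b → Ω) × (X → Bool), (∏ j, F j (z.1 j)) * ∏ x, G x (z.2 x) =
      (∏ j, ∑ ω, F j ω) * ∏ x, (G x true + G x false) := by
  rw [Fintype.sum_prod_type]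
  have h1 : ∏ j, ∑ ω, F j ω = ∑ u : Fin b → Ω, ∏ j, F j (u j) := by
    rw [Finset.prod_univ_sum, Fintype.piFinset_univ]
  have h2 : ∏ x, (G x true + G x false) = ∑ v : X → Bool, ∏ x, G x (v x) := by
    have h3 : ∀ x, G x true + G x false = ∑ c : Bool, G x c := fun x => (Fintype.sum_bool _).symm
    simp only [h3]
    rw [Finset.prod_univ_sum, Fintype.piFinset_univ]
  rw [h1, h2, Finset.sum_mul_sum]

theorem p2a_key (b : ℕ) (h : IsProb μ) (A : Fin b → Ω → Prop) (T : Finset X) :
    pr (stepMeasure b μ w) (fun z => (∀ j, A j (z.1 j)) ∧ ∀ u ∈ T, z.2 u = true) =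
      (∏ j, pr μ (A j)) * ∏ u ∈ T, w u := by
  have h1 := p2a_sum b (fun j ω => if A j ω then μ ω else 0)
    (fun u c => if (u ∈ T → c = true) then (if c = true then w u else 1 - w u) else 0)
  have h2 : ∏ u : X, ((if (u ∈ T → true = true) then (if true = true then w u else 1 - w u) else 0) +
      (if (u ∈ T → false = true) then (if false = true then w u else 1 - w u) else 0)) = ∏ u ∈ T, w u := by
    rw [← Finset.prod_subset (Finset.subset_univ T)]
    · refine Finset.prod_congr rfl fun u hu => ?_
      have a1 : (u ∈ T → true = true) := fun _ => rfl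
      have a2 : ¬ (u ∈ T → false = true) := fun h => Bool.false_ne_true (h hu)
      rw [if_pos a1, if_neg a2, if_pos rfl, add_zero]
    · intro u _ hu
      have a1 : (u ∈ T → true = true) := fun _ => rfl
      have a2 : (u ∈ T → false = true) := fun h => absurd h hu
      rw [if_pos a1, if_pos a2, if_pos rfl, if_neg Bool.false_ne_true]
      ring
  rw [h2] at h1
  unfold pr
  rw [← h1]
  refine Finset.sum_congr rfl fun z _ => ?_
  by_cases hz : (∀ j, A j (z.1 j)) ∧ ∀ u ∈ T, z.2 u = true
  · rw [if_pos hz]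
    unfold stepMeasure
    congr 1
    · refine Finset.prod_congr rfl fun j _ => ?_
      rw [if_pos (hz.1 j)]
    · refine Finset.prod_congr rfl fun u _ => ?_
      rw [if_pos (fun hu => hz.2 u hu)]
  · rw [if_neg hz]
    rw [not_and_or] at hz
    rcases hz with hz | hz
    · push Not at hz
      obtain ⟨j, hj⟩ := hz
      rw [Finset.prod_eq_zero (Finset.mem_univ j), zero_mul]
      rw [if_neg hj]
    · push Not at hz
      obtain ⟨u, hu, hu2⟩ := hz
      rw [Finset.prod_eq_zero (f := fun x => if (x ∈ T → z.2 x = true) then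
        (if z.2 x = true then w x else 1 - w x) else 0) (Finset.mem_univ u), mul_zero]
      rw [if_neg (fun h => hu2 (h hu))]

theorem stepMeasure_isProb (b : ℕ) (h : IsProb μ) (hw0 : ∀ x, 0 ≤ w x) (hw1 : ∀ x, w x ≤ 1) :
    IsProb (stepMeasure b μ w) := by
  constructor
  · intro z
    unfold stepMeasure
    refine mul_nonneg (Finset.prod_nonneg fun j _ => h.nonneg _) (Finset.prod_nonneg fun x _ => ?_)
    by_cases hx : z.2 x = true
    · rw [if_pos hx]
      exact hw0 x
    · rw [if_neg hx]
      linarith [hw1 x]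
  · have h1 := p2a_sum b (fun (_ : Fin b) ω => μ ω) (fun (x : X) c => if c = true then w x else 1 - w x)
    unfold stepMeasure
    rw [h1, h.sum_one, Finset.prod_const_one, one_mul]
    refine Finset.prod_eq_one fun x _ => ?_
    rw [if_pos rfl, if_neg Bool.false_ne_true]
    ring

/-- events on the copies only -/
theorem pr_step_zero (b : ℕ) (h : IsProb μ) (A : Fin b → Ω → Prop) :
    pr (stepMeasure b μ w) (fun z => ∀ j, A j (z.1 j)) = ∏ j, pr μ (A j) := by
  have h1 := p2a_key (w := w) b h A (∅ : Finset X)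
  rw [Finset.prod_empty, mul_one] at h1
  rw [← h1]
  congr 1
  funext z
  apply propext
  constructor
  · intro h2
    exact ⟨h2, fun u hu => absurd hu (Finset.notMem_empty u)⟩
  · intro h2
    exact h2.1

/-- events on the copies and one Bernoulli variable -/
theorem pr_step_one (b : ℕ) (h : IsProb μ) (A : Fin b → Ω → Prop) (x : X) :
    pr (stepMeasure b μ w) (fun z => (∀ j, A j (z.1 j)) ∧ z.2 x = true) =
      (∏ j, pr μ (A j)) * w x := by
  have h1 := p2a_key (w := w) b h A ({x} : Finset X)
  rw [Finset.prod_singleton] at h1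
  rw [← h1]
  congr 1
  funext z
  apply propext
  constructor
  · intro h2
    refine ⟨h2.1, fun u hu => ?_⟩
    rw [Finset.mem_singleton.mp hu]
    exact h2.2
  · intro h2
    exact ⟨h2.1, h2.2 x (Finset.mem_singleton_self x)⟩

/-- events on the copies and two Bernoulli variables -/
theorem pr_step_two (b : ℕ) (h : IsProb μ) (A : Fin b → Ω → Prop) (x y : X) (hxy : x ≠ y) :
    pr (stepMeasure b μ w) (fun z => (∀ j, A j (z.1 j)) ∧ z.2 x = true ∧ z.2 y = true) =
      (∏ j, pr μ (A j)) * (w x * w y) := by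
  have h1 := p2a_key (w := w) b h A ({x, y} : Finset X)
  rw [Finset.prod_pair hxy] at h1
  rw [← h1]
  congr 1
  funext z
  apply propext
  constructor
  · intro h2
    refine ⟨h2.1, fun u hu => ?_⟩
    rcases Finset.mem_insert.mp hu with hu | hu
    · rw [hu]
      exact h2.2.1
    · rw [Finset.mem_singleton.mp hu]
      exact h2.2.2
  · intro h2
    exact ⟨h2.1, h2.2 x (Finset.mem_insert_self x _),
      h2.2 y (Finset.mem_insert_of_mem (Finset.mem_singleton_self y))⟩

end Pool.Agent.Lib.H93A
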