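import Pool.Agent.Lib.H93A.P2A

/-!
# H93A, P2B: the product measure: single copies

See `PROOF.md`.
-/

set_option autoImplicit false

open Finset
open scoped Classical

namespace Pool.Agent.Lib.H93A

variable {Ω X : Type} [Fintype Ω] [Fintype X] [DecidableEq X] {μ : Ω → ℝ} {w : X → ℝ}

/-- an event on one copy -/
theorem pr_step_copy (b : ℕ) (h : IsProb μ) (j : Fin b) (A : Ω → Prop) :
    pr (stepMeasure b μ w) (fun z => A (z.1 j)) = pr μ A := by
  have h1 := pr_step_zero (w := w) b h (fun (i : Fin b) (ω : Ω) => i = j → A ω)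
  have h2 : (fun z : (Fin b → Ω) × (X → Bool) => A (z.1 j)) =
      (fun z => ∀ i : Fin b, (fun (i : Fin b) (ω : Ω) => i = j → A ω) i (z.1 i)) := by
    funext z
    refine propext ⟨fun hA i hi => ?_, fun hA => hA j rfl⟩
    rw [hi]
    exact hA
  rw [h2, h1, Finset.prod_eq_single j]
  · congr 1
    funext ω
    exact propext ⟨fun hA => hA rfl, fun hA _ => hA⟩
  · intro i _ hij
    have h3 : (fun ω : Ω => i = j → A ω) = fun _ => True := by
      funext ω
      exact propext ⟨fun _ => trivial, fun _ h4 => absurd h4 hij⟩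
    rw [h3]
    exact pr_true h
  · intro hj
    exact absurd (Finset.mem_univ j) hj

/-- events on two different copies -/
theorem pr_step_copy_two (b : ℕ) (h : IsProb μ) (i j : Fin b) (hij : i ≠ j) (A B : Ω → Prop) :
    pr (stepMeasure b μ w) (fun z => A (z.1 i) ∧ B (z.1 j)) = pr μ A * pr μ B := by
  have h1 := pr_step_zero (w := w) b h
    (fun (l : Fin b) (ω : Ω) => (l = i → A ω) ∧ (l = j → B ω))
  have h2 : (fun z : (Fin b → Ω) × (X → Bool) => A (z.1 i) ∧ B (z.1 j)) =
      (fun z => ∀ l : Fin b, (fun (l : Fin b) (ω : Ω) => (l = i → A ω) ∧ (l = j → B ω)) l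
        (z.1 l)) := by
    funext z
    refine propext ⟨fun hA l => ⟨fun hl => ?_, fun hl => ?_⟩, fun hA => ⟨(hA i).1 rfl, (hA j).2 rfl⟩⟩
    · rw [hl]
      exact hA.1
    · rw [hl]
      exact hA.2
  rw [h2, h1, Finset.prod_eq_mul i j hij]
  · congr 1
    · congr 1
      funext ω
      exact propext ⟨fun hA => hA.1 rfl, fun hA => ⟨fun _ => hA, fun h4 => absurd h4 hij⟩⟩
    · congr 1
      funext ω
      exact propext ⟨fun hA => hA.2 rfl, fun hA => ⟨fun h4 => absurd h4.symm hij, fun _ => hA⟩⟩
  · rintro l - ⟨h5, h6⟩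
    have h3 : (fun ω : Ω => (l = i → A ω) ∧ (l = j → B ω)) = fun _ => True := by
      funext ω
      exact propext ⟨fun _ => trivial, fun _ => ⟨fun h4 => absurd h4 h5, fun h4 => absurd h4 h6⟩⟩
    rw [h3]
    exact pr_true h
  · intro hj
    exact absurd (Finset.mem_univ i) hj
  · intro hj
    exact absurd (Finset.mem_univ j) hj

/-- expectation of a function of one copy -/
theorem ex_step_copy (b : ℕ) (h : IsProb μ) (j : Fin b) (F : Ω → ℝ) :
    ex (stepMeasure b μ w) (fun z => F (z.1 j)) = ex μ F := by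
  have h1 : ∀ ω0 : Ω, pr (stepMeasure b μ w) (fun z => z.1 j = ω0) = μ ω0 := by
    intro ω0
    rw [pr_step_copy b h j (fun ω => ω = ω0)]
    unfold pr
    rw [Finset.sum_eq_single ω0]
    · exact if_pos rfl
    · intro ω _ hne
      exact if_neg hne
    · intro hj
      exact absurd (Finset.mem_univ ω0) hj
  calc ex (stepMeasure b μ w) (fun z => F (z.1 j)) =
      ∑ z, ∑ ω0, (if z.1 j = ω0 then stepMeasure b μ w z else 0) * F ω0 := by
        unfold ex
        refine Finset.sum_congr rfl fun z _ => ?_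
        rw [Finset.sum_eq_single (z.1 j)]
        · rw [if_pos rfl]
        · intro ω0 _ hne
          rw [if_neg (fun h4 => hne h4.symm), zero_mul]
        · intro hj
          exact absurd (Finset.mem_univ _) hj
    _ = ∑ ω0, pr (stepMeasure b μ w) (fun z => z.1 j = ω0) * F ω0 := by
        rw [Finset.sum_comm]
        refine Finset.sum_congr rfl fun ω0 _ => ?_
        unfold pr
        rw [Finset.sum_mul]
    _ = ex μ F := by
        unfold ex
        exact Finset.sum_congr rfl fun ω0 _ => by rw [h1]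

end Pool.Agent.Lib.H93A
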