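import Mathlib

/-!
# H93A, R0: Lemma R (cells), from Szemerédi's regularity lemma

`PROOF.md`, 1.2. (Pure Mathlib.)
-/

set_option autoImplicit false

open Finset
open scoped Classical

namespace Pool.Agent.Lib.H93A

theorem r0_flt {α : Type} (p q : α → Prop) (d1 : DecidablePred p) (d2 : DecidablePred q)
    (F : Finset α) (h : ∀ x ∈ F, p x → q x) :
    (@Finset.filter α p d1 F).card ≤ (@Finset.filter α q d2 F).card := by
  apply card_le_card
  intro x hx
  rw [mem_filter] at hx ⊢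
  exact ⟨hx.1, h x hx.1 hx.2⟩

theorem r0_flt0 {α : Type} (p : α → Prop) (d1 : DecidablePred p) (F : Finset α) :
    (@Finset.filter α p d1 F).card ≤ F.card := card_filter_le _ _

theorem r0_reg (ε₁ : ℝ) (hε : 0 < ε₁) (l : ℕ) (hl : 1 ≤ l) (α : Type) [Fintype α]
    (G : SimpleGraph α) (hα : l ≤ Fintype.card α) :
    ∃ (k : ℕ) (idx : α → ℕ), l ≤ k ∧ k ≤ SzemerediRegularity.bound ε₁ l ∧ k ≤ Fintype.card α ∧
      (∀ x, idx x < k) ∧
      (∀ u, (((univ.filter fun x => idx x = u).card : ℕ) : ℝ) ≤ (Fintype.card α : ℝ) / k + 1) ∧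
      ((((range k ×ˢ range k).filter fun w => w.1 ≠ w.2 ∧
        ¬ G.IsUniform ε₁ (univ.filter fun x => idx x = w.1) (univ.filter fun x => idx x = w.2)).card : ℕ) : ℝ) ≤
        (k : ℝ) ^ 2 * ε₁ := by
  obtain ⟨P, hP, hPl, hPb, hPu⟩ := szemeredi_regularity G hε hα
  set e := P.parts.equivFin with he
  set idx : α → ℕ := fun x => (e ⟨P.part x, P.part_mem.2 (mem_univ x)⟩ : ℕ) with hidx
  have hlt : ∀ x, idx x < P.parts.card := fun x => (e _).2
  have hV : ∀ u (hu : u < P.parts.card), (univ.filter fun x => idx x = u) = (e.symm ⟨u, hu⟩).1 := by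
    intro u hu
    ext x
    rw [mem_filter]
    have h1 : x ∈ (e.symm ⟨u, hu⟩).1 ↔ P.part x = (e.symm ⟨u, hu⟩).1 :=
      (P.part_eq_iff_mem (e.symm ⟨u, hu⟩).2).symm
    rw [h1]
    constructor
    · rintro ⟨-, h2⟩
      have h3 : e ⟨P.part x, P.part_mem.2 (mem_univ x)⟩ = ⟨u, hu⟩ := Fin.ext h2
      have h4 := congrArg (fun z => (e.symm z).1) h3
      simpa using h4
    · intro h2
      refine ⟨mem_univ _, ?_⟩
      have h3 : (⟨P.part x, P.part_mem.2 (mem_univ x)⟩ : {t // t ∈ P.parts}) = e.symm ⟨u, hu⟩ :=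
        Subtype.ext h2
      rw [hidx]
      show ((e ⟨P.part x, P.part_mem.2 (mem_univ x)⟩ : Fin _) : ℕ) = u
      rw [h3, Equiv.apply_symm_apply]
  have hkpos : 0 < P.parts.card := lt_of_lt_of_le (by omega) hPl
  refine ⟨P.parts.card, idx, hPl, hPb, ?_, hlt, ?_, ?_⟩
  · have h1 := P.card_parts_le_card
    rwa [card_univ] at h1
  · intro u
    by_cases hu : u < P.parts.card
    · rw [hV u hu]
      have h1 := hP.card_part_le_average_add_one (e.symm ⟨u, hu⟩).2
      rw [card_univ] at h1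
      have h2 : (((e.symm ⟨u, hu⟩).1.card : ℕ) : ℝ) ≤ ((Fintype.card α / P.parts.card : ℕ) : ℝ) + 1 := by
        exact_mod_cast h1
      refine h2.trans ?_
      have h3 : ((Fintype.card α / P.parts.card : ℕ) : ℝ) ≤ (Fintype.card α : ℝ) / (P.parts.card : ℝ) :=
        Nat.cast_div_le
      linarith
    · have h1 : (univ.filter fun x => idx x = u) = ∅ := by
        rw [filter_eq_empty_iff]
        intro x _ hx
        exact hu (hx ▸ hlt x)
      rw [h1, card_empty]
      push_cast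
      positivity
  · have h1 : ((range P.parts.card ×ˢ range P.parts.card).filter fun w => w.1 ≠ w.2 ∧
        ¬ G.IsUniform ε₁ (univ.filter fun x => idx x = w.1) (univ.filter fun x => idx x = w.2)).card ≤
        (P.nonUniforms G ε₁).card := by
      apply card_le_card_of_injOn
        (fun w => ((univ.filter fun x => idx x = w.1), (univ.filter fun x => idx x = w.2)))
      · intro w hw
        rw [mem_coe, mem_filter, mem_product, mem_range, mem_range] at hw
        rw [mem_coe, Finpartition.mk_mem_nonUniforms]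
        refine ⟨?_, ?_, ?_, hw.2.2⟩
        · rw [hV w.1 hw.1.1]; exact (e.symm _).2
        · rw [hV w.2 hw.1.2]; exact (e.symm _).2
        · intro h2
          apply hw.2.1
          have h3' : (e.symm ⟨w.1, hw.1.1⟩).1 = (e.symm ⟨w.2, hw.1.2⟩).1 :=
            (hV w.1 hw.1.1).symm.trans (h2.trans (hV w.2 hw.1.2))
          have h3 := e.symm.injective (Subtype.ext h3')
          exact congrArg Fin.val h3
      · intro w hw w' hw' h2
        rw [mem_coe, mem_filter, mem_product, mem_range, mem_range] at hw hw'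
        have h3 := congrArg Prod.fst h2
        have h4 := congrArg Prod.snd h2
        have h3' : (e.symm ⟨w.1, hw.1.1⟩).1 = (e.symm ⟨w'.1, hw'.1.1⟩).1 :=
          (hV w.1 hw.1.1).symm.trans (h3.trans (hV w'.1 hw'.1.1))
        have h4' : (e.symm ⟨w.2, hw.1.2⟩).1 = (e.symm ⟨w'.2, hw'.1.2⟩).1 :=
          (hV w.2 hw.1.2).symm.trans (h4.trans (hV w'.2 hw'.1.2))
        have h5 := congrArg Fin.val (e.symm.injective (Subtype.ext h3'))
        have h6 := congrArg Fin.val (e.symm.injective (Subtype.ext h4'))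
        exact Prod.ext h5 h6
    have h2 : ((P.nonUniforms G ε₁).card : ℝ) ≤ ((P.parts.card * (P.parts.card - 1) : ℕ) : ℝ) * ε₁ := hPu
    have h3 : ((P.parts.card * (P.parts.card - 1) : ℕ) : ℝ) ≤ (P.parts.card : ℝ) ^ 2 := by
      have : P.parts.card * (P.parts.card - 1) ≤ P.parts.card ^ 2 := by
        rw [sq]
        exact Nat.mul_le_mul_left _ (Nat.sub_le _ _)
      exact_mod_cast this
    calc _ ≤ ((P.nonUniforms G ε₁).card : ℝ) := by exact_mod_cast h1
      _ ≤ _ := h2
      _ ≤ _ := mul_le_mul_of_nonneg_right h3 hε.le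

/-- the bipartite graph -/
def r0_G {Q R : Type} (A : Finset Q) (B : Finset R) (F : Finset (Q × R)) :
    SimpleGraph ({a // a ∈ A} ⊕ {b // b ∈ B}) where
  Adj x y := (∃ a b, x = Sum.inl a ∧ y = Sum.inr b ∧ (a.1, b.1) ∈ F) ∨
    (∃ a b, y = Sum.inl a ∧ x = Sum.inr b ∧ (a.1, b.1) ∈ F)
  symm := ⟨fun x y h => Or.symm h⟩
  loopless := ⟨by
    rintro x (⟨a, b, h1, h2, -⟩ | ⟨a, b, h1, h2, -⟩)
    · rw [h1] at h2; cases h2
    · rw [h1] at h2; cases h2⟩

theorem r0_adj {Q R : Type} (A : Finset Q) (B : Finset R) (F : Finset (Q × R)) (a : {a // a ∈ A})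
    (b : {b // b ∈ B}) : (r0_G A B F).Adj (Sum.inl a) (Sum.inr b) ↔ (a.1, b.1) ∈ F := by
  constructor
  · rintro (⟨a', b', h1, h2, h3⟩ | ⟨a', b', h1, h2, h3⟩)
    · rw [Sum.inl.inj h1, Sum.inr.inj h2]; exact h3
    · cases h1
  · intro h
    exact Or.inl ⟨a, b, rfl, rfl, h⟩

/-- the image in the disjoint union -/
noncomputable def r0_EA {Q R : Type} (A : Finset Q) (B : Finset R) (A' : Finset Q) :
    Finset ({a // a ∈ A} ⊕ {b // b ∈ B}) :=
  (A'.subtype (fun a => a ∈ A)).map Function.Embedding.inl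

noncomputable def r0_EB {Q R : Type} (A : Finset Q) (B : Finset R) (B' : Finset R) :
    Finset ({a // a ∈ A} ⊕ {b // b ∈ B}) :=
  (B'.subtype (fun b => b ∈ B)).map Function.Embedding.inr

theorem r0_mem_EA {Q R : Type} {A : Finset Q} {B : Finset R} {A' : Finset Q}
    {x : {a // a ∈ A} ⊕ {b // b ∈ B}} : x ∈ r0_EA A B A' ↔ ∃ a, a.1 ∈ A' ∧ x = Sum.inl a := by
  unfold r0_EA
  rw [mem_map]
  constructor
  · rintro ⟨a, ha, rfl⟩
    exact ⟨a, mem_subtype.1 ha, rfl⟩
  · rintro ⟨a, ha, rfl⟩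
    exact ⟨a, mem_subtype.2 ha, rfl⟩

theorem r0_mem_EB {Q R : Type} {A : Finset Q} {B : Finset R} {B' : Finset R}
    {x : {a // a ∈ A} ⊕ {b // b ∈ B}} : x ∈ r0_EB A B B' ↔ ∃ b, b.1 ∈ B' ∧ x = Sum.inr b := by
  unfold r0_EB
  rw [mem_map]
  constructor
  · rintro ⟨a, ha, rfl⟩
    exact ⟨a, mem_subtype.1 ha, rfl⟩
  · rintro ⟨a, ha, rfl⟩
    exact ⟨a, mem_subtype.2 ha, rfl⟩

theorem r0_card_EA {Q R : Type} {A : Finset Q} {B : Finset R} {A' : Finset Q} (h : A' ⊆ A) :
    (r0_EA A B A').card = A'.card := by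
  unfold r0_EA
  rw [card_map, card_subtype, filter_true_of_mem (fun a ha => h ha)]

theorem r0_card_EB {Q R : Type} {A : Finset Q} {B : Finset R} {B' : Finset R} (h : B' ⊆ B) :
    (r0_EB A B B').card = B'.card := by
  unfold r0_EB
  rw [card_map, card_subtype, filter_true_of_mem (fun a ha => h ha)]

theorem r0_inter {Q R : Type} {A : Finset Q} {B : Finset R} (F : Finset (Q × R)) {A' : Finset Q}
    {B' : Finset R} (hA : A' ⊆ A) (hB : B' ⊆ B) :
    (F ∩ A' ×ˢ B').card = ((r0_G A B F).interedges (r0_EA A B A') (r0_EB A B B')).card := by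
  apply card_bij (fun x hx => (Sum.inl ⟨x.1, hA (mem_product.1 (mem_inter.1 hx).2).1⟩,
    Sum.inr ⟨x.2, hB (mem_product.1 (mem_inter.1 hx).2).2⟩))
  · intro x hx
    rw [SimpleGraph.mem_interedges_iff]
    refine ⟨r0_mem_EA.2 ⟨_, (mem_product.1 (mem_inter.1 hx).2).1, rfl⟩,
      r0_mem_EB.2 ⟨_, (mem_product.1 (mem_inter.1 hx).2).2, rfl⟩, ?_⟩
    rw [r0_adj]
    exact (mem_inter.1 hx).1
  · intro x hx y hy h
    have h1 := congrArg Prod.fst h
    have h2 := congrArg Prod.snd h
    simp only [Sum.inl.injEq, Sum.inr.injEq, Subtype.mk.injEq] at h1 h2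
    exact Prod.ext h1 h2
  · rintro ⟨x, y⟩ hxy
    rw [SimpleGraph.mem_interedges_iff] at hxy
    obtain ⟨h1, h2, h3⟩ := hxy
    obtain ⟨a, ha, hxa⟩ := r0_mem_EA.1 h1
    obtain ⟨b, hb, hyb⟩ := r0_mem_EB.1 h2
    simp only at hxa hyb h3
    subst hxa
    subst hyb
    rw [r0_adj] at h3
    exact ⟨(a.1, b.1), mem_inter.2 ⟨h3, mem_product.2 ⟨ha, hb⟩⟩, rfl⟩

/-- counting by cells -/
theorem r0_fiber {Q R : Type} (F : Finset (Q × R)) (A : Finset Q) (B : Finset R) (hF : F ⊆ A ×ˢ B)
    (iA : Q → ℕ) (iB : R → ℕ) (W : Finset (ℕ × ℕ)) :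
    (F.filter fun x => (iA x.1, iB x.2) ∈ W).card ≤
      ∑ w ∈ W, (F ∩ (A.filter fun a => iA a = w.1) ×ˢ (B.filter fun b => iB b = w.2)).card := by
  have hcs := card_eq_sum_card_fiberwise (s := F.filter fun x => (iA x.1, iB x.2) ∈ W)
    (f := fun x => (iA x.1, iB x.2)) (t := W) (fun x hx => (mem_filter.1 (mem_coe.1 hx)).2)
  rw [hcs]
  apply sum_le_sum
  intro w _
  apply card_le_card
  intro x hx
  rw [mem_filter, mem_filter] at hx
  obtain ⟨⟨hxF, -⟩, hxw⟩ := hx
  have h1 := mem_product.1 (hF hxF)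
  have h2 : iA x.1 = w.1 := congrArg Prod.fst hxw
  have h3 : iB x.2 = w.2 := congrArg Prod.snd hxw
  exact mem_inter.2 ⟨hxF, mem_product.2 ⟨mem_filter.2 ⟨h1.1, h2⟩, mem_filter.2 ⟨h1.2, h3⟩⟩⟩

/-- Lemma R. The classes are numbered by natural numbers `< k`.

Proof (`PROOF.md` 1.2): if `|A| + |B| < l := ⌈64/η⌉` take `k = 1`, `Good = ∅` (then
`|F| ≤ l² ≤ η m²`). Otherwise apply `szemeredi_regularity` to the bipartite graph `F` on the type
`A ⊕ B` (subtypes; `inl a ~ inr b` iff `(a,b) ∈ F`) with `ε₁ = min ε (η/64)` and `l`. `iA a` is the index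
(`< k`) of the part containing `inl a`, `iB b` the index of the part containing `inr b`.
`Good u v`: `u ≠ v`, the parts are `ε₁`-uniform and have density `≥ η/8`. -/
theorem lemmaR (η ε : ℝ) (hη : 0 < η) (hη1 : η ≤ 1) (hε : 0 < ε) :
    ∃ kmax m0 : ℕ, 1 ≤ kmax ∧ ∀ m ≥ m0, ∀ (Q R : Type) (A : Finset Q) (B : Finset R)
      (F : Finset (Q × R)), A.card ≤ m → B.card ≤ m → F ⊆ A ×ˢ B →
      ∃ (k : ℕ) (iA : Q → ℕ) (iB : R → ℕ) (Good : ℕ → ℕ → Prop),
        1 ≤ k ∧ k ≤ kmax ∧ (∀ a, iA a < k) ∧ (∀ b, iB b < k) ∧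
        (∀ u, ((A.filter fun a => iA a = u).card : ℝ) ≤ 4 * m / k) ∧
        (∀ v, ((B.filter fun b => iB b = v).card : ℝ) ≤ 4 * m / k) ∧
        ((F.filter fun x => ¬ Good (iA x.1) (iB x.2)).card : ℝ) ≤ η * (m : ℝ) ^ 2 ∧
        ∀ u v, Good u v → ∀ A' ⊆ A.filter fun a => iA a = u, ∀ B' ⊆ B.filter fun b => iB b = v,
          ε * (4 * m / k) ≤ A'.card → ε * (4 * m / k) ≤ B'.card →
          η / 16 * A'.card * B'.card ≤ ((F ∩ A' ×ˢ B').card : ℝ) := by
  obtain ⟨l, hl⟩ : ∃ l : ℕ, l = ⌈64 / η⌉₊ := ⟨_, rfl⟩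
  have hl64 : 64 / η ≤ (l : ℝ) := by rw [hl]; exact Nat.le_ceil _
  have hl1 : 1 ≤ l := by
    have h1 : (0 : ℝ) < 64 / η := by positivity
    have h2 : (0 : ℝ) < l := lt_of_lt_of_le h1 hl64
    exact_mod_cast h2
  obtain ⟨ε₁, hε₁⟩ : ∃ ε₁ : ℝ, ε₁ = min ε (η / 64) := ⟨_, rfl⟩
  have hε₁0 : 0 < ε₁ := by rw [hε₁]; positivity
  have hε₁ε : ε₁ ≤ ε := by rw [hε₁]; exact min_le_left _ _
  have hε₁η : ε₁ ≤ η / 64 := by rw [hε₁]; exact min_le_right _ _
  refine ⟨SzemerediRegularity.bound ε₁ l, ⌈(l : ℝ) ^ 2 / η⌉₊ + 1, SzemerediRegularity.bound_pos ε₁ l, ?_⟩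
  intro m hm Q R A B F hAm hBm hF
  have hm0 : (l : ℝ) ^ 2 / η ≤ (m : ℝ) := by
    have h1 : (l : ℝ) ^ 2 / η ≤ (⌈(l : ℝ) ^ 2 / η⌉₊ : ℝ) := Nat.le_ceil _
    have h2 : ((⌈(l : ℝ) ^ 2 / η⌉₊ + 1 : ℕ) : ℝ) ≤ (m : ℝ) := by exact_mod_cast hm
    push_cast at h2
    linarith
  have hm1 : (1 : ℝ) ≤ m := by
    have : 1 ≤ m := le_trans (by omega) hm
    exact_mod_cast this
  by_cases hsmall : A.card + B.card < l
  · -- the trivial case
    refine ⟨1, fun _ => 0, fun _ => 0, fun _ _ => False, le_rfl, SzemerediRegularity.bound_pos ε₁ l,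
      fun _ => one_pos, fun _ => one_pos, ?_, ?_, ?_, ?_⟩
    · intro u
      have h1 : ((A.filter fun _ => 0 = u).card : ℝ) ≤ (A.card : ℝ) := by
        exact_mod_cast card_filter_le _ _
      have h2 : (A.card : ℝ) ≤ m := by exact_mod_cast hAm
      push_cast
      linarith
    · intro u
      have h1 : ((B.filter fun _ => 0 = u).card : ℝ) ≤ (B.card : ℝ) := by
        exact_mod_cast card_filter_le _ _
      have h2 : (B.card : ℝ) ≤ m := by exact_mod_cast hBm
      push_cast
      linarith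
    · refine le_trans (Nat.cast_le.2 (r0_flt0 _ _ F)) ?_
      have h2 : F.card ≤ l * l := by
        have h3 := card_le_card hF
        rw [card_product] at h3
        exact h3.trans (Nat.mul_le_mul (by omega) (by omega))
      have h3 : (F.card : ℝ) ≤ (l : ℝ) ^ 2 := by
        rw [sq]
        exact_mod_cast h2
      have h4 : (l : ℝ) ^ 2 ≤ m * η := (div_le_iff₀ hη).1 hm0
      have h5 : (m : ℝ) * η ≤ η * (m : ℝ) ^ 2 := by nlinarith
      linarith
    · intro u v hg
      exact hg.elim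
  · push Not at hsmall
    have hα : l ≤ Fintype.card ({a // a ∈ A} ⊕ {b // b ∈ B}) := by
      rw [Fintype.card_sum, Fintype.card_coe, Fintype.card_coe]
      exact hsmall
    obtain ⟨k, idx, hlk, hkb, hkα, hidx, hpart, hnon⟩ := r0_reg ε₁ hε₁0 l hl1 _ (r0_G A B F) hα
    have hcα : (Fintype.card ({a // a ∈ A} ⊕ {b // b ∈ B}) : ℝ) ≤ 2 * m := by
      rw [Fintype.card_sum, Fintype.card_coe, Fintype.card_coe]
      have h1 : (A.card : ℝ) ≤ m := by exact_mod_cast hAm
      have h2 : (B.card : ℝ) ≤ m := by exact_mod_cast hBm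
      push_cast
      linarith
    have hk1 : 1 ≤ k := hl1.trans hlk
    have hk0 : (0 : ℝ) < k := by exact_mod_cast hk1
    have hk2m : (k : ℝ) ≤ 2 * m := by
      have : (k : ℝ) ≤ (Fintype.card ({a // a ∈ A} ⊕ {b // b ∈ B}) : ℝ) := by exact_mod_cast hkα
      linarith
    have hk64 : 64 / η ≤ (k : ℝ) := hl64.trans (by exact_mod_cast hlk)
    set V : ℕ → Finset ({a // a ∈ A} ⊕ {b // b ∈ B}) := fun u => univ.filter fun x => idx x = u with hVdef
    have hVc : ∀ u, ((V u).card : ℝ) ≤ 4 * m / k := by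
      intro u
      refine (hpart u).trans ?_
      rw [div_add_one hk0.ne']
      apply div_le_div_of_nonneg_right _ hk0.le
      linarith
    set iA : Q → ℕ := fun a => if h : a ∈ A then idx (Sum.inl ⟨a, h⟩) else 0 with hiA
    set iB : R → ℕ := fun b => if h : b ∈ B then idx (Sum.inr ⟨b, h⟩) else 0 with hiB
    have hEAV : ∀ u, ∀ A' ⊆ A.filter fun a => iA a = u, r0_EA A B A' ⊆ V u := by
      intro u A' hA' x hx
      obtain ⟨a, ha, rfl⟩ := r0_mem_EA.1 hx
      have h1 := mem_filter.1 (hA' ha)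
      rw [hVdef, mem_filter]
      refine ⟨mem_univ _, ?_⟩
      have h2 := h1.2
      rw [hiA] at h2
      simp only [dif_pos h1.1] at h2
      exact h2
    have hEBV : ∀ u, ∀ B' ⊆ B.filter fun b => iB b = u, r0_EB A B B' ⊆ V u := by
      intro u B' hB' x hx
      obtain ⟨a, ha, rfl⟩ := r0_mem_EB.1 hx
      have h1 := mem_filter.1 (hB' ha)
      rw [hVdef, mem_filter]
      refine ⟨mem_univ _, ?_⟩
      have h2 := h1.2
      rw [hiB] at h2
      simp only [dif_pos h1.1] at h2
      exact h2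
    have hAu : ∀ u, ((A.filter fun a => iA a = u).card : ℝ) ≤ 4 * m / k := by
      intro u
      rw [← r0_card_EA (B := B) (filter_subset (fun a => iA a = u) A)]
      have h1 := card_le_card (hEAV u _ (Subset.refl _))
      have h2 : ((r0_EA A B (A.filter fun a => iA a = u)).card : ℝ) ≤ ((V u).card : ℝ) := by
        exact_mod_cast h1
      exact h2.trans (hVc u)
    have hBu : ∀ u, ((B.filter fun b => iB b = u).card : ℝ) ≤ 4 * m / k := by
      intro u
      rw [← r0_card_EB (A := A) (filter_subset (fun b => iB b = u) B)]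
      have h1 := card_le_card (hEBV u _ (Subset.refl _))
      have h2 : ((r0_EB A B (B.filter fun b => iB b = u)).card : ℝ) ≤ ((V u).card : ℝ) := by
        exact_mod_cast h1
      exact h2.trans (hVc u)
    have hiAk : ∀ a, iA a < k := by
      intro a
      rw [hiA]
      simp only
      split_ifs
      · exact hidx _
      · omega
    have hiBk : ∀ b, iB b < k := by
      intro b
      rw [hiB]
      simp only
      split_ifs
      · exact hidx _
      · omega
    have hcell : ∀ u v, ((F ∩ (A.filter fun a => iA a = u) ×ˢ (B.filter fun b => iB b = v)).card : ℝ) ≤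
        (4 * m / k) ^ 2 := by
      intro u v
      have h1 : (F ∩ (A.filter fun a => iA a = u) ×ˢ (B.filter fun b => iB b = v)).card ≤
          (A.filter fun a => iA a = u).card * (B.filter fun b => iB b = v).card := by
        rw [← card_product]
        exact card_le_card inter_subset_right
      have h2 : ((F ∩ (A.filter fun a => iA a = u) ×ˢ (B.filter fun b => iB b = v)).card : ℝ) ≤
          ((A.filter fun a => iA a = u).card : ℝ) * ((B.filter fun b => iB b = v).card : ℝ) := by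
        exact_mod_cast h1
      refine h2.trans ?_
      rw [sq]
      exact mul_le_mul (hAu u) (hBu v) (Nat.cast_nonneg _) (by positivity)
    obtain ⟨Gd, hGd⟩ : ∃ Gd : ℕ → ℕ → Prop, ∀ u v, Gd u v ↔
        (u ≠ v ∧ (r0_G A B F).IsUniform ε₁ (V u) (V v) ∧
        η / 8 ≤ ((r0_G A B F).edgeDensity (V u) (V v) : ℝ)) := ⟨fun u v => _, fun _ _ => Iff.rfl⟩
    refine ⟨k, iA, iB, Gd, hk1, hkb, hiAk, hiBk, hAu, hBu, ?_, ?_⟩
    · -- the bad pairs
      obtain ⟨W1, hW1⟩ : ∃ W : Finset (ℕ × ℕ), W = (range k).image fun u => (u, u) := ⟨_, rfl⟩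
      obtain ⟨W2, hW2⟩ : ∃ W : Finset (ℕ × ℕ), W = (range k ×ˢ range k).filter fun w => w.1 ≠ w.2 ∧
        ¬ (r0_G A B F).IsUniform ε₁ (V w.1) (V w.2) := ⟨_, rfl⟩
      obtain ⟨W3, hW3⟩ : ∃ W : Finset (ℕ × ℕ), W = (range k ×ˢ range k).filter fun w =>
        ((r0_G A B F).edgeDensity (V w.1) (V w.2) : ℝ) < η / 8 := ⟨_, rfl⟩
      have hsub : (F.filter fun x => ¬ Gd (iA x.1) (iB x.2)) ⊆
          ((F.filter fun x => (iA x.1, iB x.2) ∈ W1) ∪ (F.filter fun x => (iA x.1, iB x.2) ∈ W2)) ∪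
          (F.filter fun x => (iA x.1, iB x.2) ∈ W3) := by
        intro x hx
        rw [mem_filter] at hx
        obtain ⟨hxF, hx⟩ := hx
        rw [mem_union, mem_union, mem_filter, mem_filter, mem_filter]
        have hin : (iA x.1, iB x.2) ∈ range k ×ˢ range k :=
          mem_product.2 ⟨mem_range.2 (hiAk _), mem_range.2 (hiBk _)⟩
        by_cases h1 : iA x.1 = iB x.2
        · left; left
          refine ⟨hxF, ?_⟩
          rw [hW1, mem_image]
          exact ⟨iA x.1, mem_range.2 (hiAk _), by rw [← h1]⟩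
        · by_cases h2 : (r0_G A B F).IsUniform ε₁ (V (iA x.1)) (V (iB x.2))
          · right
            refine ⟨hxF, ?_⟩
            rw [hW3, mem_filter]
            refine ⟨hin, ?_⟩
            by_contra h3
            push Not at h3
            exact hx ((hGd _ _).2 ⟨h1, h2, h3⟩)
          · left; right
            refine ⟨hxF, ?_⟩
            rw [hW2, mem_filter]
            exact ⟨hin, h1, h2⟩
      have hc := card_le_card hsub
      have hc2 := hc.trans ((card_union_le _ _).trans (Nat.add_le_add_right (card_union_le _ _) _))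
      have b1 : ((F.filter fun x => (iA x.1, iB x.2) ∈ W1).card : ℝ) ≤ η * (m : ℝ) ^ 2 / 4 := by
        have h1 := r0_fiber F A B hF iA iB W1
        have h2 : ((F.filter fun x => (iA x.1, iB x.2) ∈ W1).card : ℝ) ≤
            ∑ w ∈ W1, ((F ∩ (A.filter fun a => iA a = w.1) ×ˢ (B.filter fun b => iB b = w.2)).card : ℝ) := by
          exact_mod_cast h1
        refine h2.trans ((sum_le_card_nsmul _ _ _ (fun w _ => hcell w.1 w.2)).trans ?_)
        have h3 : (W1.card : ℝ) ≤ k := by
          have : W1.card ≤ k := by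
            rw [hW1]
            exact card_image_le.trans (by rw [card_range])
          exact_mod_cast this
        rw [nsmul_eq_mul]
        calc (W1.card : ℝ) * (4 * m / k) ^ 2 ≤ k * (4 * m / k) ^ 2 :=
              mul_le_mul_of_nonneg_right h3 (by positivity)
          _ = 16 * (m : ℝ) ^ 2 / k := by field_simp; ring
          _ ≤ η * (m : ℝ) ^ 2 / 4 := by
              rw [div_le_iff₀ hk0]
              rw [div_le_iff₀ hη] at hk64
              nlinarith [sq_nonneg (m : ℝ)]
      have b2 : ((F.filter fun x => (iA x.1, iB x.2) ∈ W2).card : ℝ) ≤ η * (m : ℝ) ^ 2 / 4 := by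
        have h1 := r0_fiber F A B hF iA iB W2
        have h2 : ((F.filter fun x => (iA x.1, iB x.2) ∈ W2).card : ℝ) ≤
            ∑ w ∈ W2, ((F ∩ (A.filter fun a => iA a = w.1) ×ˢ (B.filter fun b => iB b = w.2)).card : ℝ) := by
          exact_mod_cast h1
        refine h2.trans ((sum_le_card_nsmul _ _ _ (fun w _ => hcell w.1 w.2)).trans ?_)
        rw [nsmul_eq_mul]
        have hnon2 : (W2.card : ℝ) ≤ (k : ℝ) ^ 2 * ε₁ := by
          rw [hW2]
          exact hnon
        calc (W2.card : ℝ) * (4 * m / k) ^ 2 ≤ ((k : ℝ) ^ 2 * ε₁) * (4 * m / k) ^ 2 :=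
              mul_le_mul_of_nonneg_right hnon2 (by positivity)
          _ = 16 * ε₁ * (m : ℝ) ^ 2 := by field_simp; ring
          _ ≤ 16 * (η / 64) * (m : ℝ) ^ 2 := by gcongr
          _ = η * (m : ℝ) ^ 2 / 4 := by ring
      have b3 : ((F.filter fun x => (iA x.1, iB x.2) ∈ W3).card : ℝ) ≤ η * (m : ℝ) ^ 2 / 2 := by
        have h1 := r0_fiber F A B hF iA iB W3
        have h2 : ((F.filter fun x => (iA x.1, iB x.2) ∈ W3).card : ℝ) ≤
            ∑ w ∈ W3, ((F ∩ (A.filter fun a => iA a = w.1) ×ˢ (B.filter fun b => iB b = w.2)).card : ℝ) := by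
          exact_mod_cast h1
        have h3 : ∀ w ∈ W3, ((F ∩ (A.filter fun a => iA a = w.1) ×ˢ
            (B.filter fun b => iB b = w.2)).card : ℝ) ≤ η / 8 * (((V w.1).card : ℝ) * ((V w.2).card : ℝ)) := by
          intro w hw
          rw [r0_inter F (filter_subset _ A) (filter_subset _ B)]
          have h4 : ((r0_G A B F).interedges (r0_EA A B (A.filter fun a => iA a = w.1))
              (r0_EB A B (B.filter fun b => iB b = w.2))).card ≤
              ((r0_G A B F).interedges (V w.1) (V w.2)).card :=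
            card_le_card ((r0_G A B F).interedges_mono (hEAV w.1 _ (Subset.refl _))
              (hEBV w.2 _ (Subset.refl _)))
          rw [hW3] at hw
          have h5 := (mem_filter.1 hw).2
          rw [SimpleGraph.edgeDensity_def] at h5
          push_cast at h5
          have h6 : (((r0_G A B F).interedges (V w.1) (V w.2)).card : ℝ) ≤
              η / 8 * (((V w.1).card : ℝ) * ((V w.2).card : ℝ)) := by
            by_cases h0 : ((V w.1).card : ℝ) * ((V w.2).card : ℝ) = 0
            · have h7 := (r0_G A B F).card_interedges_le_mul (V w.1) (V w.2)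
              have h8 : (((r0_G A B F).interedges (V w.1) (V w.2)).card : ℝ) ≤
                  ((V w.1).card : ℝ) * ((V w.2).card : ℝ) := by exact_mod_cast h7
              rw [h0] at h8 ⊢
              linarith
            · have h9 : 0 < ((V w.1).card : ℝ) * ((V w.2).card : ℝ) :=
                lt_of_le_of_ne (by positivity) (Ne.symm h0)
              rw [div_lt_iff₀ h9] at h5
              exact h5.le
          exact le_trans (by exact_mod_cast h4) h6
        have h4 : ∑ w ∈ W3, (((V w.1).card : ℝ) * ((V w.2).card : ℝ)) ≤ (2 * m) ^ 2 := by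
          have h5 : ∑ w ∈ W3, (((V w.1).card : ℝ) * ((V w.2).card : ℝ)) ≤
              ∑ w ∈ range k ×ˢ range k, (((V w.1).card : ℝ) * ((V w.2).card : ℝ)) := by
            rw [hW3]
            exact sum_le_sum_of_subset_of_nonneg (filter_subset _ _) (fun _ _ _ => by positivity)
          have h6 : ∑ w ∈ range k ×ˢ range k, (((V w.1).card : ℝ) * ((V w.2).card : ℝ)) =
              (∑ u ∈ range k, ((V u).card : ℝ)) ^ 2 := by
            rw [sum_product, sq, sum_mul_sum]
          have h7 : ∑ u ∈ range k, (V u).card = Fintype.card ({a // a ∈ A} ⊕ {b // b ∈ B}) := by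
            rw [← card_univ, card_eq_sum_card_fiberwise (f := idx) (t := range k)
              (fun x _ => mem_coe.2 (mem_range.2 (hidx x)))]
          have h8 : ∑ u ∈ range k, ((V u).card : ℝ) ≤ 2 * m := by
            refine le_trans (le_of_eq ?_) hcα
            exact_mod_cast h7
          rw [h6] at h5
          refine h5.trans (pow_le_pow_left₀ (sum_nonneg fun _ _ => by positivity) h8 2)
        refine h2.trans ((sum_le_sum h3).trans ?_)
        rw [← mul_sum]
        nlinarith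
      have hfin : ((F.filter fun x => ¬ Gd (iA x.1) (iB x.2)).card : ℝ) ≤
          ((F.filter fun x => (iA x.1, iB x.2) ∈ W1).card : ℝ) +
          ((F.filter fun x => (iA x.1, iB x.2) ∈ W2).card : ℝ) +
          ((F.filter fun x => (iA x.1, iB x.2) ∈ W3).card : ℝ) := by exact_mod_cast hc2
      linarith
    · intro u v huv A' hA' B' hB' hcA hcB
      obtain ⟨-, huni, hden⟩ := (hGd u v).1 huv
      have hA1 : A' ⊆ A := hA'.trans (filter_subset _ _)
      have hB1 : B' ⊆ B := hB'.trans (filter_subset _ _)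
      have h4mk : 0 < 4 * (m : ℝ) / k := by positivity
      have hA0 : (0 : ℝ) < A'.card := lt_of_lt_of_le (by positivity) hcA
      have hB0 : (0 : ℝ) < B'.card := lt_of_lt_of_le (by positivity) hcB
      have hcEA := r0_card_EA (B := B) hA1
      have hcEB := r0_card_EB (A := A) hB1
      have h1 := huni (hEAV u A' hA') (hEBV v B' hB') (by
        rw [hcEA]
        calc ((V u).card : ℝ) * ε₁ ≤ (4 * m / k) * ε := mul_le_mul (hVc u) hε₁ε hε₁0.le h4mk.le
          _ = ε * (4 * m / k) := by ring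
          _ ≤ _ := hcA) (by
        rw [hcEB]
        calc ((V v).card : ℝ) * ε₁ ≤ (4 * m / k) * ε := mul_le_mul (hVc v) hε₁ε hε₁0.le h4mk.le
          _ = ε * (4 * m / k) := by ring
          _ ≤ _ := hcB)
      have h2 : η / 16 ≤ ((r0_G A B F).edgeDensity (r0_EA A B A') (r0_EB A B B') : ℝ) := by
        have h3 := (abs_lt.1 h1).1
        linarith
      rw [r0_inter F hA1 hB1]
      rw [SimpleGraph.edgeDensity_def] at h2
      push_cast at h2
      rw [hcEA, hcEB, le_div_iff₀ (by positivity)] at h2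
      linarith

end Pool.Agent.Lib.H93A
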