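import Pool.Agent.Lib.H93A.P1
import Pool.Agent.Lib.H93A.P2A
import Pool.Agent.Lib.H93A.ODefs

/-!
# H93A, T1A: the step: weights, (S1)

See `PROOF.md`.
-/

set_option autoImplicit false

open Finset
open scoped Classical

namespace Pool.Agent.Lib.H93A

variable {Q R M : Type} [Fintype Q] [Fintype R] [Fintype M] {D : Core Q R M} {Ω : Type} [Fintype Ω]

/-- `0 ≤ w(x) ≤ 1` (hypothesis (9) of the constants: `s kmax^(2 b) ≤ N p^(b-1)`). -/
theorem wt_mem {kmax j0 : ℕ} {K c1 θ1 ε d s p : ℝ} (hD : CoreHyp D kmax j0 K c1 θ1 ε d)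
    (hs : 0 ≤ s) (hp : 0 < p) (hw : s * (kmax : ℝ) ^ (2 * D.b) ≤ D.N * p ^ (D.b - 1)) (x : Q × R) :
    0 ≤ wt D s p x ∧ wt D s p x ≤ 1 := by
  have hN : (0 : ℝ) < D.N := by exact_mod_cast hD.N_pos
  unfold wt
  by_cases hx : x ∈ D.X
  · rw [if_pos hx]
    have hP0 : (0 : ℝ) ≤ ∏ i, (D.k (D.pos x i) : ℝ) ^ 2 :=
      Finset.prod_nonneg fun i _ => by positivity
    have hc : (0 : ℝ) < D.N * p ^ (D.b - 1) := by positivity
    have hP1 : ∏ i, (D.k (D.pos x i) : ℝ) ^ 2 ≤ (kmax : ℝ) ^ (2 * D.b) := by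
      calc ∏ i, (D.k (D.pos x i) : ℝ) ^ 2 ≤ ∏ _i : Fin D.b, (kmax : ℝ) ^ 2 := by
            refine Finset.prod_le_prod (fun i _ => by positivity) fun i _ => ?_
            have h1 : (D.k (D.pos x i) : ℝ) ≤ kmax := by exact_mod_cast hD.k_le _
            gcongr
        _ = (kmax : ℝ) ^ (2 * D.b) := by
            rw [Finset.prod_const, Finset.card_univ, Fintype.card_fin, ← pow_mul]
    refine ⟨by positivity, ?_⟩
    rw [div_mul_eq_mul_div, div_le_one hc]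
    exact (mul_le_mul_of_nonneg_left hP1 hs).trans hw
  · rw [if_neg hx]
    exact ⟨le_rfl, zero_le_one⟩

theorem step_isProb {kmax j0 : ℕ} {K c1 θ1 ε d s p κ δ : ℝ} (hD : CoreHyp D kmax j0 K c1 θ1 ε d)
    {Y : Sys D Ω} (hY : SysHyp Y p κ δ)
    (hs : 0 ≤ s) (hw : s * (kmax : ℝ) ^ (2 * D.b) ≤ D.N * p ^ (D.b - 1)) :
    IsProb (stepμ Y s p) :=
  stepMeasure_isProb D.b hY.prob (fun x => (wt_mem hD hs hY.p_pos hw x).1)
    (fun x => (wt_mem hD hs hY.p_pos hw x).2)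

/-- `S' ⊆ X` -/
theorem step_S_sub {p κ δ : ℝ} {Y : Sys D Ω} (hY : SysHyp Y p κ δ) (T : ℕ) (z : StepΩ D Ω) :
    stepS Y T z ⊆ D.X := by
  intro x hx
  rcases Finset.mem_union.1 (Finset.mem_filter.1 hx).1 with h | h
  · exact (Finset.mem_filter.1 h).1
  · obtain ⟨j, -, hj⟩ := Finset.mem_biUnion.1 h
    exact hY.S_sub (z.1 j) hj

/-- the cells are in range -/
theorem step_C_lt {p κ δ : ℝ} {Y : Sys D Ω} (hY : SysHyp Y p κ δ) (z : StepΩ D Ω) :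
    ∀ f ∈ stepP Y z, (stepC Y z f).1 < D.k f ∧ (stepC Y z f).2 < D.k f := by
  intro f hf
  obtain ⟨j, -, hj⟩ := Finset.mem_biUnion.1 hf
  have h : ∃ j, f ∈ Y.P (z.1 j) := ⟨j, hj⟩
  unfold stepC
  rw [dif_pos h]
  exact hY.C_lt (z.1 h.choose) f h.choose_spec

/-- (S1), first half: no conflicts (excluded by the third clause of `Spoiled`) -/
theorem step_s1 (Y : Sys D Ω) (T : ℕ) (z : StepΩ D Ω) :
    ∀ x ∈ stepS Y T z, ∀ y ∈ stepS Y T z, x ≠ y → ¬ D.conf x y := by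
  intro x hx y hy hxy hconf
  exact (Finset.mem_filter.1 hx).2 (Or.inr (Or.inr ⟨y, (Finset.mem_filter.1 hy).1, hxy.symm, hconf⟩))

/-- if `f` is in `P^j` and not in two copies, then `stepC z f = C^j f` -/
theorem stepC_eq (Y : Sys D Ω) (z : StepΩ D Ω) (f : M) (j : Fin D.b) (hj : f ∈ Y.P (z.1 j))
    (hO : ¬ stepO Y z f) : stepC Y z f = Y.C (z.1 j) f := by
  have h : ∃ j, f ∈ Y.P (z.1 j) := ⟨j, hj⟩
  unfold stepC
  rw [dif_pos h]
  have h1 : h.choose = j := by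
    by_contra hne
    exact hO ⟨h.choose, j, hne, h.choose_spec, hj⟩
  rw [h1]

/-- (S1), second half -/
theorem step_s1' {p κ δ : ℝ} {Y : Sys D Ω} (hY : SysHyp Y p κ δ) (T : ℕ) (z : StepΩ D Ω) :
    ∀ x ∈ stepS Y T z, ∀ i, D.pos x i ∈ stepP Y z ∧ stepC Y z (D.pos x i) = D.cell (D.pos x i) x := by
  intro x hx i
  obtain ⟨hU, hsp⟩ := Finset.mem_filter.1 hx
  have hO : ¬ stepO Y z (D.pos x i) := fun h => hsp (Or.inl ⟨D.pos x i, ⟨i, rfl⟩, h⟩)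
  have key : ∀ j : Fin D.b, D.pos x i ∈ Y.P (z.1 j) →
      Y.C (z.1 j) (D.pos x i) = D.cell (D.pos x i) x →
      D.pos x i ∈ stepP Y z ∧ stepC Y z (D.pos x i) = D.cell (D.pos x i) x := by
    intro j h1 h2
    exact ⟨Finset.mem_biUnion.2 ⟨j, Finset.mem_univ _, h1⟩, (stepC_eq Y z _ j h1 hO).trans h2⟩
  rcases Finset.mem_union.1 hU with h | h
  · obtain ⟨h1, h2⟩ := ((Finset.mem_filter.1 h).2.2 i).1
    exact key i h1 h2
  · obtain ⟨j, -, hj⟩ := Finset.mem_biUnion.1 h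
    obtain ⟨h1, h2⟩ := hY.s1' (z.1 j) x hj i
    exact key j h1 h2

end Pool.Agent.Lib.H93A
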