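import Pool.Agent.Lib.H93A.T1A
import Pool.Agent.Lib.H93A.P2B

/-!
# H93A, T1B: the step: (S2), upper bounds

See `PROOF.md`.
-/

set_option autoImplicit false

open Finset
open scoped Classical

namespace Pool.Agent.Lib.H93A

variable {Q R M : Type} [Fintype Q] [Fintype R] [Fintype M] {D : Core Q R M} {Ω : Type} [Fintype Ω]

theorem t1b_mem {Y : Sys D Ω} {z : StepΩ D Ω} {f : M} {c : ℕ × ℕ}
    (h : f ∈ stepP Y z ∧ stepC Y z f = c) :
    ∃ j ∈ (Finset.univ : Finset (Fin D.b)), f ∈ Y.P (z.1 j) ∧ Y.C (z.1 j) f = c := by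
  obtain ⟨h1, h2⟩ := h
  obtain ⟨j, -, hj⟩ := Finset.mem_biUnion.1 h1
  have h3 : ∃ j, f ∈ Y.P (z.1 j) := ⟨j, hj⟩
  unfold stepC at h2
  rw [dif_pos h3] at h2
  exact ⟨h3.choose, Finset.mem_univ _, h3.choose_spec, h2⟩

/-- `P(f ∈ P') ≤ b p` -/
theorem step_s2p {kmax j0 : ℕ} {K c1 θ1 ε d s p κ δ : ℝ} (hD : CoreHyp D kmax j0 K c1 θ1 ε d)
    {Y : Sys D Ω} (hY : SysHyp Y p κ δ)
    (hs : 0 ≤ s) (hw : s * (kmax : ℝ) ^ (2 * D.b) ≤ D.N * p ^ (D.b - 1)) (f : M) :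
    pr (stepμ Y s p) (fun z => f ∈ stepP Y z) ≤ D.b * p := by
  have hpr := step_isProb hD hY hs hw
  have h1 : pr (stepμ Y s p) (fun z => f ∈ stepP Y z) ≤
      pr (stepμ Y s p) (fun z => ∃ j ∈ (Finset.univ : Finset (Fin D.b)), f ∈ Y.P (z.1 j)) := by
    refine pr_mono hpr fun z hz => ?_
    exact Finset.mem_biUnion.1 hz
  have h2 := pr_exists_le hpr (Finset.univ : Finset (Fin D.b))
    (fun (j : Fin D.b) (z : StepΩ D Ω) => f ∈ Y.P (z.1 j))
  refine (h1.trans h2).trans ?_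
  calc ∑ j : Fin D.b, pr (stepμ Y s p) (fun z => f ∈ Y.P (z.1 j)) ≤ ∑ _j : Fin D.b, p := by
        refine Finset.sum_le_sum fun j _ => ?_
        have h3 := pr_step_copy (w := wt D s p) D.b hY.prob j (fun ω => f ∈ Y.P ω)
        unfold stepμ
        rw [h3]
        exact hY.s2p f
    _ = D.b * p := by
        rw [Finset.sum_const, Finset.card_univ, Fintype.card_fin, nsmul_eq_mul]

/-- upper half of (S2): `f ∈ P', C' f = c` implies `f ∈ P^j, C^j f = c` for some `j` -/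
theorem step_s2u {kmax j0 : ℕ} {K c1 θ1 ε d s p κ δ : ℝ} (hD : CoreHyp D kmax j0 K c1 θ1 ε d)
    {Y : Sys D Ω} (hY : SysHyp Y p κ δ)
    (hs : 0 ≤ s) (hw : s * (kmax : ℝ) ^ (2 * D.b) ≤ D.N * p ^ (D.b - 1)) (f : M) (c : ℕ × ℕ) :
    pr (stepμ Y s p) (fun z => f ∈ stepP Y z ∧ stepC Y z f = c) ≤
      (D.b * p) / (D.k f : ℝ) ^ 2 := by
  have hpr := step_isProb hD hY hs hw
  have h1 : pr (stepμ Y s p) (fun z => f ∈ stepP Y z ∧ stepC Y z f = c) ≤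
      pr (stepμ Y s p) (fun z => ∃ j ∈ (Finset.univ : Finset (Fin D.b)),
        f ∈ Y.P (z.1 j) ∧ Y.C (z.1 j) f = c) := by
    refine pr_mono hpr fun z hz => ?_
    exact t1b_mem hz
  have h2 := pr_exists_le hpr (Finset.univ : Finset (Fin D.b))
    (fun (j : Fin D.b) (z : StepΩ D Ω) => f ∈ Y.P (z.1 j) ∧ Y.C (z.1 j) f = c)
  refine (h1.trans h2).trans ?_
  calc ∑ j : Fin D.b, pr (stepμ Y s p) (fun z => f ∈ Y.P (z.1 j) ∧ Y.C (z.1 j) f = c) ≤
      ∑ _j : Fin D.b, p / (D.k f : ℝ) ^ 2 := by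
        refine Finset.sum_le_sum fun j _ => ?_
        have h3 := pr_step_copy (w := wt D s p) D.b hY.prob j
          (fun ω => f ∈ Y.P ω ∧ Y.C ω f = c)
        unfold stepμ
        rw [h3]
        exact hY.s2u f c
    _ = (D.b * p) / (D.k f : ℝ) ^ 2 := by
        rw [Finset.sum_const, Finset.card_univ, Fintype.card_fin, nsmul_eq_mul]
        ring

end Pool.Agent.Lib.H93A
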