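import Pool.Agent.Lib.H93A.T1A
import Pool.Agent.Lib.H93A.P2B

/-!
# H93A, T1C: the step: (S2), lower bound

See `PROOF.md`.
-/

set_option autoImplicit false

open Finset
open scoped Classical

namespace Pool.Agent.Lib.H93A

variable {Q R M : Type} [Fintype Q] [Fintype R] [Fintype M] {D : Core Q R M} {Ω : Type} [Fintype Ω]

/-- lower half of (S2): sum over `j` of `P(f ∈ P^j, C^j f = c, f ∉ P^i for i ≠ j)` (disjoint events,
independent copies) `≥ b (1-δ)(p/k²)(1-p)^(b-1) ≥ b (1-δ)(p/k²)(1 - b p)`; and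
`(1-δ)(1-bp) ≥ 1 - (δ + b p)`. -/
theorem step_s2l {kmax j0 : ℕ} {K c1 θ1 ε d s p κ δ : ℝ} (hD : CoreHyp D kmax j0 K c1 θ1 ε d)
    {Y : Sys D Ω} (hY : SysHyp Y p κ δ) (hδ0 : 0 ≤ δ) (hδ1 : δ ≤ 1) (hbp : D.b * p ≤ 1)
    (hs : 0 ≤ s) (hw : s * (kmax : ℝ) ^ (2 * D.b) ≤ D.N * p ^ (D.b - 1)) (f : M) (c : ℕ × ℕ)
    (hc1 : c.1 < D.k f) (hc2 : c.2 < D.k f) :
    (1 - (δ + D.b * p)) * ((D.b * p) / (D.k f : ℝ) ^ 2) ≤
      pr (stepμ Y s p) (fun z => f ∈ stepP Y z ∧ stepC Y z f = c) := by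
  have hpr := step_isProb hD hY hs hw
  have hp := hY.p_pos
  have hk : (0 : ℝ) < (D.k f : ℝ) := by exact_mod_cast hD.k_pos _
  have hb1 : (1 : ℝ) ≤ D.b := by exact_mod_cast hD.b_pos
  have hp1 : p ≤ 1 := by nlinarith
  have h1 := pr_sum_disjoint (μ := stepμ Y s p) (Finset.univ : Finset (Fin D.b))
    (fun (j : Fin D.b) (z : StepΩ D Ω) => ∀ i : Fin D.b,
      (i = j → (f ∈ Y.P (z.1 i) ∧ Y.C (z.1 i) f = c)) ∧ (i ≠ j → f ∉ Y.P (z.1 i)))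
    (by
      intro z i _ j _ hi hj
      by_contra hij
      exact (hj i).2 hij ((hi i).1 rfl).1)
  have h2 : pr (stepμ Y s p) (fun z => ∃ j ∈ (Finset.univ : Finset (Fin D.b)), ∀ i : Fin D.b,
      (i = j → (f ∈ Y.P (z.1 i) ∧ Y.C (z.1 i) f = c)) ∧ (i ≠ j → f ∉ Y.P (z.1 i))) ≤
      pr (stepμ Y s p) (fun z => f ∈ stepP Y z ∧ stepC Y z f = c) := by
    refine pr_mono hpr ?_
    rintro z ⟨j, _, hj⟩
    have h3 := (hj j).1 rfl
    refine ⟨Finset.mem_biUnion.2 ⟨j, Finset.mem_univ _, h3.1⟩, (stepC_eq Y z f j h3.1 ?_).trans h3.2⟩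
    rintro ⟨a, b, hab, ha, hb⟩
    by_cases h4 : a = j
    · exact (hj b).2 (fun h5 => hab (h4.trans h5.symm)) hb
    · exact (hj a).2 h4 ha
  refine le_trans ?_ (h1.symm.le.trans h2)
  have h5 : ∀ j : Fin D.b, (1 - δ) * (p / (D.k f : ℝ) ^ 2) * (1 - ((D.b : ℝ) - 1) * p) ≤
      pr (stepμ Y s p) (fun z => ∀ i : Fin D.b,
      (i = j → (f ∈ Y.P (z.1 i) ∧ Y.C (z.1 i) f = c)) ∧ (i ≠ j → f ∉ Y.P (z.1 i))) := by
    intro j
    have h6 := pr_step_zero (w := wt D s p) D.b hY.prob (fun (i : Fin D.b) (ω : Ω) =>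
      (i = j → (f ∈ Y.P ω ∧ Y.C ω f = c)) ∧ (i ≠ j → f ∉ Y.P ω))
    unfold stepμ
    rw [h6, ← Finset.mul_prod_erase _ _ (Finset.mem_univ j)]
    have h7 : (fun ω : Ω => (j = j → (f ∈ Y.P ω ∧ Y.C ω f = c)) ∧ (j ≠ j → f ∉ Y.P ω)) =
        fun ω => f ∈ Y.P ω ∧ Y.C ω f = c := by
      funext ω
      exact propext ⟨fun h => h.1 rfl, fun h => ⟨fun _ => h, fun h' => absurd rfl h'⟩⟩
    rw [h7]
    have h8 : ∀ i ∈ Finset.univ.erase j, 1 - p ≤ pr Y.μ (fun ω =>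
        (i = j → (f ∈ Y.P ω ∧ Y.C ω f = c)) ∧ (i ≠ j → f ∉ Y.P ω)) := by
      intro i hi
      have hij : i ≠ j := Finset.ne_of_mem_erase hi
      have h9 : (fun ω : Ω => (i = j → (f ∈ Y.P ω ∧ Y.C ω f = c)) ∧ (i ≠ j → f ∉ Y.P ω)) =
          fun ω => True ∧ ¬ (f ∈ Y.P ω) := by
        funext ω
        exact propext ⟨fun h => ⟨trivial, h.2 hij⟩, fun h => ⟨fun h' => absurd h' hij, fun _ => h.2⟩⟩
      rw [h9, pr_and_not, pr_true hY.prob]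
      have h10 : (fun ω : Ω => True ∧ f ∈ Y.P ω) = fun ω => f ∈ Y.P ω := by
        funext ω
        exact propext ⟨fun h => h.2, fun h => ⟨trivial, h⟩⟩
      rw [h10]
      have := hY.s2p f
      linarith
    have h11 : (1 - p) ^ (D.b - 1) ≤ ∏ i ∈ Finset.univ.erase j, pr Y.μ (fun ω =>
        (i = j → (f ∈ Y.P ω ∧ Y.C ω f = c)) ∧ (i ≠ j → f ∉ Y.P ω)) := by
      have h12 : (1 - p) ^ (D.b - 1) = ∏ _i ∈ (Finset.univ : Finset (Fin D.b)).erase j, (1 - p) := by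
        rw [Finset.prod_const, Finset.card_erase_of_mem (Finset.mem_univ j), Finset.card_univ,
          Fintype.card_fin]
      rw [h12]
      exact Finset.prod_le_prod (fun i _ => by linarith) h8
    have h13 : 1 - ((D.b : ℝ) - 1) * p ≤ (1 - p) ^ (D.b - 1) := by
      have h14 := one_add_mul_le_pow (a := -p) (by linarith) (D.b - 1)
      have h15 : ((D.b - 1 : ℕ) : ℝ) = (D.b : ℝ) - 1 := by
        rw [Nat.cast_sub hD.b_pos]
        simp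
      rw [h15] at h14
      calc 1 - ((D.b : ℝ) - 1) * p = 1 + ((D.b : ℝ) - 1) * (-p) := by ring
        _ ≤ (1 + -p) ^ (D.b - 1) := h14
        _ = (1 - p) ^ (D.b - 1) := by rw [← sub_eq_add_neg]
    have h16 : 0 ≤ 1 - ((D.b : ℝ) - 1) * p := by nlinarith
    exact mul_le_mul (hY.s2l f c hc1 hc2) (h13.trans h11) h16 (pr_nonneg hY.prob _)
  have h17 := Finset.sum_le_sum (s := (Finset.univ : Finset (Fin D.b))) fun j _ => h5 j
  refine le_trans ?_ h17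
  rw [Finset.sum_const, Finset.card_univ, Fintype.card_fin, nsmul_eq_mul]
  have h18 : (1 - (δ + D.b * p)) ≤ (1 - δ) * (1 - ((D.b : ℝ) - 1) * p) := by
    have h19 : 0 ≤ δ * (((D.b : ℝ) - 1) * p) :=
      mul_nonneg hδ0 (mul_nonneg (by linarith) hp.le)
    nlinarith
  calc (1 - (δ + D.b * p)) * ((D.b * p) / (D.k f : ℝ) ^ 2) ≤
      ((1 - δ) * (1 - ((D.b : ℝ) - 1) * p)) * ((D.b * p) / (D.k f : ℝ) ^ 2) :=
        mul_le_mul_of_nonneg_right h18 (by positivity)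
    _ = (D.b : ℝ) * ((1 - δ) * (p / (D.k f : ℝ) ^ 2) * (1 - ((D.b : ℝ) - 1) * p)) := by ring

end Pool.Agent.Lib.H93A
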