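import Pool.Agent.Lib.H93A.T1A
import Pool.Agent.Lib.H93A.T1B
import Pool.Agent.Lib.H93A.P2B

/-!
# H93A, T1D: the step: (S3)

See `PROOF.md`.
-/

set_option autoImplicit false

open Finset
open scoped Classical

namespace Pool.Agent.Lib.H93A

variable {Q R M : Type} [Fintype Q] [Fintype R] [Fintype M] {D : Core Q R M} {Ω : Type} [Fintype Ω]

/-- (S3): union bound over pairs of copies; same copy: `s3`, different copies: `s2u` twice -/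
theorem step_s3 {kmax j0 : ℕ} {K c1 θ1 ε d s p κ δ : ℝ} (hD : CoreHyp D kmax j0 K c1 θ1 ε d)
    {Y : Sys D Ω} (hY : SysHyp Y p κ δ)
    (hs : 0 ≤ s) (hw : s * (kmax : ℝ) ^ (2 * D.b) ≤ D.N * p ^ (D.b - 1))
    (f f' : M) (c c' : ℕ × ℕ) (hff : f ≠ f') :
    pr (stepμ Y s p) (fun z => (f ∈ stepP Y z ∧ stepC Y z f = c) ∧
        (f' ∈ stepP Y z ∧ stepC Y z f' = c')) ≤
      ((D.b * p) / (D.k f : ℝ) ^ 2) * ((D.b * p) / (D.k f' : ℝ) ^ 2) := by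
  have hpr := step_isProb hD hY hs hw
  have hp := hY.p_pos
  have h1 : pr (stepμ Y s p) (fun z => (f ∈ stepP Y z ∧ stepC Y z f = c) ∧
        (f' ∈ stepP Y z ∧ stepC Y z f' = c')) ≤
      pr (stepμ Y s p) (fun z => ∃ q ∈ (Finset.univ : Finset (Fin D.b × Fin D.b)),
        (f ∈ Y.P (z.1 q.1) ∧ Y.C (z.1 q.1) f = c) ∧
        (f' ∈ Y.P (z.1 q.2) ∧ Y.C (z.1 q.2) f' = c')) := by
    refine pr_mono hpr fun z hz => ?_
    obtain ⟨i, _, hi⟩ := t1b_mem hz.1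
    obtain ⟨j, _, hj⟩ := t1b_mem hz.2
    exact ⟨(i, j), Finset.mem_univ _, hi, hj⟩
  have h2 := pr_exists_le hpr (Finset.univ : Finset (Fin D.b × Fin D.b))
    (fun (q : Fin D.b × Fin D.b) (z : StepΩ D Ω) =>
        (f ∈ Y.P (z.1 q.1) ∧ Y.C (z.1 q.1) f = c) ∧
        (f' ∈ Y.P (z.1 q.2) ∧ Y.C (z.1 q.2) f' = c'))
  refine (h1.trans h2).trans ?_
  have h3 : ∀ q : Fin D.b × Fin D.b, pr (stepμ Y s p) (fun z =>
        (f ∈ Y.P (z.1 q.1) ∧ Y.C (z.1 q.1) f = c) ∧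
        (f' ∈ Y.P (z.1 q.2) ∧ Y.C (z.1 q.2) f' = c')) ≤
        (p / (D.k f : ℝ) ^ 2) * (p / (D.k f' : ℝ) ^ 2) := by
    rintro ⟨i, j⟩
    by_cases hij : i = j
    · subst hij
      have h4 := pr_step_copy (w := wt D s p) D.b hY.prob i
        (fun ω => (f ∈ Y.P ω ∧ Y.C ω f = c) ∧ (f' ∈ Y.P ω ∧ Y.C ω f' = c'))
      unfold stepμ
      exact h4.le.trans (hY.s3 f f' c c' hff)
    · have h4 := pr_step_copy_two (w := wt D s p) D.b hY.prob i j hij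
        (fun ω => f ∈ Y.P ω ∧ Y.C ω f = c) (fun ω => f' ∈ Y.P ω ∧ Y.C ω f' = c')
      unfold stepμ
      refine h4.le.trans ?_
      exact mul_le_mul (hY.s2u f c) (hY.s2u f' c') (pr_nonneg hY.prob _) (by positivity)
  calc ∑ q : Fin D.b × Fin D.b, pr (stepμ Y s p) (fun z =>
        (f ∈ Y.P (z.1 q.1) ∧ Y.C (z.1 q.1) f = c) ∧
        (f' ∈ Y.P (z.1 q.2) ∧ Y.C (z.1 q.2) f' = c')) ≤
      ∑ _q : Fin D.b × Fin D.b, (p / (D.k f : ℝ) ^ 2) * (p / (D.k f' : ℝ) ^ 2) :=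
        Finset.sum_le_sum fun q _ => h3 q
    _ = ((D.b * p) / (D.k f : ℝ) ^ 2) * ((D.b * p) / (D.k f' : ℝ) ^ 2) := by
        rw [Finset.sum_const, Finset.card_univ, Fintype.card_prod, Fintype.card_fin, nsmul_eq_mul]
        push_cast
        ring

end Pool.Agent.Lib.H93A
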