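import Pool.Agent.Lib.H93A.T1A

/-!
# H93A, T2A: the step: probability (new, set of old ones)

See `PROOF.md`.
-/

set_option autoImplicit false

open Finset
open scoped Classical

namespace Pool.Agent.Lib.H93A

variable {Q R M : Type} [Fintype Q] [Fintype R] [Fintype M] {D : Core Q R M} {Ω : Type} [Fintype Ω]

/-- An event in copy `j` and a new element: the other copies contribute `∏ p/k²`. -/
theorem pr_new_copy {kmax j0 : ℕ} {K c1 θ1 ε d s p κ δ : ℝ} (_hD : CoreHyp D kmax j0 K c1 θ1 ε d)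
    {Y : Sys D Ω} (hY : SysHyp Y p κ δ) (T : ℕ)
    (hs : 0 ≤ s) (_hw : s * (kmax : ℝ) ^ (2 * D.b) ≤ D.N * p ^ (D.b - 1))
    (y : Q × R) (hy : y ∈ D.X) (j : Fin D.b) (B : Ω → Prop) :
    pr (stepμ Y s p) (fun z => y ∈ stepN Y T z ∧ B (z.1 j)) ≤
      pr Y.μ B * (s * (D.k (D.pos y j) : ℝ) ^ 2 / D.N) := by
  have hprob := step_isProb _hD hY hs _hw
  have hp := hY.p_pos
  have hkpos : ∀ f, (0 : ℝ) < (D.k f : ℝ) := fun f => by exact_mod_cast _hD.k_pos f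
  set A : Fin D.b → Ω → Prop := fun i ω => if i = j then B ω else
    (D.pos y i ∈ Y.P ω ∧ Y.C ω (D.pos y i) = D.cell (D.pos y i) y) with hA
  have h1 : pr (stepμ Y s p) (fun z => y ∈ stepN Y T z ∧ B (z.1 j)) ≤
      pr (stepμ Y s p) (fun z => (∀ i, A i (z.1 i)) ∧ z.2 y = true) := by
    apply pr_mono hprob
    rintro z ⟨hz, hB⟩
    unfold stepN at hz
    rw [mem_filter] at hz
    obtain ⟨-, hz1, hz2⟩ := hz
    refine ⟨fun i => ?_, hz1⟩
    rw [hA]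
    simp only
    split_ifs with hij
    · rw [hij]; exact hB
    · exact (hz2 i).1
  refine h1.trans ?_
  have h2 : pr (stepμ Y s p) (fun z => (∀ i, A i (z.1 i)) ∧ z.2 y = true) =
      (∏ i, pr Y.μ (A i)) * wt D s p y := pr_step_one D.b hY.prob A y
  rw [h2, ← mul_prod_erase univ _ (mem_univ j)]
  have hAj : pr Y.μ (A j) = pr Y.μ B := by
    have : A j = B := by
      funext ω
      rw [hA]
      simp
    rw [this]
  have hAi : ∏ i ∈ univ.erase j, pr Y.μ (A i) ≤ ∏ i ∈ univ.erase j, (p / (D.k (D.pos y i) : ℝ) ^ 2) := by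
    apply prod_le_prod
    · intro i _
      exact pr_nonneg hY.prob _
    · intro i hi
      have hij := ne_of_mem_erase hi
      have : A i = fun ω => (D.pos y i ∈ Y.P ω ∧ Y.C ω (D.pos y i) = D.cell (D.pos y i) y) := by
        funext ω
        rw [hA]
        simp [hij]
      rw [this]
      exact hY.s2u _ _
  have hwt : wt D s p y = (s / (D.N * p ^ (D.b - 1))) *
      ((D.k (D.pos y j) : ℝ) ^ 2 * ∏ i ∈ univ.erase j, (D.k (D.pos y i) : ℝ) ^ 2) := by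
    unfold wt
    rw [if_pos hy, mul_prod_erase univ (fun i => (D.k (D.pos y i) : ℝ) ^ 2) (mem_univ j)]
  have hN : (0 : ℝ) < D.N := by exact_mod_cast _hD.N_pos
  have hpp : (∏ i ∈ univ.erase j, (p / (D.k (D.pos y i) : ℝ) ^ 2)) *
      ∏ i ∈ univ.erase j, (D.k (D.pos y i) : ℝ) ^ 2 = p ^ (D.b - 1) := by
    rw [← prod_mul_distrib]
    have : ∀ i ∈ univ.erase j, (p / (D.k (D.pos y i) : ℝ) ^ 2) * (D.k (D.pos y i) : ℝ) ^ 2 = p := by
      intro i _
      have := hkpos (D.pos y i)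
      field_simp
    rw [prod_congr rfl this, prod_const, card_erase_of_mem (mem_univ j), card_univ, Fintype.card_fin]
  rw [hAj, hwt]
  have hB0 := pr_nonneg hY.prob B
  calc pr Y.μ B * (∏ i ∈ univ.erase j, pr Y.μ (A i)) * ((s / (D.N * p ^ (D.b - 1))) *
      ((D.k (D.pos y j) : ℝ) ^ 2 * ∏ i ∈ univ.erase j, (D.k (D.pos y i) : ℝ) ^ 2))
      ≤ pr Y.μ B * (∏ i ∈ univ.erase j, (p / (D.k (D.pos y i) : ℝ) ^ 2)) * ((s / (D.N * p ^ (D.b - 1))) *
      ((D.k (D.pos y j) : ℝ) ^ 2 * ∏ i ∈ univ.erase j, (D.k (D.pos y i) : ℝ) ^ 2)) := by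
        apply mul_le_mul_of_nonneg_right (mul_le_mul_of_nonneg_left hAi hB0)
        positivity
    _ = pr Y.μ B * ((s / (D.N * p ^ (D.b - 1))) * ((D.k (D.pos y j) : ℝ) ^ 2 *
        ((∏ i ∈ univ.erase j, (p / (D.k (D.pos y i) : ℝ) ^ 2)) *
        ∏ i ∈ univ.erase j, (D.k (D.pos y i) : ℝ) ^ 2))) := by ring
    _ = pr Y.μ B * (s * (D.k (D.pos y j) : ℝ) ^ 2 / D.N) := by
        rw [hpp]
        have : p ^ (D.b - 1) ≠ 0 := by positivity
        field_simp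


/-- The probability that `y` is new, that `f = pos y j` is in `P^j` with cell `c` and that the set `Z` is in
`S^j`: product of `w(y)`, of copy `j` (`s4`) and of the other copies (`s2u`). -/
theorem pr_new_and_sub {kmax j0 : ℕ} {K c1 θ1 ε d s p κ δ : ℝ} (hD : CoreHyp D kmax j0 K c1 θ1 ε d)
    {Y : Sys D Ω} (hY : SysHyp Y p κ δ) (T : ℕ)
    (hs : 0 ≤ s) (hw : s * (kmax : ℝ) ^ (2 * D.b) ≤ D.N * p ^ (D.b - 1))
    (y : Q × R) (hy : y ∈ D.X) (j : Fin D.b) (c : ℕ × ℕ)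
    (Z : Finset (Q × R)) (hZ : Z ⊆ D.X) (hZf : ∀ x ∈ Z, D.inV (D.pos y j) x) :
    pr (stepμ Y s p) (fun z => y ∈ stepN Y T z ∧
        (D.pos y j ∈ Y.P (z.1 j) ∧ Y.C (z.1 j) (D.pos y j) = c) ∧ Z ⊆ Y.S (z.1 j)) ≤
      (p / (D.k (D.pos y j) : ℝ) ^ 2) * (κ * (D.k (D.pos y j) : ℝ) ^ 2 / D.N) ^ Z.card *
        (s * (D.k (D.pos y j) : ℝ) ^ 2 / D.N) := by
  have h1 := pr_new_copy hD hY T hs hw y hy j
    (fun ω => (D.pos y j ∈ Y.P ω ∧ Y.C ω (D.pos y j) = c) ∧ Z ⊆ Y.S ω)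
  have hN : (0 : ℝ) < D.N := by exact_mod_cast hD.N_pos
  refine h1.trans (mul_le_mul_of_nonneg_right (hY.s4 _ _ Z hZ hZf) ?_)
  positivity

end Pool.Agent.Lib.H93A
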