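import Pool.Agent.Lib.H93A.T1A

/-!
# H93A, T2B: the step: (S4), deterministic part

See `PROOF.md`.
-/

set_option autoImplicit false

open Finset
open scoped Classical

namespace Pool.Agent.Lib.H93A

variable {Q R M : Type} [Fintype Q] [Fintype R] [Fintype M] {D : Core Q R M} {Ω : Type} [Fintype Ω]

/-- a member of `U` containing `f` puts `f` in some copy -/
theorem t2b_mem {p κ δ : ℝ} {Y : Sys D Ω} (hY : SysHyp Y p κ δ) (T : ℕ) (z : StepΩ D Ω)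
    (f : M) (y : Q × R) (hyf : D.inV f y) (hy : y ∈ stepU Y T z) :
    (∃ j, y ∈ Y.S (z.1 j) ∧ f ∈ Y.P (z.1 j)) ∨
      (y ∈ stepN Y T z ∧ ∃ i, D.pos y i = f ∧ f ∈ Y.P (z.1 i)) := by
  obtain ⟨i, hi⟩ := hyf
  unfold stepU at hy
  rw [mem_union] at hy
  rcases hy with hy | hy
  · right
    refine ⟨hy, i, hi, ?_⟩
    unfold stepN at hy
    rw [mem_filter] at hy
    have h1 := (hy.2.2 i).1.1
    rwa [hi] at h1
  · left
    rw [mem_biUnion] at hy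
    obtain ⟨j, -, hj⟩ := hy
    refine ⟨j, hj, ?_⟩
    have h1 := (hY.s1' (z.1 j) y hj i).1
    rwa [hi] at h1


/-- (S4), deterministic part: if `Z` is nonempty, `Z ⊆ S'` and all elements of `Z` contain `f`, then `f`
is in exactly one `P^j`, `C' f = C^j f`, and either `Z ⊆ S^j` or for some `y ∈ Z` with `pos y j = f`:
`y` is new and `Z \ {y} ⊆ S^j`. -/
theorem step_s4_det {p κ δ : ℝ} {Y : Sys D Ω} (hY : SysHyp Y p κ δ) (T : ℕ) (z : StepΩ D Ω)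
    (f : M) (Z : Finset (Q × R)) (hZ : Z.Nonempty) (hZf : ∀ y ∈ Z, D.inV f y)
    (hZS : Z ⊆ stepS Y T z) :
    ∃ j, f ∈ Y.P (z.1 j) ∧ stepC Y z f = Y.C (z.1 j) f ∧
      (Z ⊆ Y.S (z.1 j) ∨ ∃ y ∈ Z, D.pos y j = f ∧ y ∈ stepN Y T z ∧ Z.erase y ⊆ Y.S (z.1 j)) := by
  have hmem : ∀ y ∈ Z, y ∈ stepU Y T z ∧ ¬ Spoiled Y T z y := by
    intro y hy
    have h1 := hZS hy
    unfold stepS at h1
    exact mem_filter.1 h1
  obtain ⟨y0, hy0⟩ := hZ
  have hO : ¬ stepO Y z f := by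
    intro hO
    exact (hmem y0 hy0).2 (Or.inl ⟨f, hZf y0 hy0, hO⟩)
  have huniq : ∀ i j, f ∈ Y.P (z.1 i) → f ∈ Y.P (z.1 j) → i = j := by
    intro i j hi hj
    by_contra hij
    exact hO ⟨i, j, hij, hi, hj⟩
  have hex : ∃ j, f ∈ Y.P (z.1 j) := by
    rcases t2b_mem hY T z f y0 (hZf y0 hy0) (hmem y0 hy0).1 with ⟨j, -, hj⟩ | ⟨-, i, -, hi⟩
    · exact ⟨j, hj⟩
    · exact ⟨i, hi⟩
  obtain ⟨j, hj⟩ := hex
  refine ⟨j, hj, stepC_eq Y z f j hj hO, ?_⟩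
  by_cases hall : Z ⊆ Y.S (z.1 j)
  · exact Or.inl hall
  · right
    rw [not_subset] at hall
    obtain ⟨y, hyZ, hyS⟩ := hall
    have hnew : ∀ y' ∈ Z, y' ∉ Y.S (z.1 j) → y' ∈ stepN Y T z ∧ D.pos y' j = f := by
      intro y' hy' hyS'
      rcases t2b_mem hY T z f y' (hZf y' hy') (hmem y' hy').1 with ⟨i, h1, h2⟩ | ⟨h1, i, h2, h3⟩
      · exfalso
        have h4 := huniq i j h2 hj
        rw [h4] at h1
        exact hyS' h1
      · have h4 := huniq i j h3 hj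
        rw [h4] at h2
        exact ⟨h1, h2⟩
    have h5 := hnew y hyZ hyS
    refine ⟨y, hyZ, h5.2, h5.1, ?_⟩
    intro y' hy'
    rw [mem_erase] at hy'
    by_contra hc
    have h6 := hnew y' hy'.2 hc
    exact (hmem y hyZ).2 (Or.inr (Or.inl ⟨h5.1, y', h6.1, hy'.1, f, hZf y hyZ, hZf y' hy'.2⟩))

end Pool.Agent.Lib.H93A
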