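import Pool.Agent.Lib.H93A.P2B
import Pool.Agent.Lib.H93A.T1B
import Pool.Agent.Lib.H93A.T2A
import Pool.Agent.Lib.H93A.T2B

/-!
# H93A, T2C: the step: (S4)

See `PROOF.md`.
-/

set_option autoImplicit false

open Finset
open scoped Classical

namespace Pool.Agent.Lib.H93A

variable {Q R M : Type} [Fintype Q] [Fintype R] [Fintype M] {D : Core Q R M} {Ω : Type} [Fintype Ω]

omit [Fintype Q] [Fintype R] [Fintype M] [Fintype Ω] in
theorem t2c_pow {a b : ℝ} (ha : 0 ≤ a) (hb : 0 ≤ b) (r : ℕ) :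
    a ^ (r + 1) + (r + 1) * (a ^ r * b) ≤ (a + b) ^ (r + 1) := by
  induction r with
  | zero => simp
  | succ r ih =>
    have h1 : 0 ≤ a ^ r := pow_nonneg ha r
    calc a ^ (r + 1 + 1) + ((r + 1 : ℕ) + 1) * (a ^ (r + 1) * b)
        ≤ (a ^ (r + 1) + (r + 1) * (a ^ r * b)) * (a + b) := by
          push_cast
          have h2 : 0 ≤ ((r : ℝ) + 1) * (a ^ r * b * b) := by positivity
          have e : (a ^ (r + 1) + ((r : ℝ) + 1) * (a ^ r * b)) * (a + b) =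
              a ^ (r + 1 + 1) + ((r : ℝ) + 1 + 1) * (a ^ (r + 1) * b) +
              ((r : ℝ) + 1) * (a ^ r * b * b) := by ring
          rw [e]
          linarith
      _ ≤ (a + b) ^ (r + 1) * (a + b) := mul_le_mul_of_nonneg_right ih (by positivity)
      _ = (a + b) ^ (r + 1 + 1) := by ring


/-- (S4) -/
theorem step_s4 {kmax j0 : ℕ} {K c1 θ1 ε d s p κ δ : ℝ} (hD : CoreHyp D kmax j0 K c1 θ1 ε d)
    {Y : Sys D Ω} (hY : SysHyp Y p κ δ) (T : ℕ)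
    (hs : 0 ≤ s) (hw : s * (kmax : ℝ) ^ (2 * D.b) ≤ D.N * p ^ (D.b - 1))
    (f : M) (c : ℕ × ℕ) (Z : Finset (Q × R)) (hZ : Z ⊆ D.X) (hZf : ∀ y ∈ Z, D.inV f y) :
    pr (stepμ Y s p) (fun z => (f ∈ stepP Y z ∧ stepC Y z f = c) ∧ Z ⊆ stepS Y T z) ≤
      ((D.b * p) / (D.k f : ℝ) ^ 2) * ((κ + s) * (D.k f : ℝ) ^ 2 / D.N) ^ Z.card := by
  have hprob := step_isProb hD hY hs hw
  have hN : (0 : ℝ) < D.N := by exact_mod_cast hD.N_pos
  have hk : (0 : ℝ) < D.k f := by exact_mod_cast hD.k_pos f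
  have hκ := hY.κ_nonneg
  have hp := hY.p_pos
  rcases Z.eq_empty_or_nonempty with hZe | hZne
  · subst hZe
    rw [card_empty, pow_zero, mul_one]
    refine le_trans ?_ (step_s2u hD hY hs hw f c)
    apply pr_mono hprob
    rintro z ⟨h1, -⟩
    exact h1
  · obtain ⟨r, hr⟩ : ∃ r, Z.card = r + 1 := ⟨Z.card - 1, by have := card_pos.2 hZne; omega⟩
    set a : ℝ := κ * (D.k f : ℝ) ^ 2 / D.N with ha
    set b' : ℝ := s * (D.k f : ℝ) ^ 2 / D.N with hb'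
    have ha0 : 0 ≤ a := by rw [ha]; positivity
    have hb0 : 0 ≤ b' := by rw [hb']; positivity
    -- the events
    have h1 : pr (stepμ Y s p) (fun z => (f ∈ stepP Y z ∧ stepC Y z f = c) ∧ Z ⊆ stepS Y T z) ≤
        pr (stepμ Y s p) (fun z => ∃ j ∈ (univ : Finset (Fin D.b)),
          ((f ∈ Y.P (z.1 j) ∧ Y.C (z.1 j) f = c) ∧ Z ⊆ Y.S (z.1 j)) ∨
          (∃ y ∈ Z, D.pos y j = f ∧ y ∈ stepN Y T z ∧ (f ∈ Y.P (z.1 j) ∧ Y.C (z.1 j) f = c) ∧
            Z.erase y ⊆ Y.S (z.1 j))) := by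
      apply pr_mono hprob
      rintro z ⟨⟨-, hc⟩, hZS⟩
      obtain ⟨j, hj, hC, hcase⟩ := step_s4_det hY T z f Z hZne hZf hZS
      refine ⟨j, mem_univ j, ?_⟩
      rw [hC] at hc
      rcases hcase with h2 | ⟨y, hy, h3, h4, h5⟩
      · exact Or.inl ⟨⟨hj, hc⟩, h2⟩
      · exact Or.inr ⟨y, hy, h3, h4, ⟨hj, hc⟩, h5⟩
    have hone : ∀ j : Fin D.b, pr (stepμ Y s p) (fun z =>
        ((f ∈ Y.P (z.1 j) ∧ Y.C (z.1 j) f = c) ∧ Z ⊆ Y.S (z.1 j)) ∨
          (∃ y ∈ Z, D.pos y j = f ∧ y ∈ stepN Y T z ∧ (f ∈ Y.P (z.1 j) ∧ Y.C (z.1 j) f = c) ∧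
            Z.erase y ⊆ Y.S (z.1 j))) ≤ (p / (D.k f : ℝ) ^ 2) * (a + b') ^ (r + 1) := by
      intro j
      refine (pr_or_le hprob _ _).trans ?_
      have h2 : pr (stepμ Y s p) (fun z => (f ∈ Y.P (z.1 j) ∧ Y.C (z.1 j) f = c) ∧ Z ⊆ Y.S (z.1 j)) ≤
          (p / (D.k f : ℝ) ^ 2) * a ^ (r + 1) := by
        have h3 : pr (stepμ Y s p) (fun z => (f ∈ Y.P (z.1 j) ∧ Y.C (z.1 j) f = c) ∧ Z ⊆ Y.S (z.1 j)) =
            pr Y.μ (fun ω => (f ∈ Y.P ω ∧ Y.C ω f = c) ∧ Z ⊆ Y.S ω) :=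
          pr_step_copy D.b hY.prob j (fun ω => (f ∈ Y.P ω ∧ Y.C ω f = c) ∧ Z ⊆ Y.S ω)
        rw [h3, ← hr]
        exact hY.s4 f c Z hZ hZf
      have h3 : pr (stepμ Y s p) (fun z => ∃ y ∈ Z, D.pos y j = f ∧ y ∈ stepN Y T z ∧
          (f ∈ Y.P (z.1 j) ∧ Y.C (z.1 j) f = c) ∧ Z.erase y ⊆ Y.S (z.1 j)) ≤
          (r + 1) * ((p / (D.k f : ℝ) ^ 2) * a ^ r * b') := by
        refine (pr_exists_le hprob Z _).trans ?_
        have h4 : ∀ y ∈ Z, pr (stepμ Y s p) (fun z => D.pos y j = f ∧ y ∈ stepN Y T z ∧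
            (f ∈ Y.P (z.1 j) ∧ Y.C (z.1 j) f = c) ∧ Z.erase y ⊆ Y.S (z.1 j)) ≤
            (p / (D.k f : ℝ) ^ 2) * a ^ r * b' := by
          intro y hy
          by_cases hpos : D.pos y j = f
          · have h5 := pr_new_and_sub hD hY T hs hw y (hZ hy) j c (Z.erase y)
              ((erase_subset _ _).trans hZ) (fun x hx => by rw [hpos]; exact hZf x (mem_of_mem_erase hx))
            rw [hpos, card_erase_of_mem hy, hr, Nat.add_sub_cancel] at h5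
            refine le_trans (pr_mono hprob ?_) h5
            rintro z ⟨-, h6, h7, h8⟩
            exact ⟨h6, h7, h8⟩
          · have h5 : pr (stepμ Y s p) (fun z => D.pos y j = f ∧ y ∈ stepN Y T z ∧
                (f ∈ Y.P (z.1 j) ∧ Y.C (z.1 j) f = c) ∧ Z.erase y ⊆ Y.S (z.1 j)) ≤
                pr (stepμ Y s p) (fun _ => False) := pr_mono hprob fun z hz => hpos hz.1
            rw [pr_false] at h5
            refine h5.trans ?_
            positivity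
        refine (sum_le_card_nsmul _ _ _ h4).trans (le_of_eq ?_)
        rw [hr, nsmul_eq_mul]
        push_cast
        ring
      calc _ ≤ (p / (D.k f : ℝ) ^ 2) * a ^ (r + 1) + (r + 1) * ((p / (D.k f : ℝ) ^ 2) * a ^ r * b') :=
            add_le_add h2 h3
        _ = (p / (D.k f : ℝ) ^ 2) * (a ^ (r + 1) + (r + 1) * (a ^ r * b')) := by ring
        _ ≤ _ := mul_le_mul_of_nonneg_left (t2c_pow ha0 hb0 r) (by positivity)
    refine h1.trans ((pr_exists_le hprob univ _).trans ?_)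
    refine (sum_le_card_nsmul _ _ _ (fun j _ => hone j)).trans (le_of_eq ?_)
    rw [card_univ, Fintype.card_fin, nsmul_eq_mul, hr]
    have e1 : (κ + s) * (D.k f : ℝ) ^ 2 / D.N = a + b' := by rw [ha, hb']; ring
    rw [e1]
    ring

end Pool.Agent.Lib.H93A
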