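import Pool.Agent.Lib.H93A.T2A
import Pool.Agent.Lib.H93A.T1A

/-!
# H93A, T2D: the step: probability (new, f in P)

See `PROOF.md`.
-/

set_option autoImplicit false

open Finset
open scoped Classical

namespace Pool.Agent.Lib.H93A

variable {Q R M : Type} [Fintype Q] [Fintype R] [Fintype M] {D : Core Q R M} {Ω : Type} [Fintype Ω]

/-- The probability that `x` is new and `f ∈ P^j`, `C^j f = c`, for `f` not in `V(x)`: `s3` in copy `j`. -/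
theorem pr_new_and_mem {kmax j0 : ℕ} {K c1 θ1 ε d s p κ δ : ℝ} (hD : CoreHyp D kmax j0 K c1 θ1 ε d)
    {Y : Sys D Ω} (hY : SysHyp Y p κ δ) (T : ℕ)
    (hs : 0 ≤ s) (hw : s * (kmax : ℝ) ^ (2 * D.b) ≤ D.N * p ^ (D.b - 1))
    (x : Q × R) (hx : x ∈ D.X) (j : Fin D.b) (f : M) (hf : f ≠ D.pos x j) (c : ℕ × ℕ) :
    pr (stepμ Y s p) (fun z => x ∈ stepN Y T z ∧ (f ∈ Y.P (z.1 j) ∧ Y.C (z.1 j) f = c)) ≤
      (s * p / D.N) * (p / (D.k f : ℝ) ^ 2) := by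
  have hprob := step_isProb hD hY hs hw
  have hN : (0 : ℝ) < D.N := by exact_mod_cast hD.N_pos
  have hk : ∀ f, (0 : ℝ) < (D.k f : ℝ) := fun f => by exact_mod_cast hD.k_pos f
  have h1 := pr_new_copy hD hY T hs hw x hx j
    (fun ω => (D.pos x j ∈ Y.P ω ∧ Y.C ω (D.pos x j) = D.cell (D.pos x j) x) ∧
      (f ∈ Y.P ω ∧ Y.C ω f = c))
  have h2 : pr (stepμ Y s p) (fun z => x ∈ stepN Y T z ∧ (f ∈ Y.P (z.1 j) ∧ Y.C (z.1 j) f = c)) ≤
      pr (stepμ Y s p) (fun z => x ∈ stepN Y T z ∧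
        ((D.pos x j ∈ Y.P (z.1 j) ∧ Y.C (z.1 j) (D.pos x j) = D.cell (D.pos x j) x) ∧
      (f ∈ Y.P (z.1 j) ∧ Y.C (z.1 j) f = c))) := by
    apply pr_mono hprob
    rintro z ⟨h3, h4⟩
    refine ⟨h3, ?_, h4⟩
    unfold stepN at h3
    rw [mem_filter] at h3
    exact (h3.2.2 j).1
  refine h2.trans (h1.trans ?_)
  have h3 := hY.s3 (D.pos x j) f (D.cell (D.pos x j) x) c (Ne.symm hf)
  have hkj := hk (D.pos x j)
  calc _ ≤ ((p / (D.k (D.pos x j) : ℝ) ^ 2) * (p / (D.k f : ℝ) ^ 2)) *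
        (s * (D.k (D.pos x j) : ℝ) ^ 2 / D.N) := mul_le_mul_of_nonneg_right h3 (by positivity)
    _ = (s * p / D.N) * (p / (D.k f : ℝ) ^ 2) := by
        field_simp

end Pool.Agent.Lib.H93A
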