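import Pool.Agent.Lib.H93A.T2D
import Pool.Agent.Lib.H93A.O1A
import Pool.Agent.Lib.H93A.P2B

/-!
# H93A, T2E: the step: (S5)

See `PROOF.md`.
-/

set_option autoImplicit false

open Finset
open scoped Classical

namespace Pool.Agent.Lib.H93A

variable {Q R M : Type} [Fintype Q] [Fintype R] [Fintype M] {D : Core Q R M} {Ω : Type} [Fintype Ω]

/-- (S5) -/
theorem step_s5 {kmax j0 : ℕ} {K c1 θ1 ε d s p κ δ : ℝ} (hD : CoreHyp D kmax j0 K c1 θ1 ε d)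
    {Y : Sys D Ω} (hY : SysHyp Y p κ δ) (T : ℕ)
    (hs : 0 ≤ s) (hw : s * (kmax : ℝ) ^ (2 * D.b) ≤ D.N * p ^ (D.b - 1))
    (x : Q × R) (hx : x ∈ D.X) (f : M) (hf : ¬ D.inV f x) (c : ℕ × ℕ) :
    pr (stepμ Y s p) (fun z => x ∈ stepS Y T z ∧ (f ∈ stepP Y z ∧ stepC Y z f = c)) ≤
      ((κ + s) * (D.b * p) / D.N) * ((D.b * p) / (D.k f : ℝ) ^ 2) := by
  have hprob := step_isProb hD hY hs hw
  have hN : (0 : ℝ) < D.N := by exact_mod_cast hD.N_pos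
  have hk : (0 : ℝ) < D.k f := by exact_mod_cast hD.k_pos f
  have hκ := hY.κ_nonneg
  have hp := hY.p_pos
  have h1 : pr (stepμ Y s p) (fun z => x ∈ stepS Y T z ∧ (f ∈ stepP Y z ∧ stepC Y z f = c)) ≤
      pr (stepμ Y s p) (fun z =>
        (∃ q ∈ (univ : Finset (Fin D.b × Fin D.b)), x ∈ Y.S (z.1 q.1) ∧
          (f ∈ Y.P (z.1 q.2) ∧ Y.C (z.1 q.2) f = c)) ∨
        (∃ j ∈ (univ : Finset (Fin D.b)), x ∈ stepN Y T z ∧
          (f ∈ Y.P (z.1 j) ∧ Y.C (z.1 j) f = c))) := by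
    apply pr_mono hprob
    rintro z ⟨hx', hf', hc⟩
    have hex : ∃ j, f ∈ Y.P (z.1 j) := by
      unfold stepP at hf'
      rw [mem_biUnion] at hf'
      obtain ⟨j, -, hj⟩ := hf'
      exact ⟨j, hj⟩
    have hC : stepC Y z f = Y.C (z.1 hex.choose) f := by
      unfold stepC
      rw [dif_pos hex]
    rw [hC] at hc
    have hU : x ∈ stepU Y T z := by
      unfold stepS at hx'
      exact (mem_filter.1 hx').1
    unfold stepU at hU
    rw [mem_union, mem_biUnion] at hU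
    rcases hU with hU | ⟨i, -, hi⟩
    · exact Or.inr ⟨hex.choose, mem_univ _, hU, hex.choose_spec, hc⟩
    · exact Or.inl ⟨(i, hex.choose), mem_univ _, hi, hex.choose_spec, hc⟩
  refine h1.trans ((pr_or_le hprob _ _).trans ?_)
  have h2 : pr (stepμ Y s p) (fun z => ∃ q ∈ (univ : Finset (Fin D.b × Fin D.b)), x ∈ Y.S (z.1 q.1) ∧
      (f ∈ Y.P (z.1 q.2) ∧ Y.C (z.1 q.2) f = c)) ≤
      ((D.b : ℝ) * D.b) * ((κ * p / D.N) * (p / (D.k f : ℝ) ^ 2)) := by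
    refine (pr_exists_le hprob univ _).trans ?_
    refine (sum_le_card_nsmul _ _ ((κ * p / D.N) * (p / (D.k f : ℝ) ^ 2)) ?_).trans (le_of_eq ?_)
    · rintro ⟨i, j⟩ -
      by_cases hij : i = j
      · subst hij
        have h3 : pr (stepμ Y s p) (fun z => x ∈ Y.S (z.1 i) ∧ (f ∈ Y.P (z.1 i) ∧ Y.C (z.1 i) f = c)) =
            pr Y.μ (fun ω => x ∈ Y.S ω ∧ (f ∈ Y.P ω ∧ Y.C ω f = c)) :=
          pr_step_copy D.b hY.prob i (fun ω => x ∈ Y.S ω ∧ (f ∈ Y.P ω ∧ Y.C ω f = c))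
        rw [h3]
        exact hY.s5 x hx f hf c
      · have h3 : pr (stepμ Y s p) (fun z => x ∈ Y.S (z.1 i) ∧ (f ∈ Y.P (z.1 j) ∧ Y.C (z.1 j) f = c)) =
            pr Y.μ (fun ω => x ∈ Y.S ω) * pr Y.μ (fun ω => f ∈ Y.P ω ∧ Y.C ω f = c) :=
          pr_step_copy_two D.b hY.prob i j hij (fun ω => x ∈ Y.S ω) (fun ω => f ∈ Y.P ω ∧ Y.C ω f = c)
        rw [h3]
        exact mul_le_mul (pr_mem_S_le hD hY x hx) (hY.s2u f c) (pr_nonneg hY.prob _) (by positivity)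
    · rw [card_univ, Fintype.card_prod, Fintype.card_fin, nsmul_eq_mul]
      push_cast
      ring
  have h3 : pr (stepμ Y s p) (fun z => ∃ j ∈ (univ : Finset (Fin D.b)), x ∈ stepN Y T z ∧
      (f ∈ Y.P (z.1 j) ∧ Y.C (z.1 j) f = c)) ≤
      (D.b : ℝ) * ((s * p / D.N) * (p / (D.k f : ℝ) ^ 2)) := by
    refine (pr_exists_le hprob univ _).trans ?_
    refine (sum_le_card_nsmul _ _ ((s * p / D.N) * (p / (D.k f : ℝ) ^ 2)) ?_).trans (le_of_eq ?_)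
    · intro j _
      exact pr_new_and_mem hD hY T hs hw x hx j f (fun h => hf ⟨j, h.symm⟩) c
    · rw [card_univ, Fintype.card_fin, nsmul_eq_mul]
  have hb : (1 : ℝ) ≤ D.b := by exact_mod_cast hD.b_pos
  have h4 : (D.b : ℝ) * ((s * p / D.N) * (p / (D.k f : ℝ) ^ 2)) ≤
      ((D.b : ℝ) * D.b) * ((s * p / D.N) * (p / (D.k f : ℝ) ^ 2)) := by
    apply mul_le_mul_of_nonneg_right _ (by positivity)
    nlinarith
  calc _ ≤ ((D.b : ℝ) * D.b) * ((κ * p / D.N) * (p / (D.k f : ℝ) ^ 2)) +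
        ((D.b : ℝ) * D.b) * ((s * p / D.N) * (p / (D.k f : ℝ) ^ 2)) := add_le_add h2 (h3.trans h4)
    _ = _ := by
        field_simp

end Pool.Agent.Lib.H93A
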