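import Pool.Agent.Lib.H93A.T3Defs

/-!
# H93A, T3A: the deterministic inequality

See `PROOF.md`.
-/

set_option autoImplicit false

open Finset
open scoped Classical

namespace Pool.Agent.Lib.H93A

variable {Q R M : Type} [Fintype Q] [Fintype R] [Fintype M] {D : Core Q R M} {Ω : Type} [Fintype Ω]

/-- new elements are not old: `x ∈ N0 ∩ S^j` would be in the history of `pos x j` in copy `j`, but `Open`
requires `x.1 ≠ x.1`. -/
theorem stepN_disjoint {p κ δ : ℝ} {Y : Sys D Ω} (hY : SysHyp Y p κ δ) (T : ℕ) (z : StepΩ D Ω)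
    (j : Fin D.b) : Disjoint (stepN Y T z) (Y.S (z.1 j)) := by
  rw [Finset.disjoint_left]
  intro x hx hx'
  have h1 := (Finset.mem_filter.1 hx).2.2 j
  have h2 := h1.2.2 x (Finset.mem_filter.2 ⟨hx', ⟨j, rfl⟩⟩)
  exact h2.2.1 rfl

/-- a union is almost as big as the sum -/
theorem t3a_union {ι α : Type} [DecidableEq ι] [DecidableEq α] (S : ι → Finset α) (s : Finset ι) :
    ∑ j ∈ s, (S j).card ≤ (s.biUnion S).card +
      ∑ i ∈ s, ∑ j ∈ s, if i = j then 0 else (S i ∩ S j).card := by
  induction s using Finset.induction_on with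
  | empty => simp
  | insert a s ha ih =>
    rw [Finset.sum_insert ha, Finset.biUnion_insert]
    have h1 := Finset.card_union_add_card_inter (S a) (s.biUnion S)
    have h2 : (S a ∩ s.biUnion S).card ≤ ∑ j ∈ s, (S a ∩ S j).card := by
      rw [Finset.inter_biUnion]
      exact Finset.card_biUnion_le
    have h3 : ∑ i ∈ s, ∑ j ∈ s, (if i = j then 0 else (S i ∩ S j).card) +
        ∑ j ∈ s, (S a ∩ S j).card ≤
        ∑ i ∈ insert a s, ∑ j ∈ insert a s, if i = j then 0 else (S i ∩ S j).card := by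
      rw [Finset.sum_insert ha]
      have h4 : ∑ j ∈ s, (S a ∩ S j).card ≤
          ∑ j ∈ insert a s, (if a = j then 0 else (S a ∩ S j).card) := by
        rw [Finset.sum_insert ha, if_pos rfl, zero_add]
        refine le_of_eq (Finset.sum_congr rfl fun j hj => ?_)
        rw [if_neg]
        rintro rfl
        exact ha hj
      have h5 : ∑ i ∈ s, ∑ j ∈ s, (if i = j then 0 else (S i ∩ S j).card) ≤
          ∑ i ∈ s, ∑ j ∈ insert a s, (if i = j then 0 else (S i ∩ S j).card) := by
        refine Finset.sum_le_sum fun i _ => ?_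
        exact Finset.sum_le_sum_of_subset (Finset.subset_insert a s)
      omega
    omega

/-- `O` and an index: a block in two copies is in a copy different from a given one -/
theorem t3a_other {Y : Sys D Ω} {z : StepΩ D Ω} {f : M} (h : stepO Y z f) (i : Fin D.b) :
    ∃ j, i ≠ j ∧ f ∈ Y.P (z.1 j) := by
  obtain ⟨a, b, hab, ha, hb⟩ := h
  by_cases h1 : i = a
  · exact ⟨b, fun h2 => hab (h1.symm.trans h2), hb⟩
  · exact ⟨a, h1, ha⟩

/-- spoiled new elements -/
theorem t3a_new {Y : Sys D Ω} (T : ℕ) (z : StepΩ D Ω) :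
    ((stepN Y T z).filter fun x => Spoiled Y T z x).card ≤
      nA Y T z + nB Y T z + nC Y T z +
      ∑ i, ∑ j, if i = j then 0 else ((stepN Y T z).filter fun x => D.pos x i ∈ Y.P (z.1 j)).card := by
  have hsub : ((stepN Y T z).filter fun x => Spoiled Y T z x) ⊆
      (((((stepN Y T z ×ˢ stepN Y T z).filter fun q =>
          q.1 ≠ q.2 ∧ ∃ f, D.inV f q.1 ∧ D.inV f q.2).image Prod.fst) ∪
        (((stepN Y T z ×ˢ stepN Y T z).filter fun q =>
          q.1 ≠ q.2 ∧ D.conf q.1 q.2 ∧ ¬ ∃ f, D.inV f q.1 ∧ D.inV f q.2).image Prod.fst)) ∪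
        (univ.biUnion fun j =>
          ((stepN Y T z ×ˢ Y.S (z.1 j)).filter fun q => D.conf q.1 q.2).image Prod.fst)) ∪
        (univ.biUnion fun i => univ.biUnion fun j => if i = j then (∅ : Finset (Q × R)) else
          (stepN Y T z).filter fun x => D.pos x i ∈ Y.P (z.1 j)) := by
    intro x hx
    obtain ⟨hx1, hx2⟩ := Finset.mem_filter.1 hx
    rcases hx2 with ⟨f, ⟨i, hi⟩, hf⟩ | ⟨-, x', hx', hne, hf⟩ | ⟨x', hx', hne, hconf⟩
    · refine Finset.mem_union_right _ ?_
      obtain ⟨j, hij, hj⟩ := t3a_other hf i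
      refine Finset.mem_biUnion.2 ⟨i, Finset.mem_univ _, Finset.mem_biUnion.2
        ⟨j, Finset.mem_univ _, ?_⟩⟩
      rw [if_neg hij]
      exact Finset.mem_filter.2 ⟨hx1, by rw [hi]; exact hj⟩
    · refine Finset.mem_union_left _ (Finset.mem_union_left _ (Finset.mem_union_left _ ?_))
      exact Finset.mem_image.2 ⟨(x, x'), Finset.mem_filter.2
        ⟨Finset.mem_product.2 ⟨hx1, hx'⟩, hne.symm, hf⟩, rfl⟩
    · rcases Finset.mem_union.1 hx' with h1 | h1
      · by_cases hf : ∃ f, D.inV f x ∧ D.inV f x'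
        · refine Finset.mem_union_left _ (Finset.mem_union_left _ (Finset.mem_union_left _ ?_))
          exact Finset.mem_image.2 ⟨(x, x'), Finset.mem_filter.2
            ⟨Finset.mem_product.2 ⟨hx1, h1⟩, hne.symm, hf⟩, rfl⟩
        · refine Finset.mem_union_left _ (Finset.mem_union_left _ (Finset.mem_union_right _ ?_))
          exact Finset.mem_image.2 ⟨(x, x'), Finset.mem_filter.2
            ⟨Finset.mem_product.2 ⟨hx1, h1⟩, hne.symm, hconf, hf⟩, rfl⟩
      · obtain ⟨j, -, hj⟩ := Finset.mem_biUnion.1 h1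
        refine Finset.mem_union_left _ (Finset.mem_union_right _ ?_)
        refine Finset.mem_biUnion.2 ⟨j, Finset.mem_univ _, ?_⟩
        exact Finset.mem_image.2 ⟨(x, x'), Finset.mem_filter.2
          ⟨Finset.mem_product.2 ⟨hx1, hj⟩, hconf⟩, rfl⟩
  refine (Finset.card_le_card hsub).trans ?_
  refine (Finset.card_union_le _ _).trans (add_le_add ?_ ?_)
  · refine (Finset.card_union_le _ _).trans (add_le_add ?_ ?_)
    · exact (Finset.card_union_le _ _).trans
        (add_le_add Finset.card_image_le Finset.card_image_le)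
    · exact Finset.card_biUnion_le.trans (Finset.sum_le_sum fun j _ => Finset.card_image_le)
  · refine Finset.card_biUnion_le.trans (Finset.sum_le_sum fun i _ => ?_)
    refine Finset.card_biUnion_le.trans (Finset.sum_le_sum fun j _ => ?_)
    split_ifs with h
    · simp
    · exact le_rfl

/-- spoiled old elements -/
theorem t3a_old {p κ δ : ℝ} {Y : Sys D Ω} (hY : SysHyp Y p κ δ)
    (hsymm : ∀ x y, D.conf x y → D.conf y x) (T : ℕ) (z : StepΩ D Ω) :
    (((univ.biUnion fun j => Y.S (z.1 j)) \ stepN Y T z).filter fun x => Spoiled Y T z x).card ≤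
      nC Y T z +
      (∑ i, ∑ j, if i = j then 0 else
        ((Y.S (z.1 i) ×ˢ Y.S (z.1 j)).filter fun q => D.conf q.1 q.2 ∧ q.1 ≠ q.2).card) +
      ∑ i, ∑ l, ∑ j, if i = j then 0 else
        ((Y.S (z.1 i)).filter fun x => D.pos x l ∈ Y.P (z.1 j)).card := by
  have hsub : (((univ.biUnion fun j => Y.S (z.1 j)) \ stepN Y T z).filter
      fun x => Spoiled Y T z x) ⊆
      ((univ.biUnion fun j =>
          ((stepN Y T z ×ˢ Y.S (z.1 j)).filter fun q => D.conf q.1 q.2).image Prod.snd) ∪
        (univ.biUnion fun i => univ.biUnion fun j => if i = j then (∅ : Finset (Q × R)) else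
          ((Y.S (z.1 i) ×ˢ Y.S (z.1 j)).filter fun q =>
            D.conf q.1 q.2 ∧ q.1 ≠ q.2).image Prod.fst)) ∪
        (univ.biUnion fun i => univ.biUnion fun l => univ.biUnion fun j =>
          if i = j then (∅ : Finset (Q × R)) else
          (Y.S (z.1 i)).filter fun x => D.pos x l ∈ Y.P (z.1 j)) := by
    intro x hx
    obtain ⟨hx1, hx2⟩ := Finset.mem_filter.1 hx
    obtain ⟨hx3, hx4⟩ := Finset.mem_sdiff.1 hx1
    obtain ⟨i, -, hi⟩ := Finset.mem_biUnion.1 hx3
    rcases hx2 with ⟨f, ⟨l, hl⟩, hf⟩ | ⟨h1, -⟩ | ⟨x', hx', hne, hconf⟩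
    · refine Finset.mem_union_right _ ?_
      obtain ⟨j, hij, hj⟩ := t3a_other hf i
      refine Finset.mem_biUnion.2 ⟨i, Finset.mem_univ _, Finset.mem_biUnion.2
        ⟨l, Finset.mem_univ _, Finset.mem_biUnion.2 ⟨j, Finset.mem_univ _, ?_⟩⟩⟩
      rw [if_neg hij]
      exact Finset.mem_filter.2 ⟨hi, by rw [hl]; exact hj⟩
    · exact absurd h1 hx4
    · rcases Finset.mem_union.1 hx' with h1 | h1
      · refine Finset.mem_union_left _ (Finset.mem_union_left _ ?_)
        refine Finset.mem_biUnion.2 ⟨i, Finset.mem_univ _, ?_⟩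
        exact Finset.mem_image.2 ⟨(x', x), Finset.mem_filter.2
          ⟨Finset.mem_product.2 ⟨h1, hi⟩, hsymm _ _ hconf⟩, rfl⟩
      · obtain ⟨j, -, hj⟩ := Finset.mem_biUnion.1 h1
        have hij : i ≠ j := by
          rintro rfl
          exact hY.s1 (z.1 i) x hi x' hj hne.symm hconf
        refine Finset.mem_union_left _ (Finset.mem_union_right _ ?_)
        refine Finset.mem_biUnion.2 ⟨i, Finset.mem_univ _, Finset.mem_biUnion.2
          ⟨j, Finset.mem_univ _, ?_⟩⟩
        rw [if_neg hij]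
        exact Finset.mem_image.2 ⟨(x, x'), Finset.mem_filter.2
          ⟨Finset.mem_product.2 ⟨hi, hj⟩, hconf, hne.symm⟩, rfl⟩
  refine (Finset.card_le_card hsub).trans ?_
  refine (Finset.card_union_le _ _).trans (add_le_add ?_ ?_)
  · refine (Finset.card_union_le _ _).trans (add_le_add ?_ ?_)
    · exact Finset.card_biUnion_le.trans (Finset.sum_le_sum fun j _ => Finset.card_image_le)
    · refine Finset.card_biUnion_le.trans (Finset.sum_le_sum fun i _ => ?_)
      refine Finset.card_biUnion_le.trans (Finset.sum_le_sum fun j _ => ?_)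
      split_ifs with h
      · simp
      · exact Finset.card_image_le
  · refine Finset.card_biUnion_le.trans (Finset.sum_le_sum fun i _ => ?_)
    refine Finset.card_biUnion_le.trans (Finset.sum_le_sum fun l _ => ?_)
    refine Finset.card_biUnion_le.trans (Finset.sum_le_sum fun j _ => ?_)
    split_ifs with h
    · simp
    · exact le_rfl

/-- coincidences and conflicts of old elements -/
theorem t3a_nD (Y : Sys D Ω) (z : StepΩ D Ω) :
    (∑ i, ∑ j, if i = j then 0 else (Y.S (z.1 i) ∩ Y.S (z.1 j)).card) +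
      (∑ i, ∑ j, if i = j then 0 else
        ((Y.S (z.1 i) ×ˢ Y.S (z.1 j)).filter fun q => D.conf q.1 q.2 ∧ q.1 ≠ q.2).card) ≤
      nD Y z := by
  unfold nD
  rw [← Finset.sum_add_distrib]
  refine Finset.sum_le_sum fun i _ => ?_
  rw [← Finset.sum_add_distrib]
  refine Finset.sum_le_sum fun j _ => ?_
  split_ifs with h
  · simp
  · have h1 : (Y.S (z.1 i) ∩ Y.S (z.1 j)).card =
        ((Y.S (z.1 i) ∩ Y.S (z.1 j)).image fun x => (x, x)).card := by
      rw [Finset.card_image_of_injective]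
      intro x y hxy
      exact (Prod.ext_iff.1 hxy).1
    rw [h1, ← Finset.card_union_of_disjoint]
    · refine Finset.card_le_card ?_
      intro q hq
      rcases Finset.mem_union.1 hq with h2 | h2
      · obtain ⟨x, hx, rfl⟩ := Finset.mem_image.1 h2
        obtain ⟨hx1, hx2⟩ := Finset.mem_inter.1 hx
        exact Finset.mem_filter.2 ⟨Finset.mem_product.2 ⟨hx1, hx2⟩, Or.inr rfl⟩
      · obtain ⟨h3, h4⟩ := Finset.mem_filter.1 h2
        exact Finset.mem_filter.2 ⟨h3, Or.inl h4.1⟩
    · rw [Finset.disjoint_left]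
      intro q h2 h3
      obtain ⟨x, hx, rfl⟩ := Finset.mem_image.1 h2
      exact (Finset.mem_filter.1 h3).2.2 rfl

/-- The deterministic inequality: `∑ |S^j| + |N0| ≤ |S'| + nA + nB + 2 nC + nD + nE`. Every spoiled element and
every coincidence is counted. (`x ∈ S^i` with a block `f ∈ O`: `f ∈ P^i` by `s1'`, so `f ∈ P^j` for some
`j ≠ i`; same for new `x` and `f = pos x i ∈ P^i`; conflicts inside one `S^j` are impossible by `s1`;
`|⋃ S^j| ≥ ∑ |S^j| - #{(i,j,x) : i ≠ j, x ∈ S^i ∩ S^j}`.) -/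
theorem step_card_det {p κ δ : ℝ} {Y : Sys D Ω} (hY : SysHyp Y p κ δ)
    (hsymm : ∀ x y, D.conf x y → D.conf y x) (T : ℕ) (z : StepΩ D Ω) :
    (∑ j, (Y.S (z.1 j)).card) + (stepN Y T z).card ≤
      (stepS Y T z).card + nA Y T z + nB Y T z + 2 * nC Y T z + nD Y z + nE Y T z := by
  have h1 := t3a_union (fun j : Fin D.b => Y.S (z.1 j)) univ
  have h2 := t3a_new (Y := Y) T z
  have h3 := t3a_old hY hsymm T z
  have h4 := t3a_nD Y z
  have hdisj : Disjoint (stepN Y T z) (univ.biUnion fun j => Y.S (z.1 j)) := by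
    rw [Finset.disjoint_biUnion_right]
    exact fun j _ => stepN_disjoint hY T z j
  have h5 : (stepU Y T z).card = (stepN Y T z).card + (univ.biUnion fun j => Y.S (z.1 j)).card :=
    Finset.card_union_of_disjoint hdisj
  have h6 : stepU Y T z ⊆ stepS Y T z ∪ (((stepN Y T z).filter fun x => Spoiled Y T z x) ∪
      (((univ.biUnion fun j => Y.S (z.1 j)) \ stepN Y T z).filter fun x => Spoiled Y T z x)) := by
    intro x hx
    by_cases hsp : Spoiled Y T z x
    · refine Finset.mem_union_right _ ?_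
      by_cases hN : x ∈ stepN Y T z
      · exact Finset.mem_union_left _ (Finset.mem_filter.2 ⟨hN, hsp⟩)
      · refine Finset.mem_union_right _ (Finset.mem_filter.2 ⟨Finset.mem_sdiff.2 ⟨?_, hN⟩, hsp⟩)
        rcases Finset.mem_union.1 hx with h | h
        · exact absurd h hN
        · exact h
    · exact Finset.mem_union_left _ (Finset.mem_filter.2 ⟨hx, hsp⟩)
  have h7 := (Finset.card_le_card h6).trans ((Finset.card_union_le _ _).trans
    (add_le_add le_rfl (Finset.card_union_le _ _)))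
  unfold nE
  omega

end Pool.Agent.Lib.H93A
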