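import Pool.Agent.Lib.H93A.T1A

/-!
# H93A, T3B: expected number of new elements

See `PROOF.md`.
-/

set_option autoImplicit false

open Finset
open scoped Classical

namespace Pool.Agent.Lib.H93A

variable {Q R M : Type} [Fintype Q] [Fintype R] [Fintype M] {D : Core Q R M} {Ω : Type} [Fintype Ω]

/-- `P(x ∈ N0) = w(x) ∏ P(open)`, so `E|N0| ≥ ρ^b (s/N) p |X'|` -/
theorem ex_new_ge {kmax j0 : ℕ} {K c1 θ1 ε d s p κ δ ρ : ℝ} (hD : CoreHyp D kmax j0 K c1 θ1 ε d)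
    {Y : Sys D Ω} (hY : SysHyp Y p κ δ) (T : ℕ)
    (hs : 0 ≤ s) (hw : s * (kmax : ℝ) ^ (2 * D.b) ≤ D.N * p ^ (D.b - 1)) (hρ : 0 ≤ ρ)
    (X' : Finset (Q × R)) (hX' : X' ⊆ D.X)
    (hopen : ∀ x ∈ X', ∀ i, ρ * (p / (D.k (D.pos x i) : ℝ) ^ 2) ≤
        pr Y.μ (fun ω => Open D T (Y.P ω) (Y.C ω) (Y.S ω) x (D.pos x i))) :
    ρ ^ D.b * (s * p / D.N) * X'.card ≤
      ex (stepμ Y s p) (fun z => ((stepN Y T z).card : ℝ)) := by
  have hp := hY.p_pos
  have hN : (0 : ℝ) < D.N := by exact_mod_cast hD.N_pos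
  have hpr := step_isProb hD hY hs hw
  have h1 : ex (stepμ Y s p) (fun z => ((stepN Y T z).card : ℝ)) =
      ∑ x ∈ D.X, pr (stepμ Y s p) (fun z => z.2 x = true ∧
        ∀ j, Open D T (Y.P (z.1 j)) (Y.C (z.1 j)) (Y.S (z.1 j)) x (D.pos x j)) := by
    rw [← ex_card_filter D.X (fun x (z : StepΩ D Ω) => z.2 x = true ∧
        ∀ j, Open D T (Y.P (z.1 j)) (Y.C (z.1 j)) (Y.S (z.1 j)) x (D.pos x j))]
    refine congrArg (ex _) (funext fun z => ?_)
    congr 2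
    ext x
    simp only [stepN, Finset.mem_filter]
  rw [h1]
  have h2 : ∀ x ∈ X', ρ ^ D.b * (s * p / D.N) ≤ pr (stepμ Y s p) (fun z => z.2 x = true ∧
        ∀ j, Open D T (Y.P (z.1 j)) (Y.C (z.1 j)) (Y.S (z.1 j)) x (D.pos x j)) := by
    intro x hx
    have h3 : (fun z : StepΩ D Ω => z.2 x = true ∧
        ∀ j, Open D T (Y.P (z.1 j)) (Y.C (z.1 j)) (Y.S (z.1 j)) x (D.pos x j)) =
        (fun z : StepΩ D Ω => (∀ j, (fun (j : Fin D.b) (ω : Ω) =>
          Open D T (Y.P ω) (Y.C ω) (Y.S ω) x (D.pos x j)) j (z.1 j)) ∧ z.2 x = true) := by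
      funext z
      exact propext and_comm
    have h4 := pr_step_one (w := wt D s p) D.b hY.prob (fun (j : Fin D.b) (ω : Ω) =>
          Open D T (Y.P ω) (Y.C ω) (Y.S ω) x (D.pos x j)) x
    rw [h3, stepμ, h4, wt, if_pos (hX' hx)]
    have hk : ∀ j, (0 : ℝ) < (D.k (D.pos x j) : ℝ) ^ 2 := by
      intro j
      have : (0 : ℝ) < (D.k (D.pos x j) : ℝ) := by exact_mod_cast hD.k_pos _
      positivity
    have h5 : ∏ j, (ρ * (p / (D.k (D.pos x j) : ℝ) ^ 2)) ≤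
        ∏ j, pr Y.μ (fun ω => Open D T (Y.P ω) (Y.C ω) (Y.S ω) x (D.pos x j)) := by
      refine Finset.prod_le_prod (fun j _ => ?_) (fun j _ => hopen x hx j)
      have := hk j
      positivity
    have hPk : (0 : ℝ) < ∏ j, (D.k (D.pos x j) : ℝ) ^ 2 := Finset.prod_pos fun j _ => hk j
    have h6 : (∏ j : Fin D.b, (ρ * (p / (D.k (D.pos x j) : ℝ) ^ 2))) *
        ((s / (D.N * p ^ (D.b - 1))) * ∏ j, (D.k (D.pos x j) : ℝ) ^ 2) =
        ρ ^ D.b * (s * p / D.N) := by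
      rw [Finset.prod_mul_distrib, Finset.prod_const, Finset.card_univ, Fintype.card_fin,
        Finset.prod_div_distrib, Finset.prod_const, Finset.card_univ, Fintype.card_fin]
      have h7 : p ^ D.b = p ^ (D.b - 1) * p := by
        rw [← pow_succ]
        congr 1
        have := hD.b_pos
        omega
      rw [h7]
      field_simp
    rw [← h6]
    refine mul_le_mul_of_nonneg_right h5 ?_
    positivity
  calc ρ ^ D.b * (s * p / D.N) * X'.card = ∑ _x ∈ X', ρ ^ D.b * (s * p / D.N) := by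
        rw [Finset.sum_const, nsmul_eq_mul]
        ring
    _ ≤ _ := Finset.sum_le_sum h2
    _ ≤ _ := Finset.sum_le_sum_of_subset_of_nonneg hX' (fun x _ _ => pr_nonneg hpr _)

end Pool.Agent.Lib.H93A
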