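import Pool.Agent.Lib.H93A.T1A

/-!
# H93A, T3C: two new elements

See `PROOF.md`.
-/

set_option autoImplicit false

open Finset
open scoped Classical

namespace Pool.Agent.Lib.H93A

variable {Q R M : Type} [Fintype Q] [Fintype R] [Fintype M] {D : Core Q R M} {Ω : Type} [Fintype Ω]

/-- `P(x, x' ∈ N0)` for `x ≠ x'` with `Z = {i : pos x i = pos x' i}`: at most
`(s²/N²) p^(2-|Z|) ∏_{i ∈ Z} k²`, and `0` if the cells at some `pos x i`, `i ∈ Z`, differ.
Stated in multiplied form: `p^|Z| P ≤ (s²/N²) p² ∏`. -/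
theorem pr_two_new_le {kmax j0 : ℕ} {K c1 θ1 ε d s p κ δ : ℝ} (hD : CoreHyp D kmax j0 K c1 θ1 ε d)
    {Y : Sys D Ω} (hY : SysHyp Y p κ δ) (T : ℕ)
    (hs : 0 ≤ s) (hw : s * (kmax : ℝ) ^ (2 * D.b) ≤ D.N * p ^ (D.b - 1))
    (x x' : Q × R) (hx : x ∈ D.X) (hx' : x' ∈ D.X) (hne : x ≠ x') :
    p ^ (univ.filter fun i => D.pos x i = D.pos x' i).card *
      pr (stepμ Y s p) (fun z => x ∈ stepN Y T z ∧ x' ∈ stepN Y T z) ≤
      (s / D.N) ^ 2 * p ^ 2 *
        ∏ i ∈ univ.filter fun i => D.pos x i = D.pos x' i, (D.k (D.pos x i) : ℝ) ^ 2 := by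
  have hp := hY.p_pos
  have hN : (0 : ℝ) < D.N := by exact_mod_cast hD.N_pos
  have hμ := step_isProb hD hY hs hw
  have hk : ∀ f, (0 : ℝ) < (D.k f : ℝ) := fun f => by
    have := hD.k_pos f
    exact_mod_cast this
  set A : Fin D.b → Ω → Prop := fun j ω =>
    (D.pos x j ∈ Y.P ω ∧ Y.C ω (D.pos x j) = D.cell (D.pos x j) x) ∧
    (D.pos x' j ∈ Y.P ω ∧ Y.C ω (D.pos x' j) = D.cell (D.pos x' j) x') with hA
  have h1 : pr (stepμ Y s p) (fun z => x ∈ stepN Y T z ∧ x' ∈ stepN Y T z) ≤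
      (∏ j, pr Y.μ (A j)) * (wt D s p x * wt D s p x') := by
    rw [← pr_step_two D.b hY.prob A x x' hne]
    refine pr_mono hμ fun z hz => ?_
    obtain ⟨-, hz1, hz2⟩ := Finset.mem_filter.1 hz.1
    obtain ⟨-, hz1', hz2'⟩ := Finset.mem_filter.1 hz.2
    exact ⟨fun j => ⟨(hz2 j).1, (hz2' j).1⟩, hz1, hz1'⟩
  set B : Fin D.b → ℝ := fun j => if D.pos x j = D.pos x' j then p / (D.k (D.pos x j) : ℝ) ^ 2 else
    (p / (D.k (D.pos x j) : ℝ) ^ 2) * (p / (D.k (D.pos x' j) : ℝ) ^ 2) with hB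
  have h2 : ∀ j, pr Y.μ (A j) ≤ B j := by
    intro j
    simp only [hB]
    split_ifs with h
    · refine (pr_mono hY.prob fun ω hω => ?_).trans (hY.s2u (D.pos x j) (D.cell (D.pos x j) x))
      exact hω.1
    · exact hY.s3 _ _ _ _ h
  have h3 : ∏ j, pr Y.μ (A j) ≤ ∏ j, B j :=
    Finset.prod_le_prod (fun j _ => pr_nonneg hY.prob _) fun j _ => h2 j
  have hw0 : 0 ≤ wt D s p x * wt D s p x' :=
    mul_nonneg (wt_mem hD hs hp hw x).1 (wt_mem hD hs hp hw x').1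
  have h4 : p ^ (univ.filter fun i => D.pos x i = D.pos x' i).card * (∏ j, B j) *
      ((∏ i, (D.k (D.pos x i) : ℝ) ^ 2) * ∏ i, (D.k (D.pos x' i) : ℝ) ^ 2) =
      (p ^ D.b) ^ 2 *
        ∏ i ∈ univ.filter fun i => D.pos x i = D.pos x' i, (D.k (D.pos x i) : ℝ) ^ 2 := by
    have e1 : p ^ (univ.filter fun i => D.pos x i = D.pos x' i).card =
        ∏ i : Fin D.b, if D.pos x i = D.pos x' i then p else 1 := by
      rw [← Finset.prod_filter, Finset.prod_const]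
    have e2 : (p ^ D.b) ^ 2 = ∏ _i : Fin D.b, p ^ 2 := by
      rw [Finset.prod_const, Finset.card_univ, Fintype.card_fin, ← pow_mul, ← pow_mul, mul_comm]
    rw [e1, e2, Finset.prod_filter, ← Finset.prod_mul_distrib, ← Finset.prod_mul_distrib,
      ← Finset.prod_mul_distrib, ← Finset.prod_mul_distrib]
    refine Finset.prod_congr rfl fun i _ => ?_
    have h5 := (hk (D.pos x i)).ne'
    have h6 := (hk (D.pos x' i)).ne'
    simp only [hB]
    split_ifs with h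
    · rw [← h]
      field_simp
    · field_simp
  have h5 : wt D s p x * wt D s p x' = (s / D.N) ^ 2 / (p ^ (D.b - 1)) ^ 2 *
      ((∏ i, (D.k (D.pos x i) : ℝ) ^ 2) * ∏ i, (D.k (D.pos x' i) : ℝ) ^ 2) := by
    unfold wt
    rw [if_pos hx, if_pos hx']
    have h6 : p ^ (D.b - 1) ≠ 0 := (pow_pos hp _).ne'
    field_simp
  calc p ^ (univ.filter fun i => D.pos x i = D.pos x' i).card *
      pr (stepμ Y s p) (fun z => x ∈ stepN Y T z ∧ x' ∈ stepN Y T z)
      ≤ p ^ (univ.filter fun i => D.pos x i = D.pos x' i).card *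
        ((∏ j, B j) * (wt D s p x * wt D s p x')) := by
        refine mul_le_mul_of_nonneg_left (h1.trans ?_) (pow_pos hp _).le
        exact mul_le_mul_of_nonneg_right h3 hw0
    _ = (s / D.N) ^ 2 / (p ^ (D.b - 1)) ^ 2 *
        (p ^ (univ.filter fun i => D.pos x i = D.pos x' i).card * (∏ j, B j) *
      ((∏ i, (D.k (D.pos x i) : ℝ) ^ 2) * ∏ i, (D.k (D.pos x' i) : ℝ) ^ 2)) := by
        rw [h5]
        ring
    _ = (s / D.N) ^ 2 * p ^ 2 *
        ∏ i ∈ univ.filter fun i => D.pos x i = D.pos x' i, (D.k (D.pos x i) : ℝ) ^ 2 := by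
        rw [h4]
        have h6 : p ^ D.b = p ^ (D.b - 1) * p := by
          rw [← pow_succ]
          congr 1
          have := hD.b_pos
          omega
        have h7 : p ^ (D.b - 1) ≠ 0 := (pow_pos hp _).ne'
        rw [h6]
        field_simp

theorem pr_two_new_eq_zero {kmax j0 : ℕ} {K c1 θ1 ε d s p κ δ : ℝ}
    (hD : CoreHyp D kmax j0 K c1 θ1 ε d) {Y : Sys D Ω} (hY : SysHyp Y p κ δ) (T : ℕ)
    (x x' : Q × R) (i : Fin D.b) (hi : D.pos x i = D.pos x' i)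
    (hc : D.cell (D.pos x i) x ≠ D.cell (D.pos x i) x') :
    pr (stepμ Y s p) (fun z => x ∈ stepN Y T z ∧ x' ∈ stepN Y T z) = 0 := by
  unfold pr
  refine Finset.sum_eq_zero fun z _ => ?_
  rw [if_neg]
  rintro ⟨h1, h2⟩
  obtain ⟨-, -, h3⟩ := Finset.mem_filter.1 h1
  obtain ⟨-, -, h4⟩ := Finset.mem_filter.1 h2
  apply hc
  rw [← (h3 i).1.2, hi, (h4 i).1.2]

end Pool.Agent.Lib.H93A
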