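import Pool.Agent.Lib.H93A.T3C
import Pool.Agent.Lib.H93A.O1A

/-!
# H93A, T3D: A1

See `PROOF.md`.
-/

set_option autoImplicit false

open Finset
open scoped Classical

namespace Pool.Agent.Lib.H93A

variable {Q R M : Type} [Fintype Q] [Fintype R] [Fintype M] {D : Core Q R M} {Ω : Type} [Fintype Ω]

/-- the number of pairs in one cell of `f` -/
theorem t3d_count {kmax j0 : ℕ} {K c1 θ1 ε d : ℝ} (hD : CoreHyp D kmax j0 K c1 θ1 ε d) (f : M) :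
    (((D.X ×ˢ D.X).filter fun q => q.1 ∈ D.Xf f ∧ q.2 ∈ D.Xf f ∧ D.cell f q.1 = D.cell f q.2).card : ℝ) *
      (D.k f : ℝ) ^ 2 ≤ 16 * (D.m : ℝ) ^ 4 := by
  have hk : (0 : ℝ) < (D.k f : ℝ) ^ 2 := by
    have := hD.k_pos f
    positivity
  have h1 : ((D.X ×ˢ D.X).filter fun q => q.1 ∈ D.Xf f ∧ q.2 ∈ D.Xf f ∧
      D.cell f q.1 = D.cell f q.2).card ≤ ∑ x ∈ D.Xf f, (cellSet D f (D.cell f x)).card := by
    have h2 : ((D.X ×ˢ D.X).filter fun q => q.1 ∈ D.Xf f ∧ q.2 ∈ D.Xf f ∧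
        D.cell f q.1 = D.cell f q.2) ⊆
        (D.Xf f).biUnion fun x => (cellSet D f (D.cell f x)).image fun y => (x, y) := by
      intro q hq
      obtain ⟨-, h3, h4, h5⟩ := Finset.mem_filter.1 hq
      refine Finset.mem_biUnion.2 ⟨q.1, h3, Finset.mem_image.2 ⟨q.2, ?_, rfl⟩⟩
      exact Finset.mem_filter.2 ⟨h4, h5.symm⟩
    exact (Finset.card_le_card h2).trans
      (Finset.card_biUnion_le.trans (Finset.sum_le_sum fun x _ => Finset.card_image_le))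
  have h2 : (((D.X ×ˢ D.X).filter fun q => q.1 ∈ D.Xf f ∧ q.2 ∈ D.Xf f ∧
      D.cell f q.1 = D.cell f q.2).card : ℝ) ≤ ∑ x ∈ D.Xf f, ((cellSet D f (D.cell f x)).card : ℝ) := by
    exact_mod_cast h1
  have h3 : ∑ x ∈ D.Xf f, ((cellSet D f (D.cell f x)).card : ℝ) ≤
      (D.m : ℝ) ^ 2 * (16 * (D.m : ℝ) ^ 2 / (D.k f : ℝ) ^ 2) := by
    calc ∑ x ∈ D.Xf f, ((cellSet D f (D.cell f x)).card : ℝ)
        ≤ ∑ _x ∈ D.Xf f, 16 * (D.m : ℝ) ^ 2 / (D.k f : ℝ) ^ 2 :=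
          Finset.sum_le_sum fun x _ => cellSet_card_le hD f _
      _ = (D.Xf f).card * (16 * (D.m : ℝ) ^ 2 / (D.k f : ℝ) ^ 2) := by
          rw [Finset.sum_const, nsmul_eq_mul]
      _ ≤ _ := mul_le_mul_of_nonneg_right (hD.cardXf f) (by positivity)
  calc _ ≤ ((D.m : ℝ) ^ 2 * (16 * (D.m : ℝ) ^ 2 / (D.k f : ℝ) ^ 2)) * (D.k f : ℝ) ^ 2 :=
        mul_le_mul_of_nonneg_right (h2.trans h3) hk.le
    _ = 16 * (D.m : ℝ) ^ 4 := by
        have hk0 : (D.k f : ℝ) ≠ 0 := by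
          have := hD.k_pos f
          positivity
        field_simp

/-- A1: exactly one common position -/
theorem sum_A1_le {kmax j0 : ℕ} {K c1 θ1 ε d s p κ δ : ℝ} (hD : CoreHyp D kmax j0 K c1 θ1 ε d)
    {Y : Sys D Ω} (hY : SysHyp Y p κ δ) (T : ℕ)
    (hs : 0 ≤ s) (hw : s * (kmax : ℝ) ^ (2 * D.b) ≤ D.N * p ^ (D.b - 1)) :
    ∑ q ∈ (D.X ×ˢ D.X).filter fun q => q.1 ≠ q.2 ∧
        (univ.filter fun i => D.pos q.1 i = D.pos q.2 i).card = 1,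
      pr (stepμ Y s p) (fun z => q.1 ∈ stepN Y T z ∧ q.2 ∈ stepN Y T z) ≤
      4096 * K ^ 4 * s ^ 2 * p * D.n := by
  have hp := hY.p_pos
  have hN : (0 : ℝ) < D.N := by exact_mod_cast hD.N_pos
  have hμ := step_isProb hD hY hs hw
  -- pointwise bound
  have h1 : ∀ q ∈ (D.X ×ˢ D.X).filter fun q => q.1 ≠ q.2 ∧
      (univ.filter fun i => D.pos q.1 i = D.pos q.2 i).card = 1,
      pr (stepμ Y s p) (fun z => q.1 ∈ stepN Y T z ∧ q.2 ∈ stepN Y T z) ≤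
      ∑ f : M, if (q.1 ∈ D.Xf f ∧ q.2 ∈ D.Xf f ∧ D.cell f q.1 = D.cell f q.2) then
        (s / D.N) ^ 2 * p * (D.k f : ℝ) ^ 2 else 0 := by
    intro q hq
    obtain ⟨hq1, hne, hcard⟩ := Finset.mem_filter.1 hq
    obtain ⟨hx, hx'⟩ := Finset.mem_product.1 hq1
    obtain ⟨i, hi⟩ := Finset.card_eq_one.1 hcard
    have hii : D.pos q.1 i = D.pos q.2 i := by
      have : i ∈ univ.filter fun i => D.pos q.1 i = D.pos q.2 i := by
        rw [hi]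
        exact Finset.mem_singleton_self i
      exact (Finset.mem_filter.1 this).2
    have hnn : ∀ f ∈ (univ : Finset M), (0 : ℝ) ≤
        if (q.1 ∈ D.Xf f ∧ q.2 ∈ D.Xf f ∧ D.cell f q.1 = D.cell f q.2) then
        (s / D.N) ^ 2 * p * (D.k f : ℝ) ^ 2 else 0 := by
      intro f _
      split_ifs
      · positivity
      · exact le_rfl
    by_cases hc : D.cell (D.pos q.1 i) q.1 = D.cell (D.pos q.1 i) q.2
    · have h2 := pr_two_new_le hD hY T hs hw q.1 q.2 hx hx' hne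
      rw [hi, Finset.card_singleton, pow_one, Finset.prod_singleton] at h2
      have h3 : pr (stepμ Y s p) (fun z => q.1 ∈ stepN Y T z ∧ q.2 ∈ stepN Y T z) ≤
          (s / D.N) ^ 2 * p * (D.k (D.pos q.1 i) : ℝ) ^ 2 := by
        have h4 : p * pr (stepμ Y s p) (fun z => q.1 ∈ stepN Y T z ∧ q.2 ∈ stepN Y T z) ≤
            p * ((s / D.N) ^ 2 * p * (D.k (D.pos q.1 i) : ℝ) ^ 2) := by
          refine h2.trans (le_of_eq ?_)
          ring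
        exact le_of_mul_le_mul_left h4 hp
      refine h3.trans ?_
      have h5 := Finset.single_le_sum hnn (Finset.mem_univ (D.pos q.1 i))
      rw [if_pos] at h5
      · exact h5
      · refine ⟨Finset.mem_filter.2 ⟨hD.X_sub hx, ⟨i, rfl⟩⟩,
          Finset.mem_filter.2 ⟨hD.X_sub hx', ⟨i, hii.symm⟩⟩, hc⟩
    · rw [pr_two_new_eq_zero hD hY T q.1 q.2 i hii hc]
      exact Finset.sum_nonneg hnn
  have h2 : ∑ q ∈ (D.X ×ˢ D.X).filter fun q => q.1 ≠ q.2 ∧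
        (univ.filter fun i => D.pos q.1 i = D.pos q.2 i).card = 1,
      pr (stepμ Y s p) (fun z => q.1 ∈ stepN Y T z ∧ q.2 ∈ stepN Y T z) ≤
      ∑ q ∈ D.X ×ˢ D.X, ∑ f : M, if (q.1 ∈ D.Xf f ∧ q.2 ∈ D.Xf f ∧ D.cell f q.1 = D.cell f q.2) then
        (s / D.N) ^ 2 * p * (D.k f : ℝ) ^ 2 else 0 := by
    refine (Finset.sum_le_sum h1).trans ?_
    refine Finset.sum_le_sum_of_subset_of_nonneg (Finset.filter_subset _ _) fun q _ _ => ?_
    refine Finset.sum_nonneg fun f _ => ?_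
    split_ifs
    · positivity
    · exact le_rfl
  refine h2.trans ?_
  rw [Finset.sum_comm]
  have h3 : ∀ f : M, (∑ q ∈ D.X ×ˢ D.X,
      if (q.1 ∈ D.Xf f ∧ q.2 ∈ D.Xf f ∧ D.cell f q.1 = D.cell f q.2) then
        (s / D.N) ^ 2 * p * (D.k f : ℝ) ^ 2 else 0) ≤ (s / D.N) ^ 2 * p * (16 * (D.m : ℝ) ^ 4) := by
    intro f
    rw [← Finset.sum_filter, Finset.sum_const, nsmul_eq_mul]
    have h4 := t3d_count hD f
    have h5 : (0 : ℝ) ≤ (s / D.N) ^ 2 * p := by positivity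
    calc _ = (s / D.N) ^ 2 * p * ((((D.X ×ˢ D.X).filter fun q => q.1 ∈ D.Xf f ∧ q.2 ∈ D.Xf f ∧
          D.cell f q.1 = D.cell f q.2).card : ℝ) * (D.k f : ℝ) ^ 2) := by ring
      _ ≤ _ := mul_le_mul_of_nonneg_left h4 h5
  refine (Finset.sum_le_sum fun f _ => h3 f).trans ?_
  rw [Finset.sum_const, nsmul_eq_mul, Finset.card_univ]
  have hM : (Fintype.card M : ℝ) ≤ D.n := by exact_mod_cast hD.cardM
  have hm4 : (D.m : ℝ) ^ 4 ≤ 16 * K ^ 4 * (D.N : ℝ) ^ 2 := by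
    have h6 := hD.m_sq
    have h7 : ((D.m : ℝ) ^ 2) ^ 2 ≤ (4 * K ^ 2 * D.N) ^ 2 :=
      pow_le_pow_left₀ (by positivity) h6 2
    calc (D.m : ℝ) ^ 4 = ((D.m : ℝ) ^ 2) ^ 2 := by ring
      _ ≤ _ := h7
      _ = _ := by ring
  have h8 : (s / D.N) ^ 2 * p * (16 * (D.m : ℝ) ^ 4) ≤ 256 * K ^ 4 * s ^ 2 * p := by
    calc (s / D.N) ^ 2 * p * (16 * (D.m : ℝ) ^ 4)
        ≤ (s / D.N) ^ 2 * p * (16 * (16 * K ^ 4 * (D.N : ℝ) ^ 2)) := by gcongr
      _ = 256 * K ^ 4 * s ^ 2 * p := by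
          field_simp
          ring
  have hK : (0 : ℝ) ≤ K ^ 4 * s ^ 2 * p * D.n := by positivity
  calc (Fintype.card M : ℝ) * ((s / D.N) ^ 2 * p * (16 * (D.m : ℝ) ^ 4))
      ≤ D.n * (256 * K ^ 4 * s ^ 2 * p) := by
        refine mul_le_mul hM h8 (by positivity) (Nat.cast_nonneg _)
    _ = 256 * (K ^ 4 * s ^ 2 * p * D.n) := by ring
    _ ≤ 4096 * (K ^ 4 * s ^ 2 * p * D.n) := by
        refine mul_le_mul_of_nonneg_right (by norm_num) hK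
    _ = _ := by ring

end Pool.Agent.Lib.H93A
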