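import Pool.Agent.Lib.H93A.T1A

/-!
# H93A, T3Defs: definitions of the error terms

See `PROOF.md`.
-/

set_option autoImplicit false

open Finset
open scoped Classical

namespace Pool.Agent.Lib.H93A

variable {Q R M : Type} [Fintype Q] [Fintype R] [Fintype M] {D : Core Q R M} {Ω : Type} [Fintype Ω]

/-- ordered pairs of new elements with a common block -/
noncomputable def nA (Y : Sys D Ω) (T : ℕ) (z : StepΩ D Ω) : ℕ :=
  ((stepN Y T z ×ˢ stepN Y T z).filter fun q => q.1 ≠ q.2 ∧ ∃ f, D.inV f q.1 ∧ D.inV f q.2).card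

/-- ordered pairs of new elements in conflict without common block -/
noncomputable def nB (Y : Sys D Ω) (T : ℕ) (z : StepΩ D Ω) : ℕ :=
  ((stepN Y T z ×ˢ stepN Y T z).filter fun q =>
    q.1 ≠ q.2 ∧ D.conf q.1 q.2 ∧ ¬ ∃ f, D.inV f q.1 ∧ D.inV f q.2).card

/-- pairs (new, old) in conflict -/
noncomputable def nC (Y : Sys D Ω) (T : ℕ) (z : StepΩ D Ω) : ℕ :=
  ∑ j, ((stepN Y T z ×ˢ Y.S (z.1 j)).filter fun q => D.conf q.1 q.2).card

/-- pairs (old, old) of different copies, equal or in conflict -/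
noncomputable def nD (Y : Sys D Ω) (z : StepΩ D Ω) : ℕ :=
  ∑ i, ∑ j, if i = j then 0 else
    ((Y.S (z.1 i) ×ˢ Y.S (z.1 j)).filter fun q => D.conf q.1 q.2 ∨ q.1 = q.2).card

/-- new elements `x` and pairs `(i, j)`, `i ≠ j`, with `pos x i ∈ P^j`; old elements `x ∈ S^i` and `(l, j)`,
`j ≠ i`, with `pos x l ∈ P^j` -/
noncomputable def nE (Y : Sys D Ω) (T : ℕ) (z : StepΩ D Ω) : ℕ :=
  (∑ i, ∑ j, if i = j then 0 else ((stepN Y T z).filter fun x => D.pos x i ∈ Y.P (z.1 j)).card) +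
  ∑ i, ∑ l, ∑ j, if i = j then 0 else ((Y.S (z.1 i)).filter fun x => D.pos x l ∈ Y.P (z.1 j)).card

end Pool.Agent.Lib.H93A
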