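import Pool.Agent.Lib.H93A.T3C

/-!
# H93A, T3E: A2

See `PROOF.md`.
-/

set_option autoImplicit false

open Finset
open scoped Classical

namespace Pool.Agent.Lib.H93A

variable {Q R M : Type} [Fintype Q] [Fintype R] [Fintype M] {D : Core Q R M} {Ω : Type} [Fintype Ω]

/-- the number of pairs with two common positions -/
theorem t3e_count {kmax j0 : ℕ} {K c1 θ1 ε d : ℝ} (hD : CoreHyp D kmax j0 K c1 θ1 ε d) (hθ0 : 0 ≤ θ1) :
    (((D.X ×ˢ D.X).filter fun q => q.1 ≠ q.2 ∧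
        2 ≤ (univ.filter fun i => D.pos q.1 i = D.pos q.2 i).card).card : ℝ) ≤
      ((D.n : ℝ) * D.N) * ((j0 : ℝ) ^ 2 * (θ1 * D.N)) := by
  have h1 : ((D.X ×ˢ D.X).filter fun q => q.1 ≠ q.2 ∧
        2 ≤ (univ.filter fun i => D.pos q.1 i = D.pos q.2 i).card) ⊆
      D.X.biUnion fun x => univ.biUnion fun i => univ.biUnion fun j => if i = j then ∅ else
        (D.Xf (D.pos x i) ∩ D.Xf (D.pos x j)).image fun y => (x, y) := by
    intro q hq
    obtain ⟨hq1, -, hq2⟩ := Finset.mem_filter.1 hq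
    obtain ⟨hx, hx'⟩ := Finset.mem_product.1 hq1
    obtain ⟨i, hi, j, hj, hij⟩ := Finset.one_lt_card.1 hq2
    have hi' := (Finset.mem_filter.1 hi).2
    have hj' := (Finset.mem_filter.1 hj).2
    refine Finset.mem_biUnion.2 ⟨q.1, hx, Finset.mem_biUnion.2 ⟨i, Finset.mem_univ _,
      Finset.mem_biUnion.2 ⟨j, Finset.mem_univ _, ?_⟩⟩⟩
    rw [if_neg hij]
    refine Finset.mem_image.2 ⟨q.2, Finset.mem_inter.2 ⟨?_, ?_⟩, rfl⟩
    · exact Finset.mem_filter.2 ⟨hD.X_sub hx', ⟨i, hi'.symm⟩⟩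
    · exact Finset.mem_filter.2 ⟨hD.X_sub hx', ⟨j, hj'.symm⟩⟩
  have h2 : (((D.X ×ˢ D.X).filter fun q => q.1 ≠ q.2 ∧
        2 ≤ (univ.filter fun i => D.pos q.1 i = D.pos q.2 i).card).card : ℝ) ≤
      ∑ x ∈ D.X, ∑ i : Fin D.b, ∑ j : Fin D.b, if i = j then (0 : ℝ) else
        ((D.Xf (D.pos x i) ∩ D.Xf (D.pos x j)).card : ℝ) := by
    have h3 := (Finset.card_le_card h1).trans (Finset.card_biUnion_le.trans
      (Finset.sum_le_sum fun x _ => Finset.card_biUnion_le.trans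
        (Finset.sum_le_sum fun i _ => Finset.card_biUnion_le)))
    have h4 : ((∑ x ∈ D.X, ∑ i : Fin D.b, ∑ j : Fin D.b, (if i = j then (∅ : Finset ((Q × R) × (Q × R))) else
        (D.Xf (D.pos x i) ∩ D.Xf (D.pos x j)).image fun y => (x, y)).card : ℕ) : ℝ) ≤
        ∑ x ∈ D.X, ∑ i : Fin D.b, ∑ j : Fin D.b, if i = j then (0 : ℝ) else
        ((D.Xf (D.pos x i) ∩ D.Xf (D.pos x j)).card : ℝ) := by
      push_cast
      refine Finset.sum_le_sum fun x _ => Finset.sum_le_sum fun i _ => Finset.sum_le_sum fun j _ => ?_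
      split_ifs with h
      · simp
      · exact_mod_cast Finset.card_image_le
    refine le_trans ?_ h4
    exact_mod_cast h3
  refine h2.trans ?_
  have hθN : (0 : ℝ) ≤ θ1 * D.N := mul_nonneg hθ0 (Nat.cast_nonneg _)
  have hb : (D.b : ℝ) ≤ j0 := by exact_mod_cast hD.b_le
  have h3 : ∀ x ∈ D.X, (∑ i : Fin D.b, ∑ j : Fin D.b, if i = j then (0 : ℝ) else
        ((D.Xf (D.pos x i) ∩ D.Xf (D.pos x j)).card : ℝ)) ≤ (j0 : ℝ) ^ 2 * (θ1 * D.N) := by
    intro x hx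
    calc (∑ i : Fin D.b, ∑ j : Fin D.b, if i = j then (0 : ℝ) else
        ((D.Xf (D.pos x i) ∩ D.Xf (D.pos x j)).card : ℝ))
        ≤ ∑ _i : Fin D.b, ∑ _j : Fin D.b, θ1 * D.N := by
          refine Finset.sum_le_sum fun i _ => Finset.sum_le_sum fun j _ => ?_
          split_ifs with h
          · exact hθN
          · exact hD.weak x (hD.X_sub hx) i j h
      _ = (D.b : ℝ) ^ 2 * (θ1 * D.N) := by
          simp only [Finset.sum_const, Finset.card_univ, Fintype.card_fin, nsmul_eq_mul]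
          ring
      _ ≤ _ := by
          refine mul_le_mul_of_nonneg_right ?_ hθN
          exact pow_le_pow_left₀ (Nat.cast_nonneg _) hb 2
  refine (Finset.sum_le_sum h3).trans ?_
  rw [Finset.sum_const, nsmul_eq_mul]
  refine mul_le_mul_of_nonneg_right ?_ (by positivity)
  have h4 : (D.X.card : ℝ) ≤ D.E.card := by exact_mod_cast Finset.card_le_card hD.X_sub
  exact h4.trans hD.cardE

/-- A2: at least two common positions -/
theorem sum_A2_le {kmax j0 : ℕ} {K c1 θ1 ε d s p κ δ : ℝ} (hD : CoreHyp D kmax j0 K c1 θ1 ε d)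
    {Y : Sys D Ω} (hY : SysHyp Y p κ δ) (T : ℕ)
    (hs : 0 ≤ s) (hw : s * (kmax : ℝ) ^ (2 * D.b) ≤ D.N * p ^ (D.b - 1)) (hp1 : p ≤ 1)
    (hkm : 1 ≤ kmax) (hθ0 : 0 ≤ θ1)
    (hθ : θ1 * ((j0 : ℝ) ^ 2 * (kmax : ℝ) ^ (2 * j0)) ≤ p ^ j0) :
    ∑ q ∈ (D.X ×ˢ D.X).filter fun q => q.1 ≠ q.2 ∧
        2 ≤ (univ.filter fun i => D.pos q.1 i = D.pos q.2 i).card,
      pr (stepμ Y s p) (fun z => q.1 ∈ stepN Y T z ∧ q.2 ∈ stepN Y T z) ≤
      s ^ 2 * p * D.n := by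
  have hp := hY.p_pos
  have hN : (0 : ℝ) < D.N := by exact_mod_cast hD.N_pos
  have hμ := step_isProb hD hY hs hw
  have hkm' : (1 : ℝ) ≤ kmax := by exact_mod_cast hkm
  have hpj : (0 : ℝ) < p ^ j0 := pow_pos hp _
  have h1 : ∀ q ∈ (D.X ×ˢ D.X).filter fun q => q.1 ≠ q.2 ∧
        2 ≤ (univ.filter fun i => D.pos q.1 i = D.pos q.2 i).card,
      pr (stepμ Y s p) (fun z => q.1 ∈ stepN Y T z ∧ q.2 ∈ stepN Y T z) ≤
      (s / D.N) ^ 2 * p ^ 2 * (kmax : ℝ) ^ (2 * j0) / p ^ j0 := by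
    intro q hq
    obtain ⟨hq1, hne, -⟩ := Finset.mem_filter.1 hq
    obtain ⟨hx, hx'⟩ := Finset.mem_product.1 hq1
    have h2 := pr_two_new_le hD hY T hs hw q.1 q.2 hx hx' hne
    have hz : (univ.filter fun i => D.pos q.1 i = D.pos q.2 i).card ≤ j0 := by
      refine (Finset.card_filter_le _ _).trans ?_
      rw [Finset.card_univ, Fintype.card_fin]
      exact hD.b_le
    have h3 : ∏ i ∈ univ.filter fun i => D.pos q.1 i = D.pos q.2 i, (D.k (D.pos q.1 i) : ℝ) ^ 2 ≤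
        (kmax : ℝ) ^ (2 * j0) := by
      calc ∏ i ∈ univ.filter fun i => D.pos q.1 i = D.pos q.2 i, (D.k (D.pos q.1 i) : ℝ) ^ 2
          ≤ ∏ _i ∈ univ.filter fun i => D.pos q.1 i = D.pos q.2 i, (kmax : ℝ) ^ 2 := by
            refine Finset.prod_le_prod (fun i _ => by positivity) fun i _ => ?_
            refine pow_le_pow_left₀ (Nat.cast_nonneg _) ?_ 2
            exact_mod_cast hD.k_le _
        _ = ((kmax : ℝ) ^ 2) ^ (univ.filter fun i => D.pos q.1 i = D.pos q.2 i).card := by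
            rw [Finset.prod_const]
        _ ≤ ((kmax : ℝ) ^ 2) ^ j0 := pow_le_pow_right₀ (one_le_pow₀ hkm') hz
        _ = _ := by rw [← pow_mul]
    have h4 : p ^ j0 ≤ p ^ (univ.filter fun i => D.pos q.1 i = D.pos q.2 i).card :=
      pow_le_pow_of_le_one hp.le hp1 hz
    rw [le_div_iff₀ hpj, mul_comm]
    have h5 := pr_nonneg hμ (fun z => q.1 ∈ stepN Y T z ∧ q.2 ∈ stepN Y T z)
    calc p ^ j0 * pr (stepμ Y s p) (fun z => q.1 ∈ stepN Y T z ∧ q.2 ∈ stepN Y T z)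
        ≤ p ^ (univ.filter fun i => D.pos q.1 i = D.pos q.2 i).card *
          pr (stepμ Y s p) (fun z => q.1 ∈ stepN Y T z ∧ q.2 ∈ stepN Y T z) :=
          mul_le_mul_of_nonneg_right h4 h5
      _ ≤ _ := h2
      _ ≤ _ := mul_le_mul_of_nonneg_left h3 (by positivity)
  refine (Finset.sum_le_sum h1).trans ?_
  rw [Finset.sum_const, nsmul_eq_mul]
  have h2 := t3e_count hD hθ0
  calc _ ≤ (((D.n : ℝ) * D.N) * ((j0 : ℝ) ^ 2 * (θ1 * D.N))) *
        ((s / D.N) ^ 2 * p ^ 2 * (kmax : ℝ) ^ (2 * j0) / p ^ j0) :=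
        mul_le_mul_of_nonneg_right h2 (by positivity)
    _ = (θ1 * ((j0 : ℝ) ^ 2 * (kmax : ℝ) ^ (2 * j0))) * (s ^ 2 * p ^ 2 * D.n / p ^ j0) := by
        field_simp
    _ ≤ p ^ j0 * (s ^ 2 * p ^ 2 * D.n / p ^ j0) := mul_le_mul_of_nonneg_right hθ (by positivity)
    _ = s ^ 2 * p * D.n * p := by
        field_simp
    _ ≤ s ^ 2 * p * D.n * 1 := mul_le_mul_of_nonneg_left hp1 (by positivity)
    _ = _ := mul_one _

end Pool.Agent.Lib.H93A
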