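import Pool.Agent.Lib.H93A.T3C

/-!
# H93A, T3F: A3

See `PROOF.md`.
-/

set_option autoImplicit false

open Finset
open scoped Classical

namespace Pool.Agent.Lib.H93A

variable {Q R M : Type} [Fintype Q] [Fintype R] [Fintype M] {D : Core Q R M} {Ω : Type} [Fintype Ω]

/-- no common position -/
theorem t3f_pr {kmax j0 : ℕ} {K c1 θ1 ε d s p κ δ : ℝ} (hD : CoreHyp D kmax j0 K c1 θ1 ε d)
    {Y : Sys D Ω} (hY : SysHyp Y p κ δ) (T : ℕ)
    (hs : 0 ≤ s) (hw : s * (kmax : ℝ) ^ (2 * D.b) ≤ D.N * p ^ (D.b - 1))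
    (x x' : Q × R) (hx : x ∈ D.X) (hx' : x' ∈ D.X) (hne : x ≠ x')
    (h0 : (univ.filter fun i => D.pos x i = D.pos x' i).card = 0) :
    pr (stepμ Y s p) (fun z => x ∈ stepN Y T z ∧ x' ∈ stepN Y T z) ≤ (s / D.N) ^ 2 * p ^ 2 := by
  have h2 := pr_two_new_le hD hY T hs hw x x' hx hx' hne
  have h3 := Finset.card_eq_zero.1 h0
  rw [h3, Finset.card_empty, pow_zero, one_mul, Finset.prod_empty, mul_one] at h2
  exact h2

/-- expected number of pairs of new elements with a property -/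
theorem t3f_ex_pairs (Y : Sys D Ω) (s p : ℝ) (T : ℕ) (cond : (Q × R) × (Q × R) → Prop)
    [DecidablePred cond] :
    ex (stepμ Y s p) (fun z => (((stepN Y T z ×ˢ stepN Y T z).filter cond).card : ℝ)) =
      ∑ q ∈ (D.X ×ˢ D.X).filter cond,
        pr (stepμ Y s p) (fun z => q.1 ∈ stepN Y T z ∧ q.2 ∈ stepN Y T z) := by
  rw [← ex_card_filter]
  congr 1
  funext z
  congr 2
  ext q
  simp only [Finset.mem_filter, Finset.mem_product]
  constructor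
  · rintro ⟨⟨h1, h2⟩, h3⟩
    exact ⟨⟨⟨(Finset.mem_filter.1 h1).1, (Finset.mem_filter.1 h2).1⟩, h3⟩, h1, h2⟩
  · rintro ⟨⟨-, h3⟩, h1, h2⟩
    exact ⟨⟨h1, h2⟩, h3⟩

/-- the number of pairs with a common block -/
theorem t3f_count {kmax j0 : ℕ} {K c1 θ1 ε d : ℝ} (hD : CoreHyp D kmax j0 K c1 θ1 ε d) :
    (((D.X ×ˢ D.X).filter fun q => ∃ f, D.inV f q.1 ∧ D.inV f q.2).card : ℝ) ≤
      ((D.n : ℝ) * D.N) * ((j0 : ℝ) * (4 * K ^ 2 * D.N)) := by
  have h1 : ((D.X ×ˢ D.X).filter fun q => ∃ f, D.inV f q.1 ∧ D.inV f q.2) ⊆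
      D.X.biUnion fun x => univ.biUnion fun i => (D.Xf (D.pos x i)).image fun y => (x, y) := by
    intro q hq
    obtain ⟨hq1, f, ⟨i, hi⟩, hf⟩ := Finset.mem_filter.1 hq
    obtain ⟨hx, hx'⟩ := Finset.mem_product.1 hq1
    refine Finset.mem_biUnion.2 ⟨q.1, hx, Finset.mem_biUnion.2 ⟨i, Finset.mem_univ _, ?_⟩⟩
    refine Finset.mem_image.2 ⟨q.2, Finset.mem_filter.2 ⟨hD.X_sub hx', ?_⟩, rfl⟩
    rw [hi]
    exact hf
  have h2 := (Finset.card_le_card h1).trans (Finset.card_biUnion_le.trans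
      (Finset.sum_le_sum fun x _ => Finset.card_biUnion_le.trans
        (Finset.sum_le_sum fun i _ => Finset.card_image_le)))
  have h3 : (((D.X ×ˢ D.X).filter fun q => ∃ f, D.inV f q.1 ∧ D.inV f q.2).card : ℝ) ≤
      ∑ x ∈ D.X, ∑ i : Fin D.b, ((D.Xf (D.pos x i)).card : ℝ) := by
    exact_mod_cast h2
  refine h3.trans ?_
  have hb : (D.b : ℝ) ≤ j0 := by exact_mod_cast hD.b_le
  have h4 : ∀ x ∈ D.X, (∑ i : Fin D.b, ((D.Xf (D.pos x i)).card : ℝ)) ≤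
      (j0 : ℝ) * (4 * K ^ 2 * D.N) := by
    intro x hx
    calc (∑ i : Fin D.b, ((D.Xf (D.pos x i)).card : ℝ))
        ≤ ∑ _i : Fin D.b, 4 * K ^ 2 * (D.N : ℝ) :=
          Finset.sum_le_sum fun i _ => (hD.cardXf _).trans hD.m_sq
      _ = (D.b : ℝ) * (4 * K ^ 2 * D.N) := by
          simp only [Finset.sum_const, Finset.card_univ, Fintype.card_fin, nsmul_eq_mul]
      _ ≤ _ := mul_le_mul_of_nonneg_right hb (by positivity)
  refine (Finset.sum_le_sum h4).trans ?_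
  rw [Finset.sum_const, nsmul_eq_mul]
  refine mul_le_mul_of_nonneg_right ?_ (by positivity)
  have h5 : (D.X.card : ℝ) ≤ D.E.card := by exact_mod_cast Finset.card_le_card hD.X_sub
  exact h5.trans hD.cardE

/-- A3: common block at different positions only -/
theorem sum_A3_le {kmax j0 : ℕ} {K c1 θ1 ε d s p κ δ : ℝ} (hD : CoreHyp D kmax j0 K c1 θ1 ε d)
    {Y : Sys D Ω} (hY : SysHyp Y p κ δ) (T : ℕ)
    (hs : 0 ≤ s) (hw : s * (kmax : ℝ) ^ (2 * D.b) ≤ D.N * p ^ (D.b - 1)) :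
    ∑ q ∈ (D.X ×ˢ D.X).filter fun q => q.1 ≠ q.2 ∧
        (univ.filter fun i => D.pos q.1 i = D.pos q.2 i).card = 0 ∧ ∃ f, D.inV f q.1 ∧ D.inV f q.2,
      pr (stepμ Y s p) (fun z => q.1 ∈ stepN Y T z ∧ q.2 ∈ stepN Y T z) ≤
      4 * j0 * K ^ 2 * s ^ 2 * p ^ 2 * D.n := by
  have hp := hY.p_pos
  have hN : (0 : ℝ) < D.N := by exact_mod_cast hD.N_pos
  have h1 : ∀ q ∈ (D.X ×ˢ D.X).filter fun q => q.1 ≠ q.2 ∧
        (univ.filter fun i => D.pos q.1 i = D.pos q.2 i).card = 0 ∧ ∃ f, D.inV f q.1 ∧ D.inV f q.2,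
      pr (stepμ Y s p) (fun z => q.1 ∈ stepN Y T z ∧ q.2 ∈ stepN Y T z) ≤
      (s / D.N) ^ 2 * p ^ 2 := by
    intro q hq
    obtain ⟨hq1, hne, h0, -⟩ := Finset.mem_filter.1 hq
    obtain ⟨hx, hx'⟩ := Finset.mem_product.1 hq1
    exact t3f_pr hD hY T hs hw q.1 q.2 hx hx' hne h0
  refine (Finset.sum_le_sum h1).trans ?_
  rw [Finset.sum_const, nsmul_eq_mul]
  have h2 : (((D.X ×ˢ D.X).filter fun q => q.1 ≠ q.2 ∧
        (univ.filter fun i => D.pos q.1 i = D.pos q.2 i).card = 0 ∧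
        ∃ f, D.inV f q.1 ∧ D.inV f q.2).card : ℝ) ≤
      ((D.n : ℝ) * D.N) * ((j0 : ℝ) * (4 * K ^ 2 * D.N)) := by
    refine le_trans ?_ (t3f_count hD)
    have h3 : ((D.X ×ˢ D.X).filter fun q => q.1 ≠ q.2 ∧
        (univ.filter fun i => D.pos q.1 i = D.pos q.2 i).card = 0 ∧
        ∃ f, D.inV f q.1 ∧ D.inV f q.2) ⊆
        ((D.X ×ˢ D.X).filter fun q => ∃ f, D.inV f q.1 ∧ D.inV f q.2) := by
      intro q hq
      obtain ⟨hq1, -, -, h⟩ := Finset.mem_filter.1 hq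
      exact Finset.mem_filter.2 ⟨hq1, h⟩
    exact_mod_cast Finset.card_le_card h3
  calc _ ≤ (((D.n : ℝ) * D.N) * ((j0 : ℝ) * (4 * K ^ 2 * D.N))) * ((s / D.N) ^ 2 * p ^ 2) :=
        mul_le_mul_of_nonneg_right h2 (by positivity)
    _ = _ := by
        field_simp

end Pool.Agent.Lib.H93A
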