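import Pool.Agent.Lib.H93A.T3Defs
import Pool.Agent.Lib.H93A.T3D
import Pool.Agent.Lib.H93A.T3E
import Pool.Agent.Lib.H93A.T3F

/-!
# H93A, T3G: E nA

See `PROOF.md`.
-/

set_option autoImplicit false

open Finset
open scoped Classical

namespace Pool.Agent.Lib.H93A

variable {Q R M : Type} [Fintype Q] [Fintype R] [Fintype M] {D : Core Q R M} {Ω : Type} [Fintype Ω]

/-- `E nA` -/
theorem ex_nA_le {kmax j0 : ℕ} {K c1 θ1 ε d s p κ δ : ℝ} (hD : CoreHyp D kmax j0 K c1 θ1 ε d)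
    {Y : Sys D Ω} (hY : SysHyp Y p κ δ) (T : ℕ)
    (hs : 0 ≤ s) (hw : s * (kmax : ℝ) ^ (2 * D.b) ≤ D.N * p ^ (D.b - 1)) (hp1 : p ≤ 1)
    (hkm : 1 ≤ kmax) (hθ0 : 0 ≤ θ1)
    (hθ : θ1 * ((j0 : ℝ) ^ 2 * (kmax : ℝ) ^ (2 * j0)) ≤ p ^ j0) :
    ex (stepμ Y s p) (fun z => (nA Y T z : ℝ)) ≤
      4097 * K ^ 4 * s ^ 2 * p * D.n + 4 * j0 * K ^ 2 * s ^ 2 * p ^ 2 * D.n := by
  have hp := hY.p_pos
  have hN : (0 : ℝ) < D.N := by exact_mod_cast hD.N_pos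
  have hμ := step_isProb hD hY hs hw
  unfold nA
  rw [t3f_ex_pairs]
  have h1 := sum_A1_le hD hY T hs hw
  have h2 := sum_A2_le hD hY T hs hw hp1 hkm hθ0 hθ
  have h3 := sum_A3_le hD hY T hs hw
  have hsub : ((D.X ×ˢ D.X).filter fun q => q.1 ≠ q.2 ∧ ∃ f, D.inV f q.1 ∧ D.inV f q.2) ⊆
      (((D.X ×ˢ D.X).filter fun q => q.1 ≠ q.2 ∧
        (univ.filter fun i => D.pos q.1 i = D.pos q.2 i).card = 1) ∪
      ((D.X ×ˢ D.X).filter fun q => q.1 ≠ q.2 ∧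
        2 ≤ (univ.filter fun i => D.pos q.1 i = D.pos q.2 i).card)) ∪
      ((D.X ×ˢ D.X).filter fun q => q.1 ≠ q.2 ∧
        (univ.filter fun i => D.pos q.1 i = D.pos q.2 i).card = 0 ∧
        ∃ f, D.inV f q.1 ∧ D.inV f q.2) := by
    intro q hq
    obtain ⟨hq1, hne, hf⟩ := Finset.mem_filter.1 hq
    rcases Nat.lt_or_ge (univ.filter fun i => D.pos q.1 i = D.pos q.2 i).card 1 with h | h
    · refine Finset.mem_union_right _ (Finset.mem_filter.2 ⟨hq1, hne, by omega, hf⟩)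
    · refine Finset.mem_union_left _ ?_
      rcases Nat.lt_or_ge (univ.filter fun i => D.pos q.1 i = D.pos q.2 i).card 2 with h' | h'
      · exact Finset.mem_union_left _ (Finset.mem_filter.2 ⟨hq1, hne, by omega⟩)
      · exact Finset.mem_union_right _ (Finset.mem_filter.2 ⟨hq1, hne, h'⟩)
  have hnn : ∀ q : (Q × R) × (Q × R),
      0 ≤ pr (stepμ Y s p) (fun z => q.1 ∈ stepN Y T z ∧ q.2 ∈ stepN Y T z) :=
    fun q => pr_nonneg hμ _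
  have hU : ∀ A B : Finset ((Q × R) × (Q × R)),
      ∑ q ∈ A ∪ B, pr (stepμ Y s p) (fun z => q.1 ∈ stepN Y T z ∧ q.2 ∈ stepN Y T z) ≤
      (∑ q ∈ A, pr (stepμ Y s p) (fun z => q.1 ∈ stepN Y T z ∧ q.2 ∈ stepN Y T z)) +
      ∑ q ∈ B, pr (stepμ Y s p) (fun z => q.1 ∈ stepN Y T z ∧ q.2 ∈ stepN Y T z) := by
    intro A B
    rw [← Finset.sum_union_inter]
    have := Finset.sum_nonneg (s := A ∩ B) fun q _ => hnn q
    linarith
  have h4 := (Finset.sum_le_sum_of_subset_of_nonneg hsub fun q _ _ => hnn q).trans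
    ((hU _ _).trans (add_le_add (hU _ _) le_rfl))
  refine h4.trans ?_
  have hK : (1 : ℝ) ≤ K ^ 4 := one_le_pow₀ hD.hK
  have h5 : s ^ 2 * p * D.n ≤ K ^ 4 * (s ^ 2 * p * D.n) :=
    le_mul_of_one_le_left (by positivity) hK
  linarith

end Pool.Agent.Lib.H93A
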