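import Pool.Agent.Lib.H93A.T3Defs
import Pool.Agent.Lib.H93A.T3F

/-!
# H93A, T3H: E nB

See `PROOF.md`.
-/

set_option autoImplicit false

open Finset
open scoped Classical

namespace Pool.Agent.Lib.H93A

variable {Q R M : Type} [Fintype Q] [Fintype R] [Fintype M] {D : Core Q R M} {Ω : Type} [Fintype Ω]

/-- the number of pairs in conflict -/
theorem t3h_count {kmax j0 : ℕ} {K c1 θ1 ε d : ℝ} (hD : CoreHyp D kmax j0 K c1 θ1 ε d) :
    (((D.X ×ˢ D.X).filter fun q => D.conf q.1 q.2).card : ℝ) ≤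
      ((D.n : ℝ) * D.N) * (K * D.N) := by
  have h1 : ((D.X ×ˢ D.X).filter fun q => D.conf q.1 q.2) ⊆
      D.X.biUnion fun x => (D.X.filter fun y => D.conf x y).image fun y => (x, y) := by
    intro q hq
    obtain ⟨hq1, hf⟩ := Finset.mem_filter.1 hq
    obtain ⟨hx, hx'⟩ := Finset.mem_product.1 hq1
    exact Finset.mem_biUnion.2 ⟨q.1, hx, Finset.mem_image.2 ⟨q.2, Finset.mem_filter.2 ⟨hx', hf⟩, rfl⟩⟩
  have h2 := (Finset.card_le_card h1).trans (Finset.card_biUnion_le.trans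
      (Finset.sum_le_sum fun x _ => Finset.card_image_le))
  have h3 : (((D.X ×ˢ D.X).filter fun q => D.conf q.1 q.2).card : ℝ) ≤
      ∑ x ∈ D.X, ((D.X.filter fun y => D.conf x y).card : ℝ) := by
    exact_mod_cast h2
  refine h3.trans ((Finset.sum_le_sum hD.conf_card).trans ?_)
  rw [Finset.sum_const, nsmul_eq_mul]
  have hK := hD.hK
  refine mul_le_mul_of_nonneg_right ?_ (by positivity)
  have h5 : (D.X.card : ℝ) ≤ D.E.card := by exact_mod_cast Finset.card_le_card hD.X_sub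
  exact h5.trans hD.cardE

/-- `E nB ≤ K s² p² N` -/
theorem ex_nB_le {kmax j0 : ℕ} {K c1 θ1 ε d s p κ δ : ℝ} (hD : CoreHyp D kmax j0 K c1 θ1 ε d)
    {Y : Sys D Ω} (hY : SysHyp Y p κ δ) (T : ℕ)
    (hs : 0 ≤ s) (hw : s * (kmax : ℝ) ^ (2 * D.b) ≤ D.N * p ^ (D.b - 1)) :
    ex (stepμ Y s p) (fun z => (nB Y T z : ℝ)) ≤ K * s ^ 2 * p ^ 2 * D.n := by
  have hp := hY.p_pos
  have hN : (0 : ℝ) < D.N := by exact_mod_cast hD.N_pos
  unfold nB
  rw [t3f_ex_pairs]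
  have h1 : ∀ q ∈ (D.X ×ˢ D.X).filter fun q => q.1 ≠ q.2 ∧ D.conf q.1 q.2 ∧
        ¬ ∃ f, D.inV f q.1 ∧ D.inV f q.2,
      pr (stepμ Y s p) (fun z => q.1 ∈ stepN Y T z ∧ q.2 ∈ stepN Y T z) ≤
      (s / D.N) ^ 2 * p ^ 2 := by
    intro q hq
    obtain ⟨hq1, hne, -, h0⟩ := Finset.mem_filter.1 hq
    obtain ⟨hx, hx'⟩ := Finset.mem_product.1 hq1
    refine t3f_pr hD hY T hs hw q.1 q.2 hx hx' hne ?_
    rw [Finset.card_eq_zero, Finset.filter_eq_empty_iff]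
    intro i _ hi
    exact h0 ⟨D.pos q.1 i, ⟨i, rfl⟩, ⟨i, hi.symm⟩⟩
  refine (Finset.sum_le_sum h1).trans ?_
  rw [Finset.sum_const, nsmul_eq_mul]
  have h2 : (((D.X ×ˢ D.X).filter fun q => q.1 ≠ q.2 ∧ D.conf q.1 q.2 ∧
        ¬ ∃ f, D.inV f q.1 ∧ D.inV f q.2).card : ℝ) ≤ ((D.n : ℝ) * D.N) * (K * D.N) := by
    refine le_trans ?_ (t3h_count hD)
    have h3 : ((D.X ×ˢ D.X).filter fun q => q.1 ≠ q.2 ∧ D.conf q.1 q.2 ∧
        ¬ ∃ f, D.inV f q.1 ∧ D.inV f q.2) ⊆ ((D.X ×ˢ D.X).filter fun q => D.conf q.1 q.2) := by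
      intro q hq
      obtain ⟨hq1, -, h, -⟩ := Finset.mem_filter.1 hq
      exact Finset.mem_filter.2 ⟨hq1, h⟩
    exact_mod_cast Finset.card_le_card h3
  calc _ ≤ (((D.n : ℝ) * D.N) * (K * D.N)) * ((s / D.N) ^ 2 * p ^ 2) :=
        mul_le_mul_of_nonneg_right h2 (by positivity)
    _ = _ := by
        field_simp

end Pool.Agent.Lib.H93A
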