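import Pool.Agent.Lib.H93A.T3Defs
import Pool.Agent.Lib.H93A.P2B
import Pool.Agent.Lib.H93A.T3H

/-!
# H93A, T3I: E nC

See `PROOF.md`.
-/

set_option autoImplicit false

open Finset
open scoped Classical

namespace Pool.Agent.Lib.H93A

variable {Q R M : Type} [Fintype Q] [Fintype R] [Fintype M] {D : Core Q R M} {Ω : Type} [Fintype Ω]

/-- a new element and an event in copy `j` -/
theorem t3i_one {kmax j0 : ℕ} {K c1 θ1 ε d s p κ δ : ℝ} (hD : CoreHyp D kmax j0 K c1 θ1 ε d)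
    {Y : Sys D Ω} (hY : SysHyp Y p κ δ) (T : ℕ)
    (hs : 0 ≤ s) (hw : s * (kmax : ℝ) ^ (2 * D.b) ≤ D.N * p ^ (D.b - 1))
    (x : Q × R) (hx : x ∈ D.X) (j : Fin D.b) (B : Ω → Prop) (r : ℝ)
    (hB : pr Y.μ (fun ω => B ω ∧ (D.pos x j ∈ Y.P ω ∧ Y.C ω (D.pos x j) = D.cell (D.pos x j) x)) ≤
      r * (p / (D.k (D.pos x j) : ℝ) ^ 2)) :
    pr (stepμ Y s p) (fun z => x ∈ stepN Y T z ∧ B (z.1 j)) ≤ r * (s * p / D.N) := by
  have hp := hY.p_pos
  have hN : (0 : ℝ) < D.N := by exact_mod_cast hD.N_pos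
  have hμ := step_isProb hD hY hs hw
  have hk : ∀ f, (0 : ℝ) < (D.k f : ℝ) := fun f => by
    have := hD.k_pos f
    exact_mod_cast this
  set A : Fin D.b → Ω → Prop := fun j' ω =>
    (j' = j → B ω) ∧ (D.pos x j' ∈ Y.P ω ∧ Y.C ω (D.pos x j') = D.cell (D.pos x j') x) with hA
  have h1 : pr (stepμ Y s p) (fun z => x ∈ stepN Y T z ∧ B (z.1 j)) ≤
      (∏ j, pr Y.μ (A j)) * wt D s p x := by
    rw [← pr_step_one D.b hY.prob A x]
    refine pr_mono hμ fun z hz => ?_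
    obtain ⟨-, hz1, hz2⟩ := Finset.mem_filter.1 hz.1
    refine ⟨fun j' => ⟨fun h => ?_, (hz2 j').1⟩, hz1⟩
    rw [h]
    exact hz.2
  have h2 : ∀ j', pr Y.μ (A j') ≤ (if j' = j then r else 1) * (p / (D.k (D.pos x j') : ℝ) ^ 2) := by
    intro j'
    split_ifs with h
    · subst h
      refine (pr_mono hY.prob fun ω hω => ?_).trans hB
      exact ⟨hω.1 rfl, hω.2⟩
    · rw [one_mul]
      exact (pr_mono hY.prob fun ω hω => hω.2).trans (hY.s2u _ _)
  have h3 : ∏ j, pr Y.μ (A j) ≤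
      ∏ j', ((if j' = j then r else 1) * (p / (D.k (D.pos x j') : ℝ) ^ 2)) :=
    Finset.prod_le_prod (fun j _ => pr_nonneg hY.prob _) fun j _ => h2 j
  have h4 : ∏ j', ((if j' = j then r else 1) * (p / (D.k (D.pos x j') : ℝ) ^ 2)) =
      r * (p ^ D.b / ∏ j', (D.k (D.pos x j') : ℝ) ^ 2) := by
    rw [Finset.prod_mul_distrib, Finset.prod_div_distrib, Finset.prod_const, Finset.card_univ,
      Fintype.card_fin, Finset.prod_ite_eq' Finset.univ j (fun _ => r), if_pos (Finset.mem_univ j)]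
  have hP : (0 : ℝ) < ∏ j', (D.k (D.pos x j') : ℝ) ^ 2 := Finset.prod_pos fun i _ => pow_pos (hk _) 2
  refine h1.trans ((mul_le_mul_of_nonneg_right (h3.trans h4.le) (wt_mem hD hs hp hw x).1).trans
    (le_of_eq ?_))
  unfold wt
  rw [if_pos hx]
  have h6 : p ^ D.b = p ^ (D.b - 1) * p := by
    rw [← pow_succ]
    congr 1
    have := hD.b_pos
    omega
  have h7 : p ^ (D.b - 1) ≠ 0 := (pow_pos hp _).ne'
  have h8 := hP.ne'
  rw [h6]
  field_simp

/-- `E nC ≤ j0 K s κ p² N`: if `x` is new, `x' ∈ S^j`, `x # x'`, then `pos x j ∉ V(x')` (otherwise `x'` is in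
the history of `pos x j` in copy `j`, and `Open` with `conf_not` excludes the conflict); then `s5` in copy `j`. -/
theorem ex_nC_le {kmax j0 : ℕ} {K c1 θ1 ε d s p κ δ : ℝ} (hD : CoreHyp D kmax j0 K c1 θ1 ε d)
    {Y : Sys D Ω} (hY : SysHyp Y p κ δ) (T : ℕ)
    (hs : 0 ≤ s) (hw : s * (kmax : ℝ) ^ (2 * D.b) ≤ D.N * p ^ (D.b - 1)) :
    ex (stepμ Y s p) (fun z => (nC Y T z : ℝ)) ≤ j0 * K * s * κ * p ^ 2 * D.n := by
  have hp := hY.p_pos
  have hκ := hY.κ_nonneg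
  have hK := hD.hK
  have hN : (0 : ℝ) < D.N := by exact_mod_cast hD.N_pos
  have hμ := step_isProb hD hY hs hw
  have hb : (D.b : ℝ) ≤ j0 := by exact_mod_cast hD.b_le
  have e1 : ex (stepμ Y s p) (fun z => (nC Y T z : ℝ)) = ∑ j : Fin D.b, ∑ q ∈ (D.X ×ˢ D.X).filter
      fun q => D.conf q.1 q.2,
      pr (stepμ Y s p) (fun z => q.1 ∈ stepN Y T z ∧ q.2 ∈ Y.S (z.1 j)) := by
    have e2 : (fun z : StepΩ D Ω => (nC Y T z : ℝ)) = fun z => ∑ j : Fin D.b,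
        (((stepN Y T z ×ˢ Y.S (z.1 j)).filter fun q => D.conf q.1 q.2).card : ℝ) := by
      funext z
      unfold nC
      push_cast
      rfl
    rw [e2, ex_sum]
    refine Finset.sum_congr rfl fun j _ => ?_
    rw [← ex_card_filter]
    congr 1
    funext z
    congr 2
    ext q
    simp only [Finset.mem_filter, Finset.mem_product]
    constructor
    · rintro ⟨⟨h1, h2⟩, h3⟩
      exact ⟨⟨⟨(Finset.mem_filter.1 h1).1, hY.S_sub _ h2⟩, h3⟩, h1, h2⟩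
    · rintro ⟨⟨-, h3⟩, h1, h2⟩
      exact ⟨⟨h1, h2⟩, h3⟩
  rw [e1]
  have h1 : ∀ j : Fin D.b, ∑ q ∈ (D.X ×ˢ D.X).filter fun q => D.conf q.1 q.2,
      pr (stepμ Y s p) (fun z => q.1 ∈ stepN Y T z ∧ q.2 ∈ Y.S (z.1 j)) ≤
      (((D.n : ℝ) * D.N) * (K * D.N)) * ((κ * p / D.N) * (s * p / D.N)) := by
    intro j
    have h2 : ∀ q ∈ (D.X ×ˢ D.X).filter fun q => D.conf q.1 q.2,
        pr (stepμ Y s p) (fun z => q.1 ∈ stepN Y T z ∧ q.2 ∈ Y.S (z.1 j)) ≤
        (κ * p / D.N) * (s * p / D.N) := by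
      intro q hq
      obtain ⟨hq1, hconf⟩ := Finset.mem_filter.1 hq
      obtain ⟨hx, hx'⟩ := Finset.mem_product.1 hq1
      by_cases hv : D.inV (D.pos q.1 j) q.2
      · have h3 : pr (stepμ Y s p) (fun z => q.1 ∈ stepN Y T z ∧ q.2 ∈ Y.S (z.1 j)) = 0 := by
          unfold pr
          refine Finset.sum_eq_zero fun z _ => ?_
          rw [if_neg]
          rintro ⟨h4, h5⟩
          obtain ⟨-, -, h6⟩ := Finset.mem_filter.1 h4
          obtain ⟨h7, h8, h9⟩ := (h6 j).2.2 q.2 (Finset.mem_filter.2 ⟨h5, hv⟩)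
          exact hD.conf_not q.1 hx q.2 hx' h8 h9 (Finset.mem_filter.1 h7).1 hconf
        rw [h3]
        positivity
      · exact t3i_one hD hY T hs hw q.1 hx j (fun ω => q.2 ∈ Y.S ω) (κ * p / D.N)
          (hY.s5 q.2 hx' (D.pos q.1 j) hv _)
    refine (Finset.sum_le_sum h2).trans ?_
    rw [Finset.sum_const, nsmul_eq_mul]
    exact mul_le_mul_of_nonneg_right (t3h_count hD) (by positivity)
  refine (Finset.sum_le_sum fun j _ => h1 j).trans ?_
  rw [Finset.sum_const, Finset.card_univ, Fintype.card_fin, nsmul_eq_mul]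
  calc (D.b : ℝ) * ((((D.n : ℝ) * D.N) * (K * D.N)) * ((κ * p / D.N) * (s * p / D.N)))
      ≤ (j0 : ℝ) * ((((D.n : ℝ) * D.N) * (K * D.N)) * ((κ * p / D.N) * (s * p / D.N))) :=
        mul_le_mul_of_nonneg_right hb (by positivity)
    _ = _ := by
        field_simp

end Pool.Agent.Lib.H93A
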