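import Pool.Agent.Lib.H93A.T3Defs
import Pool.Agent.Lib.H93A.P2B
import Pool.Agent.Lib.H93A.O1A
import Pool.Agent.Lib.H93A.T3H

/-!
# H93A, T3J: E nD

See `PROOF.md`.
-/

set_option autoImplicit false

open Finset
open scoped Classical

namespace Pool.Agent.Lib.H93A

variable {Q R M : Type} [Fintype Q] [Fintype R] [Fintype M] {D : Core Q R M} {Ω : Type} [Fintype Ω]

/-- the number of pairs which are equal or in conflict -/
theorem t3j_count {kmax j0 : ℕ} {K c1 θ1 ε d : ℝ} (hD : CoreHyp D kmax j0 K c1 θ1 ε d) :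
    (((D.X ×ˢ D.X).filter fun q => D.conf q.1 q.2 ∨ q.1 = q.2).card : ℝ) ≤
      (D.n : ℝ) * (D.N : ℝ) ^ 2 * (K + 1) := by
  have hN : (1 : ℝ) ≤ D.N := by exact_mod_cast hD.N_pos
  have h1 : ((D.X ×ˢ D.X).filter fun q => D.conf q.1 q.2 ∨ q.1 = q.2) ⊆
      ((D.X ×ˢ D.X).filter fun q => D.conf q.1 q.2) ∪ D.X.image fun x => (x, x) := by
    intro q hq
    obtain ⟨hq1, h | h⟩ := Finset.mem_filter.1 hq
    · exact Finset.mem_union_left _ (Finset.mem_filter.2 ⟨hq1, h⟩)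
    · refine Finset.mem_union_right _ (Finset.mem_image.2 ⟨q.1, (Finset.mem_product.1 hq1).1, ?_⟩)
      exact Prod.ext rfl h
  have h2 := (Finset.card_le_card h1).trans ((Finset.card_union_le _ _).trans
    (add_le_add le_rfl Finset.card_image_le))
  have h3 : (((D.X ×ˢ D.X).filter fun q => D.conf q.1 q.2 ∨ q.1 = q.2).card : ℝ) ≤
      (((D.X ×ˢ D.X).filter fun q => D.conf q.1 q.2).card : ℝ) + (D.X.card : ℝ) := by
    exact_mod_cast h2
  have h4 : (D.X.card : ℝ) ≤ D.E.card := by exact_mod_cast Finset.card_le_card hD.X_sub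
  have h5 := h4.trans hD.cardE
  have h6 : (D.n : ℝ) * D.N ≤ (D.n : ℝ) * (D.N : ℝ) ^ 2 := by
    refine mul_le_mul_of_nonneg_left ?_ (Nat.cast_nonneg _)
    nlinarith
  have h7 := t3h_count hD
  calc _ ≤ _ := h3
    _ ≤ ((D.n : ℝ) * D.N) * (K * D.N) + (D.n : ℝ) * (D.N : ℝ) ^ 2 := add_le_add h7 (h5.trans h6)
    _ = _ := by ring

/-- `E nD ≤ j0² (K+1) κ² p² N` (independent copies, `pr_mem_S_le`) -/
theorem ex_nD_le {kmax j0 : ℕ} {K c1 θ1 ε d s p κ δ : ℝ} (hD : CoreHyp D kmax j0 K c1 θ1 ε d)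
    {Y : Sys D Ω} (hY : SysHyp Y p κ δ)
    (hs : 0 ≤ s) (hw : s * (kmax : ℝ) ^ (2 * D.b) ≤ D.N * p ^ (D.b - 1)) :
    ex (stepμ Y s p) (fun z => (nD Y z : ℝ)) ≤ (j0 : ℝ) ^ 2 * (K + 1) * κ ^ 2 * p ^ 2 * D.n := by
  have hp := hY.p_pos
  have hκ := hY.κ_nonneg
  have hK := hD.hK
  have hN : (0 : ℝ) < D.N := by exact_mod_cast hD.N_pos
  have hμ := step_isProb hD hY hs hw
  have hb : (D.b : ℝ) ≤ j0 := by exact_mod_cast hD.b_le
  have e1 : ex (stepμ Y s p) (fun z => (nD Y z : ℝ)) = ∑ i : Fin D.b, ∑ j : Fin D.b,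
      if i = j then (0 : ℝ) else ∑ q ∈ (D.X ×ˢ D.X).filter fun q => D.conf q.1 q.2 ∨ q.1 = q.2,
      pr (stepμ Y s p) (fun z => q.1 ∈ Y.S (z.1 i) ∧ q.2 ∈ Y.S (z.1 j)) := by
    have e2 : (fun z : StepΩ D Ω => (nD Y z : ℝ)) = fun z => ∑ i : Fin D.b, ∑ j : Fin D.b,
        if i = j then (0 : ℝ) else
        (((Y.S (z.1 i) ×ˢ Y.S (z.1 j)).filter fun q => D.conf q.1 q.2 ∨ q.1 = q.2).card : ℝ) := by
      funext z
      unfold nD
      push_cast
      rfl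
    rw [e2, ex_sum]
    refine Finset.sum_congr rfl fun i _ => ?_
    rw [ex_sum]
    refine Finset.sum_congr rfl fun j _ => ?_
    by_cases hij : i = j
    · simp only [if_pos hij]
      unfold ex
      simp
    · simp only [if_neg hij]
      rw [← ex_card_filter]
      congr 1
      funext z
      congr 2
      ext q
      simp only [Finset.mem_filter, Finset.mem_product]
      constructor
      · rintro ⟨⟨h1, h2⟩, h3⟩
        exact ⟨⟨⟨hY.S_sub _ h1, hY.S_sub _ h2⟩, h3⟩, h1, h2⟩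
      · rintro ⟨⟨-, h3⟩, h1, h2⟩
        exact ⟨⟨h1, h2⟩, h3⟩
  rw [e1]
  have h0 : (0 : ℝ) ≤ ((D.n : ℝ) * (D.N : ℝ) ^ 2 * (K + 1)) * ((κ * p / D.N) * (κ * p / D.N)) := by positivity
  have h1 : ∀ i j : Fin D.b, (if i = j then (0 : ℝ) else
      ∑ q ∈ (D.X ×ˢ D.X).filter fun q => D.conf q.1 q.2 ∨ q.1 = q.2,
      pr (stepμ Y s p) (fun z => q.1 ∈ Y.S (z.1 i) ∧ q.2 ∈ Y.S (z.1 j))) ≤
      ((D.n : ℝ) * (D.N : ℝ) ^ 2 * (K + 1)) * ((κ * p / D.N) * (κ * p / D.N)) := by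
    intro i j
    split_ifs with hij
    · exact h0
    · have h2 : ∀ q ∈ (D.X ×ˢ D.X).filter fun q => D.conf q.1 q.2 ∨ q.1 = q.2,
          pr (stepμ Y s p) (fun z => q.1 ∈ Y.S (z.1 i) ∧ q.2 ∈ Y.S (z.1 j)) ≤
          (κ * p / D.N) * (κ * p / D.N) := by
        intro q hq
        obtain ⟨hq1, -⟩ := Finset.mem_filter.1 hq
        obtain ⟨hx, hx'⟩ := Finset.mem_product.1 hq1
        have h3 := pr_step_copy_two (w := wt D s p) D.b hY.prob i j hij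
          (fun ω => q.1 ∈ Y.S ω) (fun ω => q.2 ∈ Y.S ω)
        unfold stepμ
        rw [h3]
        exact mul_le_mul (pr_mem_S_le hD hY q.1 hx) (pr_mem_S_le hD hY q.2 hx')
          (pr_nonneg hY.prob _) (by positivity)
      refine (Finset.sum_le_sum h2).trans ?_
      rw [Finset.sum_const, nsmul_eq_mul]
      exact mul_le_mul_of_nonneg_right (t3j_count hD) (by positivity)
  refine (Finset.sum_le_sum fun i _ => Finset.sum_le_sum fun j _ => h1 i j).trans ?_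
  simp only [Finset.sum_const, Finset.card_univ, Fintype.card_fin, nsmul_eq_mul]
  calc (D.b : ℝ) * ((D.b : ℝ) * (((D.n : ℝ) * (D.N : ℝ) ^ 2 * (K + 1)) * ((κ * p / D.N) * (κ * p / D.N))))
      = (D.b : ℝ) ^ 2 * (((D.n : ℝ) * (D.N : ℝ) ^ 2 * (K + 1)) * ((κ * p / D.N) * (κ * p / D.N))) := by ring
    _ ≤ (j0 : ℝ) ^ 2 * (((D.n : ℝ) * (D.N : ℝ) ^ 2 * (K + 1)) * ((κ * p / D.N) * (κ * p / D.N))) :=
        mul_le_mul_of_nonneg_right (pow_le_pow_left₀ (Nat.cast_nonneg _) hb 2) h0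
    _ = _ := by
        field_simp

end Pool.Agent.Lib.H93A
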