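import Pool.Agent.Lib.H93A.T3Defs
import Pool.Agent.Lib.H93A.P2B
import Pool.Agent.Lib.H93A.O1A
import Pool.Agent.Lib.H93A.T3I

/-!
# H93A, T3K: E nE

See `PROOF.md`.
-/

set_option autoImplicit false

open Finset
open scoped Classical

namespace Pool.Agent.Lib.H93A

variable {Q R M : Type} [Fintype Q] [Fintype R] [Fintype M] {D : Core Q R M} {Ω : Type} [Fintype Ω]

/-- `P(g ∈ P, C g = c, f ∈ P) ≤ p (p/k_g²)` -/
theorem t3k_two {kmax j0 : ℕ} {K c1 θ1 ε d p κ δ : ℝ} (hD : CoreHyp D kmax j0 K c1 θ1 ε d)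
    {Y : Sys D Ω} (hY : SysHyp Y p κ δ) (f g : M) (hfg : f ≠ g) (c : ℕ × ℕ) :
    pr Y.μ (fun ω => f ∈ Y.P ω ∧ (g ∈ Y.P ω ∧ Y.C ω g = c)) ≤ p * (p / (D.k g : ℝ) ^ 2) := by
  have hk : ∀ f, (0 : ℝ) < (D.k f : ℝ) := fun f => by
    have := hD.k_pos f
    exact_mod_cast this
  have h1 : pr Y.μ (fun ω => f ∈ Y.P ω ∧ (g ∈ Y.P ω ∧ Y.C ω g = c)) ≤
      pr Y.μ (fun ω => ∃ c' ∈ Finset.range (D.k f) ×ˢ Finset.range (D.k f),
        (f ∈ Y.P ω ∧ Y.C ω f = c') ∧ (g ∈ Y.P ω ∧ Y.C ω g = c)) := by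
    refine pr_mono hY.prob fun ω hω => ?_
    have h2 := hY.C_lt ω f hω.1
    exact ⟨Y.C ω f, Finset.mem_product.2 ⟨Finset.mem_range.2 h2.1, Finset.mem_range.2 h2.2⟩,
      ⟨hω.1, rfl⟩, hω.2⟩
  refine h1.trans ((pr_exists_le hY.prob _ _).trans ?_)
  refine (Finset.sum_le_sum fun c' _ => hY.s3 f g c' c hfg).trans ?_
  rw [Finset.sum_const, Finset.card_product, Finset.card_range, nsmul_eq_mul]
  have h3 := (hk f).ne'
  have h4 := (hk g).ne'
  push_cast
  refine le_of_eq ?_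
  field_simp

/-- `E nE ≤ (j0² s + j0³ κ) p² N`. First part: `P(x ∈ N0, pos x i ∈ P^j)`, `j ≠ i`: copy `j` contains
`pos x j` (with its cell) and `pos x i ≠ pos x j`; `s3` summed over the cells of `pos x i` (`C_lt`), that is
`P(g ∈ P, C g = c, f ∈ P) ≤ (p/k_g²) p`. -/
theorem ex_nE_le {kmax j0 : ℕ} {K c1 θ1 ε d s p κ δ : ℝ} (hD : CoreHyp D kmax j0 K c1 θ1 ε d)
    {Y : Sys D Ω} (hY : SysHyp Y p κ δ) (T : ℕ)
    (hs : 0 ≤ s) (hw : s * (kmax : ℝ) ^ (2 * D.b) ≤ D.N * p ^ (D.b - 1)) :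
    ex (stepμ Y s p) (fun z => (nE Y T z : ℝ)) ≤
      ((j0 : ℝ) ^ 2 * s + (j0 : ℝ) ^ 3 * κ) * p ^ 2 * D.n := by
  have hp := hY.p_pos
  have hκ := hY.κ_nonneg
  have hN : (0 : ℝ) < D.N := by exact_mod_cast hD.N_pos
  have hμ := step_isProb hD hY hs hw
  have hb : (D.b : ℝ) ≤ j0 := by exact_mod_cast hD.b_le
  have hX : (D.X.card : ℝ) ≤ (D.n : ℝ) * D.N := by
    have h4 : (D.X.card : ℝ) ≤ D.E.card := by exact_mod_cast Finset.card_le_card hD.X_sub
    exact h4.trans hD.cardE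
  have e1 : ex (stepμ Y s p) (fun z => (nE Y T z : ℝ)) =
      (∑ i : Fin D.b, ∑ j : Fin D.b, if i = j then (0 : ℝ) else
        ∑ x ∈ D.X, pr (stepμ Y s p) (fun z => x ∈ stepN Y T z ∧ D.pos x i ∈ Y.P (z.1 j))) +
      ∑ i : Fin D.b, ∑ l : Fin D.b, ∑ j : Fin D.b, if i = j then (0 : ℝ) else
        ∑ x ∈ D.X, pr (stepμ Y s p) (fun z => x ∈ Y.S (z.1 i) ∧ D.pos x l ∈ Y.P (z.1 j)) := by
    have e2 : (fun z : StepΩ D Ω => (nE Y T z : ℝ)) = fun z =>
        (∑ i : Fin D.b, ∑ j : Fin D.b, if i = j then (0 : ℝ) else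
          (((stepN Y T z).filter fun x => D.pos x i ∈ Y.P (z.1 j)).card : ℝ)) +
        ∑ i : Fin D.b, ∑ l : Fin D.b, ∑ j : Fin D.b, if i = j then (0 : ℝ) else
          (((Y.S (z.1 i)).filter fun x => D.pos x l ∈ Y.P (z.1 j)).card : ℝ) := by
      funext z
      unfold nE
      push_cast
      rfl
    rw [e2, ex_add]
    congr 1
    · rw [ex_sum]
      refine Finset.sum_congr rfl fun i _ => ?_
      rw [ex_sum]
      refine Finset.sum_congr rfl fun j _ => ?_
      by_cases hij : i = j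
      · simp only [if_pos hij]
        unfold ex
        simp
      · simp only [if_neg hij]
        rw [← ex_card_filter]
        congr 1
        funext z
        congr 2
        ext x
        simp only [Finset.mem_filter]
        constructor
        · rintro ⟨h1, h2⟩
          exact ⟨(Finset.mem_filter.1 h1).1, h1, h2⟩
        · rintro ⟨-, h1, h2⟩
          exact ⟨h1, h2⟩
    · rw [ex_sum]
      refine Finset.sum_congr rfl fun i _ => ?_
      rw [ex_sum]
      refine Finset.sum_congr rfl fun l _ => ?_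
      rw [ex_sum]
      refine Finset.sum_congr rfl fun j _ => ?_
      by_cases hij : i = j
      · simp only [if_pos hij]
        unfold ex
        simp
      · simp only [if_neg hij]
        rw [← ex_card_filter]
        congr 1
        funext z
        congr 2
        ext x
        simp only [Finset.mem_filter]
        constructor
        · rintro ⟨h1, h2⟩
          exact ⟨hY.S_sub _ h1, h1, h2⟩
        · rintro ⟨-, h1, h2⟩
          exact ⟨h1, h2⟩
  rw [e1]
  have h1 : (∑ i : Fin D.b, ∑ j : Fin D.b, if i = j then (0 : ℝ) else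
        ∑ x ∈ D.X, pr (stepμ Y s p) (fun z => x ∈ stepN Y T z ∧ D.pos x i ∈ Y.P (z.1 j))) ≤
      (j0 : ℝ) ^ 2 * (s * p ^ 2 * D.n) := by
    have h2 : ∀ i j : Fin D.b, (if i = j then (0 : ℝ) else
        ∑ x ∈ D.X, pr (stepμ Y s p) (fun z => x ∈ stepN Y T z ∧ D.pos x i ∈ Y.P (z.1 j))) ≤
        s * p ^ 2 * D.n := by
      intro i j
      split_ifs with hij
      · positivity
      · have h3 : ∀ x ∈ D.X,
            pr (stepμ Y s p) (fun z => x ∈ stepN Y T z ∧ D.pos x i ∈ Y.P (z.1 j)) ≤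
            p * (s * p / D.N) := by
          intro x hx
          refine t3i_one hD hY T hs hw x hx j (fun ω => D.pos x i ∈ Y.P ω) p ?_
          refine t3k_two hD hY _ _ (fun h => hij ?_) _
          exact hD.pos_inj x (hD.X_sub hx) h
        refine (Finset.sum_le_sum h3).trans ?_
        rw [Finset.sum_const, nsmul_eq_mul]
        calc (D.X.card : ℝ) * (p * (s * p / D.N)) ≤ ((D.n : ℝ) * D.N) * (p * (s * p / D.N)) :=
              mul_le_mul_of_nonneg_right hX (by positivity)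
          _ = _ := by
              field_simp
    refine (Finset.sum_le_sum fun i _ => Finset.sum_le_sum fun j _ => h2 i j).trans ?_
    simp only [Finset.sum_const, Finset.card_univ, Fintype.card_fin, nsmul_eq_mul]
    calc (D.b : ℝ) * ((D.b : ℝ) * (s * p ^ 2 * D.n)) = (D.b : ℝ) ^ 2 * (s * p ^ 2 * D.n) := by ring
      _ ≤ _ := mul_le_mul_of_nonneg_right (pow_le_pow_left₀ (Nat.cast_nonneg _) hb 2) (by positivity)
  have h2 : (∑ i : Fin D.b, ∑ l : Fin D.b, ∑ j : Fin D.b, if i = j then (0 : ℝ) else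
        ∑ x ∈ D.X, pr (stepμ Y s p) (fun z => x ∈ Y.S (z.1 i) ∧ D.pos x l ∈ Y.P (z.1 j))) ≤
      (j0 : ℝ) ^ 3 * (κ * p ^ 2 * D.n) := by
    have h3 : ∀ i l j : Fin D.b, (if i = j then (0 : ℝ) else
        ∑ x ∈ D.X, pr (stepμ Y s p) (fun z => x ∈ Y.S (z.1 i) ∧ D.pos x l ∈ Y.P (z.1 j))) ≤
        κ * p ^ 2 * D.n := by
      intro i l j
      split_ifs with hij
      · positivity
      · have h4 : ∀ x ∈ D.X,
            pr (stepμ Y s p) (fun z => x ∈ Y.S (z.1 i) ∧ D.pos x l ∈ Y.P (z.1 j)) ≤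
            (κ * p / D.N) * p := by
          intro x hx
          have h5 := pr_step_copy_two (w := wt D s p) D.b hY.prob i j hij
            (fun ω => x ∈ Y.S ω) (fun ω => D.pos x l ∈ Y.P ω)
          unfold stepμ
          rw [h5]
          exact mul_le_mul (pr_mem_S_le hD hY x hx) (hY.s2p _) (pr_nonneg hY.prob _) (by positivity)
        refine (Finset.sum_le_sum h4).trans ?_
        rw [Finset.sum_const, nsmul_eq_mul]
        calc (D.X.card : ℝ) * ((κ * p / D.N) * p) ≤ ((D.n : ℝ) * D.N) * ((κ * p / D.N) * p) :=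
              mul_le_mul_of_nonneg_right hX (by positivity)
          _ = _ := by
              field_simp
    refine (Finset.sum_le_sum fun i _ => Finset.sum_le_sum fun l _ =>
      Finset.sum_le_sum fun j _ => h3 i l j).trans ?_
    simp only [Finset.sum_const, Finset.card_univ, Fintype.card_fin, nsmul_eq_mul]
    calc (D.b : ℝ) * ((D.b : ℝ) * ((D.b : ℝ) * (κ * p ^ 2 * D.n))) =
          (D.b : ℝ) ^ 3 * (κ * p ^ 2 * D.n) := by ring
      _ ≤ _ := mul_le_mul_of_nonneg_right (pow_le_pow_left₀ (Nat.cast_nonneg _) hb 3) (by positivity)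
  refine (add_le_add h1 h2).trans (le_of_eq ?_)
  ring

end Pool.Agent.Lib.H93A
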