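import Pool.Agent.Lib.H93A.T4Defs
import Pool.Agent.Lib.H93A.T1B
import Pool.Agent.Lib.H93A.T1C
import Pool.Agent.Lib.H93A.T1D
import Pool.Agent.Lib.H93A.T2C
import Pool.Agent.Lib.H93A.T2E

/-!
# H93A, T4B: the new system is a system

See `PROOF.md`.
-/

set_option autoImplicit false

open Finset
open scoped Classical

namespace Pool.Agent.Lib.H93A

variable {Q R M : Type} [Fintype Q] [Fintype R] [Fintype M] {D : Core Q R M}

/-- consequences of the choice of the constants -/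
theorem t4b_const {kmax j0 T L : ℕ} {K c1 θ1 ε d e' s κ τ p0 : ℝ}
    (hc : ConstHyp kmax j0 T L K c1 θ1 ε d e' s κ τ p0) :
    (1 : ℝ) ≤ j0 ∧ (1 : ℝ) ≤ L ∧ (1 : ℝ) ≤ kmax ∧ (1 : ℝ) ≤ (j0 : ℝ) ^ L ∧
      p0 * (j0 : ℝ) ^ L * (L * 4) ≤ 1 ∧ p0 * (j0 : ℝ) ^ L ≤ 1 ∧ p0 ≤ 1 := by
  have hj : (1 : ℝ) ≤ j0 := by exact_mod_cast hc.j0_pos
  have hLr : (1 : ℝ) ≤ L := by exact_mod_cast hc.L_pos
  have hkm : (1 : ℝ) ≤ kmax := by exact_mod_cast hc.kmax_pos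
  have hjL : (1 : ℝ) ≤ (j0 : ℝ) ^ L := one_le_pow₀ hj
  have hp0 := hc.p0_pos
  have h0 : 0 ≤ p0 * (j0 : ℝ) ^ L := by positivity
  have h1 : p0 * (j0 : ℝ) ^ L * (L * 4) ≤ 1 := by
    refine le_trans (mul_le_mul_of_nonneg_left ?_ h0) hc.hp1
    nlinarith
  have h2 : p0 * (j0 : ℝ) ^ L ≤ 1 := by
    have : p0 * (j0 : ℝ) ^ L * 1 ≤ p0 * (j0 : ℝ) ^ L * (L * 4) :=
      mul_le_mul_of_nonneg_left (by linarith) h0
    linarith
  refine ⟨hj, hLr, hkm, hjL, h1, h2, ?_⟩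
  have h3 : p0 * 1 ≤ p0 * (j0 : ℝ) ^ L := mul_le_mul_of_nonneg_left hjL hp0.le
  linarith

theorem t4b_hw {kmax j0 T L : ℕ} {K c1 θ1 ε d e' s κ τ p0 p : ℝ}
    (hc : ConstHyp kmax j0 T L K c1 θ1 ε d e' s κ τ p0)
    (hD : CoreHyp D kmax j0 K c1 θ1 ε d) (hp : p0 ≤ p)
    (hN1 : s * (kmax : ℝ) ^ (2 * j0) ≤ D.N * p0 ^ j0) :
    s * (kmax : ℝ) ^ (2 * D.b) ≤ D.N * p ^ (D.b - 1) := by
  obtain ⟨hj, hLr, hkm, hjL, h1, h2, h3⟩ := t4b_const hc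
  have hs := hc.s_pos
  have hp0 := hc.p0_pos
  have hb := hD.b_le
  have hN : (0 : ℝ) ≤ D.N := Nat.cast_nonneg _
  calc s * (kmax : ℝ) ^ (2 * D.b) ≤ s * (kmax : ℝ) ^ (2 * j0) :=
        mul_le_mul_of_nonneg_left (pow_le_pow_right₀ hkm (by omega)) hs.le
    _ ≤ D.N * p0 ^ j0 := hN1
    _ ≤ D.N * p ^ (D.b - 1) := by
        refine mul_le_mul_of_nonneg_left ?_ hN
        calc p0 ^ j0 ≤ p0 ^ (D.b - 1) := pow_le_pow_of_le_one hp0.le h3 (by omega)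
          _ ≤ p ^ (D.b - 1) := pow_le_pow_left₀ hp0.le hp _

/-- The new system is a system. -/
theorem step_sys {Ω : Type} [Fintype Ω] {kmax j0 T L : ℕ}
    {K c1 θ1 ε d e' s κ τ p0 p κ' δ : ℝ}
    (hc : ConstHyp kmax j0 T L K c1 θ1 ε d e' s κ τ p0)
    (hD : CoreHyp D kmax j0 K c1 θ1 ε d) {Y : Sys D Ω} (hY : SysHyp Y p κ' δ)
    (hp : p0 ≤ p) (hbp : D.b * p ≤ p0 * (j0 : ℝ) ^ L)
    (hδ0 : 0 ≤ δ) (hδ : δ ≤ 1 / 2)
    (hN1 : s * (kmax : ℝ) ^ (2 * j0) ≤ D.N * p0 ^ j0) :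
    SysHyp (stepSys Y T s p) (D.b * p) (κ' + s) (δ + D.b * p) := by
  have hw := t4b_hw hc hD hp hN1
  obtain ⟨hj, hLr, hkm, hjL, h1, h2, h3⟩ := t4b_const hc
  have hs := hc.s_pos
  have hpp := hY.p_pos
  have hb1 : (1 : ℝ) ≤ D.b := by exact_mod_cast hD.b_pos
  exact {
    prob := step_isProb hD hY hs.le hw
    p_pos := by positivity
    κ_nonneg := add_nonneg hY.κ_nonneg hs.le
    S_sub := fun z => step_S_sub hY T z
    C_lt := fun z => step_C_lt hY z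
    s1 := fun z => step_s1 Y T z
    s1' := fun z => step_s1' hY T z
    s2p := fun f => step_s2p hD hY hs.le hw f
    s2u := fun f c => step_s2u hD hY hs.le hw f c
    s2l := fun f c hc1 hc2 => step_s2l hD hY hδ0 (by linarith) (hbp.trans h2) hs.le hw f c hc1 hc2
    s3 := fun f f' c c' hff => step_s3 hD hY hs.le hw f f' c c' hff
    s4 := fun f c Z hZ hZf => step_s4 hD hY T hs.le hw f c Z hZ hZf
    s5 := fun x hx f hf c => step_s5 hD hY T hs.le hw x hx f hf c }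

end Pool.Agent.Lib.H93A
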