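import Pool.Agent.Lib.H93A.T4Defs
import Pool.Agent.Lib.H93A.O4
import Pool.Agent.Lib.H93A.T4B
import Pool.Agent.Lib.H93A.T3A
import Pool.Agent.Lib.H93A.T3B
import Pool.Agent.Lib.H93A.T3G
import Pool.Agent.Lib.H93A.T3H
import Pool.Agent.Lib.H93A.T3I
import Pool.Agent.Lib.H93A.T3J
import Pool.Agent.Lib.H93A.T3K

/-!
# H93A, T4A: the gain of the step

See `PROOF.md`.
-/

set_option autoImplicit false

open Finset
open scoped Classical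

namespace Pool.Agent.Lib.H93A

variable {Q R M : Type} [Fintype Q] [Fintype R] [Fintype M] {D : Core Q R M}

/-- the error terms of second order -/
theorem t4a_err {K J s κ κ' : ℝ} (hK : 1 ≤ K) (hJ : 1 ≤ J) (hs : 0 ≤ s) (hκ' : 0 ≤ κ')
    (hκ : κ' + s ≤ κ) :
    4 * J * K ^ 2 * s ^ 2 + K * s ^ 2 + 2 * (J * K * s * κ') + J ^ 2 * (K + 1) * κ' ^ 2 +
      (J ^ 2 * s + J ^ 3 * κ') ≤ 20 * K ^ 2 * J ^ 3 * (κ + 1) ^ 2 := by
  have hκ0 : 0 ≤ κ := by linarith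
  obtain ⟨W, hW⟩ : ∃ W, W = (κ + 1) ^ 2 := ⟨_, rfl⟩
  have hW0 : 0 ≤ W := by rw [hW]; positivity
  have hK0 : 0 ≤ K := by linarith
  have hJ0 : 0 ≤ J := by linarith
  have a1 : s ^ 2 ≤ W := by rw [hW]; nlinarith
  have a2 : s * κ' ≤ W := by rw [hW]; nlinarith
  have a3 : κ' ^ 2 ≤ W := by rw [hW]; nlinarith
  have a4 : s ≤ W := by rw [hW]; nlinarith
  have a5 : κ' ≤ W := by rw [hW]; nlinarith
  have b1 : J ≤ J ^ 3 := by nlinarith [mul_nonneg hJ0 hJ0]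
  have b2 : J ^ 2 ≤ J ^ 3 := by nlinarith [mul_nonneg hJ0 hJ0]
  have b3 : 1 ≤ J ^ 3 := by linarith
  have c1 : K ≤ K ^ 2 := by nlinarith
  have c2 : 1 ≤ K ^ 2 := by nlinarith
  have hK2 : 0 ≤ K ^ 2 := by positivity
  have hJ3 : 0 ≤ J ^ 3 := by positivity
  have e1 : J * K ^ 2 * s ^ 2 ≤ J ^ 3 * K ^ 2 * W :=
    mul_le_mul (mul_le_mul_of_nonneg_right b1 hK2) a1 (by positivity) (by positivity)
  have e2 : K * s ^ 2 ≤ J ^ 3 * K ^ 2 * W := by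
    refine mul_le_mul ?_ a1 (by positivity) (by positivity)
    calc K ≤ K ^ 2 := c1
      _ = 1 * K ^ 2 := (one_mul _).symm
      _ ≤ J ^ 3 * K ^ 2 := mul_le_mul_of_nonneg_right b3 hK2
  have e3 : J * K * (s * κ') ≤ J ^ 3 * K ^ 2 * W :=
    mul_le_mul (mul_le_mul b1 c1 hK0 hJ3) a2 (by positivity) (by positivity)
  have e4 : J ^ 2 * (K + 1) * κ' ^ 2 ≤ J ^ 3 * (2 * K ^ 2) * W :=
    mul_le_mul (mul_le_mul b2 (by linarith) (by linarith) hJ3) a3 (by positivity) (by positivity)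
  have e5 : J ^ 2 * s ≤ J ^ 3 * K ^ 2 * W := by
    refine mul_le_mul ?_ a4 hs (by positivity)
    calc J ^ 2 ≤ J ^ 3 := b2
      _ = J ^ 3 * 1 := (mul_one _).symm
      _ ≤ J ^ 3 * K ^ 2 := mul_le_mul_of_nonneg_left c2 hJ3
  have e6 : J ^ 3 * κ' ≤ J ^ 3 * K ^ 2 * W := by
    refine mul_le_mul ?_ a5 hκ' (by positivity)
    calc J ^ 3 = J ^ 3 * 1 := (mul_one _).symm
      _ ≤ J ^ 3 * K ^ 2 := mul_le_mul_of_nonneg_left c2 hJ3
  have e0 : 0 ≤ J ^ 3 * K ^ 2 * W := by positivity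
  rw [← hW]
  nlinarith

/-- The expected size of the new `S`. From `step_card_det`, `ex_new_ge` with the openness lemma
(`openness`), and the bounds `ex_nA_le .. ex_nE_le`:
`E|S'| ≥ b E|S| + [ρ^j0 s c1/2 - 4097 K⁴ s² - C_e p] p n`. -/
theorem step_gain {Ω : Type} [Fintype Ω] {kmax j0 T L : ℕ}
    {K c1 θ1 ε d e' s κ τ p0 p κ' δ : ℝ}
    (hc : ConstHyp kmax j0 T L K c1 θ1 ε d e' s κ τ p0)
    (hD : CoreHyp D kmax j0 K c1 θ1 ε d) {Y : Sys D Ω} (hY : SysHyp Y p κ' δ)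
    (hκ : κ' + s ≤ κ) (hp : p0 ≤ p) (hbp : D.b * p ≤ p0 * (j0 : ℝ) ^ L)
    (hδ0 : 0 ≤ δ) (hδ : δ ≤ 1 / 2)
    (hN1 : s * (kmax : ℝ) ^ (2 * j0) ≤ D.N * p0 ^ j0)
    (hN2 : 256 * K * κ * kmax ≤ d ^ T * Real.sqrt D.N)
    (hS : ex Y.μ (fun ω => ((Y.S ω).card : ℝ)) ≤ τ * p * D.n) :
    D.b * ex Y.μ (fun ω => ((Y.S ω).card : ℝ)) + ((d ^ T / 16) ^ j0 * s * c1 / 8) * p * D.n ≤
      ex (stepμ Y s p) (fun z => ((stepS Y T z).card : ℝ)) := by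
  have hw := t4b_hw hc hD hp hN1
  obtain ⟨hj, hLr, hkm, hjL, hq, hq1, hp01⟩ := t4b_const hc
  have hs := hc.s_pos
  have hpp := hY.p_pos
  have hp0 := hc.p0_pos
  have hκ0 := hY.κ_nonneg
  have hb1 : (1 : ℝ) ≤ D.b := by exact_mod_cast hD.b_pos
  have hN0 : (0 : ℝ) < D.N := by exact_mod_cast hD.N_pos
  have hn0 : (0 : ℝ) ≤ D.n := Nat.cast_nonneg _
  have hpl : p ≤ p0 * (j0 : ℝ) ^ L := by
    refine le_trans ?_ hbp
    nlinarith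
  have hp1 : p ≤ 1 := hpl.trans hq1
  have hd := hc.d_pos
  have hpr := step_isProb hD hY hs.le hw
  obtain ⟨ρ, hρ⟩ : ∃ ρ, ρ = d ^ T / 16 := ⟨_, rfl⟩
  have hρ0 : 0 ≤ ρ := by rw [hρ]; positivity
  have hρ1 : ρ ≤ 1 := by
    rw [hρ]
    have : d ^ T ≤ 1 := pow_le_one₀ hd.le hc.d_le
    linarith
  obtain ⟨X', hX', hcX, hopen⟩ := openness hD hY (κ := κ) (by linarith) (by linarith) hδ hc.ε_pos hd hc.d_le
    T hc.T_pos hc.τ_nonneg hS hc.hT hc.hε1 hc.e'_pos hc.he' hc.hε2 hN2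
  rw [← hρ] at hopen
  have h1 := ex_new_ge hD hY T hs.le hw hρ0 X' hX' hopen
  have hA := ex_nA_le hD hY T hs.le hw hp1 hc.kmax_pos hc.hθ0
    (hc.hθ.trans (pow_le_pow_left₀ hp0.le hp _))
  have hB := ex_nB_le hD hY T hs.le hw
  have hC := ex_nC_le hD hY T hs.le hw
  have hDD := ex_nD_le hD hY hs.le hw
  have hE := ex_nE_le hD hY T hs.le hw
  -- the expectation of the deterministic inequality
  have h2 : ex (stepμ Y s p) (fun z => (∑ j, ((Y.S (z.1 j)).card : ℝ)) + ((stepN Y T z).card : ℝ)) ≤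
      ex (stepμ Y s p) (fun z => ((stepS Y T z).card : ℝ) + ((nA Y T z : ℝ) + ((nB Y T z : ℝ) +
        (2 * (nC Y T z : ℝ) + ((nD Y z : ℝ) + (nE Y T z : ℝ)))))) := by
    refine ex_mono hpr fun z => ?_
    have h3 := step_card_det hY hD.conf_symm T z
    have h4 : (∑ j, ((Y.S (z.1 j)).card : ℝ)) + ((stepN Y T z).card : ℝ) ≤
      ((stepS Y T z).card : ℝ) + nA Y T z + nB Y T z + 2 * nC Y T z + nD Y z + nE Y T z := by
      exact_mod_cast h3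
    linarith
  have h5 : ex (stepμ Y s p) (fun z => (∑ j, ((Y.S (z.1 j)).card : ℝ)) + ((stepN Y T z).card : ℝ)) =
      D.b * ex Y.μ (fun ω => ((Y.S ω).card : ℝ)) +
        ex (stepμ Y s p) (fun z => ((stepN Y T z).card : ℝ)) := by
    rw [ex_add, ex_sum]
    congr 1
    have h6 : ∀ j ∈ (Finset.univ : Finset (Fin D.b)),
        ex (stepμ Y s p) (fun z => ((Y.S (z.1 j)).card : ℝ)) =
        ex Y.μ (fun ω => ((Y.S ω).card : ℝ)) := by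
      intro j _
      exact ex_step_copy (w := wt D s p) D.b hY.prob j (fun ω => ((Y.S ω).card : ℝ))
    rw [Finset.sum_congr rfl h6, Finset.sum_const, Finset.card_univ, Fintype.card_fin,
      nsmul_eq_mul]
  rw [h5, ex_add, ex_add, ex_add, ex_add, ex_const_mul, ex_add] at h2
  -- the new elements
  have h7 : ρ ^ j0 * (s * p / D.N) * (c1 / 2 * ((D.n : ℝ) * D.N)) ≤
      ρ ^ D.b * (s * p / D.N) * X'.card := by
    have hc1 := hc.c1_pos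
    have h8 : ρ ^ j0 ≤ ρ ^ D.b := pow_le_pow_of_le_one hρ0 hρ1 hD.b_le
    refine mul_le_mul (mul_le_mul_of_nonneg_right h8 (by positivity)) hcX (by positivity)
      (by positivity)
  have h9 : ρ ^ j0 * (s * p / D.N) * (c1 / 2 * ((D.n : ℝ) * D.N)) =
      4 * ((ρ ^ j0 * s * c1 / 8) * p * D.n) := by
    field_simp
    ring
  have hpn : 0 ≤ p * D.n := by positivity
  have h10 : 4097 * K ^ 4 * s ^ 2 * p * D.n ≤ (ρ ^ j0 * s * c1 / 8) * p * D.n := by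
    have h11 := hc.hs
    rw [← hρ] at h11
    have h12 := mul_le_mul_of_nonneg_right h11 (mul_nonneg hs.le hpn)
    calc 4097 * K ^ 4 * s ^ 2 * p * D.n = 4097 * K ^ 4 * s * (s * (p * D.n)) := by ring
      _ ≤ ρ ^ j0 * c1 / 8 * (s * (p * D.n)) := h12
      _ = _ := by ring
  have h13 : (4 * j0 * K ^ 2 * s ^ 2 + K * s ^ 2 + 2 * (j0 * K * s * κ') +
      (j0 : ℝ) ^ 2 * (K + 1) * κ' ^ 2 + ((j0 : ℝ) ^ 2 * s + (j0 : ℝ) ^ 3 * κ')) * (p * (p * D.n)) ≤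
      (ρ ^ j0 * s * c1 / 8) * (p * D.n) := by
    have h14 := t4a_err (J := (j0 : ℝ)) hc.K_ge hj hs.le hκ0 hκ
    have h15 := hc.hp2
    rw [← hρ] at h15
    have h16 : (4 * j0 * K ^ 2 * s ^ 2 + K * s ^ 2 + 2 * (j0 * K * s * κ') +
      (j0 : ℝ) ^ 2 * (K + 1) * κ' ^ 2 + ((j0 : ℝ) ^ 2 * s + (j0 : ℝ) ^ 3 * κ')) * p ≤
      ρ ^ j0 * s * c1 / 8 := by
      refine le_trans ?_ h15
      refine mul_le_mul h14 hpl hpp.le (by positivity)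
    calc _ = ((4 * j0 * K ^ 2 * s ^ 2 + K * s ^ 2 + 2 * (j0 * K * s * κ') +
      (j0 : ℝ) ^ 2 * (K + 1) * κ' ^ 2 + ((j0 : ℝ) ^ 2 * s + (j0 : ℝ) ^ 3 * κ')) * p) * (p * D.n) := by
          ring
      _ ≤ _ := mul_le_mul_of_nonneg_right h16 hpn
  rw [← hρ]
  rw [h9] at h7
  have hg : 0 ≤ (ρ ^ j0 * s * c1 / 8) * p * D.n := by
    have hc1 := hc.c1_pos
    positivity
  have h17 : 4 * j0 * K ^ 2 * s ^ 2 * p ^ 2 * D.n + K * s ^ 2 * p ^ 2 * D.n +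
      2 * (j0 * K * s * κ' * p ^ 2 * D.n) + (j0 : ℝ) ^ 2 * (K + 1) * κ' ^ 2 * p ^ 2 * D.n +
      ((j0 : ℝ) ^ 2 * s + (j0 : ℝ) ^ 3 * κ') * p ^ 2 * D.n ≤
      (ρ ^ j0 * s * c1 / 8) * p * D.n := by
    calc _ = (4 * j0 * K ^ 2 * s ^ 2 + K * s ^ 2 + 2 * (j0 * K * s * κ') +
      (j0 : ℝ) ^ 2 * (K + 1) * κ' ^ 2 + ((j0 : ℝ) ^ 2 * s + (j0 : ℝ) ^ 3 * κ')) * (p * (p * D.n)) := by
          ring
      _ ≤ _ := h13
      _ = _ := by ring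
  linarith

end Pool.Agent.Lib.H93A
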