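import Pool.Agent.Lib.H93A.T4A
import Pool.Agent.Lib.H93A.T4B
import Pool.Agent.Lib.H93A.I0

/-!
# H93A, T4C: the iteration

See `PROOF.md`.
-/

set_option autoImplicit false

open Finset
open scoped Classical

namespace Pool.Agent.Lib.H93A

variable {Q R M : Type} [Fintype Q] [Fintype R] [Fintype M] {D : Core Q R M}

/-- The iteration: systems at level `l ≤ L` with `p = b^l p0`, `κ' = l s`, `δ ≤ l p0 j0^L`,
`E|S| ≥ l g0 p n` (`g0 = ρ^j0 s c1/(8 j0)`), or already `E|S| > τ p n` at an earlier level. -/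
theorem iteration {kmax j0 T L : ℕ} {K c1 θ1 ε d e' s κ τ p0 : ℝ}
    (hc : ConstHyp kmax j0 T L K c1 θ1 ε d e' s κ τ p0)
    (hD : CoreHyp D kmax j0 K c1 θ1 ε d)
    (hN1 : s * (kmax : ℝ) ^ (2 * j0) ≤ D.N * p0 ^ j0)
    (hN2 : 256 * K * κ * kmax ≤ d ^ T * Real.sqrt D.N) :
    ∃ (Ω : Type) (_ : Fintype Ω) (Y : Sys D Ω) (p κ' δ : ℝ), SysHyp Y p κ' δ ∧
      τ * p * D.n < ex Y.μ (fun ω => ((Y.S ω).card : ℝ)) := by
  obtain ⟨hj, hLr, hkm, hjL, hq, hq1, hp01⟩ := t4b_const hc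
  have hs := hc.s_pos
  have hp0 := hc.p0_pos
  have hc1 := hc.c1_pos
  have hd := hc.d_pos
  have hn : (1 : ℝ) ≤ D.n := by exact_mod_cast hD.n_pos
  have hb1 : (1 : ℝ) ≤ D.b := by exact_mod_cast hD.b_pos
  have hbj : (D.b : ℝ) ≤ j0 := by exact_mod_cast hD.b_le
  obtain ⟨g, hg⟩ : ∃ g, g = (d ^ T / 16) ^ j0 * s * c1 / 8 := ⟨_, rfl⟩
  have hg0 : 0 < g := by rw [hg]; positivity
  have hLg : τ < L * (g / j0) := by
    have h1 := hc.hL
    have h2 : (d ^ T / 16) ^ j0 * s * c1 / (8 * j0) = g / j0 := by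
      rw [hg]
      field_simp
    rw [h2] at h1
    exact h1
  have key : ∀ l : ℕ, l ≤ L →
      (∃ (Ω : Type) (_ : Fintype Ω) (Y : Sys D Ω) (p κ' δ : ℝ), SysHyp Y p κ' δ ∧
        τ * p * D.n < ex Y.μ (fun ω => ((Y.S ω).card : ℝ))) ∨
      (∃ (Ω : Type) (_ : Fintype Ω) (Y : Sys D Ω) (δ : ℝ),
        SysHyp Y ((D.b : ℝ) ^ l * p0) (l * s) δ ∧ 0 ≤ δ ∧ δ ≤ l * (p0 * (j0 : ℝ) ^ L) ∧
        l * (g / j0) * ((D.b : ℝ) ^ l * p0) * D.n ≤ ex Y.μ (fun ω => ((Y.S ω).card : ℝ))) := by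
    intro l
    induction l with
    | zero =>
      intro _
      right
      obtain ⟨Ω, hΩ, Y, hY, hYS⟩ := init_sys D hD.k_pos p0 hp0 hp01
      refine ⟨Ω, hΩ, Y, 0, ?_, le_rfl, ?_, ?_⟩
      · simpa using hY
      · simp
      · have h3 : ex Y.μ (fun ω => ((Y.S ω).card : ℝ)) = 0 := by
          unfold ex
          refine Finset.sum_eq_zero fun ω _ => ?_
          show Y.μ ω * ((Y.S ω).card : ℝ) = 0
          rw [hYS ω]
          simp
        rw [h3]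
        simp
    | succ l ih =>
      intro hl
      rcases ih (by omega) with h | ⟨Ω, hΩ, Y, δ, hY, hδ0, hδ1, hE⟩
      · exact Or.inl h
      by_cases hbig : τ * ((D.b : ℝ) ^ l * p0) * D.n < ex Y.μ (fun ω => ((Y.S ω).card : ℝ))
      · exact Or.inl ⟨Ω, hΩ, Y, _, _, _, hY, hbig⟩
      right
      push Not at hbig
      have hlL : ((l : ℝ) + 1) ≤ L := by exact_mod_cast hl
      have hl0 : (0 : ℝ) ≤ l := Nat.cast_nonneg _
      have hbl : (1 : ℝ) ≤ (D.b : ℝ) ^ l := one_le_pow₀ hb1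
      have hp : p0 ≤ (D.b : ℝ) ^ l * p0 := by nlinarith
      have hbp : (D.b : ℝ) * ((D.b : ℝ) ^ l * p0) ≤ p0 * (j0 : ℝ) ^ L := by
        have h4 : (D.b : ℝ) * (D.b : ℝ) ^ l ≤ (j0 : ℝ) ^ L := by
          calc (D.b : ℝ) * (D.b : ℝ) ^ l = (D.b : ℝ) ^ (l + 1) := by ring
            _ ≤ (j0 : ℝ) ^ (l + 1) := pow_le_pow_left₀ (by linarith) hbj _
            _ ≤ (j0 : ℝ) ^ L := pow_le_pow_right₀ hj hl
        nlinarith
      have hδ : δ ≤ 1 / 2 := by
        have h5 : 0 ≤ p0 * (j0 : ℝ) ^ L := by positivity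
        have h6 : (l : ℝ) * (p0 * (j0 : ℝ) ^ L) ≤ L * (p0 * (j0 : ℝ) ^ L) :=
          mul_le_mul_of_nonneg_right (by linarith) h5
        nlinarith
      have hκ : (l : ℝ) * s + s ≤ κ := by
        rw [hc.hκ]
        nlinarith
      have hsys := step_sys hc hD hY hp hbp hδ0 hδ hN1
      have hgain := step_gain hc hD hY hκ hp hbp hδ0 hδ hN1 hN2 hbig
      refine ⟨StepΩ D Ω, inferInstance, stepSys Y T s ((D.b : ℝ) ^ l * p0),
        δ + D.b * ((D.b : ℝ) ^ l * p0), ?_, ?_, ?_, ?_⟩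
      · have h7 : (D.b : ℝ) ^ (l + 1) * p0 = D.b * ((D.b : ℝ) ^ l * p0) := by ring
        have h8 : ((l + 1 : ℕ) : ℝ) * s = l * s + s := by push_cast; ring
        rw [h7, h8]
        exact hsys
      · positivity
      · push_cast
        linarith
      · rw [← hg] at hgain
        refine le_trans ?_ hgain
        have h9 : (D.b : ℝ) * (l * (g / j0) * ((D.b : ℝ) ^ l * p0) * D.n) ≤
            D.b * ex Y.μ (fun ω => ((Y.S ω).card : ℝ)) :=
          mul_le_mul_of_nonneg_left hE (by linarith)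
        have h10 : (g / j0) * D.b ≤ g := by
          rw [div_mul_eq_mul_div, div_le_iff₀ (by linarith)]
          exact mul_le_mul_of_nonneg_left hbj hg0.le
        have h11 : (g / j0) * D.b * (((D.b : ℝ) ^ l * p0) * D.n) ≤
            g * (((D.b : ℝ) ^ l * p0) * D.n) :=
          mul_le_mul_of_nonneg_right h10 (by positivity)
        calc ((l + 1 : ℕ) : ℝ) * (g / j0) * ((D.b : ℝ) ^ (l + 1) * p0) * D.n =
            (D.b : ℝ) * (l * (g / j0) * ((D.b : ℝ) ^ l * p0) * D.n) +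
            (g / j0) * D.b * (((D.b : ℝ) ^ l * p0) * D.n) := by
              push_cast
              ring
          _ ≤ D.b * ex Y.μ (fun ω => ((Y.S ω).card : ℝ)) +
              g * (((D.b : ℝ) ^ l * p0) * D.n) := add_le_add h9 h11
          _ = _ := by ring
  rcases key L le_rfl with h | ⟨Ω, hΩ, Y, δ, hY, hδ0, hδ1, hE⟩
  · exact h
  · refine ⟨Ω, hΩ, Y, _, _, _, hY, lt_of_lt_of_le ?_ hE⟩
    have h12 : 0 < ((D.b : ℝ) ^ L * p0) * D.n := by positivity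
    calc τ * ((D.b : ℝ) ^ L * p0) * D.n = τ * (((D.b : ℝ) ^ L * p0) * D.n) := by ring
      _ < (L * (g / j0)) * (((D.b : ℝ) ^ L * p0) * D.n) := mul_lt_mul_of_pos_right hLg h12
      _ = _ := by ring

end Pool.Agent.Lib.H93A
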